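import Pool.Agent.Gen.F5.X123C1Dm2.S000
import Pool.Agent.Gen.F5.X123C1Dm2.S001
import Pool.Agent.Gen.F5.X123C1Dm2.S002
import Pool.Agent.Gen.F5.X123C1Dm2.S003
import Pool.Agent.Gen.F5.X123C1Dm2.S004
import Pool.Agent.Gen.F5.X123C1Dm2.S005
import Pool.Agent.Gen.F5.X123C1Dm2.S006
import Pool.Agent.Gen.F5.X123C1Dm2.S007
import Pool.Agent.Gen.F5.X123C1Dm2.S008

set_option autoImplicit false
set_option maxRecDepth 100000

namespace Pool.Agent.Gen.F5.X123C1Dm2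

open Pool.Agent.Helper72.F5

def n0 : Cl (O (nat_lit 2)) (R (nat_lit 135377))
    (p (nat_lit 0x8b0a09890a9a) (nat_lit 0) (p (nat_lit 0x8a898908881a) (nat_lit 0) (p (nat_lit 0x2a825800000a0888098a) (nat_lit 0) (p (nat_lit 0x2a82580000098807870a) (nat_lit 0) (p (nat_lit 0xb0014) (nat_lit 0) (p (nat_lit 0xb0004) (nat_lit 1) (p (nat_lit 0x20000c) (nat_lit 0) (p (nat_lit 0x89) (nat_lit 1) (p (nat_lit 0xc1) (nat_lit 1) (p (nat_lit 0x101) (nat_lit 1) (p (nat_lit 0x119) (nat_lit 0) (p (nat_lit 0xd1) (nat_lit 0) (p (nat_lit 0x81) (nat_lit 0) (p (nat_lit 0x41) (nat_lit 1) (p (nat_lit 0x89080787089a) (nat_lit 0) (p (nat_lit 0x88878706861a) (nat_lit 0) (p (nat_lit 0x80000000080686078a) (nat_lit 0) (p (nat_lit 0x80000000078605850a) (nat_lit 0) (p (nat_lit 0x8605850682) (nat_lit 0) (p (nat_lit 0x8585048402) (nat_lit 0) (p (nat_lit 0x160014) (nat_lit 0) (p (nat_lit 0x160004) (nat_lit 0) (p (nat_lit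 0x60592) (nat_lit 0) (p (nat_lit 0x48512) (nat_lit 0) (p (nat_lit 0x50392) (nat_lit 0) (p (nat_lit 0x38312) (nat_lit 0) (p (nat_lit 0x40212) (nat_lit 0) (p (nat_lit 0x28192) (nat_lit 0) (p (nat_lit 0x30092) (nat_lit 0) (p (nat_lit 0x18012) (nat_lit 0) pn)))))))))))))))))))))))))))))) :=
  Cl.node (nat_lit 0x109) (nat_lit 2) (by decide +kernel) (ClAll.succ (ClAll.succ ClAll.zero s135) s136)

def n1 : Cl (O (nat_lit 2)) (R (nat_lit 135377))
    (p (nat_lit 0x8b0a09890a9a) (nat_lit 0) (p (nat_lit 0x8a898908881a) (nat_lit 0) (p (nat_lit 0x2a825800000a0888098a) (nat_lit 0) (p (nat_lit 0x2a82580000098807870a) (nat_lit 0) (p (nat_lit 0xb0014) (nat_lit 0) (p (nat_lit 0xb0004) (nat_lit 1) (p (nat_lit 0x20000c) (nat_lit 0) (p (nat_lit 0x89) (nat_lit 1) (p (nat_lit 0x101) (nat_lit 1) (p (nat_lit 0xc1) (nat_lit 1) (p (nat_lit 0x119) (nat_lit 1) (p (nat_lit 0xd1) (nat_lit 0) (p (nat_lit 0x81)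 (nat_lit 0) (p (nat_lit 0x41) (nat_lit 1) (p (nat_lit 0x89080787089a) (nat_lit 0) (p (nat_lit 0x88878706861a) (nat_lit 0) (p (nat_lit 0x80000000080686078a) (nat_lit 0) (p (nat_lit 0x80000000078605850a) (nat_lit 0) (p (nat_lit 0x8605850682) (nat_lit 0) (p (nat_lit 0x8585048402) (nat_lit 0) (p (nat_lit 0x160014) (nat_lit 0) (p (nat_lit 0x160004) (nat_lit 0) (p (nat_lit 0x60592) (nat_lit 0) (p (nat_lit 0x48512) (nat_lit 0) (p (nat_lit 0x50392) (nat_lit 0) (p (nat_lit 0x38312) (nat_lit 0) (p (nat_lit 0x40212) (nat_lit 0) (p (nat_lit 0x28192) (nat_lit 0) (p (nat_lit 0x30092) (nat_lit 0) (p (nat_lit 0x18012) (nat_lit 0) pn)))))))))))))))))))))))))))))) :=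
  Cl.node (nat_lit 0xc9) (nat_lit 2) (by decide +kernel) (ClAll.succ (ClAll.succ ClAll.zero s168) s169)

def n2 : Cl (O (nat_lit 2)) (R (nat_lit 135377))
    (p (nat_lit 0x8b0a09890a9a) (nat_lit 0) (p (nat_lit 0x8a898908881a) (nat_lit 0) (p (nat_lit 0x2a825800000a0888098a) (nat_lit 0) (p (nat_lit 0x2a82580000098807870a) (nat_lit 0) (p (nat_lit 0xb0014) (nat_lit 0) (p (nat_lit 0xb0004) (nat_lit 1) (p (nat_lit 0x20000c) (nat_lit 0) (p (nat_lit 0xc9) (nat_lit 0) (p (nat_lit 0x89) (nat_lit 1) (p (nat_lit 0x101) (nat_lit 1) (p (nat_lit 0x111) (nat_lit 0) (p (nat_lit 0xd1) (nat_lit 1) (p (nat_lit 0x81) (nat_lit 0) (p (nat_lit 0x41) (nat_lit 1) (p (nat_lit 0x89080787089a) (nat_lit 0) (p (nat_lit 0x88878706861a) (nat_lit 0) (p (nat_lit 0x80000000080686078a) (nat_lit 0) (p (nat_lit 0x80000000078605850a) (nat_lit 0) (p (nat_lit 0x8605850682) (nat_lit 0) (p (nat_lit 0x8585048402) (nat_lit 0)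 (p (nat_lit 0x160014) (nat_lit 0) (p (nat_lit 0x160004) (nat_lit 0) (p (nat_lit 0x60592) (nat_lit 0) (p (nat_lit 0x48512) (nat_lit 0) (p (nat_lit 0x50392) (nat_lit 0) (p (nat_lit 0x38312) (nat_lit 0) (p (nat_lit 0x40212) (nat_lit 0) (p (nat_lit 0x28192) (nat_lit 0) (p (nat_lit 0x30092) (nat_lit 0) (p (nat_lit 0x18012) (nat_lit 0) pn)))))))))))))))))))))))))))))) :=
  Cl.node (nat_lit 0x119) (nat_lit 2) (by decide +kernel) (ClAll.succ (ClAll.succ ClAll.zero s187) s188)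

def n3 : Cl (O (nat_lit 2)) (R (nat_lit 135377))
    (p (nat_lit 0x8a898908881a) (nat_lit 0) (p (nat_lit 0x2a825800000a0888098a) (nat_lit 0) (p (nat_lit 0x2a82580000098807870a) (nat_lit 0) (p (nat_lit 0xb0014) (nat_lit 0) (p (nat_lit 0xb0004) (nat_lit 1) (p (nat_lit 0x20000c) (nat_lit 0) (p (nat_lit 0x89) (nat_lit 1) (p (nat_lit 0xc1) (nat_lit 1) (p (nat_lit 0x101) (nat_lit 1) (p (nat_lit 0x119) (nat_lit 0) (p (nat_lit 0xd1) (nat_lit 0) (p (nat_lit 0x81) (nat_lit 0) (p (nat_lit 0x41) (nat_lit 1) (p (nat_lit 0x89080787089a) (nat_lit 0) (p (nat_lit 0x88878706861a) (nat_lit 0) (p (nat_lit 0x80000000080686078a) (nat_lit 0) (p (nat_lit 0x80000000078605850a) (nat_lit 0) (p (nat_lit 0x8605850682) (nat_lit 0) (p (nat_lit 0x8585048402) (nat_lit 0) (p (nat_lit 0x160014) (nat_lit 0) (p (nat_lit 0x160004) (nat_lit 0) (p (nat_lit 0x60592) (nat_lit 0) (p (nat_lit 0x48512) (nat_lit 0) (p (nat_lit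 0x50392) (nat_lit 0) (p (nat_lit 0x38312) (nat_lit 0) (p (nat_lit 0x40212) (nat_lit 0) (p (nat_lit 0x28192) (nat_lit 0) (p (nat_lit 0x30092) (nat_lit 0) (p (nat_lit 0x18012) (nat_lit 0) pn))))))))))))))))))))))))))))) :=
  Cl.node (nat_lit 0x8b0a09890a9a) (nat_lit 1) (by decide +kernel) (ClAll.succ ClAll.zero n0)

def n4 : Cl (O (nat_lit 2)) (R (nat_lit 135377))
    (p (nat_lit 0x8a898908881a) (nat_lit 0) (p (nat_lit 0x2a825800000a0888098a) (nat_lit 0) (p (nat_lit 0x2a82580000098807870a) (nat_lit 0) (p (nat_lit 0xb0014) (nat_lit 0) (p (nat_lit 0xb0004) (nat_lit 1) (p (nat_lit 0x20000c) (nat_lit 0) (p (nat_lit 0x89) (nat_lit 1) (p (nat_lit 0x101) (nat_lit 1) (p (nat_lit 0xc1) (nat_lit 1) (p (nat_lit 0x119) (nat_lit 1) (p (nat_lit 0xd1) (nat_lit 0) (p (nat_lit 0x81) (nat_lit 0) (p (nat_lit 0x41) (nat_lit 1) (p (nat_lit 0x89080787089a) (nat_lit 0) (p (nat_lit 0x88878706861a) (nat_lit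 0) (p (nat_lit 0x80000000080686078a) (nat_lit 0) (p (nat_lit 0x80000000078605850a) (nat_lit 0) (p (nat_lit 0x8605850682) (nat_lit 0) (p (nat_lit 0x8585048402) (nat_lit 0) (p (nat_lit 0x160014) (nat_lit 0) (p (nat_lit 0x160004) (nat_lit 0) (p (nat_lit 0x60592) (nat_lit 0) (p (nat_lit 0x48512) (nat_lit 0) (p (nat_lit 0x50392) (nat_lit 0) (p (nat_lit 0x38312) (nat_lit 0) (p (nat_lit 0x40212) (nat_lit 0) (p (nat_lit 0x28192) (nat_lit 0) (p (nat_lit 0x30092) (nat_lit 0) (p (nat_lit 0x18012) (nat_lit 0) pn))))))))))))))))))))))))))))) :=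
  Cl.node (nat_lit 0x8b0a09890a9a) (nat_lit 1) (by decide +kernel) (ClAll.succ ClAll.zero n1)

def n5 : Cl (O (nat_lit 2)) (R (nat_lit 135377))
    (p (nat_lit 0x8a898908881a) (nat_lit 0) (p (nat_lit 0x2a825800000a0888098a) (nat_lit 0) (p (nat_lit 0x2a82580000098807870a) (nat_lit 0) (p (nat_lit 0xb0014) (nat_lit 0) (p (nat_lit 0xb0004) (nat_lit 1) (p (nat_lit 0x20000c) (nat_lit 0) (p (nat_lit 0xc9) (nat_lit 0) (p (nat_lit 0x89) (nat_lit 1) (p (nat_lit 0x101) (nat_lit 1) (p (nat_lit 0x111) (nat_lit 0) (p (nat_lit 0xd1) (nat_lit 1) (p (nat_lit 0x81) (nat_lit 0) (p (nat_lit 0x41) (nat_lit 1) (p (nat_lit 0x89080787089a) (nat_lit 0) (p (nat_lit 0x88878706861a) (nat_lit 0) (p (nat_lit 0x80000000080686078a) (nat_lit 0) (p (nat_lit 0x80000000078605850a) (nat_lit 0) (p (nat_lit 0x8605850682) (nat_lit 0) (p (nat_lit 0x8585048402) (nat_lit 0) (p (nat_lit 0x160014) (nat_lit 0) (p (nat_lit 0x160004)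 (nat_lit 0) (p (nat_lit 0x60592) (nat_lit 0) (p (nat_lit 0x48512) (nat_lit 0) (p (nat_lit 0x50392) (nat_lit 0) (p (nat_lit 0x38312) (nat_lit 0) (p (nat_lit 0x40212) (nat_lit 0) (p (nat_lit 0x28192) (nat_lit 0) (p (nat_lit 0x30092) (nat_lit 0) (p (nat_lit 0x18012) (nat_lit 0) pn))))))))))))))))))))))))))))) :=
  Cl.node (nat_lit 0x8b0a09890a9a) (nat_lit 1) (by decide +kernel) (ClAll.succ ClAll.zero n2)

def n6 : Cl (O (nat_lit 2)) (R (nat_lit 135377))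
    (p (nat_lit 0x109) (nat_lit 1) (p (nat_lit 0xb0014) (nat_lit 0) (p (nat_lit 0xb0004) (nat_lit 0) (p (nat_lit 0x20000c) (nat_lit 0) (p (nat_lit 0xc9) (nat_lit 1) (p (nat_lit 0x89) (nat_lit 1) (p (nat_lit 0xc1) (nat_lit 0) (p (nat_lit 0x101) (nat_lit 1) (p (nat_lit 0x119) (nat_lit 0) (p (nat_lit 0xd1) (nat_lit 0) (p (nat_lit 0x81) (nat_lit 0) (p (nat_lit 0x41) (nat_lit 1) (p (nat_lit 0x89080787089a) (nat_lit 0) (p (nat_lit 0x88878706861a) (nat_lit 0) (p (nat_lit 0x80000000080686078a) (nat_lit 0) (p (nat_lit 0x80000000078605850a) (nat_lit 0) (p (nat_lit 0x8605850682) (nat_lit 0) (p (nat_lit 0x8585048402) (nat_lit 0) (p (nat_lit 0x160014) (nat_lit 0) (p (nat_lit 0x160004) (nat_lit 0) (p (nat_lit 0x60592) (nat_lit 0) (p (nat_lit 0x48512) (nat_lit 0) (p (nat_lit 0x50392) (nat_lit 0) (p (nat_lit 0x38312) (nat_lit 0) (p (nat_lit 0x40212) (nat_lit 0) (p (nat_lit 0x28192) (nat_lit 0) (p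 (nat_lit 0x30092) (nat_lit 0) (p (nat_lit 0x18012) (nat_lit 0) pn)))))))))))))))))))))))))))) :=
  Cl.node (nat_lit 0x41) (nat_lit 2) (by decide +kernel) (ClAll.succ (ClAll.succ ClAll.zero s121) s122)

def n7 : Cl (O (nat_lit 2)) (R (nat_lit 135377))
    (p (nat_lit 0x41) (nat_lit 0) (p (nat_lit 0x109) (nat_lit 1) (p (nat_lit 0xb0014) (nat_lit 0) (p (nat_lit 0xb0004) (nat_lit 0) (p (nat_lit 0x20000c) (nat_lit 0) (p (nat_lit 0x89) (nat_lit 1) (p (nat_lit 0xc1) (nat_lit 1) (p (nat_lit 0x101) (nat_lit 1) (p (nat_lit 0x119) (nat_lit 0) (p (nat_lit 0xd1) (nat_lit 0) (p (nat_lit 0x81) (nat_lit 0) (p (nat_lit 0x41) (nat_lit 1) (p (nat_lit 0x89080787089a) (nat_lit 0) (p (nat_lit 0x88878706861a) (nat_lit 0) (p (nat_lit 0x80000000080686078a) (nat_lit 0) (p (nat_lit 0x80000000078605850a) (nat_lit 0) (p (nat_lit 0x8605850682) (nat_lit 0) (p (nat_lit 0x8585048402) (nat_lit 0) (p (nat_lit 0x160014)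 (nat_lit 0) (p (nat_lit 0x160004) (nat_lit 0) (p (nat_lit 0x60592) (nat_lit 0) (p (nat_lit 0x48512) (nat_lit 0) (p (nat_lit 0x50392) (nat_lit 0) (p (nat_lit 0x38312) (nat_lit 0) (p (nat_lit 0x40212) (nat_lit 0) (p (nat_lit 0x28192) (nat_lit 0) (p (nat_lit 0x30092) (nat_lit 0) (p (nat_lit 0x18012) (nat_lit 0) pn)))))))))))))))))))))))))))) :=
  Cl.node (nat_lit 0xc9) (nat_lit 2) (by decide +kernel) (ClAll.succ (ClAll.succ ClAll.zero s130) s131)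

def n8 : Cl (O (nat_lit 2)) (R (nat_lit 135377))
    (p (nat_lit 0x41) (nat_lit 1) (p (nat_lit 0x109) (nat_lit 1) (p (nat_lit 0xb0014) (nat_lit 0) (p (nat_lit 0xb0004) (nat_lit 0) (p (nat_lit 0x20000c) (nat_lit 0) (p (nat_lit 0x89) (nat_lit 1) (p (nat_lit 0xc1) (nat_lit 1) (p (nat_lit 0x101) (nat_lit 1) (p (nat_lit 0x119) (nat_lit 0) (p (nat_lit 0xd1) (nat_lit 0) (p (nat_lit 0x81) (nat_lit 0) (p (nat_lit 0x41) (nat_lit 1) (p (nat_lit 0x89080787089a) (nat_lit 0) (p (nat_lit 0x88878706861a) (nat_lit 0) (p (nat_lit 0x80000000080686078a) (nat_lit 0) (p (nat_lit 0x80000000078605850a) (nat_lit 0) (p (nat_lit 0x8605850682) (nat_lit 0) (p (nat_lit 0x8585048402) (nat_lit 0) (p (nat_lit 0x160014) (nat_lit 0) (p (nat_lit 0x160004) (nat_lit 0) (p (nat_lit 0x60592) (nat_lit 0) (p (nat_lit 0x48512) (nat_lit 0) (p (nat_lit 0x50392) (nat_lit 0) (p (nat_lit 0x38312) (nat_lit 0) (p (nat_lit 0x40212)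 (nat_lit 0) (p (nat_lit 0x28192) (nat_lit 0) (p (nat_lit 0x30092) (nat_lit 0) (p (nat_lit 0x18012) (nat_lit 0) pn)))))))))))))))))))))))))))) :=
  Cl.node (nat_lit 0x101) (nat_lit 2) (by decide +kernel) (ClAll.succ (ClAll.succ ClAll.zero s132) s133)

def n9 : Cl (O (nat_lit 2)) (R (nat_lit 135377))
    (p (nat_lit 0x2a825800000a0888098a) (nat_lit 0) (p (nat_lit 0x2a82580000098807870a) (nat_lit 0) (p (nat_lit 0xb0014) (nat_lit 0) (p (nat_lit 0xb0004) (nat_lit 1) (p (nat_lit 0x20000c) (nat_lit 0) (p (nat_lit 0x89) (nat_lit 1) (p (nat_lit 0xc1) (nat_lit 1) (p (nat_lit 0x101) (nat_lit 1) (p (nat_lit 0x119) (nat_lit 0) (p (nat_lit 0xd1) (nat_lit 0) (p (nat_lit 0x81) (nat_lit 0) (p (nat_lit 0x41) (nat_lit 1) (p (nat_lit 0x89080787089a) (nat_lit 0) (p (nat_lit 0x88878706861a) (nat_lit 0) (p (nat_lit 0x80000000080686078a) (nat_lit 0) (p (nat_lit 0x80000000078605850a) (nat_lit 0) (p (nat_lit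 0x8605850682) (nat_lit 0) (p (nat_lit 0x8585048402) (nat_lit 0) (p (nat_lit 0x160014) (nat_lit 0) (p (nat_lit 0x160004) (nat_lit 0) (p (nat_lit 0x60592) (nat_lit 0) (p (nat_lit 0x48512) (nat_lit 0) (p (nat_lit 0x50392) (nat_lit 0) (p (nat_lit 0x38312) (nat_lit 0) (p (nat_lit 0x40212) (nat_lit 0) (p (nat_lit 0x28192) (nat_lit 0) (p (nat_lit 0x30092) (nat_lit 0) (p (nat_lit 0x18012) (nat_lit 0) pn)))))))))))))))))))))))))))) :=
  Cl.node (nat_lit 0x8a898908881a) (nat_lit 1) (by decide +kernel) (ClAll.succ ClAll.zero n3)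

def n10 : Cl (O (nat_lit 2)) (R (nat_lit 135377))
    (p (nat_lit 0x41) (nat_lit 1) (p (nat_lit 0xc9) (nat_lit 1) (p (nat_lit 0xb0014) (nat_lit 0) (p (nat_lit 0xb0004) (nat_lit 0) (p (nat_lit 0x20000c) (nat_lit 0) (p (nat_lit 0x89) (nat_lit 1) (p (nat_lit 0x101) (nat_lit 1) (p (nat_lit 0xc1) (nat_lit 1) (p (nat_lit 0x119) (nat_lit 1) (p (nat_lit 0xd1) (nat_lit 0) (p (nat_lit 0x81) (nat_lit 0) (p (nat_lit 0x41) (nat_lit 1) (p (nat_lit 0x89080787089a) (nat_lit 0) (p (nat_lit 0x88878706861a) (nat_lit 0) (p (nat_lit 0x80000000080686078a) (nat_lit 0) (p (nat_lit 0x80000000078605850a) (nat_lit 0) (p (nat_lit 0x8605850682) (nat_lit 0) (p (nat_lit 0x8585048402) (nat_lit 0) (p (nat_lit 0x160014) (nat_lit 0) (p (nat_lit 0x160004) (nat_lit 0) (p (nat_lit 0x60592) (nat_lit 0) (p (nat_lit 0x48512) (nat_lit 0) (p (nat_lit 0x50392) (nat_lit 0) (p (nat_lit 0x38312) (nat_lit 0) (p (nat_lit 0x40212)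 (nat_lit 0) (p (nat_lit 0x28192) (nat_lit 0) (p (nat_lit 0x30092) (nat_lit 0) (p (nat_lit 0x18012) (nat_lit 0) pn)))))))))))))))))))))))))))) :=
  Cl.node (nat_lit 0xc1) (nat_lit 2) (by decide +kernel) (ClAll.succ (ClAll.succ ClAll.zero s165) s166)

def n11 : Cl (O (nat_lit 2)) (R (nat_lit 135377))
    (p (nat_lit 0x2a825800000a0888098a) (nat_lit 0) (p (nat_lit 0x2a82580000098807870a) (nat_lit 0) (p (nat_lit 0xb0014) (nat_lit 0) (p (nat_lit 0xb0004) (nat_lit 1) (p (nat_lit 0x20000c) (nat_lit 0) (p (nat_lit 0x89) (nat_lit 1) (p (nat_lit 0x101) (nat_lit 1) (p (nat_lit 0xc1) (nat_lit 1) (p (nat_lit 0x119) (nat_lit 1) (p (nat_lit 0xd1) (nat_lit 0) (p (nat_lit 0x81) (nat_lit 0) (p (nat_lit 0x41) (nat_lit 1) (p (nat_lit 0x89080787089a) (nat_lit 0) (p (nat_lit 0x88878706861a) (nat_lit 0) (p (nat_lit 0x80000000080686078a) (nat_lit 0) (p (nat_lit 0x80000000078605850a) (nat_lit 0) (p (nat_lit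 0x8605850682) (nat_lit 0) (p (nat_lit 0x8585048402) (nat_lit 0) (p (nat_lit 0x160014) (nat_lit 0) (p (nat_lit 0x160004) (nat_lit 0) (p (nat_lit 0x60592) (nat_lit 0) (p (nat_lit 0x48512) (nat_lit 0) (p (nat_lit 0x50392) (nat_lit 0) (p (nat_lit 0x38312) (nat_lit 0) (p (nat_lit 0x40212) (nat_lit 0) (p (nat_lit 0x28192) (nat_lit 0) (p (nat_lit 0x30092) (nat_lit 0) (p (nat_lit 0x18012) (nat_lit 0) pn)))))))))))))))))))))))))))) :=
  Cl.node (nat_lit 0x8a898908881a) (nat_lit 1) (by decide +kernel) (ClAll.succ ClAll.zero n4)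

def n12 : Cl (O (nat_lit 2)) (R (nat_lit 135377))
    (p (nat_lit 0x2a825800000a0888098a) (nat_lit 0) (p (nat_lit 0x2a82580000098807870a) (nat_lit 0) (p (nat_lit 0xb0014) (nat_lit 0) (p (nat_lit 0xb0004) (nat_lit 1) (p (nat_lit 0x20000c) (nat_lit 0) (p (nat_lit 0xc9) (nat_lit 0) (p (nat_lit 0x89) (nat_lit 1) (p (nat_lit 0x101) (nat_lit 1) (p (nat_lit 0x111) (nat_lit 0) (p (nat_lit 0xd1) (nat_lit 1) (p (nat_lit 0x81) (nat_lit 0) (p (nat_lit 0x41) (nat_lit 1) (p (nat_lit 0x89080787089a) (nat_lit 0) (p (nat_lit 0x88878706861a) (nat_lit 0) (p (nat_lit 0x80000000080686078a) (nat_lit 0) (p (nat_lit 0x80000000078605850a) (nat_lit 0) (p (nat_lit 0x8605850682) (nat_lit 0) (p (nat_lit 0x8585048402) (nat_lit 0) (p (nat_lit 0x160014) (nat_lit 0) (p (nat_lit 0x160004) (nat_lit 0) (p (nat_lit 0x60592) (nat_lit 0) (p (nat_lit 0x48512) (nat_lit 0) (p (nat_lit 0x50392) (nat_lit 0) (p (nat_lit 0x38312)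 (nat_lit 0) (p (nat_lit 0x40212) (nat_lit 0) (p (nat_lit 0x28192) (nat_lit 0) (p (nat_lit 0x30092) (nat_lit 0) (p (nat_lit 0x18012) (nat_lit 0) pn)))))))))))))))))))))))))))) :=
  Cl.node (nat_lit 0x8a898908881a) (nat_lit 1) (by decide +kernel) (ClAll.succ ClAll.zero n5)

def n13 : Cl (O (nat_lit 2)) (R (nat_lit 135377))
    (p (nat_lit 0xb0014) (nat_lit 0) (p (nat_lit 0xb0004) (nat_lit 0) (p (nat_lit 0x111) (nat_lit 0) (p (nat_lit 0x20000c) (nat_lit 0) (p (nat_lit 0xc9) (nat_lit 1) (p (nat_lit 0x81) (nat_lit 0) (p (nat_lit 0x101) (nat_lit 1) (p (nat_lit 0x119) (nat_lit 0) (p (nat_lit 0xd1) (nat_lit 0) (p (nat_lit 0x89) (nat_lit 0) (p (nat_lit 0x41) (nat_lit 0) (p (nat_lit 0x89080787089a) (nat_lit 0) (p (nat_lit 0x88878706861a) (nat_lit 0) (p (nat_lit 0x80000000080686078a) (nat_lit 0) (p (nat_lit 0x80000000078605850a) (nat_lit 0) (p (nat_lit 0x8605850682) (nat_lit 0) (p (nat_lit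 0x8585048402) (nat_lit 0) (p (nat_lit 0x160014) (nat_lit 0) (p (nat_lit 0x160004) (nat_lit 0) (p (nat_lit 0x60592) (nat_lit 0) (p (nat_lit 0x48512) (nat_lit 0) (p (nat_lit 0x50392) (nat_lit 0) (p (nat_lit 0x38312) (nat_lit 0) (p (nat_lit 0x40212) (nat_lit 0) (p (nat_lit 0x28192) (nat_lit 0) (p (nat_lit 0x30092) (nat_lit 0) (p (nat_lit 0x18012) (nat_lit 0) pn))))))))))))))))))))))))))) :=
  Cl.node (nat_lit 0x109) (nat_lit 2) (by decide +kernel) (ClAll.succ (ClAll.succ ClAll.zero s8) s9)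

def n14 : Cl (O (nat_lit 2)) (R (nat_lit 135377))
    (p (nat_lit 0xb0014) (nat_lit 0) (p (nat_lit 0xb0004) (nat_lit 0) (p (nat_lit 0x119) (nat_lit 0) (p (nat_lit 0x20000c) (nat_lit 0) (p (nat_lit 0xc1) (nat_lit 0) (p (nat_lit 0x81) (nat_lit 1) (p (nat_lit 0x101) (nat_lit 1) (p (nat_lit 0x111) (nat_lit 0) (p (nat_lit 0xd1) (nat_lit 1) (p (nat_lit 0x89) (nat_lit 0) (p (nat_lit 0x41) (nat_lit 0) (p (nat_lit 0x89080787089a) (nat_lit 0) (p (nat_lit 0x88878706861a) (nat_lit 0) (p (nat_lit 0x80000000080686078a) (nat_lit 0) (p (nat_lit 0x80000000078605850a) (nat_lit 0) (p (nat_lit 0x8605850682) (nat_lit 0) (p (nat_lit 0x8585048402) (nat_lit 0) (p (nat_lit 0x160014) (nat_lit 0) (p (nat_lit 0x160004) (nat_lit 0) (p (nat_lit 0x60592) (nat_lit 0) (p (nat_lit 0x48512) (nat_lit 0) (p (nat_lit 0x50392) (nat_lit 0) (p (nat_lit 0x38312) (nat_lit 0) (p (nat_lit 0x40212) (nat_lit 0) (p (nat_lit 0x28192)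 (nat_lit 0) (p (nat_lit 0x30092) (nat_lit 0) (p (nat_lit 0x18012) (nat_lit 0) pn))))))))))))))))))))))))))) :=
  Cl.node (nat_lit 0x109) (nat_lit 2) (by decide +kernel) (ClAll.succ (ClAll.succ ClAll.zero s46) s47)

def n15 : Cl (O (nat_lit 2)) (R (nat_lit 135377))
    (p (nat_lit 0xb0014) (nat_lit 0) (p (nat_lit 0xb0004) (nat_lit 0) (p (nat_lit 0x20000c) (nat_lit 0) (p (nat_lit 0xc9) (nat_lit 1) (p (nat_lit 0x89) (nat_lit 1) (p (nat_lit 0xc1) (nat_lit 0) (p (nat_lit 0x101) (nat_lit 1) (p (nat_lit 0x119) (nat_lit 0) (p (nat_lit 0xd1) (nat_lit 0) (p (nat_lit 0x81) (nat_lit 0) (p (nat_lit 0x41) (nat_lit 1) (p (nat_lit 0x89080787089a) (nat_lit 0) (p (nat_lit 0x88878706861a) (nat_lit 0) (p (nat_lit 0x80000000080686078a) (nat_lit 0) (p (nat_lit 0x80000000078605850a) (nat_lit 0) (p (nat_lit 0x8605850682) (nat_lit 0) (p (nat_lit 0x8585048402) (nat_lit 0) (p (nat_lit 0x160014) (nat_lit 0)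 (p (nat_lit 0x160004) (nat_lit 0) (p (nat_lit 0x60592) (nat_lit 0) (p (nat_lit 0x48512) (nat_lit 0) (p (nat_lit 0x50392) (nat_lit 0) (p (nat_lit 0x38312) (nat_lit 0) (p (nat_lit 0x40212) (nat_lit 0) (p (nat_lit 0x28192) (nat_lit 0) (p (nat_lit 0x30092) (nat_lit 0) (p (nat_lit 0x18012) (nat_lit 0) pn))))))))))))))))))))))))))) :=
  Cl.node (nat_lit 0x109) (nat_lit 2) (by decide +kernel) (ClAll.succ (ClAll.succ ClAll.zero s120) n6)

def n16 : Cl (O (nat_lit 2)) (R (nat_lit 135377))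
    (p (nat_lit 0x109) (nat_lit 0) (p (nat_lit 0xb0014) (nat_lit 0) (p (nat_lit 0xb0004) (nat_lit 0) (p (nat_lit 0x20000c) (nat_lit 0) (p (nat_lit 0x89) (nat_lit 1) (p (nat_lit 0xc1) (nat_lit 1) (p (nat_lit 0x101) (nat_lit 1) (p (nat_lit 0x119) (nat_lit 0) (p (nat_lit 0xd1) (nat_lit 0) (p (nat_lit 0x81) (nat_lit 0) (p (nat_lit 0x41) (nat_lit 1) (p (nat_lit 0x89080787089a) (nat_lit 0) (p (nat_lit 0x88878706861a) (nat_lit 0) (p (nat_lit 0x80000000080686078a) (nat_lit 0) (p (nat_lit 0x80000000078605850a) (nat_lit 0) (p (nat_lit 0x8605850682) (nat_lit 0) (p (nat_lit 0x8585048402) (nat_lit 0) (p (nat_lit 0x160014) (nat_lit 0) (p (nat_lit 0x160004) (nat_lit 0) (p (nat_lit 0x60592) (nat_lit 0) (p (nat_lit 0x48512) (nat_lit 0) (p (nat_lit 0x50392) (nat_lit 0) (p (nat_lit 0x38312) (nat_lit 0) (p (nat_lit 0x40212) (nat_lit 0) (p (nat_lit 0x28192) (nat_lit 0) (p (nat_lit 0x30092) (nat_lit 0)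 (p (nat_lit 0x18012) (nat_lit 0) pn))))))))))))))))))))))))))) :=
  Cl.node (nat_lit 0x101) (nat_lit 2) (by decide +kernel) (ClAll.succ (ClAll.succ ClAll.zero s128) s129)

def n17 : Cl (O (nat_lit 2)) (R (nat_lit 135377))
    (p (nat_lit 0x109) (nat_lit 1) (p (nat_lit 0xb0014) (nat_lit 0) (p (nat_lit 0xb0004) (nat_lit 0) (p (nat_lit 0x20000c) (nat_lit 0) (p (nat_lit 0x89) (nat_lit 1) (p (nat_lit 0xc1) (nat_lit 1) (p (nat_lit 0x101) (nat_lit 1) (p (nat_lit 0x119) (nat_lit 0) (p (nat_lit 0xd1) (nat_lit 0) (p (nat_lit 0x81) (nat_lit 0) (p (nat_lit 0x41) (nat_lit 1) (p (nat_lit 0x89080787089a) (nat_lit 0) (p (nat_lit 0x88878706861a) (nat_lit 0) (p (nat_lit 0x80000000080686078a) (nat_lit 0) (p (nat_lit 0x80000000078605850a) (nat_lit 0) (p (nat_lit 0x8605850682) (nat_lit 0) (p (nat_lit 0x8585048402) (nat_lit 0) (p (nat_lit 0x160014) (nat_lit 0) (p (nat_lit 0x160004) (nat_lit 0) (p (nat_lit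 0x60592) (nat_lit 0) (p (nat_lit 0x48512) (nat_lit 0) (p (nat_lit 0x50392) (nat_lit 0) (p (nat_lit 0x38312) (nat_lit 0) (p (nat_lit 0x40212) (nat_lit 0) (p (nat_lit 0x28192) (nat_lit 0) (p (nat_lit 0x30092) (nat_lit 0) (p (nat_lit 0x18012) (nat_lit 0) pn))))))))))))))))))))))))))) :=
  Cl.node (nat_lit 0x41) (nat_lit 2) (by decide +kernel) (ClAll.succ (ClAll.succ ClAll.zero n7) n8)

def n18 : Cl (O (nat_lit 2)) (R (nat_lit 135377))
    (p (nat_lit 0x2a82580000098807870a) (nat_lit 0) (p (nat_lit 0xb0014) (nat_lit 0) (p (nat_lit 0xb0004) (nat_lit 1) (p (nat_lit 0x20000c) (nat_lit 0) (p (nat_lit 0x89) (nat_lit 1) (p (nat_lit 0xc1) (nat_lit 1) (p (nat_lit 0x101) (nat_lit 1) (p (nat_lit 0x119) (nat_lit 0) (p (nat_lit 0xd1) (nat_lit 0) (p (nat_lit 0x81) (nat_lit 0) (p (nat_lit 0x41) (nat_lit 1) (p (nat_lit 0x89080787089a) (nat_lit 0) (p (nat_lit 0x88878706861a) (nat_lit 0) (p (nat_lit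 0x80000000080686078a) (nat_lit 0) (p (nat_lit 0x80000000078605850a) (nat_lit 0) (p (nat_lit 0x8605850682) (nat_lit 0) (p (nat_lit 0x8585048402) (nat_lit 0) (p (nat_lit 0x160014) (nat_lit 0) (p (nat_lit 0x160004) (nat_lit 0) (p (nat_lit 0x60592) (nat_lit 0) (p (nat_lit 0x48512) (nat_lit 0) (p (nat_lit 0x50392) (nat_lit 0) (p (nat_lit 0x38312) (nat_lit 0) (p (nat_lit 0x40212) (nat_lit 0) (p (nat_lit 0x28192) (nat_lit 0) (p (nat_lit 0x30092) (nat_lit 0) (p (nat_lit 0x18012) (nat_lit 0) pn))))))))))))))))))))))))))) :=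
  Cl.node (nat_lit 0x2a825800000a0888098a) (nat_lit 1) (by decide +kernel) (ClAll.succ ClAll.zero n9)

def n19 : Cl (O (nat_lit 2)) (R (nat_lit 135377))
    (p (nat_lit 0xb0014) (nat_lit 0) (p (nat_lit 0xb0004) (nat_lit 0) (p (nat_lit 0x20000c) (nat_lit 0) (p (nat_lit 0x109) (nat_lit 0) (p (nat_lit 0x89) (nat_lit 1) (p (nat_lit 0xc9) (nat_lit 1) (p (nat_lit 0xc1) (nat_lit 0) (p (nat_lit 0x119) (nat_lit 1) (p (nat_lit 0xd1) (nat_lit 0) (p (nat_lit 0x81) (nat_lit 0) (p (nat_lit 0x41) (nat_lit 1) (p (nat_lit 0x89080787089a) (nat_lit 0) (p (nat_lit 0x88878706861a) (nat_lit 0) (p (nat_lit 0x80000000080686078a) (nat_lit 0) (p (nat_lit 0x80000000078605850a) (nat_lit 0) (p (nat_lit 0x8605850682) (nat_lit 0) (p (nat_lit 0x8585048402) (nat_lit 0) (p (nat_lit 0x160014) (nat_lit 0) (p (nat_lit 0x160004) (nat_lit 0) (p (nat_lit 0x60592) (nat_lit 0) (p (nat_lit 0x48512) (nat_lit 0) (p (nat_lit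 0x50392) (nat_lit 0) (p (nat_lit 0x38312) (nat_lit 0) (p (nat_lit 0x40212) (nat_lit 0) (p (nat_lit 0x28192) (nat_lit 0) (p (nat_lit 0x30092) (nat_lit 0) (p (nat_lit 0x18012) (nat_lit 0) pn))))))))))))))))))))))))))) :=
  Cl.node (nat_lit 0x111) (nat_lit 2) (by decide +kernel) (ClAll.succ (ClAll.succ ClAll.zero s141) s142)

def n20 : Cl (O (nat_lit 2)) (R (nat_lit 135377))
    (p (nat_lit 0xb0014) (nat_lit 0) (p (nat_lit 0xb0004) (nat_lit 0) (p (nat_lit 0x20000c) (nat_lit 0) (p (nat_lit 0x109) (nat_lit 1) (p (nat_lit 0x89) (nat_lit 1) (p (nat_lit 0x101) (nat_lit 0) (p (nat_lit 0xc1) (nat_lit 1) (p (nat_lit 0x119) (nat_lit 1) (p (nat_lit 0xd1) (nat_lit 0) (p (nat_lit 0x81) (nat_lit 0) (p (nat_lit 0x41) (nat_lit 1) (p (nat_lit 0x89080787089a) (nat_lit 0) (p (nat_lit 0x88878706861a) (nat_lit 0) (p (nat_lit 0x80000000080686078a) (nat_lit 0) (p (nat_lit 0x80000000078605850a) (nat_lit 0)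 (p (nat_lit 0x8605850682) (nat_lit 0) (p (nat_lit 0x8585048402) (nat_lit 0) (p (nat_lit 0x160014) (nat_lit 0) (p (nat_lit 0x160004) (nat_lit 0) (p (nat_lit 0x60592) (nat_lit 0) (p (nat_lit 0x48512) (nat_lit 0) (p (nat_lit 0x50392) (nat_lit 0) (p (nat_lit 0x38312) (nat_lit 0) (p (nat_lit 0x40212) (nat_lit 0) (p (nat_lit 0x28192) (nat_lit 0) (p (nat_lit 0x30092) (nat_lit 0) (p (nat_lit 0x18012) (nat_lit 0) pn))))))))))))))))))))))))))) :=
  Cl.node (nat_lit 0xc9) (nat_lit 2) (by decide +kernel) (ClAll.succ (ClAll.succ ClAll.zero s155) s156)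

def n21 : Cl (O (nat_lit 2)) (R (nat_lit 135377))
    (p (nat_lit 0xc9) (nat_lit 0) (p (nat_lit 0xb0014) (nat_lit 0) (p (nat_lit 0xb0004) (nat_lit 0) (p (nat_lit 0x20000c) (nat_lit 0) (p (nat_lit 0x89) (nat_lit 1) (p (nat_lit 0x101) (nat_lit 1) (p (nat_lit 0xc1) (nat_lit 1) (p (nat_lit 0x119) (nat_lit 1) (p (nat_lit 0xd1) (nat_lit 0) (p (nat_lit 0x81) (nat_lit 0) (p (nat_lit 0x41) (nat_lit 1) (p (nat_lit 0x89080787089a) (nat_lit 0) (p (nat_lit 0x88878706861a) (nat_lit 0) (p (nat_lit 0x80000000080686078a) (nat_lit 0) (p (nat_lit 0x80000000078605850a) (nat_lit 0) (p (nat_lit 0x8605850682) (nat_lit 0) (p (nat_lit 0x8585048402) (nat_lit 0) (p (nat_lit 0x160014) (nat_lit 0) (p (nat_lit 0x160004) (nat_lit 0) (p (nat_lit 0x60592) (nat_lit 0) (p (nat_lit 0x48512) (nat_lit 0) (p (nat_lit 0x50392) (nat_lit 0) (p (nat_lit 0x38312) (nat_lit 0) (p (nat_lit 0x40212) (nat_lit 0) (p (nat_lit 0x28192)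 (nat_lit 0) (p (nat_lit 0x30092) (nat_lit 0) (p (nat_lit 0x18012) (nat_lit 0) pn))))))))))))))))))))))))))) :=
  Cl.node (nat_lit 0xc1) (nat_lit 2) (by decide +kernel) (ClAll.succ (ClAll.succ ClAll.zero s162) s163)

def n22 : Cl (O (nat_lit 2)) (R (nat_lit 135377))
    (p (nat_lit 0xc9) (nat_lit 1) (p (nat_lit 0xb0014) (nat_lit 0) (p (nat_lit 0xb0004) (nat_lit 0) (p (nat_lit 0x20000c) (nat_lit 0) (p (nat_lit 0x89) (nat_lit 1) (p (nat_lit 0x101) (nat_lit 1) (p (nat_lit 0xc1) (nat_lit 1) (p (nat_lit 0x119) (nat_lit 1) (p (nat_lit 0xd1) (nat_lit 0) (p (nat_lit 0x81) (nat_lit 0) (p (nat_lit 0x41) (nat_lit 1) (p (nat_lit 0x89080787089a) (nat_lit 0) (p (nat_lit 0x88878706861a) (nat_lit 0) (p (nat_lit 0x80000000080686078a) (nat_lit 0) (p (nat_lit 0x80000000078605850a) (nat_lit 0) (p (nat_lit 0x8605850682) (nat_lit 0) (p (nat_lit 0x8585048402) (nat_lit 0) (p (nat_lit 0x160014) (nat_lit 0)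 (p (nat_lit 0x160004) (nat_lit 0) (p (nat_lit 0x60592) (nat_lit 0) (p (nat_lit 0x48512) (nat_lit 0) (p (nat_lit 0x50392) (nat_lit 0) (p (nat_lit 0x38312) (nat_lit 0) (p (nat_lit 0x40212) (nat_lit 0) (p (nat_lit 0x28192) (nat_lit 0) (p (nat_lit 0x30092) (nat_lit 0) (p (nat_lit 0x18012) (nat_lit 0) pn))))))))))))))))))))))))))) :=
  Cl.node (nat_lit 0x41) (nat_lit 2) (by decide +kernel) (ClAll.succ (ClAll.succ ClAll.zero s164) n10)

def n23 : Cl (O (nat_lit 2)) (R (nat_lit 135377))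
    (p (nat_lit 0x2a82580000098807870a) (nat_lit 0) (p (nat_lit 0xb0014) (nat_lit 0) (p (nat_lit 0xb0004) (nat_lit 1) (p (nat_lit 0x20000c) (nat_lit 0) (p (nat_lit 0x89) (nat_lit 1) (p (nat_lit 0x101) (nat_lit 1) (p (nat_lit 0xc1) (nat_lit 1) (p (nat_lit 0x119) (nat_lit 1) (p (nat_lit 0xd1) (nat_lit 0) (p (nat_lit 0x81) (nat_lit 0) (p (nat_lit 0x41) (nat_lit 1) (p (nat_lit 0x89080787089a) (nat_lit 0) (p (nat_lit 0x88878706861a) (nat_lit 0) (p (nat_lit 0x80000000080686078a) (nat_lit 0) (p (nat_lit 0x80000000078605850a) (nat_lit 0) (p (nat_lit 0x8605850682) (nat_lit 0) (p (nat_lit 0x8585048402) (nat_lit 0) (p (nat_lit 0x160014) (nat_lit 0) (p (nat_lit 0x160004) (nat_lit 0) (p (nat_lit 0x60592) (nat_lit 0) (p (nat_lit 0x48512) (nat_lit 0) (p (nat_lit 0x50392) (nat_lit 0) (p (nat_lit 0x38312) (nat_lit 0) (p (nat_lit 0x40212) (nat_lit 0) (p (nat_lit 0x28192) (nat_lit 0) (p (nat_lit 0x30092)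 (nat_lit 0) (p (nat_lit 0x18012) (nat_lit 0) pn))))))))))))))))))))))))))) :=
  Cl.node (nat_lit 0x2a825800000a0888098a) (nat_lit 1) (by decide +kernel) (ClAll.succ ClAll.zero n11)

def n24 : Cl (O (nat_lit 2)) (R (nat_lit 135377))
    (p (nat_lit 0x119) (nat_lit 0) (p (nat_lit 0xb0014) (nat_lit 0) (p (nat_lit 0xb0004) (nat_lit 0) (p (nat_lit 0x20000c) (nat_lit 0) (p (nat_lit 0xc9) (nat_lit 0) (p (nat_lit 0x89) (nat_lit 1) (p (nat_lit 0x101) (nat_lit 1) (p (nat_lit 0x111) (nat_lit 0) (p (nat_lit 0xd1) (nat_lit 1) (p (nat_lit 0x81) (nat_lit 0) (p (nat_lit 0x41) (nat_lit 1) (p (nat_lit 0x89080787089a) (nat_lit 0) (p (nat_lit 0x88878706861a) (nat_lit 0) (p (nat_lit 0x80000000080686078a) (nat_lit 0) (p (nat_lit 0x80000000078605850a) (nat_lit 0) (p (nat_lit 0x8605850682) (nat_lit 0) (p (nat_lit 0x8585048402) (nat_lit 0) (p (nat_lit 0x160014) (nat_lit 0) (p (nat_lit 0x160004) (nat_lit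 0) (p (nat_lit 0x60592) (nat_lit 0) (p (nat_lit 0x48512) (nat_lit 0) (p (nat_lit 0x50392) (nat_lit 0) (p (nat_lit 0x38312) (nat_lit 0) (p (nat_lit 0x40212) (nat_lit 0) (p (nat_lit 0x28192) (nat_lit 0) (p (nat_lit 0x30092) (nat_lit 0) (p (nat_lit 0x18012) (nat_lit 0) pn))))))))))))))))))))))))))) :=
  Cl.node (nat_lit 0x101) (nat_lit 2) (by decide +kernel) (ClAll.succ (ClAll.succ ClAll.zero s182) s183)

def n25 : Cl (O (nat_lit 2)) (R (nat_lit 135377))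
    (p (nat_lit 0x119) (nat_lit 1) (p (nat_lit 0xb0014) (nat_lit 0) (p (nat_lit 0xb0004) (nat_lit 0) (p (nat_lit 0x20000c) (nat_lit 0) (p (nat_lit 0xc9) (nat_lit 0) (p (nat_lit 0x89) (nat_lit 1) (p (nat_lit 0x101) (nat_lit 1) (p (nat_lit 0x111) (nat_lit 0) (p (nat_lit 0xd1) (nat_lit 1) (p (nat_lit 0x81) (nat_lit 0) (p (nat_lit 0x41) (nat_lit 1) (p (nat_lit 0x89080787089a) (nat_lit 0) (p (nat_lit 0x88878706861a) (nat_lit 0) (p (nat_lit 0x80000000080686078a) (nat_lit 0) (p (nat_lit 0x80000000078605850a) (nat_lit 0) (p (nat_lit 0x8605850682) (nat_lit 0) (p (nat_lit 0x8585048402) (nat_lit 0) (p (nat_lit 0x160014) (nat_lit 0) (p (nat_lit 0x160004) (nat_lit 0) (p (nat_lit 0x60592) (nat_lit 0) (p (nat_lit 0x48512) (nat_lit 0) (p (nat_lit 0x50392) (nat_lit 0) (p (nat_lit 0x38312) (nat_lit 0) (p (nat_lit 0x40212) (nat_lit 0) (p (nat_lit 0x28192) (nat_lit 0) (p (nat_lit 0x30092) (nat_lit 0)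 (p (nat_lit 0x18012) (nat_lit 0) pn))))))))))))))))))))))))))) :=
  Cl.node (nat_lit 0xc1) (nat_lit 2) (by decide +kernel) (ClAll.succ (ClAll.succ ClAll.zero s184) s185)

def n26 : Cl (O (nat_lit 2)) (R (nat_lit 135377))
    (p (nat_lit 0x2a82580000098807870a) (nat_lit 0) (p (nat_lit 0xb0014) (nat_lit 0) (p (nat_lit 0xb0004) (nat_lit 1) (p (nat_lit 0x20000c) (nat_lit 0) (p (nat_lit 0xc9) (nat_lit 0) (p (nat_lit 0x89) (nat_lit 1) (p (nat_lit 0x101) (nat_lit 1) (p (nat_lit 0x111) (nat_lit 0) (p (nat_lit 0xd1) (nat_lit 1) (p (nat_lit 0x81) (nat_lit 0) (p (nat_lit 0x41) (nat_lit 1) (p (nat_lit 0x89080787089a) (nat_lit 0) (p (nat_lit 0x88878706861a) (nat_lit 0) (p (nat_lit 0x80000000080686078a) (nat_lit 0) (p (nat_lit 0x80000000078605850a) (nat_lit 0) (p (nat_lit 0x8605850682) (nat_lit 0) (p (nat_lit 0x8585048402) (nat_lit 0) (p (nat_lit 0x160014) (nat_lit 0) (p (nat_lit 0x160004) (nat_lit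 0) (p (nat_lit 0x60592) (nat_lit 0) (p (nat_lit 0x48512) (nat_lit 0) (p (nat_lit 0x50392) (nat_lit 0) (p (nat_lit 0x38312) (nat_lit 0) (p (nat_lit 0x40212) (nat_lit 0) (p (nat_lit 0x28192) (nat_lit 0) (p (nat_lit 0x30092) (nat_lit 0) (p (nat_lit 0x18012) (nat_lit 0) pn))))))))))))))))))))))))))) :=
  Cl.node (nat_lit 0x2a825800000a0888098a) (nat_lit 1) (by decide +kernel) (ClAll.succ ClAll.zero n12)

def n27 : Cl (O (nat_lit 2)) (R (nat_lit 135377))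
    (p (nat_lit 0xb0004) (nat_lit 0) (p (nat_lit 0x111) (nat_lit 0) (p (nat_lit 0x20000c) (nat_lit 0) (p (nat_lit 0xc9) (nat_lit 1) (p (nat_lit 0x81) (nat_lit 0) (p (nat_lit 0x101) (nat_lit 1) (p (nat_lit 0x119) (nat_lit 0) (p (nat_lit 0xd1) (nat_lit 0) (p (nat_lit 0x89) (nat_lit 0) (p (nat_lit 0x41) (nat_lit 0) (p (nat_lit 0x89080787089a) (nat_lit 0) (p (nat_lit 0x88878706861a) (nat_lit 0) (p (nat_lit 0x80000000080686078a) (nat_lit 0) (p (nat_lit 0x80000000078605850a) (nat_lit 0) (p (nat_lit 0x8605850682) (nat_lit 0) (p (nat_lit 0x8585048402) (nat_lit 0) (p (nat_lit 0x160014) (nat_lit 0) (p (nat_lit 0x160004) (nat_lit 0) (p (nat_lit 0x60592) (nat_lit 0) (p (nat_lit 0x48512) (nat_lit 0) (p (nat_lit 0x50392) (nat_lit 0) (p (nat_lit 0x38312) (nat_lit 0) (p (nat_lit 0x40212) (nat_lit 0) (p (nat_lit 0x28192) (nat_lit 0) (p (nat_lit 0x30092) (nat_lit 0) (p (nat_lit 0x18012) (nat_lit 0)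 pn)))))))))))))))))))))))))) :=
  Cl.node (nat_lit 0xb0014) (nat_lit 2) (by decide +kernel) (ClAll.succ (ClAll.succ ClAll.zero n13) s10)

def n28 : Cl (O (nat_lit 2)) (R (nat_lit 135377))
    (p (nat_lit 0xb0004) (nat_lit 0) (p (nat_lit 0x20000c) (nat_lit 0) (p (nat_lit 0xc9) (nat_lit 1) (p (nat_lit 0xc1) (nat_lit 0) (p (nat_lit 0x81) (nat_lit 1) (p (nat_lit 0x101) (nat_lit 1) (p (nat_lit 0x119) (nat_lit 0) (p (nat_lit 0xd1) (nat_lit 0) (p (nat_lit 0x89) (nat_lit 0) (p (nat_lit 0x41) (nat_lit 0) (p (nat_lit 0x89080787089a) (nat_lit 0) (p (nat_lit 0x88878706861a) (nat_lit 0) (p (nat_lit 0x80000000080686078a) (nat_lit 0) (p (nat_lit 0x80000000078605850a) (nat_lit 0) (p (nat_lit 0x8605850682) (nat_lit 0) (p (nat_lit 0x8585048402) (nat_lit 0) (p (nat_lit 0x160014) (nat_lit 0) (p (nat_lit 0x160004) (nat_lit 0) (p (nat_lit 0x60592) (nat_lit 0) (p (nat_lit 0x48512) (nat_lit 0) (p (nat_lit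 0x50392) (nat_lit 0) (p (nat_lit 0x38312) (nat_lit 0) (p (nat_lit 0x40212) (nat_lit 0) (p (nat_lit 0x28192) (nat_lit 0) (p (nat_lit 0x30092) (nat_lit 0) (p (nat_lit 0x18012) (nat_lit 0) pn)))))))))))))))))))))))))) :=
  Cl.node (nat_lit 0xb0014) (nat_lit 2) (by decide +kernel) (ClAll.succ (ClAll.succ ClAll.zero s17) s18)

def n29 : Cl (O (nat_lit 2)) (R (nat_lit 135377))
    (p (nat_lit 0xb0004) (nat_lit 0) (p (nat_lit 0x119) (nat_lit 0) (p (nat_lit 0x20000c) (nat_lit 0) (p (nat_lit 0xc1) (nat_lit 0) (p (nat_lit 0x81) (nat_lit 1) (p (nat_lit 0x101) (nat_lit 1) (p (nat_lit 0x111) (nat_lit 0) (p (nat_lit 0xd1) (nat_lit 1) (p (nat_lit 0x89) (nat_lit 0) (p (nat_lit 0x41) (nat_lit 0) (p (nat_lit 0x89080787089a) (nat_lit 0) (p (nat_lit 0x88878706861a) (nat_lit 0) (p (nat_lit 0x80000000080686078a) (nat_lit 0) (p (nat_lit 0x80000000078605850a) (nat_lit 0) (p (nat_lit 0x8605850682) (nat_lit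 0) (p (nat_lit 0x8585048402) (nat_lit 0) (p (nat_lit 0x160014) (nat_lit 0) (p (nat_lit 0x160004) (nat_lit 0) (p (nat_lit 0x60592) (nat_lit 0) (p (nat_lit 0x48512) (nat_lit 0) (p (nat_lit 0x50392) (nat_lit 0) (p (nat_lit 0x38312) (nat_lit 0) (p (nat_lit 0x40212) (nat_lit 0) (p (nat_lit 0x28192) (nat_lit 0) (p (nat_lit 0x30092) (nat_lit 0) (p (nat_lit 0x18012) (nat_lit 0) pn)))))))))))))))))))))))))) :=
  Cl.node (nat_lit 0xb0014) (nat_lit 2) (by decide +kernel) (ClAll.succ (ClAll.succ ClAll.zero n14) s48)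

def n30 : Cl (O (nat_lit 2)) (R (nat_lit 135377))
    (p (nat_lit 0xb0014) (nat_lit 0) (p (nat_lit 0xb0004) (nat_lit 0) (p (nat_lit 0x20000c) (nat_lit 1) (p (nat_lit 0xc1) (nat_lit 0) (p (nat_lit 0x81) (nat_lit 1) (p (nat_lit 0x101) (nat_lit 1) (p (nat_lit 0x111) (nat_lit 0) (p (nat_lit 0xd1) (nat_lit 1) (p (nat_lit 0x89) (nat_lit 0) (p (nat_lit 0x41) (nat_lit 0) (p (nat_lit 0x89080787089a) (nat_lit 0) (p (nat_lit 0x88878706861a) (nat_lit 0) (p (nat_lit 0x80000000080686078a) (nat_lit 0) (p (nat_lit 0x80000000078605850a) (nat_lit 0) (p (nat_lit 0x8605850682) (nat_lit 0) (p (nat_lit 0x8585048402) (nat_lit 0) (p (nat_lit 0x160014) (nat_lit 0) (p (nat_lit 0x160004) (nat_lit 0) (p (nat_lit 0x60592) (nat_lit 0) (p (nat_lit 0x48512) (nat_lit 0) (p (nat_lit 0x50392) (nat_lit 0) (p (nat_lit 0x38312) (nat_lit 0) (p (nat_lit 0x40212) (nat_lit 0) (p (nat_lit 0x28192) (nat_lit 0) (p (nat_lit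 0x30092) (nat_lit 0) (p (nat_lit 0x18012) (nat_lit 0) pn)))))))))))))))))))))))))) :=
  Cl.node (nat_lit 0x119) (nat_lit 2) (by decide +kernel) (ClAll.succ (ClAll.succ ClAll.zero s52) s53)

def n31 : Cl (O (nat_lit 2)) (R (nat_lit 135377))
    (p (nat_lit 0xb0014) (nat_lit 0) (p (nat_lit 0xb0004) (nat_lit 0) (p (nat_lit 0x20000c) (nat_lit 1) (p (nat_lit 0xd1) (nat_lit 0) (p (nat_lit 0x109) (nat_lit 1) (p (nat_lit 0x101) (nat_lit 0) (p (nat_lit 0x119) (nat_lit 0) (p (nat_lit 0xc9) (nat_lit 0) (p (nat_lit 0x89) (nat_lit 1) (p (nat_lit 0x41) (nat_lit 0) (p (nat_lit 0x89080787089a) (nat_lit 0) (p (nat_lit 0x88878706861a) (nat_lit 0) (p (nat_lit 0x80000000080686078a) (nat_lit 0) (p (nat_lit 0x80000000078605850a) (nat_lit 0) (p (nat_lit 0x8605850682) (nat_lit 0) (p (nat_lit 0x8585048402) (nat_lit 0) (p (nat_lit 0x160014) (nat_lit 0) (p (nat_lit 0x160004) (nat_lit 0) (p (nat_lit 0x60592)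 (nat_lit 0) (p (nat_lit 0x48512) (nat_lit 0) (p (nat_lit 0x50392) (nat_lit 0) (p (nat_lit 0x38312) (nat_lit 0) (p (nat_lit 0x40212) (nat_lit 0) (p (nat_lit 0x28192) (nat_lit 0) (p (nat_lit 0x30092) (nat_lit 0) (p (nat_lit 0x18012) (nat_lit 0) pn)))))))))))))))))))))))))) :=
  Cl.node (nat_lit 0x41) (nat_lit 2) (by decide +kernel) (ClAll.succ (ClAll.succ ClAll.zero s67) s68)

def n32 : Cl (O (nat_lit 2)) (R (nat_lit 135377))
    (p (nat_lit 0xb0014) (nat_lit 0) (p (nat_lit 0xb0004) (nat_lit 0) (p (nat_lit 0x20000c) (nat_lit 1) (p (nat_lit 0xd1) (nat_lit 1) (p (nat_lit 0x109) (nat_lit 1) (p (nat_lit 0x101) (nat_lit 0) (p (nat_lit 0x119) (nat_lit 0) (p (nat_lit 0xc9) (nat_lit 0) (p (nat_lit 0x89) (nat_lit 1) (p (nat_lit 0x41) (nat_lit 0) (p (nat_lit 0x89080787089a) (nat_lit 0) (p (nat_lit 0x88878706861a) (nat_lit 0) (p (nat_lit 0x80000000080686078a) (nat_lit 0) (p (nat_lit 0x80000000078605850a)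 (nat_lit 0) (p (nat_lit 0x8605850682) (nat_lit 0) (p (nat_lit 0x8585048402) (nat_lit 0) (p (nat_lit 0x160014) (nat_lit 0) (p (nat_lit 0x160004) (nat_lit 0) (p (nat_lit 0x60592) (nat_lit 0) (p (nat_lit 0x48512) (nat_lit 0) (p (nat_lit 0x50392) (nat_lit 0) (p (nat_lit 0x38312) (nat_lit 0) (p (nat_lit 0x40212) (nat_lit 0) (p (nat_lit 0x28192) (nat_lit 0) (p (nat_lit 0x30092) (nat_lit 0) (p (nat_lit 0x18012) (nat_lit 0) pn)))))))))))))))))))))))))) :=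
  Cl.node (nat_lit 0x41) (nat_lit 2) (by decide +kernel) (ClAll.succ (ClAll.succ ClAll.zero s74) s75)

def n33 : Cl (O (nat_lit 2)) (R (nat_lit 135377))
    (p (nat_lit 0xb0014) (nat_lit 0) (p (nat_lit 0xb0004) (nat_lit 0) (p (nat_lit 0x20000c) (nat_lit 1) (p (nat_lit 0xd1) (nat_lit 0) (p (nat_lit 0xc1) (nat_lit 0) (p (nat_lit 0x101) (nat_lit 1) (p (nat_lit 0x119) (nat_lit 0) (p (nat_lit 0xc9) (nat_lit 0) (p (nat_lit 0x89) (nat_lit 1) (p (nat_lit 0x41) (nat_lit 0) (p (nat_lit 0x89080787089a) (nat_lit 0) (p (nat_lit 0x88878706861a) (nat_lit 0) (p (nat_lit 0x80000000080686078a) (nat_lit 0) (p (nat_lit 0x80000000078605850a) (nat_lit 0) (p (nat_lit 0x8605850682) (nat_lit 0) (p (nat_lit 0x8585048402) (nat_lit 0) (p (nat_lit 0x160014) (nat_lit 0) (p (nat_lit 0x160004) (nat_lit 0) (p (nat_lit 0x60592) (nat_lit 0) (p (nat_lit 0x48512) (nat_lit 0) (p (nat_lit 0x50392) (nat_lit 0) (p (nat_lit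 0x38312) (nat_lit 0) (p (nat_lit 0x40212) (nat_lit 0) (p (nat_lit 0x28192) (nat_lit 0) (p (nat_lit 0x30092) (nat_lit 0) (p (nat_lit 0x18012) (nat_lit 0) pn)))))))))))))))))))))))))) :=
  Cl.node (nat_lit 0x109) (nat_lit 2) (by decide +kernel) (ClAll.succ (ClAll.succ ClAll.zero s80) s81)

def n34 : Cl (O (nat_lit 2)) (R (nat_lit 135377))
    (p (nat_lit 0xb0014) (nat_lit 0) (p (nat_lit 0xb0004) (nat_lit 0) (p (nat_lit 0x20000c) (nat_lit 0) (p (nat_lit 0xd1) (nat_lit 1) (p (nat_lit 0xc1) (nat_lit 0) (p (nat_lit 0x101) (nat_lit 1) (p (nat_lit 0x119) (nat_lit 0) (p (nat_lit 0xc9) (nat_lit 0) (p (nat_lit 0x89) (nat_lit 1) (p (nat_lit 0x41) (nat_lit 0) (p (nat_lit 0x89080787089a) (nat_lit 0) (p (nat_lit 0x88878706861a) (nat_lit 0) (p (nat_lit 0x80000000080686078a) (nat_lit 0) (p (nat_lit 0x80000000078605850a) (nat_lit 0) (p (nat_lit 0x8605850682) (nat_lit 0) (p (nat_lit 0x8585048402) (nat_lit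 0) (p (nat_lit 0x160014) (nat_lit 0) (p (nat_lit 0x160004) (nat_lit 0) (p (nat_lit 0x60592) (nat_lit 0) (p (nat_lit 0x48512) (nat_lit 0) (p (nat_lit 0x50392) (nat_lit 0) (p (nat_lit 0x38312) (nat_lit 0) (p (nat_lit 0x40212) (nat_lit 0) (p (nat_lit 0x28192) (nat_lit 0) (p (nat_lit 0x30092) (nat_lit 0) (p (nat_lit 0x18012) (nat_lit 0) pn)))))))))))))))))))))))))) :=
  Cl.node (nat_lit 0x109) (nat_lit 2) (by decide +kernel) (ClAll.succ (ClAll.succ ClAll.zero s84) s85)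

def n35 : Cl (O (nat_lit 2)) (R (nat_lit 135377))
    (p (nat_lit 0xb0004) (nat_lit 0) (p (nat_lit 0x111) (nat_lit 0) (p (nat_lit 0x20000c) (nat_lit 0) (p (nat_lit 0x89) (nat_lit 0) (p (nat_lit 0x109) (nat_lit 1) (p (nat_lit 0x101) (nat_lit 0) (p (nat_lit 0x119) (nat_lit 0) (p (nat_lit 0xd1) (nat_lit 0) (p (nat_lit 0x81) (nat_lit 0) (p (nat_lit 0x41) (nat_lit 1) (p (nat_lit 0x89080787089a) (nat_lit 0) (p (nat_lit 0x88878706861a) (nat_lit 0) (p (nat_lit 0x80000000080686078a) (nat_lit 0) (p (nat_lit 0x80000000078605850a) (nat_lit 0) (p (nat_lit 0x8605850682) (nat_lit 0) (p (nat_lit 0x8585048402) (nat_lit 0) (p (nat_lit 0x160014) (nat_lit 0) (p (nat_lit 0x160004) (nat_lit 0) (p (nat_lit 0x60592) (nat_lit 0) (p (nat_lit 0x48512) (nat_lit 0) (p (nat_lit 0x50392) (nat_lit 0) (p (nat_lit 0x38312) (nat_lit 0) (p (nat_lit 0x40212) (nat_lit 0) (p (nat_lit 0x28192) (nat_lit 0) (p (nat_lit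 0x30092) (nat_lit 0) (p (nat_lit 0x18012) (nat_lit 0) pn)))))))))))))))))))))))))) :=
  Cl.node (nat_lit 0xb0014) (nat_lit 2) (by decide +kernel) (ClAll.succ (ClAll.succ ClAll.zero s103) s104)

def n36 : Cl (O (nat_lit 2)) (R (nat_lit 135377))
    (p (nat_lit 0xb0004) (nat_lit 0) (p (nat_lit 0x20000c) (nat_lit 0) (p (nat_lit 0xc9) (nat_lit 0) (p (nat_lit 0x89) (nat_lit 1) (p (nat_lit 0x109) (nat_lit 1) (p (nat_lit 0x101) (nat_lit 0) (p (nat_lit 0x119) (nat_lit 0) (p (nat_lit 0xd1) (nat_lit 0) (p (nat_lit 0x81) (nat_lit 0) (p (nat_lit 0x41) (nat_lit 1) (p (nat_lit 0x89080787089a) (nat_lit 0) (p (nat_lit 0x88878706861a) (nat_lit 0) (p (nat_lit 0x80000000080686078a) (nat_lit 0) (p (nat_lit 0x80000000078605850a) (nat_lit 0) (p (nat_lit 0x8605850682) (nat_lit 0) (p (nat_lit 0x8585048402) (nat_lit 0) (p (nat_lit 0x160014) (nat_lit 0) (p (nat_lit 0x160004) (nat_lit 0) (p (nat_lit 0x60592)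 (nat_lit 0) (p (nat_lit 0x48512) (nat_lit 0) (p (nat_lit 0x50392) (nat_lit 0) (p (nat_lit 0x38312) (nat_lit 0) (p (nat_lit 0x40212) (nat_lit 0) (p (nat_lit 0x28192) (nat_lit 0) (p (nat_lit 0x30092) (nat_lit 0) (p (nat_lit 0x18012) (nat_lit 0) pn)))))))))))))))))))))))))) :=
  Cl.node (nat_lit 0xb0014) (nat_lit 2) (by decide +kernel) (ClAll.succ (ClAll.succ ClAll.zero s108) s109)

def n37 : Cl (O (nat_lit 2)) (R (nat_lit 135377))
    (p (nat_lit 0xb0004) (nat_lit 0) (p (nat_lit 0x20000c) (nat_lit 0) (p (nat_lit 0xc9) (nat_lit 0) (p (nat_lit 0x89) (nat_lit 1) (p (nat_lit 0xc1) (nat_lit 0) (p (nat_lit 0x101) (nat_lit 1) (p (nat_lit 0x119) (nat_lit 0) (p (nat_lit 0xd1) (nat_lit 0) (p (nat_lit 0x81) (nat_lit 0) (p (nat_lit 0x41) (nat_lit 1) (p (nat_lit 0x89080787089a) (nat_lit 0) (p (nat_lit 0x88878706861a) (nat_lit 0) (p (nat_lit 0x80000000080686078a) (nat_lit 0) (p (nat_lit 0x80000000078605850a)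 (nat_lit 0) (p (nat_lit 0x8605850682) (nat_lit 0) (p (nat_lit 0x8585048402) (nat_lit 0) (p (nat_lit 0x160014) (nat_lit 0) (p (nat_lit 0x160004) (nat_lit 0) (p (nat_lit 0x60592) (nat_lit 0) (p (nat_lit 0x48512) (nat_lit 0) (p (nat_lit 0x50392) (nat_lit 0) (p (nat_lit 0x38312) (nat_lit 0) (p (nat_lit 0x40212) (nat_lit 0) (p (nat_lit 0x28192) (nat_lit 0) (p (nat_lit 0x30092) (nat_lit 0) (p (nat_lit 0x18012) (nat_lit 0) pn)))))))))))))))))))))))))) :=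
  Cl.node (nat_lit 0xb0014) (nat_lit 2) (by decide +kernel) (ClAll.succ (ClAll.succ ClAll.zero s116) s117)

def n38 : Cl (O (nat_lit 2)) (R (nat_lit 135377))
    (p (nat_lit 0xb0004) (nat_lit 0) (p (nat_lit 0x20000c) (nat_lit 0) (p (nat_lit 0xc9) (nat_lit 1) (p (nat_lit 0x89) (nat_lit 1) (p (nat_lit 0xc1) (nat_lit 0) (p (nat_lit 0x101) (nat_lit 1) (p (nat_lit 0x119) (nat_lit 0) (p (nat_lit 0xd1) (nat_lit 0) (p (nat_lit 0x81) (nat_lit 0) (p (nat_lit 0x41) (nat_lit 1) (p (nat_lit 0x89080787089a) (nat_lit 0) (p (nat_lit 0x88878706861a) (nat_lit 0) (p (nat_lit 0x80000000080686078a) (nat_lit 0) (p (nat_lit 0x80000000078605850a) (nat_lit 0) (p (nat_lit 0x8605850682) (nat_lit 0) (p (nat_lit 0x8585048402) (nat_lit 0) (p (nat_lit 0x160014) (nat_lit 0) (p (nat_lit 0x160004) (nat_lit 0) (p (nat_lit 0x60592) (nat_lit 0) (p (nat_lit 0x48512) (nat_lit 0) (p (nat_lit 0x50392) (nat_lit 0) (p (nat_lit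 0x38312) (nat_lit 0) (p (nat_lit 0x40212) (nat_lit 0) (p (nat_lit 0x28192) (nat_lit 0) (p (nat_lit 0x30092) (nat_lit 0) (p (nat_lit 0x18012) (nat_lit 0) pn)))))))))))))))))))))))))) :=
  Cl.node (nat_lit 0xb0014) (nat_lit 2) (by decide +kernel) (ClAll.succ (ClAll.succ ClAll.zero n15) s123)

def n39 : Cl (O (nat_lit 2)) (R (nat_lit 135377))
    (p (nat_lit 0xb0014) (nat_lit 0) (p (nat_lit 0xb0004) (nat_lit 0) (p (nat_lit 0x20000c) (nat_lit 0) (p (nat_lit 0x89) (nat_lit 1) (p (nat_lit 0xc1) (nat_lit 1) (p (nat_lit 0x101) (nat_lit 1) (p (nat_lit 0x119) (nat_lit 0) (p (nat_lit 0xd1) (nat_lit 0) (p (nat_lit 0x81) (nat_lit 0) (p (nat_lit 0x41) (nat_lit 1) (p (nat_lit 0x89080787089a) (nat_lit 0) (p (nat_lit 0x88878706861a) (nat_lit 0) (p (nat_lit 0x80000000080686078a) (nat_lit 0) (p (nat_lit 0x80000000078605850a) (nat_lit 0) (p (nat_lit 0x8605850682) (nat_lit 0) (p (nat_lit 0x8585048402)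 (nat_lit 0) (p (nat_lit 0x160014) (nat_lit 0) (p (nat_lit 0x160004) (nat_lit 0) (p (nat_lit 0x60592) (nat_lit 0) (p (nat_lit 0x48512) (nat_lit 0) (p (nat_lit 0x50392) (nat_lit 0) (p (nat_lit 0x38312) (nat_lit 0) (p (nat_lit 0x40212) (nat_lit 0) (p (nat_lit 0x28192) (nat_lit 0) (p (nat_lit 0x30092) (nat_lit 0) (p (nat_lit 0x18012) (nat_lit 0) pn)))))))))))))))))))))))))) :=
  Cl.node (nat_lit 0x109) (nat_lit 2) (by decide +kernel) (ClAll.succ (ClAll.succ ClAll.zero n16) n17)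

def n40 : Cl (O (nat_lit 2)) (R (nat_lit 135377))
    (p (nat_lit 0xb0014) (nat_lit 0) (p (nat_lit 0xb0004) (nat_lit 1) (p (nat_lit 0x20000c) (nat_lit 0) (p (nat_lit 0x89) (nat_lit 1) (p (nat_lit 0xc1) (nat_lit 1) (p (nat_lit 0x101) (nat_lit 1) (p (nat_lit 0x119) (nat_lit 0) (p (nat_lit 0xd1) (nat_lit 0) (p (nat_lit 0x81) (nat_lit 0) (p (nat_lit 0x41) (nat_lit 1) (p (nat_lit 0x89080787089a) (nat_lit 0) (p (nat_lit 0x88878706861a) (nat_lit 0) (p (nat_lit 0x80000000080686078a) (nat_lit 0) (p (nat_lit 0x80000000078605850a) (nat_lit 0) (p (nat_lit 0x8605850682) (nat_lit 0) (p (nat_lit 0x8585048402) (nat_lit 0) (p (nat_lit 0x160014) (nat_lit 0) (p (nat_lit 0x160004) (nat_lit 0) (p (nat_lit 0x60592) (nat_lit 0) (p (nat_lit 0x48512) (nat_lit 0) (p (nat_lit 0x50392) (nat_lit 0) (p (nat_lit 0x38312) (nat_lit 0) (p (nat_lit 0x40212) (nat_lit 0) (p (nat_lit 0x28192) (nat_lit 0) (p (nat_lit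 0x30092) (nat_lit 0) (p (nat_lit 0x18012) (nat_lit 0) pn)))))))))))))))))))))))))) :=
  Cl.node (nat_lit 0x2a82580000098807870a) (nat_lit 1) (by decide +kernel) (ClAll.succ ClAll.zero n18)

def n41 : Cl (O (nat_lit 2)) (R (nat_lit 135377))
    (p (nat_lit 0xb0004) (nat_lit 0) (p (nat_lit 0x20000c) (nat_lit 0) (p (nat_lit 0x109) (nat_lit 0) (p (nat_lit 0x89) (nat_lit 1) (p (nat_lit 0xc9) (nat_lit 1) (p (nat_lit 0xc1) (nat_lit 0) (p (nat_lit 0x119) (nat_lit 1) (p (nat_lit 0xd1) (nat_lit 0) (p (nat_lit 0x81) (nat_lit 0) (p (nat_lit 0x41) (nat_lit 1) (p (nat_lit 0x89080787089a) (nat_lit 0) (p (nat_lit 0x88878706861a) (nat_lit 0) (p (nat_lit 0x80000000080686078a) (nat_lit 0) (p (nat_lit 0x80000000078605850a) (nat_lit 0) (p (nat_lit 0x8605850682) (nat_lit 0) (p (nat_lit 0x8585048402) (nat_lit 0) (p (nat_lit 0x160014) (nat_lit 0) (p (nat_lit 0x160004) (nat_lit 0) (p (nat_lit 0x60592) (nat_lit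 0) (p (nat_lit 0x48512) (nat_lit 0) (p (nat_lit 0x50392) (nat_lit 0) (p (nat_lit 0x38312) (nat_lit 0) (p (nat_lit 0x40212) (nat_lit 0) (p (nat_lit 0x28192) (nat_lit 0) (p (nat_lit 0x30092) (nat_lit 0) (p (nat_lit 0x18012) (nat_lit 0) pn)))))))))))))))))))))))))) :=
  Cl.node (nat_lit 0xb0014) (nat_lit 2) (by decide +kernel) (ClAll.succ (ClAll.succ ClAll.zero n19) s143)

def n42 : Cl (O (nat_lit 2)) (R (nat_lit 135377))
    (p (nat_lit 0xb0004) (nat_lit 0) (p (nat_lit 0x20000c) (nat_lit 0) (p (nat_lit 0x109) (nat_lit 1) (p (nat_lit 0x89) (nat_lit 1) (p (nat_lit 0xc9) (nat_lit 1) (p (nat_lit 0xc1) (nat_lit 0) (p (nat_lit 0x119) (nat_lit 1) (p (nat_lit 0xd1) (nat_lit 0) (p (nat_lit 0x81) (nat_lit 0) (p (nat_lit 0x41) (nat_lit 1) (p (nat_lit 0x89080787089a) (nat_lit 0) (p (nat_lit 0x88878706861a) (nat_lit 0) (p (nat_lit 0x80000000080686078a) (nat_lit 0) (p (nat_lit 0x80000000078605850a)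 (nat_lit 0) (p (nat_lit 0x8605850682) (nat_lit 0) (p (nat_lit 0x8585048402) (nat_lit 0) (p (nat_lit 0x160014) (nat_lit 0) (p (nat_lit 0x160004) (nat_lit 0) (p (nat_lit 0x60592) (nat_lit 0) (p (nat_lit 0x48512) (nat_lit 0) (p (nat_lit 0x50392) (nat_lit 0) (p (nat_lit 0x38312) (nat_lit 0) (p (nat_lit 0x40212) (nat_lit 0) (p (nat_lit 0x28192) (nat_lit 0) (p (nat_lit 0x30092) (nat_lit 0) (p (nat_lit 0x18012) (nat_lit 0) pn)))))))))))))))))))))))))) :=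
  Cl.node (nat_lit 0xb0014) (nat_lit 2) (by decide +kernel) (ClAll.succ (ClAll.succ ClAll.zero s146) s147)

def n43 : Cl (O (nat_lit 2)) (R (nat_lit 135377))
    (p (nat_lit 0xb0004) (nat_lit 0) (p (nat_lit 0x20000c) (nat_lit 0) (p (nat_lit 0x109) (nat_lit 0) (p (nat_lit 0x89) (nat_lit 1) (p (nat_lit 0x101) (nat_lit 0) (p (nat_lit 0xc1) (nat_lit 1) (p (nat_lit 0x119) (nat_lit 1) (p (nat_lit 0xd1) (nat_lit 0) (p (nat_lit 0x81) (nat_lit 0) (p (nat_lit 0x41) (nat_lit 1) (p (nat_lit 0x89080787089a) (nat_lit 0) (p (nat_lit 0x88878706861a) (nat_lit 0) (p (nat_lit 0x80000000080686078a) (nat_lit 0) (p (nat_lit 0x80000000078605850a) (nat_lit 0) (p (nat_lit 0x8605850682) (nat_lit 0) (p (nat_lit 0x8585048402) (nat_lit 0) (p (nat_lit 0x160014) (nat_lit 0) (p (nat_lit 0x160004) (nat_lit 0) (p (nat_lit 0x60592) (nat_lit 0) (p (nat_lit 0x48512) (nat_lit 0) (p (nat_lit 0x50392) (nat_lit 0) (p (nat_lit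 0x38312) (nat_lit 0) (p (nat_lit 0x40212) (nat_lit 0) (p (nat_lit 0x28192) (nat_lit 0) (p (nat_lit 0x30092) (nat_lit 0) (p (nat_lit 0x18012) (nat_lit 0) pn)))))))))))))))))))))))))) :=
  Cl.node (nat_lit 0xb0014) (nat_lit 2) (by decide +kernel) (ClAll.succ (ClAll.succ ClAll.zero s151) s152)

def n44 : Cl (O (nat_lit 2)) (R (nat_lit 135377))
    (p (nat_lit 0xb0004) (nat_lit 0) (p (nat_lit 0x20000c) (nat_lit 0) (p (nat_lit 0x109) (nat_lit 1) (p (nat_lit 0x89) (nat_lit 1) (p (nat_lit 0x101) (nat_lit 0) (p (nat_lit 0xc1) (nat_lit 1) (p (nat_lit 0x119) (nat_lit 1) (p (nat_lit 0xd1) (nat_lit 0) (p (nat_lit 0x81) (nat_lit 0) (p (nat_lit 0x41) (nat_lit 1) (p (nat_lit 0x89080787089a) (nat_lit 0) (p (nat_lit 0x88878706861a) (nat_lit 0) (p (nat_lit 0x80000000080686078a) (nat_lit 0) (p (nat_lit 0x80000000078605850a) (nat_lit 0) (p (nat_lit 0x8605850682) (nat_lit 0) (p (nat_lit 0x8585048402)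 (nat_lit 0) (p (nat_lit 0x160014) (nat_lit 0) (p (nat_lit 0x160004) (nat_lit 0) (p (nat_lit 0x60592) (nat_lit 0) (p (nat_lit 0x48512) (nat_lit 0) (p (nat_lit 0x50392) (nat_lit 0) (p (nat_lit 0x38312) (nat_lit 0) (p (nat_lit 0x40212) (nat_lit 0) (p (nat_lit 0x28192) (nat_lit 0) (p (nat_lit 0x30092) (nat_lit 0) (p (nat_lit 0x18012) (nat_lit 0) pn)))))))))))))))))))))))))) :=
  Cl.node (nat_lit 0xb0014) (nat_lit 2) (by decide +kernel) (ClAll.succ (ClAll.succ ClAll.zero n20) s157)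

def n45 : Cl (O (nat_lit 2)) (R (nat_lit 135377))
    (p (nat_lit 0xb0014) (nat_lit 0) (p (nat_lit 0xb0004) (nat_lit 0) (p (nat_lit 0x20000c) (nat_lit 0) (p (nat_lit 0x89) (nat_lit 1) (p (nat_lit 0x101) (nat_lit 1) (p (nat_lit 0xc1) (nat_lit 1) (p (nat_lit 0x119) (nat_lit 1) (p (nat_lit 0xd1) (nat_lit 0) (p (nat_lit 0x81) (nat_lit 0) (p (nat_lit 0x41) (nat_lit 1) (p (nat_lit 0x89080787089a) (nat_lit 0) (p (nat_lit 0x88878706861a) (nat_lit 0) (p (nat_lit 0x80000000080686078a) (nat_lit 0) (p (nat_lit 0x80000000078605850a) (nat_lit 0) (p (nat_lit 0x8605850682) (nat_lit 0) (p (nat_lit 0x8585048402) (nat_lit 0) (p (nat_lit 0x160014) (nat_lit 0) (p (nat_lit 0x160004) (nat_lit 0) (p (nat_lit 0x60592) (nat_lit 0) (p (nat_lit 0x48512) (nat_lit 0) (p (nat_lit 0x50392) (nat_lit 0) (p (nat_lit 0x38312) (nat_lit 0) (p (nat_lit 0x40212) (nat_lit 0) (p (nat_lit 0x28192) (nat_lit 0) (p (nat_lit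 0x30092) (nat_lit 0) (p (nat_lit 0x18012) (nat_lit 0) pn)))))))))))))))))))))))))) :=
  Cl.node (nat_lit 0xc9) (nat_lit 2) (by decide +kernel) (ClAll.succ (ClAll.succ ClAll.zero n21) n22)

def n46 : Cl (O (nat_lit 2)) (R (nat_lit 135377))
    (p (nat_lit 0xb0014) (nat_lit 0) (p (nat_lit 0xb0004) (nat_lit 1) (p (nat_lit 0x20000c) (nat_lit 0) (p (nat_lit 0x89) (nat_lit 1) (p (nat_lit 0x101) (nat_lit 1) (p (nat_lit 0xc1) (nat_lit 1) (p (nat_lit 0x119) (nat_lit 1) (p (nat_lit 0xd1) (nat_lit 0) (p (nat_lit 0x81) (nat_lit 0) (p (nat_lit 0x41) (nat_lit 1) (p (nat_lit 0x89080787089a) (nat_lit 0) (p (nat_lit 0x88878706861a) (nat_lit 0) (p (nat_lit 0x80000000080686078a) (nat_lit 0) (p (nat_lit 0x80000000078605850a) (nat_lit 0) (p (nat_lit 0x8605850682) (nat_lit 0) (p (nat_lit 0x8585048402) (nat_lit 0) (p (nat_lit 0x160014) (nat_lit 0) (p (nat_lit 0x160004) (nat_lit 0) (p (nat_lit 0x60592)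 (nat_lit 0) (p (nat_lit 0x48512) (nat_lit 0) (p (nat_lit 0x50392) (nat_lit 0) (p (nat_lit 0x38312) (nat_lit 0) (p (nat_lit 0x40212) (nat_lit 0) (p (nat_lit 0x28192) (nat_lit 0) (p (nat_lit 0x30092) (nat_lit 0) (p (nat_lit 0x18012) (nat_lit 0) pn)))))))))))))))))))))))))) :=
  Cl.node (nat_lit 0x2a82580000098807870a) (nat_lit 1) (by decide +kernel) (ClAll.succ ClAll.zero n23)

def n47 : Cl (O (nat_lit 2)) (R (nat_lit 135377))
    (p (nat_lit 0x119) (nat_lit 1) (p (nat_lit 0x20000c) (nat_lit 0) (p (nat_lit 0xc9) (nat_lit 0) (p (nat_lit 0x89) (nat_lit 1) (p (nat_lit 0x109) (nat_lit 1) (p (nat_lit 0x101) (nat_lit 0) (p (nat_lit 0x111) (nat_lit 0) (p (nat_lit 0xd1) (nat_lit 1) (p (nat_lit 0x81) (nat_lit 0) (p (nat_lit 0x41) (nat_lit 1) (p (nat_lit 0x89080787089a) (nat_lit 0) (p (nat_lit 0x88878706861a) (nat_lit 0) (p (nat_lit 0x80000000080686078a) (nat_lit 0) (p (nat_lit 0x80000000078605850a)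 (nat_lit 0) (p (nat_lit 0x8605850682) (nat_lit 0) (p (nat_lit 0x8585048402) (nat_lit 0) (p (nat_lit 0x160014) (nat_lit 0) (p (nat_lit 0x160004) (nat_lit 0) (p (nat_lit 0x60592) (nat_lit 0) (p (nat_lit 0x48512) (nat_lit 0) (p (nat_lit 0x50392) (nat_lit 0) (p (nat_lit 0x38312) (nat_lit 0) (p (nat_lit 0x40212) (nat_lit 0) (p (nat_lit 0x28192) (nat_lit 0) (p (nat_lit 0x30092) (nat_lit 0) (p (nat_lit 0x18012) (nat_lit 0) pn)))))))))))))))))))))))))) :=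
  Cl.node (nat_lit 0xb0004) (nat_lit 2) (by decide +kernel) (ClAll.succ (ClAll.succ ClAll.zero s175) s176)

def n48 : Cl (O (nat_lit 2)) (R (nat_lit 135377))
    (p (nat_lit 0xb0014) (nat_lit 0) (p (nat_lit 0xb0004) (nat_lit 0) (p (nat_lit 0x20000c) (nat_lit 0) (p (nat_lit 0xc9) (nat_lit 0) (p (nat_lit 0x89) (nat_lit 1) (p (nat_lit 0x101) (nat_lit 1) (p (nat_lit 0x111) (nat_lit 0) (p (nat_lit 0xd1) (nat_lit 1) (p (nat_lit 0x81) (nat_lit 0) (p (nat_lit 0x41) (nat_lit 1) (p (nat_lit 0x89080787089a) (nat_lit 0) (p (nat_lit 0x88878706861a) (nat_lit 0) (p (nat_lit 0x80000000080686078a) (nat_lit 0) (p (nat_lit 0x80000000078605850a) (nat_lit 0) (p (nat_lit 0x8605850682) (nat_lit 0) (p (nat_lit 0x8585048402) (nat_lit 0) (p (nat_lit 0x160014) (nat_lit 0) (p (nat_lit 0x160004) (nat_lit 0) (p (nat_lit 0x60592) (nat_lit 0) (p (nat_lit 0x48512) (nat_lit 0) (p (nat_lit 0x50392) (nat_lit 0) (p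 (nat_lit 0x38312) (nat_lit 0) (p (nat_lit 0x40212) (nat_lit 0) (p (nat_lit 0x28192) (nat_lit 0) (p (nat_lit 0x30092) (nat_lit 0) (p (nat_lit 0x18012) (nat_lit 0) pn)))))))))))))))))))))))))) :=
  Cl.node (nat_lit 0x119) (nat_lit 2) (by decide +kernel) (ClAll.succ (ClAll.succ ClAll.zero n24) n25)

def n49 : Cl (O (nat_lit 2)) (R (nat_lit 135377))
    (p (nat_lit 0xb0014) (nat_lit 0) (p (nat_lit 0xb0004) (nat_lit 1) (p (nat_lit 0x20000c) (nat_lit 0) (p (nat_lit 0xc9) (nat_lit 0) (p (nat_lit 0x89) (nat_lit 1) (p (nat_lit 0x101) (nat_lit 1) (p (nat_lit 0x111) (nat_lit 0) (p (nat_lit 0xd1) (nat_lit 1) (p (nat_lit 0x81) (nat_lit 0) (p (nat_lit 0x41) (nat_lit 1) (p (nat_lit 0x89080787089a) (nat_lit 0) (p (nat_lit 0x88878706861a) (nat_lit 0) (p (nat_lit 0x80000000080686078a) (nat_lit 0) (p (nat_lit 0x80000000078605850a) (nat_lit 0) (p (nat_lit 0x8605850682) (nat_lit 0) (p (nat_lit 0x8585048402)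 (nat_lit 0) (p (nat_lit 0x160014) (nat_lit 0) (p (nat_lit 0x160004) (nat_lit 0) (p (nat_lit 0x60592) (nat_lit 0) (p (nat_lit 0x48512) (nat_lit 0) (p (nat_lit 0x50392) (nat_lit 0) (p (nat_lit 0x38312) (nat_lit 0) (p (nat_lit 0x40212) (nat_lit 0) (p (nat_lit 0x28192) (nat_lit 0) (p (nat_lit 0x30092) (nat_lit 0) (p (nat_lit 0x18012) (nat_lit 0) pn)))))))))))))))))))))))))) :=
  Cl.node (nat_lit 0x2a82580000098807870a) (nat_lit 1) (by decide +kernel) (ClAll.succ ClAll.zero n26)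

def n50 : Cl (O (nat_lit 2)) (R (nat_lit 135377))
    (p (nat_lit 0xb0014) (nat_lit 0) (p (nat_lit 0xb0004) (nat_lit 0) (p (nat_lit 0x20000c) (nat_lit 1) (p (nat_lit 0xd1) (nat_lit 1) (p (nat_lit 0xc9) (nat_lit 0) (p (nat_lit 0x101) (nat_lit 1) (p (nat_lit 0x119) (nat_lit 0) (p (nat_lit 0xc1) (nat_lit 0) (p (nat_lit 0x81) (nat_lit 1) (p (nat_lit 0x41) (nat_lit 1) (p (nat_lit 0x89080787089a) (nat_lit 0) (p (nat_lit 0x88878706861a) (nat_lit 0) (p (nat_lit 0x80000000080686078a) (nat_lit 0) (p (nat_lit 0x80000000078605850a) (nat_lit 0) (p (nat_lit 0x8605850682) (nat_lit 0) (p (nat_lit 0x8585048402) (nat_lit 0) (p (nat_lit 0x160014) (nat_lit 0) (p (nat_lit 0x160004) (nat_lit 0) (p (nat_lit 0x60592) (nat_lit 0) (p (nat_lit 0x48512) (nat_lit 0) (p (nat_lit 0x50392) (nat_lit 0) (p (nat_lit 0x38312) (nat_lit 0) (p (nat_lit 0x40212) (nat_lit 0) (p (nat_lit 0x28192) (nat_lit 0) (p (nat_lit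 0x30092) (nat_lit 0) (p (nat_lit 0x18012) (nat_lit 0) pn)))))))))))))))))))))))))) :=
  Cl.node (nat_lit 0x111) (nat_lit 2) (by decide +kernel) (ClAll.succ (ClAll.succ ClAll.zero s215) s216)

def n51 : Cl (O (nat_lit 2)) (R (nat_lit 135377))
    (p (nat_lit 0xb0014) (nat_lit 0) (p (nat_lit 0xb0004) (nat_lit 0) (p (nat_lit 0x20000c) (nat_lit 0) (p (nat_lit 0x111) (nat_lit 1) (p (nat_lit 0x109) (nat_lit 0) (p (nat_lit 0xc9) (nat_lit 1) (p (nat_lit 0x119) (nat_lit 1) (p (nat_lit 0xc1) (nat_lit 0) (p (nat_lit 0x81) (nat_lit 1) (p (nat_lit 0x41) (nat_lit 1) (p (nat_lit 0x89080787089a) (nat_lit 0) (p (nat_lit 0x88878706861a) (nat_lit 0) (p (nat_lit 0x80000000080686078a) (nat_lit 0) (p (nat_lit 0x80000000078605850a) (nat_lit 0) (p (nat_lit 0x8605850682) (nat_lit 0) (p (nat_lit 0x8585048402) (nat_lit 0) (p (nat_lit 0x160014) (nat_lit 0) (p (nat_lit 0x160004) (nat_lit 0) (p (nat_lit 0x60592)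 (nat_lit 0) (p (nat_lit 0x48512) (nat_lit 0) (p (nat_lit 0x50392) (nat_lit 0) (p (nat_lit 0x38312) (nat_lit 0) (p (nat_lit 0x40212) (nat_lit 0) (p (nat_lit 0x28192) (nat_lit 0) (p (nat_lit 0x30092) (nat_lit 0) (p (nat_lit 0x18012) (nat_lit 0) pn)))))))))))))))))))))))))) :=
  Cl.node (nat_lit 0xd1) (nat_lit 2) (by decide +kernel) (ClAll.succ (ClAll.succ ClAll.zero s228) s229)

def n52 : Cl (O (nat_lit 2)) (R (nat_lit 135377))
    (p (nat_lit 0x111) (nat_lit 0) (p (nat_lit 0x20000c) (nat_lit 0) (p (nat_lit 0xc9) (nat_lit 0) (p (nat_lit 0x81) (nat_lit 0) (p (nat_lit 0x101) (nat_lit 1) (p (nat_lit 0x119) (nat_lit 0) (p (nat_lit 0xd1) (nat_lit 0) (p (nat_lit 0x89) (nat_lit 0) (p (nat_lit 0x41) (nat_lit 0) (p (nat_lit 0x89080787089a) (nat_lit 0) (p (nat_lit 0x88878706861a) (nat_lit 0) (p (nat_lit 0x80000000080686078a) (nat_lit 0) (p (nat_lit 0x80000000078605850a) (nat_lit 0) (p (nat_lit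 0x8605850682) (nat_lit 0) (p (nat_lit 0x8585048402) (nat_lit 0) (p (nat_lit 0x160014) (nat_lit 0) (p (nat_lit 0x160004) (nat_lit 0) (p (nat_lit 0x60592) (nat_lit 0) (p (nat_lit 0x48512) (nat_lit 0) (p (nat_lit 0x50392) (nat_lit 0) (p (nat_lit 0x38312) (nat_lit 0) (p (nat_lit 0x40212) (nat_lit 0) (p (nat_lit 0x28192) (nat_lit 0) (p (nat_lit 0x30092) (nat_lit 0) (p (nat_lit 0x18012) (nat_lit 0) pn))))))))))))))))))))))))) :=
  Cl.node (nat_lit 0xb0004) (nat_lit 2) (by decide +kernel) (ClAll.succ (ClAll.succ ClAll.zero s4) s5)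

def n53 : Cl (O (nat_lit 2)) (R (nat_lit 135377))
    (p (nat_lit 0x111) (nat_lit 0) (p (nat_lit 0x20000c) (nat_lit 0) (p (nat_lit 0xc9) (nat_lit 1) (p (nat_lit 0x81) (nat_lit 0) (p (nat_lit 0x101) (nat_lit 1) (p (nat_lit 0x119) (nat_lit 0) (p (nat_lit 0xd1) (nat_lit 0) (p (nat_lit 0x89) (nat_lit 0) (p (nat_lit 0x41) (nat_lit 0) (p (nat_lit 0x89080787089a) (nat_lit 0) (p (nat_lit 0x88878706861a) (nat_lit 0) (p (nat_lit 0x80000000080686078a) (nat_lit 0) (p (nat_lit 0x80000000078605850a) (nat_lit 0) (p (nat_lit 0x8605850682) (nat_lit 0) (p (nat_lit 0x8585048402) (nat_lit 0) (p (nat_lit 0x160014) (nat_lit 0) (p (nat_lit 0x160004) (nat_lit 0) (p (nat_lit 0x60592) (nat_lit 0) (p (nat_lit 0x48512) (nat_lit 0) (p (nat_lit 0x50392) (nat_lit 0) (p (nat_lit 0x38312) (nat_lit 0) (p (nat_lit 0x40212) (nat_lit 0) (p (nat_lit 0x28192) (nat_lit 0) (p (nat_lit 0x30092) (nat_lit 0) (p (nat_lit 0x18012)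 (nat_lit 0) pn))))))))))))))))))))))))) :=
  Cl.node (nat_lit 0xb0004) (nat_lit 2) (by decide +kernel) (ClAll.succ (ClAll.succ ClAll.zero n27) s11)

def n54 : Cl (O (nat_lit 2)) (R (nat_lit 135377))
    (p (nat_lit 0x20000c) (nat_lit 0) (p (nat_lit 0xc9) (nat_lit 0) (p (nat_lit 0xc1) (nat_lit 0) (p (nat_lit 0x81) (nat_lit 1) (p (nat_lit 0x101) (nat_lit 1) (p (nat_lit 0x119) (nat_lit 0) (p (nat_lit 0xd1) (nat_lit 0) (p (nat_lit 0x89) (nat_lit 0) (p (nat_lit 0x41) (nat_lit 0) (p (nat_lit 0x89080787089a) (nat_lit 0) (p (nat_lit 0x88878706861a) (nat_lit 0) (p (nat_lit 0x80000000080686078a) (nat_lit 0) (p (nat_lit 0x80000000078605850a) (nat_lit 0) (p (nat_lit 0x8605850682) (nat_lit 0) (p (nat_lit 0x8585048402) (nat_lit 0) (p (nat_lit 0x160014) (nat_lit 0) (p (nat_lit 0x160004) (nat_lit 0) (p (nat_lit 0x60592) (nat_lit 0) (p (nat_lit 0x48512) (nat_lit 0) (p (nat_lit 0x50392) (nat_lit 0)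 (p (nat_lit 0x38312) (nat_lit 0) (p (nat_lit 0x40212) (nat_lit 0) (p (nat_lit 0x28192) (nat_lit 0) (p (nat_lit 0x30092) (nat_lit 0) (p (nat_lit 0x18012) (nat_lit 0) pn))))))))))))))))))))))))) :=
  Cl.node (nat_lit 0xb0004) (nat_lit 2) (by decide +kernel) (ClAll.succ (ClAll.succ ClAll.zero s14) s15)

def n55 : Cl (O (nat_lit 2)) (R (nat_lit 135377))
    (p (nat_lit 0x20000c) (nat_lit 0) (p (nat_lit 0xc9) (nat_lit 1) (p (nat_lit 0xc1) (nat_lit 0) (p (nat_lit 0x81) (nat_lit 1) (p (nat_lit 0x101) (nat_lit 1) (p (nat_lit 0x119) (nat_lit 0) (p (nat_lit 0xd1) (nat_lit 0) (p (nat_lit 0x89) (nat_lit 0) (p (nat_lit 0x41) (nat_lit 0) (p (nat_lit 0x89080787089a) (nat_lit 0) (p (nat_lit 0x88878706861a) (nat_lit 0) (p (nat_lit 0x80000000080686078a) (nat_lit 0) (p (nat_lit 0x80000000078605850a) (nat_lit 0) (p (nat_lit 0x8605850682) (nat_lit 0) (p (nat_lit 0x8585048402) (nat_lit 0) (p (nat_lit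 0x160014) (nat_lit 0) (p (nat_lit 0x160004) (nat_lit 0) (p (nat_lit 0x60592) (nat_lit 0) (p (nat_lit 0x48512) (nat_lit 0) (p (nat_lit 0x50392) (nat_lit 0) (p (nat_lit 0x38312) (nat_lit 0) (p (nat_lit 0x40212) (nat_lit 0) (p (nat_lit 0x28192) (nat_lit 0) (p (nat_lit 0x30092) (nat_lit 0) (p (nat_lit 0x18012) (nat_lit 0) pn))))))))))))))))))))))))) :=
  Cl.node (nat_lit 0xb0004) (nat_lit 2) (by decide +kernel) (ClAll.succ (ClAll.succ ClAll.zero n28) s19)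

def n56 : Cl (O (nat_lit 2)) (R (nat_lit 135377))
    (p (nat_lit 0x20000c) (nat_lit 0) (p (nat_lit 0x109) (nat_lit 0) (p (nat_lit 0x101) (nat_lit 0) (p (nat_lit 0x81) (nat_lit 1) (p (nat_lit 0xc1) (nat_lit 1) (p (nat_lit 0x119) (nat_lit 1) (p (nat_lit 0xd1) (nat_lit 0) (p (nat_lit 0x89) (nat_lit 0) (p (nat_lit 0x41) (nat_lit 0) (p (nat_lit 0x89080787089a) (nat_lit 0) (p (nat_lit 0x88878706861a) (nat_lit 0) (p (nat_lit 0x80000000080686078a) (nat_lit 0) (p (nat_lit 0x80000000078605850a) (nat_lit 0) (p (nat_lit 0x8605850682) (nat_lit 0) (p (nat_lit 0x8585048402) (nat_lit 0) (p (nat_lit 0x160014) (nat_lit 0) (p (nat_lit 0x160004) (nat_lit 0) (p (nat_lit 0x60592) (nat_lit 0) (p (nat_lit 0x48512) (nat_lit 0) (p (nat_lit 0x50392) (nat_lit 0) (p (nat_lit 0x38312) (nat_lit 0) (p (nat_lit 0x40212) (nat_lit 0) (p (nat_lit 0x28192) (nat_lit 0) (p (nat_lit 0x30092) (nat_lit 0) (p (nat_lit 0x18012)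 (nat_lit 0) pn))))))))))))))))))))))))) :=
  Cl.node (nat_lit 0xb0004) (nat_lit 2) (by decide +kernel) (ClAll.succ (ClAll.succ ClAll.zero s31) s32)

def n57 : Cl (O (nat_lit 2)) (R (nat_lit 135377))
    (p (nat_lit 0x20000c) (nat_lit 0) (p (nat_lit 0x109) (nat_lit 1) (p (nat_lit 0x101) (nat_lit 0) (p (nat_lit 0x81) (nat_lit 1) (p (nat_lit 0xc1) (nat_lit 1) (p (nat_lit 0x119) (nat_lit 1) (p (nat_lit 0xd1) (nat_lit 0) (p (nat_lit 0x89) (nat_lit 0) (p (nat_lit 0x41) (nat_lit 0) (p (nat_lit 0x89080787089a) (nat_lit 0) (p (nat_lit 0x88878706861a) (nat_lit 0) (p (nat_lit 0x80000000080686078a) (nat_lit 0) (p (nat_lit 0x80000000078605850a) (nat_lit 0) (p (nat_lit 0x8605850682) (nat_lit 0) (p (nat_lit 0x8585048402) (nat_lit 0) (p (nat_lit 0x160014) (nat_lit 0) (p (nat_lit 0x160004) (nat_lit 0) (p (nat_lit 0x60592) (nat_lit 0) (p (nat_lit 0x48512) (nat_lit 0) (p (nat_lit 0x50392) (nat_lit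 0) (p (nat_lit 0x38312) (nat_lit 0) (p (nat_lit 0x40212) (nat_lit 0) (p (nat_lit 0x28192) (nat_lit 0) (p (nat_lit 0x30092) (nat_lit 0) (p (nat_lit 0x18012) (nat_lit 0) pn))))))))))))))))))))))))) :=
  Cl.node (nat_lit 0xb0004) (nat_lit 2) (by decide +kernel) (ClAll.succ (ClAll.succ ClAll.zero s34) s35)

def n58 : Cl (O (nat_lit 2)) (R (nat_lit 135377))
    (p (nat_lit 0x119) (nat_lit 0) (p (nat_lit 0x20000c) (nat_lit 0) (p (nat_lit 0xc1) (nat_lit 0) (p (nat_lit 0x81) (nat_lit 1) (p (nat_lit 0x101) (nat_lit 1) (p (nat_lit 0x111) (nat_lit 0) (p (nat_lit 0xd1) (nat_lit 1) (p (nat_lit 0x89) (nat_lit 0) (p (nat_lit 0x41) (nat_lit 0) (p (nat_lit 0x89080787089a) (nat_lit 0) (p (nat_lit 0x88878706861a) (nat_lit 0) (p (nat_lit 0x80000000080686078a) (nat_lit 0) (p (nat_lit 0x80000000078605850a) (nat_lit 0) (p (nat_lit 0x8605850682) (nat_lit 0) (p (nat_lit 0x8585048402) (nat_lit 0) (p (nat_lit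 0x160014) (nat_lit 0) (p (nat_lit 0x160004) (nat_lit 0) (p (nat_lit 0x60592) (nat_lit 0) (p (nat_lit 0x48512) (nat_lit 0) (p (nat_lit 0x50392) (nat_lit 0) (p (nat_lit 0x38312) (nat_lit 0) (p (nat_lit 0x40212) (nat_lit 0) (p (nat_lit 0x28192) (nat_lit 0) (p (nat_lit 0x30092) (nat_lit 0) (p (nat_lit 0x18012) (nat_lit 0) pn))))))))))))))))))))))))) :=
  Cl.node (nat_lit 0xb0004) (nat_lit 2) (by decide +kernel) (ClAll.succ (ClAll.succ ClAll.zero n29) s49)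

def n59 : Cl (O (nat_lit 2)) (R (nat_lit 135377))
    (p (nat_lit 0x119) (nat_lit 1) (p (nat_lit 0x20000c) (nat_lit 0) (p (nat_lit 0xc1) (nat_lit 0) (p (nat_lit 0x81) (nat_lit 1) (p (nat_lit 0x101) (nat_lit 1) (p (nat_lit 0x111) (nat_lit 0) (p (nat_lit 0xd1) (nat_lit 1) (p (nat_lit 0x89) (nat_lit 0) (p (nat_lit 0x41) (nat_lit 0) (p (nat_lit 0x89080787089a) (nat_lit 0) (p (nat_lit 0x88878706861a) (nat_lit 0) (p (nat_lit 0x80000000080686078a) (nat_lit 0) (p (nat_lit 0x80000000078605850a) (nat_lit 0) (p (nat_lit 0x8605850682) (nat_lit 0) (p (nat_lit 0x8585048402) (nat_lit 0) (p (nat_lit 0x160014) (nat_lit 0) (p (nat_lit 0x160004) (nat_lit 0) (p (nat_lit 0x60592) (nat_lit 0) (p (nat_lit 0x48512) (nat_lit 0) (p (nat_lit 0x50392) (nat_lit 0) (p (nat_lit 0x38312) (nat_lit 0) (p (nat_lit 0x40212) (nat_lit 0) (p (nat_lit 0x28192) (nat_lit 0) (p (nat_lit 0x30092) (nat_lit 0) (p (nat_lit 0x18012)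 (nat_lit 0) pn))))))))))))))))))))))))) :=
  Cl.node (nat_lit 0xb0004) (nat_lit 2) (by decide +kernel) (ClAll.succ (ClAll.succ ClAll.zero s50) s51)

def n60 : Cl (O (nat_lit 2)) (R (nat_lit 135377))
    (p (nat_lit 0xb0004) (nat_lit 0) (p (nat_lit 0x20000c) (nat_lit 1) (p (nat_lit 0xc1) (nat_lit 0) (p (nat_lit 0x81) (nat_lit 1) (p (nat_lit 0x101) (nat_lit 1) (p (nat_lit 0x111) (nat_lit 0) (p (nat_lit 0xd1) (nat_lit 1) (p (nat_lit 0x89) (nat_lit 0) (p (nat_lit 0x41) (nat_lit 0) (p (nat_lit 0x89080787089a) (nat_lit 0) (p (nat_lit 0x88878706861a) (nat_lit 0) (p (nat_lit 0x80000000080686078a) (nat_lit 0) (p (nat_lit 0x80000000078605850a) (nat_lit 0) (p (nat_lit 0x8605850682) (nat_lit 0) (p (nat_lit 0x8585048402) (nat_lit 0) (p (nat_lit 0x160014) (nat_lit 0) (p (nat_lit 0x160004) (nat_lit 0) (p (nat_lit 0x60592) (nat_lit 0) (p (nat_lit 0x48512) (nat_lit 0) (p (nat_lit 0x50392) (nat_lit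 0) (p (nat_lit 0x38312) (nat_lit 0) (p (nat_lit 0x40212) (nat_lit 0) (p (nat_lit 0x28192) (nat_lit 0) (p (nat_lit 0x30092) (nat_lit 0) (p (nat_lit 0x18012) (nat_lit 0) pn))))))))))))))))))))))))) :=
  Cl.node (nat_lit 0xb0014) (nat_lit 2) (by decide +kernel) (ClAll.succ (ClAll.succ ClAll.zero n30) s54)

def n61 : Cl (O (nat_lit 2)) (R (nat_lit 135377))
    (p (nat_lit 0xb0004) (nat_lit 0) (p (nat_lit 0x20000c) (nat_lit 1) (p (nat_lit 0xd1) (nat_lit 0) (p (nat_lit 0x109) (nat_lit 1) (p (nat_lit 0x101) (nat_lit 0) (p (nat_lit 0x119) (nat_lit 0) (p (nat_lit 0xc9) (nat_lit 0) (p (nat_lit 0x89) (nat_lit 1) (p (nat_lit 0x41) (nat_lit 0) (p (nat_lit 0x89080787089a) (nat_lit 0) (p (nat_lit 0x88878706861a) (nat_lit 0) (p (nat_lit 0x80000000080686078a) (nat_lit 0) (p (nat_lit 0x80000000078605850a) (nat_lit 0) (p (nat_lit 0x8605850682) (nat_lit 0) (p (nat_lit 0x8585048402) (nat_lit 0) (p (nat_lit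 0x160014) (nat_lit 0) (p (nat_lit 0x160004) (nat_lit 0) (p (nat_lit 0x60592) (nat_lit 0) (p (nat_lit 0x48512) (nat_lit 0) (p (nat_lit 0x50392) (nat_lit 0) (p (nat_lit 0x38312) (nat_lit 0) (p (nat_lit 0x40212) (nat_lit 0) (p (nat_lit 0x28192) (nat_lit 0) (p (nat_lit 0x30092) (nat_lit 0) (p (nat_lit 0x18012) (nat_lit 0) pn))))))))))))))))))))))))) :=
  Cl.node (nat_lit 0xb0014) (nat_lit 2) (by decide +kernel) (ClAll.succ (ClAll.succ ClAll.zero n31) s69)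

def n62 : Cl (O (nat_lit 2)) (R (nat_lit 135377))
    (p (nat_lit 0xb0004) (nat_lit 0) (p (nat_lit 0x20000c) (nat_lit 0) (p (nat_lit 0xd1) (nat_lit 1) (p (nat_lit 0x109) (nat_lit 1) (p (nat_lit 0x101) (nat_lit 0) (p (nat_lit 0x119) (nat_lit 0) (p (nat_lit 0xc9) (nat_lit 0) (p (nat_lit 0x89) (nat_lit 1) (p (nat_lit 0x41) (nat_lit 0) (p (nat_lit 0x89080787089a) (nat_lit 0) (p (nat_lit 0x88878706861a) (nat_lit 0) (p (nat_lit 0x80000000080686078a) (nat_lit 0) (p (nat_lit 0x80000000078605850a) (nat_lit 0) (p (nat_lit 0x8605850682) (nat_lit 0) (p (nat_lit 0x8585048402) (nat_lit 0) (p (nat_lit 0x160014) (nat_lit 0) (p (nat_lit 0x160004) (nat_lit 0) (p (nat_lit 0x60592) (nat_lit 0) (p (nat_lit 0x48512) (nat_lit 0) (p (nat_lit 0x50392) (nat_lit 0) (p (nat_lit 0x38312) (nat_lit 0) (p (nat_lit 0x40212) (nat_lit 0) (p (nat_lit 0x28192) (nat_lit 0) (p (nat_lit 0x30092) (nat_lit 0) (p (nat_lit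 0x18012) (nat_lit 0) pn))))))))))))))))))))))))) :=
  Cl.node (nat_lit 0xb0014) (nat_lit 2) (by decide +kernel) (ClAll.succ (ClAll.succ ClAll.zero s71) s72)

def n63 : Cl (O (nat_lit 2)) (R (nat_lit 135377))
    (p (nat_lit 0xb0004) (nat_lit 0) (p (nat_lit 0x20000c) (nat_lit 1) (p (nat_lit 0xd1) (nat_lit 1) (p (nat_lit 0x109) (nat_lit 1) (p (nat_lit 0x101) (nat_lit 0) (p (nat_lit 0x119) (nat_lit 0) (p (nat_lit 0xc9) (nat_lit 0) (p (nat_lit 0x89) (nat_lit 1) (p (nat_lit 0x41) (nat_lit 0) (p (nat_lit 0x89080787089a) (nat_lit 0) (p (nat_lit 0x88878706861a) (nat_lit 0) (p (nat_lit 0x80000000080686078a) (nat_lit 0) (p (nat_lit 0x80000000078605850a) (nat_lit 0) (p (nat_lit 0x8605850682) (nat_lit 0) (p (nat_lit 0x8585048402) (nat_lit 0) (p (nat_lit 0x160014) (nat_lit 0) (p (nat_lit 0x160004) (nat_lit 0) (p (nat_lit 0x60592) (nat_lit 0) (p (nat_lit 0x48512) (nat_lit 0) (p (nat_lit 0x50392)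 (nat_lit 0) (p (nat_lit 0x38312) (nat_lit 0) (p (nat_lit 0x40212) (nat_lit 0) (p (nat_lit 0x28192) (nat_lit 0) (p (nat_lit 0x30092) (nat_lit 0) (p (nat_lit 0x18012) (nat_lit 0) pn))))))))))))))))))))))))) :=
  Cl.node (nat_lit 0xb0014) (nat_lit 2) (by decide +kernel) (ClAll.succ (ClAll.succ ClAll.zero n32) s76)

def n64 : Cl (O (nat_lit 2)) (R (nat_lit 135377))
    (p (nat_lit 0xb0004) (nat_lit 0) (p (nat_lit 0x20000c) (nat_lit 1) (p (nat_lit 0xd1) (nat_lit 0) (p (nat_lit 0xc1) (nat_lit 0) (p (nat_lit 0x101) (nat_lit 1) (p (nat_lit 0x119) (nat_lit 0) (p (nat_lit 0xc9) (nat_lit 0) (p (nat_lit 0x89) (nat_lit 1) (p (nat_lit 0x41) (nat_lit 0) (p (nat_lit 0x89080787089a) (nat_lit 0) (p (nat_lit 0x88878706861a) (nat_lit 0) (p (nat_lit 0x80000000080686078a) (nat_lit 0) (p (nat_lit 0x80000000078605850a) (nat_lit 0) (p (nat_lit 0x8605850682) (nat_lit 0) (p (nat_lit 0x8585048402) (nat_lit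 0) (p (nat_lit 0x160014) (nat_lit 0) (p (nat_lit 0x160004) (nat_lit 0) (p (nat_lit 0x60592) (nat_lit 0) (p (nat_lit 0x48512) (nat_lit 0) (p (nat_lit 0x50392) (nat_lit 0) (p (nat_lit 0x38312) (nat_lit 0) (p (nat_lit 0x40212) (nat_lit 0) (p (nat_lit 0x28192) (nat_lit 0) (p (nat_lit 0x30092) (nat_lit 0) (p (nat_lit 0x18012) (nat_lit 0) pn))))))))))))))))))))))))) :=
  Cl.node (nat_lit 0xb0014) (nat_lit 2) (by decide +kernel) (ClAll.succ (ClAll.succ ClAll.zero n33) s82)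

def n65 : Cl (O (nat_lit 2)) (R (nat_lit 135377))
    (p (nat_lit 0xb0004) (nat_lit 0) (p (nat_lit 0x20000c) (nat_lit 0) (p (nat_lit 0xd1) (nat_lit 1) (p (nat_lit 0xc1) (nat_lit 0) (p (nat_lit 0x101) (nat_lit 1) (p (nat_lit 0x119) (nat_lit 0) (p (nat_lit 0xc9) (nat_lit 0) (p (nat_lit 0x89) (nat_lit 1) (p (nat_lit 0x41) (nat_lit 0) (p (nat_lit 0x89080787089a) (nat_lit 0) (p (nat_lit 0x88878706861a) (nat_lit 0) (p (nat_lit 0x80000000080686078a) (nat_lit 0) (p (nat_lit 0x80000000078605850a) (nat_lit 0) (p (nat_lit 0x8605850682) (nat_lit 0) (p (nat_lit 0x8585048402) (nat_lit 0) (p (nat_lit 0x160014) (nat_lit 0) (p (nat_lit 0x160004) (nat_lit 0) (p (nat_lit 0x60592) (nat_lit 0) (p (nat_lit 0x48512) (nat_lit 0) (p (nat_lit 0x50392) (nat_lit 0) (p (nat_lit 0x38312) (nat_lit 0) (p (nat_lit 0x40212) (nat_lit 0) (p (nat_lit 0x28192) (nat_lit 0) (p (nat_lit 0x30092) (nat_lit 0) (p (nat_lit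 0x18012) (nat_lit 0) pn))))))))))))))))))))))))) :=
  Cl.node (nat_lit 0xb0014) (nat_lit 2) (by decide +kernel) (ClAll.succ (ClAll.succ ClAll.zero n34) s86)

def n66 : Cl (O (nat_lit 2)) (R (nat_lit 135377))
    (p (nat_lit 0xb0004) (nat_lit 0) (p (nat_lit 0x20000c) (nat_lit 0) (p (nat_lit 0x111) (nat_lit 1) (p (nat_lit 0xd1) (nat_lit 1) (p (nat_lit 0xc1) (nat_lit 0) (p (nat_lit 0x119) (nat_lit 1) (p (nat_lit 0xc9) (nat_lit 0) (p (nat_lit 0x89) (nat_lit 1) (p (nat_lit 0x41) (nat_lit 0) (p (nat_lit 0x89080787089a) (nat_lit 0) (p (nat_lit 0x88878706861a) (nat_lit 0) (p (nat_lit 0x80000000080686078a) (nat_lit 0) (p (nat_lit 0x80000000078605850a) (nat_lit 0) (p (nat_lit 0x8605850682) (nat_lit 0) (p (nat_lit 0x8585048402) (nat_lit 0) (p (nat_lit 0x160014) (nat_lit 0) (p (nat_lit 0x160004) (nat_lit 0) (p (nat_lit 0x60592) (nat_lit 0) (p (nat_lit 0x48512) (nat_lit 0) (p (nat_lit 0x50392)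 (nat_lit 0) (p (nat_lit 0x38312) (nat_lit 0) (p (nat_lit 0x40212) (nat_lit 0) (p (nat_lit 0x28192) (nat_lit 0) (p (nat_lit 0x30092) (nat_lit 0) (p (nat_lit 0x18012) (nat_lit 0) pn))))))))))))))))))))))))) :=
  Cl.node (nat_lit 0xb0014) (nat_lit 2) (by decide +kernel) (ClAll.succ (ClAll.succ ClAll.zero s92) s93)

def n67 : Cl (O (nat_lit 2)) (R (nat_lit 135377))
    (p (nat_lit 0x111) (nat_lit 0) (p (nat_lit 0x20000c) (nat_lit 0) (p (nat_lit 0x89) (nat_lit 0) (p (nat_lit 0x109) (nat_lit 1) (p (nat_lit 0x101) (nat_lit 0) (p (nat_lit 0x119) (nat_lit 0) (p (nat_lit 0xd1) (nat_lit 0) (p (nat_lit 0x81) (nat_lit 0) (p (nat_lit 0x41) (nat_lit 1) (p (nat_lit 0x89080787089a) (nat_lit 0) (p (nat_lit 0x88878706861a) (nat_lit 0) (p (nat_lit 0x80000000080686078a) (nat_lit 0) (p (nat_lit 0x80000000078605850a) (nat_lit 0) (p (nat_lit 0x8605850682) (nat_lit 0) (p (nat_lit 0x8585048402) (nat_lit 0)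 (p (nat_lit 0x160014) (nat_lit 0) (p (nat_lit 0x160004) (nat_lit 0) (p (nat_lit 0x60592) (nat_lit 0) (p (nat_lit 0x48512) (nat_lit 0) (p (nat_lit 0x50392) (nat_lit 0) (p (nat_lit 0x38312) (nat_lit 0) (p (nat_lit 0x40212) (nat_lit 0) (p (nat_lit 0x28192) (nat_lit 0) (p (nat_lit 0x30092) (nat_lit 0) (p (nat_lit 0x18012) (nat_lit 0) pn))))))))))))))))))))))))) :=
  Cl.node (nat_lit 0xb0004) (nat_lit 2) (by decide +kernel) (ClAll.succ (ClAll.succ ClAll.zero n35) s105)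

def n68 : Cl (O (nat_lit 2)) (R (nat_lit 135377))
    (p (nat_lit 0x20000c) (nat_lit 0) (p (nat_lit 0xc9) (nat_lit 0) (p (nat_lit 0x89) (nat_lit 1) (p (nat_lit 0x109) (nat_lit 1) (p (nat_lit 0x101) (nat_lit 0) (p (nat_lit 0x119) (nat_lit 0) (p (nat_lit 0xd1) (nat_lit 0) (p (nat_lit 0x81) (nat_lit 0) (p (nat_lit 0x41) (nat_lit 1) (p (nat_lit 0x89080787089a) (nat_lit 0) (p (nat_lit 0x88878706861a) (nat_lit 0) (p (nat_lit 0x80000000080686078a) (nat_lit 0) (p (nat_lit 0x80000000078605850a) (nat_lit 0) (p (nat_lit 0x8605850682) (nat_lit 0) (p (nat_lit 0x8585048402) (nat_lit 0) (p (nat_lit 0x160014) (nat_lit 0) (p (nat_lit 0x160004) (nat_lit 0) (p (nat_lit 0x60592) (nat_lit 0) (p (nat_lit 0x48512) (nat_lit 0) (p (nat_lit 0x50392) (nat_lit 0) (p (nat_lit 0x38312) (nat_lit 0) (p (nat_lit 0x40212) (nat_lit 0) (p (nat_lit 0x28192) (nat_lit 0) (p (nat_lit 0x30092) (nat_lit 0) (p (nat_lit 0x18012)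 (nat_lit 0) pn))))))))))))))))))))))))) :=
  Cl.node (nat_lit 0xb0004) (nat_lit 2) (by decide +kernel) (ClAll.succ (ClAll.succ ClAll.zero n36) s110)

def n69 : Cl (O (nat_lit 2)) (R (nat_lit 135377))
    (p (nat_lit 0x20000c) (nat_lit 0) (p (nat_lit 0xc9) (nat_lit 0) (p (nat_lit 0x89) (nat_lit 1) (p (nat_lit 0xc1) (nat_lit 0) (p (nat_lit 0x101) (nat_lit 1) (p (nat_lit 0x119) (nat_lit 0) (p (nat_lit 0xd1) (nat_lit 0) (p (nat_lit 0x81) (nat_lit 0) (p (nat_lit 0x41) (nat_lit 1) (p (nat_lit 0x89080787089a) (nat_lit 0) (p (nat_lit 0x88878706861a) (nat_lit 0) (p (nat_lit 0x80000000080686078a) (nat_lit 0) (p (nat_lit 0x80000000078605850a) (nat_lit 0) (p (nat_lit 0x8605850682) (nat_lit 0) (p (nat_lit 0x8585048402) (nat_lit 0) (p (nat_lit 0x160014) (nat_lit 0) (p (nat_lit 0x160004) (nat_lit 0) (p (nat_lit 0x60592) (nat_lit 0) (p (nat_lit 0x48512) (nat_lit 0) (p (nat_lit 0x50392) (nat_lit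 0) (p (nat_lit 0x38312) (nat_lit 0) (p (nat_lit 0x40212) (nat_lit 0) (p (nat_lit 0x28192) (nat_lit 0) (p (nat_lit 0x30092) (nat_lit 0) (p (nat_lit 0x18012) (nat_lit 0) pn))))))))))))))))))))))))) :=
  Cl.node (nat_lit 0xb0004) (nat_lit 2) (by decide +kernel) (ClAll.succ (ClAll.succ ClAll.zero n37) s118)

def n70 : Cl (O (nat_lit 2)) (R (nat_lit 135377))
    (p (nat_lit 0x20000c) (nat_lit 0) (p (nat_lit 0xc9) (nat_lit 1) (p (nat_lit 0x89) (nat_lit 1) (p (nat_lit 0xc1) (nat_lit 0) (p (nat_lit 0x101) (nat_lit 1) (p (nat_lit 0x119) (nat_lit 0) (p (nat_lit 0xd1) (nat_lit 0) (p (nat_lit 0x81) (nat_lit 0) (p (nat_lit 0x41) (nat_lit 1) (p (nat_lit 0x89080787089a) (nat_lit 0) (p (nat_lit 0x88878706861a) (nat_lit 0) (p (nat_lit 0x80000000080686078a) (nat_lit 0) (p (nat_lit 0x80000000078605850a) (nat_lit 0) (p (nat_lit 0x8605850682) (nat_lit 0) (p (nat_lit 0x8585048402) (nat_lit 0) (p (nat_lit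 0x160014) (nat_lit 0) (p (nat_lit 0x160004) (nat_lit 0) (p (nat_lit 0x60592) (nat_lit 0) (p (nat_lit 0x48512) (nat_lit 0) (p (nat_lit 0x50392) (nat_lit 0) (p (nat_lit 0x38312) (nat_lit 0) (p (nat_lit 0x40212) (nat_lit 0) (p (nat_lit 0x28192) (nat_lit 0) (p (nat_lit 0x30092) (nat_lit 0) (p (nat_lit 0x18012) (nat_lit 0) pn))))))))))))))))))))))))) :=
  Cl.node (nat_lit 0xb0004) (nat_lit 2) (by decide +kernel) (ClAll.succ (ClAll.succ ClAll.zero n38) s124)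

def n71 : Cl (O (nat_lit 2)) (R (nat_lit 135377))
    (p (nat_lit 0xb0004) (nat_lit 0) (p (nat_lit 0x20000c) (nat_lit 0) (p (nat_lit 0x89) (nat_lit 1) (p (nat_lit 0xc1) (nat_lit 1) (p (nat_lit 0x101) (nat_lit 1) (p (nat_lit 0x119) (nat_lit 0) (p (nat_lit 0xd1) (nat_lit 0) (p (nat_lit 0x81) (nat_lit 0) (p (nat_lit 0x41) (nat_lit 1) (p (nat_lit 0x89080787089a) (nat_lit 0) (p (nat_lit 0x88878706861a) (nat_lit 0) (p (nat_lit 0x80000000080686078a) (nat_lit 0) (p (nat_lit 0x80000000078605850a) (nat_lit 0) (p (nat_lit 0x8605850682) (nat_lit 0) (p (nat_lit 0x8585048402) (nat_lit 0) (p (nat_lit 0x160014) (nat_lit 0) (p (nat_lit 0x160004) (nat_lit 0) (p (nat_lit 0x60592) (nat_lit 0) (p (nat_lit 0x48512) (nat_lit 0) (p (nat_lit 0x50392) (nat_lit 0) (p (nat_lit 0x38312) (nat_lit 0) (p (nat_lit 0x40212) (nat_lit 0) (p (nat_lit 0x28192) (nat_lit 0) (p (nat_lit 0x30092) (nat_lit 0) (p (nat_lit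 0x18012) (nat_lit 0) pn))))))))))))))))))))))))) :=
  Cl.node (nat_lit 0xb0014) (nat_lit 2) (by decide +kernel) (ClAll.succ (ClAll.succ ClAll.zero n39) s134)

def n72 : Cl (O (nat_lit 2)) (R (nat_lit 135377))
    (p (nat_lit 0xb0004) (nat_lit 1) (p (nat_lit 0x20000c) (nat_lit 0) (p (nat_lit 0x89) (nat_lit 1) (p (nat_lit 0xc1) (nat_lit 1) (p (nat_lit 0x101) (nat_lit 1) (p (nat_lit 0x119) (nat_lit 0) (p (nat_lit 0xd1) (nat_lit 0) (p (nat_lit 0x81) (nat_lit 0) (p (nat_lit 0x41) (nat_lit 1) (p (nat_lit 0x89080787089a) (nat_lit 0) (p (nat_lit 0x88878706861a) (nat_lit 0) (p (nat_lit 0x80000000080686078a) (nat_lit 0) (p (nat_lit 0x80000000078605850a) (nat_lit 0) (p (nat_lit 0x8605850682) (nat_lit 0) (p (nat_lit 0x8585048402) (nat_lit 0) (p (nat_lit 0x160014) (nat_lit 0) (p (nat_lit 0x160004) (nat_lit 0) (p (nat_lit 0x60592) (nat_lit 0) (p (nat_lit 0x48512) (nat_lit 0) (p (nat_lit 0x50392)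 (nat_lit 0) (p (nat_lit 0x38312) (nat_lit 0) (p (nat_lit 0x40212) (nat_lit 0) (p (nat_lit 0x28192) (nat_lit 0) (p (nat_lit 0x30092) (nat_lit 0) (p (nat_lit 0x18012) (nat_lit 0) pn))))))))))))))))))))))))) :=
  Cl.node (nat_lit 0xb0014) (nat_lit 2) (by decide +kernel) (ClAll.succ (ClAll.succ ClAll.zero n40) s137)

def n73 : Cl (O (nat_lit 2)) (R (nat_lit 135377))
    (p (nat_lit 0x20000c) (nat_lit 0) (p (nat_lit 0x109) (nat_lit 0) (p (nat_lit 0x89) (nat_lit 1) (p (nat_lit 0xc9) (nat_lit 1) (p (nat_lit 0xc1) (nat_lit 0) (p (nat_lit 0x119) (nat_lit 1) (p (nat_lit 0xd1) (nat_lit 0) (p (nat_lit 0x81) (nat_lit 0) (p (nat_lit 0x41) (nat_lit 1) (p (nat_lit 0x89080787089a) (nat_lit 0) (p (nat_lit 0x88878706861a) (nat_lit 0) (p (nat_lit 0x80000000080686078a) (nat_lit 0) (p (nat_lit 0x80000000078605850a) (nat_lit 0) (p (nat_lit 0x8605850682) (nat_lit 0) (p (nat_lit 0x8585048402) (nat_lit 0)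 (p (nat_lit 0x160014) (nat_lit 0) (p (nat_lit 0x160004) (nat_lit 0) (p (nat_lit 0x60592) (nat_lit 0) (p (nat_lit 0x48512) (nat_lit 0) (p (nat_lit 0x50392) (nat_lit 0) (p (nat_lit 0x38312) (nat_lit 0) (p (nat_lit 0x40212) (nat_lit 0) (p (nat_lit 0x28192) (nat_lit 0) (p (nat_lit 0x30092) (nat_lit 0) (p (nat_lit 0x18012) (nat_lit 0) pn))))))))))))))))))))))))) :=
  Cl.node (nat_lit 0xb0004) (nat_lit 2) (by decide +kernel) (ClAll.succ (ClAll.succ ClAll.zero n41) s144)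

def n74 : Cl (O (nat_lit 2)) (R (nat_lit 135377))
    (p (nat_lit 0x20000c) (nat_lit 0) (p (nat_lit 0x109) (nat_lit 1) (p (nat_lit 0x89) (nat_lit 1) (p (nat_lit 0xc9) (nat_lit 1) (p (nat_lit 0xc1) (nat_lit 0) (p (nat_lit 0x119) (nat_lit 1) (p (nat_lit 0xd1) (nat_lit 0) (p (nat_lit 0x81) (nat_lit 0) (p (nat_lit 0x41) (nat_lit 1) (p (nat_lit 0x89080787089a) (nat_lit 0) (p (nat_lit 0x88878706861a) (nat_lit 0) (p (nat_lit 0x80000000080686078a) (nat_lit 0) (p (nat_lit 0x80000000078605850a) (nat_lit 0) (p (nat_lit 0x8605850682) (nat_lit 0) (p (nat_lit 0x8585048402) (nat_lit 0) (p (nat_lit 0x160014) (nat_lit 0) (p (nat_lit 0x160004) (nat_lit 0) (p (nat_lit 0x60592) (nat_lit 0) (p (nat_lit 0x48512) (nat_lit 0) (p (nat_lit 0x50392) (nat_lit 0) (p (nat_lit 0x38312) (nat_lit 0) (p (nat_lit 0x40212) (nat_lit 0) (p (nat_lit 0x28192) (nat_lit 0) (p (nat_lit 0x30092) (nat_lit 0) (p (nat_lit 0x18012)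 (nat_lit 0) pn))))))))))))))))))))))))) :=
  Cl.node (nat_lit 0xb0004) (nat_lit 2) (by decide +kernel) (ClAll.succ (ClAll.succ ClAll.zero n42) s148)

def n75 : Cl (O (nat_lit 2)) (R (nat_lit 135377))
    (p (nat_lit 0x20000c) (nat_lit 0) (p (nat_lit 0x109) (nat_lit 0) (p (nat_lit 0x89) (nat_lit 1) (p (nat_lit 0x101) (nat_lit 0) (p (nat_lit 0xc1) (nat_lit 1) (p (nat_lit 0x119) (nat_lit 1) (p (nat_lit 0xd1) (nat_lit 0) (p (nat_lit 0x81) (nat_lit 0) (p (nat_lit 0x41) (nat_lit 1) (p (nat_lit 0x89080787089a) (nat_lit 0) (p (nat_lit 0x88878706861a) (nat_lit 0) (p (nat_lit 0x80000000080686078a) (nat_lit 0) (p (nat_lit 0x80000000078605850a) (nat_lit 0) (p (nat_lit 0x8605850682) (nat_lit 0) (p (nat_lit 0x8585048402) (nat_lit 0) (p (nat_lit 0x160014) (nat_lit 0) (p (nat_lit 0x160004) (nat_lit 0) (p (nat_lit 0x60592) (nat_lit 0) (p (nat_lit 0x48512) (nat_lit 0) (p (nat_lit 0x50392) (nat_lit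 0) (p (nat_lit 0x38312) (nat_lit 0) (p (nat_lit 0x40212) (nat_lit 0) (p (nat_lit 0x28192) (nat_lit 0) (p (nat_lit 0x30092) (nat_lit 0) (p (nat_lit 0x18012) (nat_lit 0) pn))))))))))))))))))))))))) :=
  Cl.node (nat_lit 0xb0004) (nat_lit 2) (by decide +kernel) (ClAll.succ (ClAll.succ ClAll.zero n43) s153)

def n76 : Cl (O (nat_lit 2)) (R (nat_lit 135377))
    (p (nat_lit 0x20000c) (nat_lit 0) (p (nat_lit 0x109) (nat_lit 1) (p (nat_lit 0x89) (nat_lit 1) (p (nat_lit 0x101) (nat_lit 0) (p (nat_lit 0xc1) (nat_lit 1) (p (nat_lit 0x119) (nat_lit 1) (p (nat_lit 0xd1) (nat_lit 0) (p (nat_lit 0x81) (nat_lit 0) (p (nat_lit 0x41) (nat_lit 1) (p (nat_lit 0x89080787089a) (nat_lit 0) (p (nat_lit 0x88878706861a) (nat_lit 0) (p (nat_lit 0x80000000080686078a) (nat_lit 0) (p (nat_lit 0x80000000078605850a) (nat_lit 0) (p (nat_lit 0x8605850682) (nat_lit 0) (p (nat_lit 0x8585048402) (nat_lit 0) (p (nat_lit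 0x160014) (nat_lit 0) (p (nat_lit 0x160004) (nat_lit 0) (p (nat_lit 0x60592) (nat_lit 0) (p (nat_lit 0x48512) (nat_lit 0) (p (nat_lit 0x50392) (nat_lit 0) (p (nat_lit 0x38312) (nat_lit 0) (p (nat_lit 0x40212) (nat_lit 0) (p (nat_lit 0x28192) (nat_lit 0) (p (nat_lit 0x30092) (nat_lit 0) (p (nat_lit 0x18012) (nat_lit 0) pn))))))))))))))))))))))))) :=
  Cl.node (nat_lit 0xb0004) (nat_lit 2) (by decide +kernel) (ClAll.succ (ClAll.succ ClAll.zero n44) s158)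

def n77 : Cl (O (nat_lit 2)) (R (nat_lit 135377))
    (p (nat_lit 0xb0004) (nat_lit 0) (p (nat_lit 0x20000c) (nat_lit 0) (p (nat_lit 0x89) (nat_lit 1) (p (nat_lit 0x101) (nat_lit 1) (p (nat_lit 0xc1) (nat_lit 1) (p (nat_lit 0x119) (nat_lit 1) (p (nat_lit 0xd1) (nat_lit 0) (p (nat_lit 0x81) (nat_lit 0) (p (nat_lit 0x41) (nat_lit 1) (p (nat_lit 0x89080787089a) (nat_lit 0) (p (nat_lit 0x88878706861a) (nat_lit 0) (p (nat_lit 0x80000000080686078a) (nat_lit 0) (p (nat_lit 0x80000000078605850a) (nat_lit 0) (p (nat_lit 0x8605850682) (nat_lit 0) (p (nat_lit 0x8585048402) (nat_lit 0) (p (nat_lit 0x160014) (nat_lit 0) (p (nat_lit 0x160004) (nat_lit 0) (p (nat_lit 0x60592) (nat_lit 0) (p (nat_lit 0x48512) (nat_lit 0) (p (nat_lit 0x50392) (nat_lit 0) (p (nat_lit 0x38312) (nat_lit 0) (p (nat_lit 0x40212) (nat_lit 0) (p (nat_lit 0x28192) (nat_lit 0) (p (nat_lit 0x30092) (nat_lit 0) (p (nat_lit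 0x18012) (nat_lit 0) pn))))))))))))))))))))))))) :=
  Cl.node (nat_lit 0xb0014) (nat_lit 2) (by decide +kernel) (ClAll.succ (ClAll.succ ClAll.zero n45) s167)

def n78 : Cl (O (nat_lit 2)) (R (nat_lit 135377))
    (p (nat_lit 0xb0004) (nat_lit 1) (p (nat_lit 0x20000c) (nat_lit 0) (p (nat_lit 0x89) (nat_lit 1) (p (nat_lit 0x101) (nat_lit 1) (p (nat_lit 0xc1) (nat_lit 1) (p (nat_lit 0x119) (nat_lit 1) (p (nat_lit 0xd1) (nat_lit 0) (p (nat_lit 0x81) (nat_lit 0) (p (nat_lit 0x41) (nat_lit 1) (p (nat_lit 0x89080787089a) (nat_lit 0) (p (nat_lit 0x88878706861a) (nat_lit 0) (p (nat_lit 0x80000000080686078a) (nat_lit 0) (p (nat_lit 0x80000000078605850a) (nat_lit 0) (p (nat_lit 0x8605850682) (nat_lit 0) (p (nat_lit 0x8585048402) (nat_lit 0) (p (nat_lit 0x160014) (nat_lit 0) (p (nat_lit 0x160004) (nat_lit 0) (p (nat_lit 0x60592) (nat_lit 0) (p (nat_lit 0x48512) (nat_lit 0) (p (nat_lit 0x50392)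 (nat_lit 0) (p (nat_lit 0x38312) (nat_lit 0) (p (nat_lit 0x40212) (nat_lit 0) (p (nat_lit 0x28192) (nat_lit 0) (p (nat_lit 0x30092) (nat_lit 0) (p (nat_lit 0x18012) (nat_lit 0) pn))))))))))))))))))))))))) :=
  Cl.node (nat_lit 0xb0014) (nat_lit 2) (by decide +kernel) (ClAll.succ (ClAll.succ ClAll.zero n46) s170)

def n79 : Cl (O (nat_lit 2)) (R (nat_lit 135377))
    (p (nat_lit 0x20000c) (nat_lit 0) (p (nat_lit 0xc9) (nat_lit 0) (p (nat_lit 0x89) (nat_lit 1) (p (nat_lit 0x109) (nat_lit 1) (p (nat_lit 0x101) (nat_lit 0) (p (nat_lit 0x111) (nat_lit 0) (p (nat_lit 0xd1) (nat_lit 1) (p (nat_lit 0x81) (nat_lit 0) (p (nat_lit 0x41) (nat_lit 1) (p (nat_lit 0x89080787089a) (nat_lit 0) (p (nat_lit 0x88878706861a) (nat_lit 0) (p (nat_lit 0x80000000080686078a) (nat_lit 0) (p (nat_lit 0x80000000078605850a) (nat_lit 0) (p (nat_lit 0x8605850682) (nat_lit 0) (p (nat_lit 0x8585048402) (nat_lit 0)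 (p (nat_lit 0x160014) (nat_lit 0) (p (nat_lit 0x160004) (nat_lit 0) (p (nat_lit 0x60592) (nat_lit 0) (p (nat_lit 0x48512) (nat_lit 0) (p (nat_lit 0x50392) (nat_lit 0) (p (nat_lit 0x38312) (nat_lit 0) (p (nat_lit 0x40212) (nat_lit 0) (p (nat_lit 0x28192) (nat_lit 0) (p (nat_lit 0x30092) (nat_lit 0) (p (nat_lit 0x18012) (nat_lit 0) pn))))))))))))))))))))))))) :=
  Cl.node (nat_lit 0x119) (nat_lit 2) (by decide +kernel) (ClAll.succ (ClAll.succ ClAll.zero s174) n47)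

def n80 : Cl (O (nat_lit 2)) (R (nat_lit 135377))
    (p (nat_lit 0xb0004) (nat_lit 0) (p (nat_lit 0x20000c) (nat_lit 0) (p (nat_lit 0xc9) (nat_lit 0) (p (nat_lit 0x89) (nat_lit 1) (p (nat_lit 0x101) (nat_lit 1) (p (nat_lit 0x111) (nat_lit 0) (p (nat_lit 0xd1) (nat_lit 1) (p (nat_lit 0x81) (nat_lit 0) (p (nat_lit 0x41) (nat_lit 1) (p (nat_lit 0x89080787089a) (nat_lit 0) (p (nat_lit 0x88878706861a) (nat_lit 0) (p (nat_lit 0x80000000080686078a) (nat_lit 0) (p (nat_lit 0x80000000078605850a) (nat_lit 0) (p (nat_lit 0x8605850682) (nat_lit 0) (p (nat_lit 0x8585048402) (nat_lit 0) (p (nat_lit 0x160014) (nat_lit 0) (p (nat_lit 0x160004) (nat_lit 0) (p (nat_lit 0x60592) (nat_lit 0) (p (nat_lit 0x48512) (nat_lit 0) (p (nat_lit 0x50392) (nat_lit 0) (p (nat_lit 0x38312) (nat_lit 0) (p (nat_lit 0x40212) (nat_lit 0) (p (nat_lit 0x28192) (nat_lit 0) (p (nat_lit 0x30092) (nat_lit 0) (p (nat_lit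 0x18012) (nat_lit 0) pn))))))))))))))))))))))))) :=
  Cl.node (nat_lit 0xb0014) (nat_lit 2) (by decide +kernel) (ClAll.succ (ClAll.succ ClAll.zero n48) s186)

def n81 : Cl (O (nat_lit 2)) (R (nat_lit 135377))
    (p (nat_lit 0xb0004) (nat_lit 1) (p (nat_lit 0x20000c) (nat_lit 0) (p (nat_lit 0xc9) (nat_lit 0) (p (nat_lit 0x89) (nat_lit 1) (p (nat_lit 0x101) (nat_lit 1) (p (nat_lit 0x111) (nat_lit 0) (p (nat_lit 0xd1) (nat_lit 1) (p (nat_lit 0x81) (nat_lit 0) (p (nat_lit 0x41) (nat_lit 1) (p (nat_lit 0x89080787089a) (nat_lit 0) (p (nat_lit 0x88878706861a) (nat_lit 0) (p (nat_lit 0x80000000080686078a) (nat_lit 0) (p (nat_lit 0x80000000078605850a) (nat_lit 0) (p (nat_lit 0x8605850682) (nat_lit 0) (p (nat_lit 0x8585048402) (nat_lit 0) (p (nat_lit 0x160014) (nat_lit 0) (p (nat_lit 0x160004) (nat_lit 0) (p (nat_lit 0x60592) (nat_lit 0) (p (nat_lit 0x48512) (nat_lit 0) (p (nat_lit 0x50392)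 (nat_lit 0) (p (nat_lit 0x38312) (nat_lit 0) (p (nat_lit 0x40212) (nat_lit 0) (p (nat_lit 0x28192) (nat_lit 0) (p (nat_lit 0x30092) (nat_lit 0) (p (nat_lit 0x18012) (nat_lit 0) pn))))))))))))))))))))))))) :=
  Cl.node (nat_lit 0xb0014) (nat_lit 2) (by decide +kernel) (ClAll.succ (ClAll.succ ClAll.zero n49) s189)

def n82 : Cl (O (nat_lit 2)) (R (nat_lit 135377))
    (p (nat_lit 0xb0004) (nat_lit 0) (p (nat_lit 0x20000c) (nat_lit 0) (p (nat_lit 0x109) (nat_lit 1) (p (nat_lit 0xc9) (nat_lit 1) (p (nat_lit 0x89) (nat_lit 1) (p (nat_lit 0x111) (nat_lit 1) (p (nat_lit 0xd1) (nat_lit 1) (p (nat_lit 0x81) (nat_lit 0) (p (nat_lit 0x41) (nat_lit 1) (p (nat_lit 0x89080787089a) (nat_lit 0) (p (nat_lit 0x88878706861a) (nat_lit 0) (p (nat_lit 0x80000000080686078a) (nat_lit 0) (p (nat_lit 0x80000000078605850a) (nat_lit 0) (p (nat_lit 0x8605850682) (nat_lit 0) (p (nat_lit 0x8585048402) (nat_lit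 0) (p (nat_lit 0x160014) (nat_lit 0) (p (nat_lit 0x160004) (nat_lit 0) (p (nat_lit 0x60592) (nat_lit 0) (p (nat_lit 0x48512) (nat_lit 0) (p (nat_lit 0x50392) (nat_lit 0) (p (nat_lit 0x38312) (nat_lit 0) (p (nat_lit 0x40212) (nat_lit 0) (p (nat_lit 0x28192) (nat_lit 0) (p (nat_lit 0x30092) (nat_lit 0) (p (nat_lit 0x18012) (nat_lit 0) pn))))))))))))))))))))))))) :=
  Cl.node (nat_lit 0xb0014) (nat_lit 2) (by decide +kernel) (ClAll.succ (ClAll.succ ClAll.zero s199) s200)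

def n83 : Cl (O (nat_lit 2)) (R (nat_lit 135377))
    (p (nat_lit 0xb0004) (nat_lit 0) (p (nat_lit 0x20000c) (nat_lit 1) (p (nat_lit 0xd1) (nat_lit 1) (p (nat_lit 0xc9) (nat_lit 0) (p (nat_lit 0x101) (nat_lit 1) (p (nat_lit 0x119) (nat_lit 0) (p (nat_lit 0xc1) (nat_lit 0) (p (nat_lit 0x81) (nat_lit 1) (p (nat_lit 0x41) (nat_lit 1) (p (nat_lit 0x89080787089a) (nat_lit 0) (p (nat_lit 0x88878706861a) (nat_lit 0) (p (nat_lit 0x80000000080686078a) (nat_lit 0) (p (nat_lit 0x80000000078605850a) (nat_lit 0) (p (nat_lit 0x8605850682) (nat_lit 0) (p (nat_lit 0x8585048402) (nat_lit 0) (p (nat_lit 0x160014) (nat_lit 0) (p (nat_lit 0x160004) (nat_lit 0) (p (nat_lit 0x60592) (nat_lit 0) (p (nat_lit 0x48512) (nat_lit 0) (p (nat_lit 0x50392) (nat_lit 0) (p (nat_lit 0x38312) (nat_lit 0) (p (nat_lit 0x40212) (nat_lit 0) (p (nat_lit 0x28192) (nat_lit 0) (p (nat_lit 0x30092) (nat_lit 0) (p (nat_lit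 0x18012) (nat_lit 0) pn))))))))))))))))))))))))) :=
  Cl.node (nat_lit 0xb0014) (nat_lit 2) (by decide +kernel) (ClAll.succ (ClAll.succ ClAll.zero n50) s217)

def n84 : Cl (O (nat_lit 2)) (R (nat_lit 135377))
    (p (nat_lit 0xb0004) (nat_lit 0) (p (nat_lit 0x20000c) (nat_lit 0) (p (nat_lit 0x111) (nat_lit 1) (p (nat_lit 0x109) (nat_lit 0) (p (nat_lit 0xc9) (nat_lit 1) (p (nat_lit 0x119) (nat_lit 1) (p (nat_lit 0xc1) (nat_lit 0) (p (nat_lit 0x81) (nat_lit 1) (p (nat_lit 0x41) (nat_lit 1) (p (nat_lit 0x89080787089a) (nat_lit 0) (p (nat_lit 0x88878706861a) (nat_lit 0) (p (nat_lit 0x80000000080686078a) (nat_lit 0) (p (nat_lit 0x80000000078605850a) (nat_lit 0) (p (nat_lit 0x8605850682) (nat_lit 0) (p (nat_lit 0x8585048402) (nat_lit 0) (p (nat_lit 0x160014) (nat_lit 0) (p (nat_lit 0x160004) (nat_lit 0) (p (nat_lit 0x60592) (nat_lit 0) (p (nat_lit 0x48512) (nat_lit 0) (p (nat_lit 0x50392)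 (nat_lit 0) (p (nat_lit 0x38312) (nat_lit 0) (p (nat_lit 0x40212) (nat_lit 0) (p (nat_lit 0x28192) (nat_lit 0) (p (nat_lit 0x30092) (nat_lit 0) (p (nat_lit 0x18012) (nat_lit 0) pn))))))))))))))))))))))))) :=
  Cl.node (nat_lit 0xb0014) (nat_lit 2) (by decide +kernel) (ClAll.succ (ClAll.succ ClAll.zero n51) s230)

def n85 : Cl (O (nat_lit 2)) (R (nat_lit 135377))
    (p (nat_lit 0x20000c) (nat_lit 0) (p (nat_lit 0xc9) (nat_lit 0) (p (nat_lit 0x81) (nat_lit 0) (p (nat_lit 0x101) (nat_lit 1) (p (nat_lit 0x119) (nat_lit 0) (p (nat_lit 0xd1) (nat_lit 0) (p (nat_lit 0x89) (nat_lit 0) (p (nat_lit 0x41) (nat_lit 0) (p (nat_lit 0x89080787089a) (nat_lit 0) (p (nat_lit 0x88878706861a) (nat_lit 0) (p (nat_lit 0x80000000080686078a) (nat_lit 0) (p (nat_lit 0x80000000078605850a) (nat_lit 0) (p (nat_lit 0x8605850682) (nat_lit 0) (p (nat_lit 0x8585048402) (nat_lit 0) (p (nat_lit 0x160014) (nat_lit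 0) (p (nat_lit 0x160004) (nat_lit 0) (p (nat_lit 0x60592) (nat_lit 0) (p (nat_lit 0x48512) (nat_lit 0) (p (nat_lit 0x50392) (nat_lit 0) (p (nat_lit 0x38312) (nat_lit 0) (p (nat_lit 0x40212) (nat_lit 0) (p (nat_lit 0x28192) (nat_lit 0) (p (nat_lit 0x30092) (nat_lit 0) (p (nat_lit 0x18012) (nat_lit 0) pn)))))))))))))))))))))))) :=
  Cl.node (nat_lit 0x111) (nat_lit 2) (by decide +kernel) (ClAll.succ (ClAll.succ ClAll.zero n52) s6)

def n86 : Cl (O (nat_lit 2)) (R (nat_lit 135377))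
    (p (nat_lit 0x20000c) (nat_lit 0) (p (nat_lit 0xc9) (nat_lit 1) (p (nat_lit 0x81) (nat_lit 0) (p (nat_lit 0x101) (nat_lit 1) (p (nat_lit 0x119) (nat_lit 0) (p (nat_lit 0xd1) (nat_lit 0) (p (nat_lit 0x89) (nat_lit 0) (p (nat_lit 0x41) (nat_lit 0) (p (nat_lit 0x89080787089a) (nat_lit 0) (p (nat_lit 0x88878706861a) (nat_lit 0) (p (nat_lit 0x80000000080686078a) (nat_lit 0) (p (nat_lit 0x80000000078605850a) (nat_lit 0) (p (nat_lit 0x8605850682) (nat_lit 0) (p (nat_lit 0x8585048402) (nat_lit 0) (p (nat_lit 0x160014) (nat_lit 0) (p (nat_lit 0x160004) (nat_lit 0) (p (nat_lit 0x60592) (nat_lit 0) (p (nat_lit 0x48512) (nat_lit 0) (p (nat_lit 0x50392) (nat_lit 0) (p (nat_lit 0x38312) (nat_lit 0) (p (nat_lit 0x40212) (nat_lit 0) (p (nat_lit 0x28192) (nat_lit 0) (p (nat_lit 0x30092) (nat_lit 0) (p (nat_lit 0x18012) (nat_lit 0) pn)))))))))))))))))))))))) :=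
  Cl.node (nat_lit 0x111) (nat_lit 2) (by decide +kernel) (ClAll.succ (ClAll.succ ClAll.zero n53) s12)

def n87 : Cl (O (nat_lit 2)) (R (nat_lit 135377))
    (p (nat_lit 0xc9) (nat_lit 0) (p (nat_lit 0xc1) (nat_lit 0) (p (nat_lit 0x81) (nat_lit 1) (p (nat_lit 0x101) (nat_lit 1) (p (nat_lit 0x119) (nat_lit 0) (p (nat_lit 0xd1) (nat_lit 0) (p (nat_lit 0x89) (nat_lit 0) (p (nat_lit 0x41) (nat_lit 0) (p (nat_lit 0x89080787089a) (nat_lit 0) (p (nat_lit 0x88878706861a) (nat_lit 0) (p (nat_lit 0x80000000080686078a) (nat_lit 0) (p (nat_lit 0x80000000078605850a) (nat_lit 0) (p (nat_lit 0x8605850682) (nat_lit 0) (p (nat_lit 0x8585048402) (nat_lit 0) (p (nat_lit 0x160014) (nat_lit 0) (p (nat_lit 0x160004) (nat_lit 0) (p (nat_lit 0x60592) (nat_lit 0) (p (nat_lit 0x48512) (nat_lit 0) (p (nat_lit 0x50392) (nat_lit 0) (p (nat_lit 0x38312) (nat_lit 0) (p (nat_lit 0x40212) (nat_lit 0) (p (nat_lit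 0x28192) (nat_lit 0) (p (nat_lit 0x30092) (nat_lit 0) (p (nat_lit 0x18012) (nat_lit 0) pn)))))))))))))))))))))))) :=
  Cl.node (nat_lit 0x20000c) (nat_lit 2) (by decide +kernel) (ClAll.succ (ClAll.succ ClAll.zero n54) s16)

def n88 : Cl (O (nat_lit 2)) (R (nat_lit 135377))
    (p (nat_lit 0xc9) (nat_lit 1) (p (nat_lit 0xc1) (nat_lit 0) (p (nat_lit 0x81) (nat_lit 1) (p (nat_lit 0x101) (nat_lit 1) (p (nat_lit 0x119) (nat_lit 0) (p (nat_lit 0xd1) (nat_lit 0) (p (nat_lit 0x89) (nat_lit 0) (p (nat_lit 0x41) (nat_lit 0) (p (nat_lit 0x89080787089a) (nat_lit 0) (p (nat_lit 0x88878706861a) (nat_lit 0) (p (nat_lit 0x80000000080686078a) (nat_lit 0) (p (nat_lit 0x80000000078605850a) (nat_lit 0) (p (nat_lit 0x8605850682) (nat_lit 0) (p (nat_lit 0x8585048402) (nat_lit 0) (p (nat_lit 0x160014) (nat_lit 0) (p (nat_lit 0x160004) (nat_lit 0) (p (nat_lit 0x60592) (nat_lit 0) (p (nat_lit 0x48512) (nat_lit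 0) (p (nat_lit 0x50392) (nat_lit 0) (p (nat_lit 0x38312) (nat_lit 0) (p (nat_lit 0x40212) (nat_lit 0) (p (nat_lit 0x28192) (nat_lit 0) (p (nat_lit 0x30092) (nat_lit 0) (p (nat_lit 0x18012) (nat_lit 0) pn)))))))))))))))))))))))) :=
  Cl.node (nat_lit 0x20000c) (nat_lit 2) (by decide +kernel) (ClAll.succ (ClAll.succ ClAll.zero n55) s20)

def n89 : Cl (O (nat_lit 2)) (R (nat_lit 135377))
    (p (nat_lit 0x20000c) (nat_lit 0) (p (nat_lit 0x109) (nat_lit 1) (p (nat_lit 0xc9) (nat_lit 1) (p (nat_lit 0xc1) (nat_lit 0) (p (nat_lit 0x119) (nat_lit 1) (p (nat_lit 0xd1) (nat_lit 0) (p (nat_lit 0x89) (nat_lit 0) (p (nat_lit 0x41) (nat_lit 0) (p (nat_lit 0x89080787089a) (nat_lit 0) (p (nat_lit 0x88878706861a) (nat_lit 0) (p (nat_lit 0x80000000080686078a) (nat_lit 0) (p (nat_lit 0x80000000078605850a) (nat_lit 0) (p (nat_lit 0x8605850682) (nat_lit 0) (p (nat_lit 0x8585048402) (nat_lit 0) (p (nat_lit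 0x160014) (nat_lit 0) (p (nat_lit 0x160004) (nat_lit 0) (p (nat_lit 0x60592) (nat_lit 0) (p (nat_lit 0x48512) (nat_lit 0) (p (nat_lit 0x50392) (nat_lit 0) (p (nat_lit 0x38312) (nat_lit 0) (p (nat_lit 0x40212) (nat_lit 0) (p (nat_lit 0x28192) (nat_lit 0) (p (nat_lit 0x30092) (nat_lit 0) (p (nat_lit 0x18012) (nat_lit 0) pn)))))))))))))))))))))))) :=
  Cl.node (nat_lit 0xb0004) (nat_lit 2) (by decide +kernel) (ClAll.succ (ClAll.succ ClAll.zero s24) s25)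

def n90 : Cl (O (nat_lit 2)) (R (nat_lit 135377))
    (p (nat_lit 0x20000c) (nat_lit 0) (p (nat_lit 0x109) (nat_lit 1) (p (nat_lit 0x81) (nat_lit 0) (p (nat_lit 0xc1) (nat_lit 1) (p (nat_lit 0x119) (nat_lit 1) (p (nat_lit 0xd1) (nat_lit 0) (p (nat_lit 0x89) (nat_lit 0) (p (nat_lit 0x41) (nat_lit 0) (p (nat_lit 0x89080787089a) (nat_lit 0) (p (nat_lit 0x88878706861a) (nat_lit 0) (p (nat_lit 0x80000000080686078a) (nat_lit 0) (p (nat_lit 0x80000000078605850a) (nat_lit 0) (p (nat_lit 0x8605850682) (nat_lit 0) (p (nat_lit 0x8585048402) (nat_lit 0) (p (nat_lit 0x160014) (nat_lit 0) (p (nat_lit 0x160004) (nat_lit 0) (p (nat_lit 0x60592) (nat_lit 0) (p (nat_lit 0x48512) (nat_lit 0) (p (nat_lit 0x50392) (nat_lit 0) (p (nat_lit 0x38312) (nat_lit 0) (p (nat_lit 0x40212) (nat_lit 0) (p (nat_lit 0x28192) (nat_lit 0) (p (nat_lit 0x30092) (nat_lit 0) (p (nat_lit 0x18012) (nat_lit 0) pn))))))))))))))))))))))))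 :=
  Cl.node (nat_lit 0xb0004) (nat_lit 2) (by decide +kernel) (ClAll.succ (ClAll.succ ClAll.zero s28) s29)

def n91 : Cl (O (nat_lit 2)) (R (nat_lit 135377))
    (p (nat_lit 0x109) (nat_lit 0) (p (nat_lit 0x101) (nat_lit 0) (p (nat_lit 0x81) (nat_lit 1) (p (nat_lit 0xc1) (nat_lit 1) (p (nat_lit 0x119) (nat_lit 1) (p (nat_lit 0xd1) (nat_lit 0) (p (nat_lit 0x89) (nat_lit 0) (p (nat_lit 0x41) (nat_lit 0) (p (nat_lit 0x89080787089a) (nat_lit 0) (p (nat_lit 0x88878706861a) (nat_lit 0) (p (nat_lit 0x80000000080686078a) (nat_lit 0) (p (nat_lit 0x80000000078605850a) (nat_lit 0) (p (nat_lit 0x8605850682) (nat_lit 0) (p (nat_lit 0x8585048402) (nat_lit 0) (p (nat_lit 0x160014) (nat_lit 0) (p (nat_lit 0x160004) (nat_lit 0) (p (nat_lit 0x60592) (nat_lit 0) (p (nat_lit 0x48512) (nat_lit 0) (p (nat_lit 0x50392) (nat_lit 0) (p (nat_lit 0x38312) (nat_lit 0) (p (nat_lit 0x40212) (nat_lit 0) (p (nat_lit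 0x28192) (nat_lit 0) (p (nat_lit 0x30092) (nat_lit 0) (p (nat_lit 0x18012) (nat_lit 0) pn)))))))))))))))))))))))) :=
  Cl.node (nat_lit 0x20000c) (nat_lit 2) (by decide +kernel) (ClAll.succ (ClAll.succ ClAll.zero n56) s33)

def n92 : Cl (O (nat_lit 2)) (R (nat_lit 135377))
    (p (nat_lit 0x109) (nat_lit 1) (p (nat_lit 0x101) (nat_lit 0) (p (nat_lit 0x81) (nat_lit 1) (p (nat_lit 0xc1) (nat_lit 1) (p (nat_lit 0x119) (nat_lit 1) (p (nat_lit 0xd1) (nat_lit 0) (p (nat_lit 0x89) (nat_lit 0) (p (nat_lit 0x41) (nat_lit 0) (p (nat_lit 0x89080787089a) (nat_lit 0) (p (nat_lit 0x88878706861a) (nat_lit 0) (p (nat_lit 0x80000000080686078a) (nat_lit 0) (p (nat_lit 0x80000000078605850a) (nat_lit 0) (p (nat_lit 0x8605850682) (nat_lit 0) (p (nat_lit 0x8585048402) (nat_lit 0) (p (nat_lit 0x160014) (nat_lit 0) (p (nat_lit 0x160004) (nat_lit 0) (p (nat_lit 0x60592) (nat_lit 0) (p (nat_lit 0x48512) (nat_lit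 0) (p (nat_lit 0x50392) (nat_lit 0) (p (nat_lit 0x38312) (nat_lit 0) (p (nat_lit 0x40212) (nat_lit 0) (p (nat_lit 0x28192) (nat_lit 0) (p (nat_lit 0x30092) (nat_lit 0) (p (nat_lit 0x18012) (nat_lit 0) pn)))))))))))))))))))))))) :=
  Cl.node (nat_lit 0x20000c) (nat_lit 2) (by decide +kernel) (ClAll.succ (ClAll.succ ClAll.zero n57) s36)

def n93 : Cl (O (nat_lit 2)) (R (nat_lit 135377))
    (p (nat_lit 0x20000c) (nat_lit 0) (p (nat_lit 0x101) (nat_lit 1) (p (nat_lit 0x81) (nat_lit 1) (p (nat_lit 0xc1) (nat_lit 1) (p (nat_lit 0x119) (nat_lit 1) (p (nat_lit 0xd1) (nat_lit 0) (p (nat_lit 0x89) (nat_lit 0) (p (nat_lit 0x41) (nat_lit 0) (p (nat_lit 0x89080787089a) (nat_lit 0) (p (nat_lit 0x88878706861a) (nat_lit 0) (p (nat_lit 0x80000000080686078a) (nat_lit 0) (p (nat_lit 0x80000000078605850a) (nat_lit 0) (p (nat_lit 0x8605850682) (nat_lit 0) (p (nat_lit 0x8585048402) (nat_lit 0) (p (nat_lit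 0x160014) (nat_lit 0) (p (nat_lit 0x160004) (nat_lit 0) (p (nat_lit 0x60592) (nat_lit 0) (p (nat_lit 0x48512) (nat_lit 0) (p (nat_lit 0x50392) (nat_lit 0) (p (nat_lit 0x38312) (nat_lit 0) (p (nat_lit 0x40212) (nat_lit 0) (p (nat_lit 0x28192) (nat_lit 0) (p (nat_lit 0x30092) (nat_lit 0) (p (nat_lit 0x18012) (nat_lit 0) pn)))))))))))))))))))))))) :=
  Cl.node (nat_lit 0xb0004) (nat_lit 2) (by decide +kernel) (ClAll.succ (ClAll.succ ClAll.zero s37) s38)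

def n94 : Cl (O (nat_lit 2)) (R (nat_lit 135377))
    (p (nat_lit 0x20000c) (nat_lit 0) (p (nat_lit 0xc1) (nat_lit 0) (p (nat_lit 0x81) (nat_lit 1) (p (nat_lit 0x101) (nat_lit 1) (p (nat_lit 0x111) (nat_lit 0) (p (nat_lit 0xd1) (nat_lit 1) (p (nat_lit 0x89) (nat_lit 0) (p (nat_lit 0x41) (nat_lit 0) (p (nat_lit 0x89080787089a) (nat_lit 0) (p (nat_lit 0x88878706861a) (nat_lit 0) (p (nat_lit 0x80000000080686078a) (nat_lit 0) (p (nat_lit 0x80000000078605850a) (nat_lit 0) (p (nat_lit 0x8605850682) (nat_lit 0) (p (nat_lit 0x8585048402) (nat_lit 0) (p (nat_lit 0x160014) (nat_lit 0) (p (nat_lit 0x160004) (nat_lit 0) (p (nat_lit 0x60592) (nat_lit 0) (p (nat_lit 0x48512) (nat_lit 0) (p (nat_lit 0x50392) (nat_lit 0) (p (nat_lit 0x38312) (nat_lit 0) (p (nat_lit 0x40212) (nat_lit 0) (p (nat_lit 0x28192) (nat_lit 0) (p (nat_lit 0x30092) (nat_lit 0) (p (nat_lit 0x18012) (nat_lit 0) pn))))))))))))))))))))))))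 :=
  Cl.node (nat_lit 0x119) (nat_lit 2) (by decide +kernel) (ClAll.succ (ClAll.succ ClAll.zero n58) n59)

def n95 : Cl (O (nat_lit 2)) (R (nat_lit 135377))
    (p (nat_lit 0x20000c) (nat_lit 1) (p (nat_lit 0xc1) (nat_lit 0) (p (nat_lit 0x81) (nat_lit 1) (p (nat_lit 0x101) (nat_lit 1) (p (nat_lit 0x111) (nat_lit 0) (p (nat_lit 0xd1) (nat_lit 1) (p (nat_lit 0x89) (nat_lit 0) (p (nat_lit 0x41) (nat_lit 0) (p (nat_lit 0x89080787089a) (nat_lit 0) (p (nat_lit 0x88878706861a) (nat_lit 0) (p (nat_lit 0x80000000080686078a) (nat_lit 0) (p (nat_lit 0x80000000078605850a) (nat_lit 0) (p (nat_lit 0x8605850682) (nat_lit 0) (p (nat_lit 0x8585048402) (nat_lit 0) (p (nat_lit 0x160014) (nat_lit 0) (p (nat_lit 0x160004) (nat_lit 0) (p (nat_lit 0x60592) (nat_lit 0) (p (nat_lit 0x48512) (nat_lit 0) (p (nat_lit 0x50392) (nat_lit 0) (p (nat_lit 0x38312) (nat_lit 0) (p (nat_lit 0x40212) (nat_lit 0) (p (nat_lit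 0x28192) (nat_lit 0) (p (nat_lit 0x30092) (nat_lit 0) (p (nat_lit 0x18012) (nat_lit 0) pn)))))))))))))))))))))))) :=
  Cl.node (nat_lit 0xb0004) (nat_lit 2) (by decide +kernel) (ClAll.succ (ClAll.succ ClAll.zero n60) s55)

def n96 : Cl (O (nat_lit 2)) (R (nat_lit 135377))
    (p (nat_lit 0xd1) (nat_lit 1) (p (nat_lit 0x111) (nat_lit 1) (p (nat_lit 0x109) (nat_lit 0) (p (nat_lit 0x101) (nat_lit 0) (p (nat_lit 0x119) (nat_lit 0) (p (nat_lit 0xc9) (nat_lit 0) (p (nat_lit 0x89) (nat_lit 1) (p (nat_lit 0x41) (nat_lit 0) (p (nat_lit 0x89080787089a) (nat_lit 0) (p (nat_lit 0x88878706861a) (nat_lit 0) (p (nat_lit 0x80000000080686078a) (nat_lit 0) (p (nat_lit 0x80000000078605850a) (nat_lit 0) (p (nat_lit 0x8605850682) (nat_lit 0) (p (nat_lit 0x8585048402) (nat_lit 0) (p (nat_lit 0x160014) (nat_lit 0) (p (nat_lit 0x160004) (nat_lit 0) (p (nat_lit 0x60592) (nat_lit 0) (p (nat_lit 0x48512) (nat_lit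 0) (p (nat_lit 0x50392) (nat_lit 0) (p (nat_lit 0x38312) (nat_lit 0) (p (nat_lit 0x40212) (nat_lit 0) (p (nat_lit 0x28192) (nat_lit 0) (p (nat_lit 0x30092) (nat_lit 0) (p (nat_lit 0x18012) (nat_lit 0) pn)))))))))))))))))))))))) :=
  Cl.node (nat_lit 0x20000c) (nat_lit 2) (by decide +kernel) (ClAll.succ (ClAll.succ ClAll.zero s64) s65)

def n97 : Cl (O (nat_lit 2)) (R (nat_lit 135377))
    (p (nat_lit 0x20000c) (nat_lit 1) (p (nat_lit 0xd1) (nat_lit 0) (p (nat_lit 0x109) (nat_lit 1) (p (nat_lit 0x101) (nat_lit 0) (p (nat_lit 0x119) (nat_lit 0) (p (nat_lit 0xc9) (nat_lit 0) (p (nat_lit 0x89) (nat_lit 1) (p (nat_lit 0x41) (nat_lit 0) (p (nat_lit 0x89080787089a) (nat_lit 0) (p (nat_lit 0x88878706861a) (nat_lit 0) (p (nat_lit 0x80000000080686078a) (nat_lit 0) (p (nat_lit 0x80000000078605850a) (nat_lit 0) (p (nat_lit 0x8605850682) (nat_lit 0) (p (nat_lit 0x8585048402) (nat_lit 0) (p (nat_lit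 0x160014) (nat_lit 0) (p (nat_lit 0x160004) (nat_lit 0) (p (nat_lit 0x60592) (nat_lit 0) (p (nat_lit 0x48512) (nat_lit 0) (p (nat_lit 0x50392) (nat_lit 0) (p (nat_lit 0x38312) (nat_lit 0) (p (nat_lit 0x40212) (nat_lit 0) (p (nat_lit 0x28192) (nat_lit 0) (p (nat_lit 0x30092) (nat_lit 0) (p (nat_lit 0x18012) (nat_lit 0) pn)))))))))))))))))))))))) :=
  Cl.node (nat_lit 0xb0004) (nat_lit 2) (by decide +kernel) (ClAll.succ (ClAll.succ ClAll.zero n61) s70)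

def n98 : Cl (O (nat_lit 2)) (R (nat_lit 135377))
    (p (nat_lit 0x20000c) (nat_lit 0) (p (nat_lit 0xd1) (nat_lit 1) (p (nat_lit 0x109) (nat_lit 1) (p (nat_lit 0x101) (nat_lit 0) (p (nat_lit 0x119) (nat_lit 0) (p (nat_lit 0xc9) (nat_lit 0) (p (nat_lit 0x89) (nat_lit 1) (p (nat_lit 0x41) (nat_lit 0) (p (nat_lit 0x89080787089a) (nat_lit 0) (p (nat_lit 0x88878706861a) (nat_lit 0) (p (nat_lit 0x80000000080686078a) (nat_lit 0) (p (nat_lit 0x80000000078605850a) (nat_lit 0) (p (nat_lit 0x8605850682) (nat_lit 0) (p (nat_lit 0x8585048402) (nat_lit 0) (p (nat_lit 0x160014) (nat_lit 0) (p (nat_lit 0x160004) (nat_lit 0) (p (nat_lit 0x60592) (nat_lit 0) (p (nat_lit 0x48512) (nat_lit 0) (p (nat_lit 0x50392) (nat_lit 0) (p (nat_lit 0x38312) (nat_lit 0) (p (nat_lit 0x40212) (nat_lit 0) (p (nat_lit 0x28192) (nat_lit 0) (p (nat_lit 0x30092) (nat_lit 0) (p (nat_lit 0x18012) (nat_lit 0) pn))))))))))))))))))))))))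 :=
  Cl.node (nat_lit 0xb0004) (nat_lit 2) (by decide +kernel) (ClAll.succ (ClAll.succ ClAll.zero n62) s73)

def n99 : Cl (O (nat_lit 2)) (R (nat_lit 135377))
    (p (nat_lit 0x20000c) (nat_lit 1) (p (nat_lit 0xd1) (nat_lit 1) (p (nat_lit 0x109) (nat_lit 1) (p (nat_lit 0x101) (nat_lit 0) (p (nat_lit 0x119) (nat_lit 0) (p (nat_lit 0xc9) (nat_lit 0) (p (nat_lit 0x89) (nat_lit 1) (p (nat_lit 0x41) (nat_lit 0) (p (nat_lit 0x89080787089a) (nat_lit 0) (p (nat_lit 0x88878706861a) (nat_lit 0) (p (nat_lit 0x80000000080686078a) (nat_lit 0) (p (nat_lit 0x80000000078605850a) (nat_lit 0) (p (nat_lit 0x8605850682) (nat_lit 0) (p (nat_lit 0x8585048402) (nat_lit 0) (p (nat_lit 0x160014) (nat_lit 0) (p (nat_lit 0x160004) (nat_lit 0) (p (nat_lit 0x60592) (nat_lit 0) (p (nat_lit 0x48512) (nat_lit 0) (p (nat_lit 0x50392) (nat_lit 0) (p (nat_lit 0x38312) (nat_lit 0) (p (nat_lit 0x40212) (nat_lit 0) (p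 (nat_lit 0x28192) (nat_lit 0) (p (nat_lit 0x30092) (nat_lit 0) (p (nat_lit 0x18012) (nat_lit 0) pn)))))))))))))))))))))))) :=
  Cl.node (nat_lit 0xb0004) (nat_lit 2) (by decide +kernel) (ClAll.succ (ClAll.succ ClAll.zero n63) s77)

def n100 : Cl (O (nat_lit 2)) (R (nat_lit 135377))
    (p (nat_lit 0x20000c) (nat_lit 0) (p (nat_lit 0xd1) (nat_lit 0) (p (nat_lit 0xc1) (nat_lit 0) (p (nat_lit 0x101) (nat_lit 1) (p (nat_lit 0x119) (nat_lit 0) (p (nat_lit 0xc9) (nat_lit 0) (p (nat_lit 0x89) (nat_lit 1) (p (nat_lit 0x41) (nat_lit 0) (p (nat_lit 0x89080787089a) (nat_lit 0) (p (nat_lit 0x88878706861a) (nat_lit 0) (p (nat_lit 0x80000000080686078a) (nat_lit 0) (p (nat_lit 0x80000000078605850a) (nat_lit 0) (p (nat_lit 0x8605850682) (nat_lit 0) (p (nat_lit 0x8585048402) (nat_lit 0) (p (nat_lit 0x160014) (nat_lit 0) (p (nat_lit 0x160004) (nat_lit 0) (p (nat_lit 0x60592) (nat_lit 0) (p (nat_lit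 0x48512) (nat_lit 0) (p (nat_lit 0x50392) (nat_lit 0) (p (nat_lit 0x38312) (nat_lit 0) (p (nat_lit 0x40212) (nat_lit 0) (p (nat_lit 0x28192) (nat_lit 0) (p (nat_lit 0x30092) (nat_lit 0) (p (nat_lit 0x18012) (nat_lit 0) pn)))))))))))))))))))))))) :=
  Cl.node (nat_lit 0xb0004) (nat_lit 2) (by decide +kernel) (ClAll.succ (ClAll.succ ClAll.zero s78) s79)

def n101 : Cl (O (nat_lit 2)) (R (nat_lit 135377))
    (p (nat_lit 0x20000c) (nat_lit 1) (p (nat_lit 0xd1) (nat_lit 0) (p (nat_lit 0xc1) (nat_lit 0) (p (nat_lit 0x101) (nat_lit 1) (p (nat_lit 0x119) (nat_lit 0) (p (nat_lit 0xc9) (nat_lit 0) (p (nat_lit 0x89) (nat_lit 1) (p (nat_lit 0x41) (nat_lit 0) (p (nat_lit 0x89080787089a) (nat_lit 0) (p (nat_lit 0x88878706861a) (nat_lit 0) (p (nat_lit 0x80000000080686078a) (nat_lit 0) (p (nat_lit 0x80000000078605850a) (nat_lit 0) (p (nat_lit 0x8605850682) (nat_lit 0) (p (nat_lit 0x8585048402)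 (nat_lit 0) (p (nat_lit 0x160014) (nat_lit 0) (p (nat_lit 0x160004) (nat_lit 0) (p (nat_lit 0x60592) (nat_lit 0) (p (nat_lit 0x48512) (nat_lit 0) (p (nat_lit 0x50392) (nat_lit 0) (p (nat_lit 0x38312) (nat_lit 0) (p (nat_lit 0x40212) (nat_lit 0) (p (nat_lit 0x28192) (nat_lit 0) (p (nat_lit 0x30092) (nat_lit 0) (p (nat_lit 0x18012) (nat_lit 0) pn)))))))))))))))))))))))) :=
  Cl.node (nat_lit 0xb0004) (nat_lit 2) (by decide +kernel) (ClAll.succ (ClAll.succ ClAll.zero n64) s83)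

def n102 : Cl (O (nat_lit 2)) (R (nat_lit 135377))
    (p (nat_lit 0x20000c) (nat_lit 0) (p (nat_lit 0xd1) (nat_lit 1) (p (nat_lit 0xc1) (nat_lit 0) (p (nat_lit 0x101) (nat_lit 1) (p (nat_lit 0x119) (nat_lit 0) (p (nat_lit 0xc9) (nat_lit 0) (p (nat_lit 0x89) (nat_lit 1) (p (nat_lit 0x41) (nat_lit 0) (p (nat_lit 0x89080787089a) (nat_lit 0) (p (nat_lit 0x88878706861a) (nat_lit 0) (p (nat_lit 0x80000000080686078a) (nat_lit 0) (p (nat_lit 0x80000000078605850a) (nat_lit 0) (p (nat_lit 0x8605850682) (nat_lit 0) (p (nat_lit 0x8585048402) (nat_lit 0) (p (nat_lit 0x160014) (nat_lit 0) (p (nat_lit 0x160004) (nat_lit 0) (p (nat_lit 0x60592) (nat_lit 0) (p (nat_lit 0x48512) (nat_lit 0) (p (nat_lit 0x50392) (nat_lit 0) (p (nat_lit 0x38312) (nat_lit 0) (p (nat_lit 0x40212) (nat_lit 0) (p (nat_lit 0x28192) (nat_lit 0) (p (nat_lit 0x30092) (nat_lit 0) (p (nat_lit 0x18012) (nat_lit 0) pn))))))))))))))))))))))))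 :=
  Cl.node (nat_lit 0xb0004) (nat_lit 2) (by decide +kernel) (ClAll.succ (ClAll.succ ClAll.zero n65) s87)

def n103 : Cl (O (nat_lit 2)) (R (nat_lit 135377))
    (p (nat_lit 0x20000c) (nat_lit 0) (p (nat_lit 0x111) (nat_lit 1) (p (nat_lit 0xd1) (nat_lit 1) (p (nat_lit 0xc1) (nat_lit 0) (p (nat_lit 0x119) (nat_lit 1) (p (nat_lit 0xc9) (nat_lit 0) (p (nat_lit 0x89) (nat_lit 1) (p (nat_lit 0x41) (nat_lit 0) (p (nat_lit 0x89080787089a) (nat_lit 0) (p (nat_lit 0x88878706861a) (nat_lit 0) (p (nat_lit 0x80000000080686078a) (nat_lit 0) (p (nat_lit 0x80000000078605850a) (nat_lit 0) (p (nat_lit 0x8605850682) (nat_lit 0) (p (nat_lit 0x8585048402) (nat_lit 0) (p (nat_lit 0x160014) (nat_lit 0) (p (nat_lit 0x160004) (nat_lit 0) (p (nat_lit 0x60592) (nat_lit 0) (p (nat_lit 0x48512) (nat_lit 0) (p (nat_lit 0x50392) (nat_lit 0) (p (nat_lit 0x38312) (nat_lit 0) (p (nat_lit 0x40212) (nat_lit 0) (p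 (nat_lit 0x28192) (nat_lit 0) (p (nat_lit 0x30092) (nat_lit 0) (p (nat_lit 0x18012) (nat_lit 0) pn)))))))))))))))))))))))) :=
  Cl.node (nat_lit 0xb0004) (nat_lit 2) (by decide +kernel) (ClAll.succ (ClAll.succ ClAll.zero n66) s94)

def n104 : Cl (O (nat_lit 2)) (R (nat_lit 135377))
    (p (nat_lit 0x20000c) (nat_lit 0) (p (nat_lit 0x89) (nat_lit 0) (p (nat_lit 0x109) (nat_lit 1) (p (nat_lit 0x101) (nat_lit 0) (p (nat_lit 0x119) (nat_lit 0) (p (nat_lit 0xd1) (nat_lit 0) (p (nat_lit 0x81) (nat_lit 0) (p (nat_lit 0x41) (nat_lit 1) (p (nat_lit 0x89080787089a) (nat_lit 0) (p (nat_lit 0x88878706861a) (nat_lit 0) (p (nat_lit 0x80000000080686078a) (nat_lit 0) (p (nat_lit 0x80000000078605850a) (nat_lit 0) (p (nat_lit 0x8605850682) (nat_lit 0) (p (nat_lit 0x8585048402) (nat_lit 0) (p (nat_lit 0x160014) (nat_lit 0) (p (nat_lit 0x160004) (nat_lit 0) (p (nat_lit 0x60592) (nat_lit 0) (p (nat_lit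 0x48512) (nat_lit 0) (p (nat_lit 0x50392) (nat_lit 0) (p (nat_lit 0x38312) (nat_lit 0) (p (nat_lit 0x40212) (nat_lit 0) (p (nat_lit 0x28192) (nat_lit 0) (p (nat_lit 0x30092) (nat_lit 0) (p (nat_lit 0x18012) (nat_lit 0) pn)))))))))))))))))))))))) :=
  Cl.node (nat_lit 0x111) (nat_lit 2) (by decide +kernel) (ClAll.succ (ClAll.succ ClAll.zero n67) s106)

def n105 : Cl (O (nat_lit 2)) (R (nat_lit 135377))
    (p (nat_lit 0xc9) (nat_lit 0) (p (nat_lit 0x89) (nat_lit 1) (p (nat_lit 0x109) (nat_lit 1) (p (nat_lit 0x101) (nat_lit 0) (p (nat_lit 0x119) (nat_lit 0) (p (nat_lit 0xd1) (nat_lit 0) (p (nat_lit 0x81) (nat_lit 0) (p (nat_lit 0x41) (nat_lit 1) (p (nat_lit 0x89080787089a) (nat_lit 0) (p (nat_lit 0x88878706861a) (nat_lit 0) (p (nat_lit 0x80000000080686078a) (nat_lit 0) (p (nat_lit 0x80000000078605850a) (nat_lit 0) (p (nat_lit 0x8605850682) (nat_lit 0) (p (nat_lit 0x8585048402) (nat_lit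 0) (p (nat_lit 0x160014) (nat_lit 0) (p (nat_lit 0x160004) (nat_lit 0) (p (nat_lit 0x60592) (nat_lit 0) (p (nat_lit 0x48512) (nat_lit 0) (p (nat_lit 0x50392) (nat_lit 0) (p (nat_lit 0x38312) (nat_lit 0) (p (nat_lit 0x40212) (nat_lit 0) (p (nat_lit 0x28192) (nat_lit 0) (p (nat_lit 0x30092) (nat_lit 0) (p (nat_lit 0x18012) (nat_lit 0) pn)))))))))))))))))))))))) :=
  Cl.node (nat_lit 0x20000c) (nat_lit 2) (by decide +kernel) (ClAll.succ (ClAll.succ ClAll.zero n68) s111)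

def n106 : Cl (O (nat_lit 2)) (R (nat_lit 135377))
    (p (nat_lit 0xc9) (nat_lit 1) (p (nat_lit 0x89) (nat_lit 1) (p (nat_lit 0x109) (nat_lit 1) (p (nat_lit 0x101) (nat_lit 0) (p (nat_lit 0x119) (nat_lit 0) (p (nat_lit 0xd1) (nat_lit 0) (p (nat_lit 0x81) (nat_lit 0) (p (nat_lit 0x41) (nat_lit 1) (p (nat_lit 0x89080787089a) (nat_lit 0) (p (nat_lit 0x88878706861a) (nat_lit 0) (p (nat_lit 0x80000000080686078a) (nat_lit 0) (p (nat_lit 0x80000000078605850a) (nat_lit 0) (p (nat_lit 0x8605850682) (nat_lit 0) (p (nat_lit 0x8585048402) (nat_lit 0) (p (nat_lit 0x160014) (nat_lit 0) (p (nat_lit 0x160004) (nat_lit 0) (p (nat_lit 0x60592) (nat_lit 0) (p (nat_lit 0x48512) (nat_lit 0) (p (nat_lit 0x50392) (nat_lit 0) (p (nat_lit 0x38312) (nat_lit 0) (p (nat_lit 0x40212) (nat_lit 0) (p (nat_lit 0x28192) (nat_lit 0) (p (nat_lit 0x30092) (nat_lit 0) (p (nat_lit 0x18012) (nat_lit 0) pn))))))))))))))))))))))))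 :=
  Cl.node (nat_lit 0x20000c) (nat_lit 2) (by decide +kernel) (ClAll.succ (ClAll.succ ClAll.zero s112) s113)

def n107 : Cl (O (nat_lit 2)) (R (nat_lit 135377))
    (p (nat_lit 0xc9) (nat_lit 0) (p (nat_lit 0x89) (nat_lit 1) (p (nat_lit 0xc1) (nat_lit 0) (p (nat_lit 0x101) (nat_lit 1) (p (nat_lit 0x119) (nat_lit 0) (p (nat_lit 0xd1) (nat_lit 0) (p (nat_lit 0x81) (nat_lit 0) (p (nat_lit 0x41) (nat_lit 1) (p (nat_lit 0x89080787089a) (nat_lit 0) (p (nat_lit 0x88878706861a) (nat_lit 0) (p (nat_lit 0x80000000080686078a) (nat_lit 0) (p (nat_lit 0x80000000078605850a) (nat_lit 0) (p (nat_lit 0x8605850682) (nat_lit 0) (p (nat_lit 0x8585048402) (nat_lit 0) (p (nat_lit 0x160014) (nat_lit 0) (p (nat_lit 0x160004) (nat_lit 0) (p (nat_lit 0x60592) (nat_lit 0) (p (nat_lit 0x48512) (nat_lit 0) (p (nat_lit 0x50392) (nat_lit 0) (p (nat_lit 0x38312) (nat_lit 0) (p (nat_lit 0x40212) (nat_lit 0) (p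 (nat_lit 0x28192) (nat_lit 0) (p (nat_lit 0x30092) (nat_lit 0) (p (nat_lit 0x18012) (nat_lit 0) pn)))))))))))))))))))))))) :=
  Cl.node (nat_lit 0x20000c) (nat_lit 2) (by decide +kernel) (ClAll.succ (ClAll.succ ClAll.zero n69) s119)

def n108 : Cl (O (nat_lit 2)) (R (nat_lit 135377))
    (p (nat_lit 0xc9) (nat_lit 1) (p (nat_lit 0x89) (nat_lit 1) (p (nat_lit 0xc1) (nat_lit 0) (p (nat_lit 0x101) (nat_lit 1) (p (nat_lit 0x119) (nat_lit 0) (p (nat_lit 0xd1) (nat_lit 0) (p (nat_lit 0x81) (nat_lit 0) (p (nat_lit 0x41) (nat_lit 1) (p (nat_lit 0x89080787089a) (nat_lit 0) (p (nat_lit 0x88878706861a) (nat_lit 0) (p (nat_lit 0x80000000080686078a) (nat_lit 0) (p (nat_lit 0x80000000078605850a) (nat_lit 0) (p (nat_lit 0x8605850682) (nat_lit 0) (p (nat_lit 0x8585048402) (nat_lit 0) (p (nat_lit 0x160014) (nat_lit 0) (p (nat_lit 0x160004) (nat_lit 0) (p (nat_lit 0x60592) (nat_lit 0) (p (nat_lit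 0x48512) (nat_lit 0) (p (nat_lit 0x50392) (nat_lit 0) (p (nat_lit 0x38312) (nat_lit 0) (p (nat_lit 0x40212) (nat_lit 0) (p (nat_lit 0x28192) (nat_lit 0) (p (nat_lit 0x30092) (nat_lit 0) (p (nat_lit 0x18012) (nat_lit 0) pn)))))))))))))))))))))))) :=
  Cl.node (nat_lit 0x20000c) (nat_lit 2) (by decide +kernel) (ClAll.succ (ClAll.succ ClAll.zero n70) s125)

def n109 : Cl (O (nat_lit 2)) (R (nat_lit 135377))
    (p (nat_lit 0x20000c) (nat_lit 0) (p (nat_lit 0x89) (nat_lit 1) (p (nat_lit 0xc1) (nat_lit 1) (p (nat_lit 0x101) (nat_lit 1) (p (nat_lit 0x119) (nat_lit 0) (p (nat_lit 0xd1) (nat_lit 0) (p (nat_lit 0x81) (nat_lit 0) (p (nat_lit 0x41) (nat_lit 1) (p (nat_lit 0x89080787089a) (nat_lit 0) (p (nat_lit 0x88878706861a) (nat_lit 0) (p (nat_lit 0x80000000080686078a) (nat_lit 0) (p (nat_lit 0x80000000078605850a) (nat_lit 0) (p (nat_lit 0x8605850682) (nat_lit 0) (p (nat_lit 0x8585048402)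 (nat_lit 0) (p (nat_lit 0x160014) (nat_lit 0) (p (nat_lit 0x160004) (nat_lit 0) (p (nat_lit 0x60592) (nat_lit 0) (p (nat_lit 0x48512) (nat_lit 0) (p (nat_lit 0x50392) (nat_lit 0) (p (nat_lit 0x38312) (nat_lit 0) (p (nat_lit 0x40212) (nat_lit 0) (p (nat_lit 0x28192) (nat_lit 0) (p (nat_lit 0x30092) (nat_lit 0) (p (nat_lit 0x18012) (nat_lit 0) pn)))))))))))))))))))))))) :=
  Cl.node (nat_lit 0xb0004) (nat_lit 2) (by decide +kernel) (ClAll.succ (ClAll.succ ClAll.zero n71) n72)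

def n110 : Cl (O (nat_lit 2)) (R (nat_lit 135377))
    (p (nat_lit 0x109) (nat_lit 0) (p (nat_lit 0x89) (nat_lit 1) (p (nat_lit 0xc9) (nat_lit 1) (p (nat_lit 0xc1) (nat_lit 0) (p (nat_lit 0x119) (nat_lit 1) (p (nat_lit 0xd1) (nat_lit 0) (p (nat_lit 0x81) (nat_lit 0) (p (nat_lit 0x41) (nat_lit 1) (p (nat_lit 0x89080787089a) (nat_lit 0) (p (nat_lit 0x88878706861a) (nat_lit 0) (p (nat_lit 0x80000000080686078a) (nat_lit 0) (p (nat_lit 0x80000000078605850a) (nat_lit 0) (p (nat_lit 0x8605850682) (nat_lit 0) (p (nat_lit 0x8585048402) (nat_lit 0) (p (nat_lit 0x160014) (nat_lit 0) (p (nat_lit 0x160004) (nat_lit 0) (p (nat_lit 0x60592) (nat_lit 0) (p (nat_lit 0x48512) (nat_lit 0) (p (nat_lit 0x50392) (nat_lit 0) (p (nat_lit 0x38312) (nat_lit 0) (p (nat_lit 0x40212) (nat_lit 0) (p (nat_lit 0x28192) (nat_lit 0) (p (nat_lit 0x30092) (nat_lit 0) (p (nat_lit 0x18012) (nat_lit 0) pn))))))))))))))))))))))))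 :=
  Cl.node (nat_lit 0x20000c) (nat_lit 2) (by decide +kernel) (ClAll.succ (ClAll.succ ClAll.zero n73) s145)

def n111 : Cl (O (nat_lit 2)) (R (nat_lit 135377))
    (p (nat_lit 0x109) (nat_lit 1) (p (nat_lit 0x89) (nat_lit 1) (p (nat_lit 0xc9) (nat_lit 1) (p (nat_lit 0xc1) (nat_lit 0) (p (nat_lit 0x119) (nat_lit 1) (p (nat_lit 0xd1) (nat_lit 0) (p (nat_lit 0x81) (nat_lit 0) (p (nat_lit 0x41) (nat_lit 1) (p (nat_lit 0x89080787089a) (nat_lit 0) (p (nat_lit 0x88878706861a) (nat_lit 0) (p (nat_lit 0x80000000080686078a) (nat_lit 0) (p (nat_lit 0x80000000078605850a) (nat_lit 0) (p (nat_lit 0x8605850682) (nat_lit 0) (p (nat_lit 0x8585048402) (nat_lit 0) (p (nat_lit 0x160014) (nat_lit 0) (p (nat_lit 0x160004) (nat_lit 0) (p (nat_lit 0x60592) (nat_lit 0) (p (nat_lit 0x48512) (nat_lit 0) (p (nat_lit 0x50392) (nat_lit 0) (p (nat_lit 0x38312) (nat_lit 0) (p (nat_lit 0x40212) (nat_lit 0) (p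 (nat_lit 0x28192) (nat_lit 0) (p (nat_lit 0x30092) (nat_lit 0) (p (nat_lit 0x18012) (nat_lit 0) pn)))))))))))))))))))))))) :=
  Cl.node (nat_lit 0x20000c) (nat_lit 2) (by decide +kernel) (ClAll.succ (ClAll.succ ClAll.zero n74) s149)

def n112 : Cl (O (nat_lit 2)) (R (nat_lit 135377))
    (p (nat_lit 0x109) (nat_lit 0) (p (nat_lit 0x89) (nat_lit 1) (p (nat_lit 0x101) (nat_lit 0) (p (nat_lit 0xc1) (nat_lit 1) (p (nat_lit 0x119) (nat_lit 1) (p (nat_lit 0xd1) (nat_lit 0) (p (nat_lit 0x81) (nat_lit 0) (p (nat_lit 0x41) (nat_lit 1) (p (nat_lit 0x89080787089a) (nat_lit 0) (p (nat_lit 0x88878706861a) (nat_lit 0) (p (nat_lit 0x80000000080686078a) (nat_lit 0) (p (nat_lit 0x80000000078605850a) (nat_lit 0) (p (nat_lit 0x8605850682) (nat_lit 0) (p (nat_lit 0x8585048402) (nat_lit 0) (p (nat_lit 0x160014) (nat_lit 0) (p (nat_lit 0x160004) (nat_lit 0) (p (nat_lit 0x60592) (nat_lit 0) (p (nat_lit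 0x48512) (nat_lit 0) (p (nat_lit 0x50392) (nat_lit 0) (p (nat_lit 0x38312) (nat_lit 0) (p (nat_lit 0x40212) (nat_lit 0) (p (nat_lit 0x28192) (nat_lit 0) (p (nat_lit 0x30092) (nat_lit 0) (p (nat_lit 0x18012) (nat_lit 0) pn)))))))))))))))))))))))) :=
  Cl.node (nat_lit 0x20000c) (nat_lit 2) (by decide +kernel) (ClAll.succ (ClAll.succ ClAll.zero n75) s154)

def n113 : Cl (O (nat_lit 2)) (R (nat_lit 135377))
    (p (nat_lit 0x109) (nat_lit 1) (p (nat_lit 0x89) (nat_lit 1) (p (nat_lit 0x101) (nat_lit 0) (p (nat_lit 0xc1) (nat_lit 1) (p (nat_lit 0x119) (nat_lit 1) (p (nat_lit 0xd1) (nat_lit 0) (p (nat_lit 0x81) (nat_lit 0) (p (nat_lit 0x41) (nat_lit 1) (p (nat_lit 0x89080787089a) (nat_lit 0) (p (nat_lit 0x88878706861a) (nat_lit 0) (p (nat_lit 0x80000000080686078a) (nat_lit 0) (p (nat_lit 0x80000000078605850a) (nat_lit 0) (p (nat_lit 0x8605850682) (nat_lit 0) (p (nat_lit 0x8585048402) (nat_lit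 0) (p (nat_lit 0x160014) (nat_lit 0) (p (nat_lit 0x160004) (nat_lit 0) (p (nat_lit 0x60592) (nat_lit 0) (p (nat_lit 0x48512) (nat_lit 0) (p (nat_lit 0x50392) (nat_lit 0) (p (nat_lit 0x38312) (nat_lit 0) (p (nat_lit 0x40212) (nat_lit 0) (p (nat_lit 0x28192) (nat_lit 0) (p (nat_lit 0x30092) (nat_lit 0) (p (nat_lit 0x18012) (nat_lit 0) pn)))))))))))))))))))))))) :=
  Cl.node (nat_lit 0x20000c) (nat_lit 2) (by decide +kernel) (ClAll.succ (ClAll.succ ClAll.zero n76) s159)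

def n114 : Cl (O (nat_lit 2)) (R (nat_lit 135377))
    (p (nat_lit 0x20000c) (nat_lit 0) (p (nat_lit 0x89) (nat_lit 1) (p (nat_lit 0x101) (nat_lit 1) (p (nat_lit 0xc1) (nat_lit 1) (p (nat_lit 0x119) (nat_lit 1) (p (nat_lit 0xd1) (nat_lit 0) (p (nat_lit 0x81) (nat_lit 0) (p (nat_lit 0x41) (nat_lit 1) (p (nat_lit 0x89080787089a) (nat_lit 0) (p (nat_lit 0x88878706861a) (nat_lit 0) (p (nat_lit 0x80000000080686078a) (nat_lit 0) (p (nat_lit 0x80000000078605850a) (nat_lit 0) (p (nat_lit 0x8605850682) (nat_lit 0) (p (nat_lit 0x8585048402) (nat_lit 0) (p (nat_lit 0x160014) (nat_lit 0) (p (nat_lit 0x160004) (nat_lit 0) (p (nat_lit 0x60592) (nat_lit 0) (p (nat_lit 0x48512) (nat_lit 0) (p (nat_lit 0x50392) (nat_lit 0) (p (nat_lit 0x38312) (nat_lit 0) (p (nat_lit 0x40212) (nat_lit 0) (p (nat_lit 0x28192) (nat_lit 0) (p (nat_lit 0x30092) (nat_lit 0) (p (nat_lit 0x18012) (nat_lit 0) pn))))))))))))))))))))))))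 :=
  Cl.node (nat_lit 0xb0004) (nat_lit 2) (by decide +kernel) (ClAll.succ (ClAll.succ ClAll.zero n77) n78)

def n115 : Cl (O (nat_lit 2)) (R (nat_lit 135377))
    (p (nat_lit 0xc9) (nat_lit 0) (p (nat_lit 0x89) (nat_lit 1) (p (nat_lit 0x109) (nat_lit 1) (p (nat_lit 0x101) (nat_lit 0) (p (nat_lit 0x111) (nat_lit 0) (p (nat_lit 0xd1) (nat_lit 1) (p (nat_lit 0x81) (nat_lit 0) (p (nat_lit 0x41) (nat_lit 1) (p (nat_lit 0x89080787089a) (nat_lit 0) (p (nat_lit 0x88878706861a) (nat_lit 0) (p (nat_lit 0x80000000080686078a) (nat_lit 0) (p (nat_lit 0x80000000078605850a) (nat_lit 0) (p (nat_lit 0x8605850682) (nat_lit 0) (p (nat_lit 0x8585048402) (nat_lit 0) (p (nat_lit 0x160014) (nat_lit 0) (p (nat_lit 0x160004) (nat_lit 0) (p (nat_lit 0x60592) (nat_lit 0) (p (nat_lit 0x48512) (nat_lit 0) (p (nat_lit 0x50392) (nat_lit 0) (p (nat_lit 0x38312) (nat_lit 0) (p (nat_lit 0x40212) (nat_lit 0) (p (nat_lit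 0x28192) (nat_lit 0) (p (nat_lit 0x30092) (nat_lit 0) (p (nat_lit 0x18012) (nat_lit 0) pn)))))))))))))))))))))))) :=
  Cl.node (nat_lit 0x20000c) (nat_lit 2) (by decide +kernel) (ClAll.succ (ClAll.succ ClAll.zero n79) s177)

def n116 : Cl (O (nat_lit 2)) (R (nat_lit 135377))
    (p (nat_lit 0xc9) (nat_lit 1) (p (nat_lit 0x89) (nat_lit 1) (p (nat_lit 0x109) (nat_lit 1) (p (nat_lit 0x101) (nat_lit 0) (p (nat_lit 0x111) (nat_lit 0) (p (nat_lit 0xd1) (nat_lit 1) (p (nat_lit 0x81) (nat_lit 0) (p (nat_lit 0x41) (nat_lit 1) (p (nat_lit 0x89080787089a) (nat_lit 0) (p (nat_lit 0x88878706861a) (nat_lit 0) (p (nat_lit 0x80000000080686078a) (nat_lit 0) (p (nat_lit 0x80000000078605850a) (nat_lit 0) (p (nat_lit 0x8605850682) (nat_lit 0) (p (nat_lit 0x8585048402) (nat_lit 0) (p (nat_lit 0x160014) (nat_lit 0) (p (nat_lit 0x160004) (nat_lit 0) (p (nat_lit 0x60592) (nat_lit 0) (p (nat_lit 0x48512)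 (nat_lit 0) (p (nat_lit 0x50392) (nat_lit 0) (p (nat_lit 0x38312) (nat_lit 0) (p (nat_lit 0x40212) (nat_lit 0) (p (nat_lit 0x28192) (nat_lit 0) (p (nat_lit 0x30092) (nat_lit 0) (p (nat_lit 0x18012) (nat_lit 0) pn)))))))))))))))))))))))) :=
  Cl.node (nat_lit 0x20000c) (nat_lit 2) (by decide +kernel) (ClAll.succ (ClAll.succ ClAll.zero s178) s179)

def n117 : Cl (O (nat_lit 2)) (R (nat_lit 135377))
    (p (nat_lit 0x20000c) (nat_lit 0) (p (nat_lit 0xc9) (nat_lit 0) (p (nat_lit 0x89) (nat_lit 1) (p (nat_lit 0x101) (nat_lit 1) (p (nat_lit 0x111) (nat_lit 0) (p (nat_lit 0xd1) (nat_lit 1) (p (nat_lit 0x81) (nat_lit 0) (p (nat_lit 0x41) (nat_lit 1) (p (nat_lit 0x89080787089a) (nat_lit 0) (p (nat_lit 0x88878706861a) (nat_lit 0) (p (nat_lit 0x80000000080686078a) (nat_lit 0) (p (nat_lit 0x80000000078605850a) (nat_lit 0) (p (nat_lit 0x8605850682) (nat_lit 0) (p (nat_lit 0x8585048402) (nat_lit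 0) (p (nat_lit 0x160014) (nat_lit 0) (p (nat_lit 0x160004) (nat_lit 0) (p (nat_lit 0x60592) (nat_lit 0) (p (nat_lit 0x48512) (nat_lit 0) (p (nat_lit 0x50392) (nat_lit 0) (p (nat_lit 0x38312) (nat_lit 0) (p (nat_lit 0x40212) (nat_lit 0) (p (nat_lit 0x28192) (nat_lit 0) (p (nat_lit 0x30092) (nat_lit 0) (p (nat_lit 0x18012) (nat_lit 0) pn)))))))))))))))))))))))) :=
  Cl.node (nat_lit 0xb0004) (nat_lit 2) (by decide +kernel) (ClAll.succ (ClAll.succ ClAll.zero n80) n81)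

def n118 : Cl (O (nat_lit 2)) (R (nat_lit 135377))
    (p (nat_lit 0x20000c) (nat_lit 0) (p (nat_lit 0xc9) (nat_lit 1) (p (nat_lit 0x89) (nat_lit 1) (p (nat_lit 0x101) (nat_lit 1) (p (nat_lit 0x111) (nat_lit 0) (p (nat_lit 0xd1) (nat_lit 1) (p (nat_lit 0x81) (nat_lit 0) (p (nat_lit 0x41) (nat_lit 1) (p (nat_lit 0x89080787089a) (nat_lit 0) (p (nat_lit 0x88878706861a) (nat_lit 0) (p (nat_lit 0x80000000080686078a) (nat_lit 0) (p (nat_lit 0x80000000078605850a) (nat_lit 0) (p (nat_lit 0x8605850682) (nat_lit 0) (p (nat_lit 0x8585048402) (nat_lit 0) (p (nat_lit 0x160014) (nat_lit 0) (p (nat_lit 0x160004) (nat_lit 0) (p (nat_lit 0x60592) (nat_lit 0) (p (nat_lit 0x48512) (nat_lit 0) (p (nat_lit 0x50392) (nat_lit 0) (p (nat_lit 0x38312) (nat_lit 0) (p (nat_lit 0x40212) (nat_lit 0) (p (nat_lit 0x28192) (nat_lit 0) (p (nat_lit 0x30092) (nat_lit 0) (p (nat_lit 0x18012) (nat_lit 0) pn))))))))))))))))))))))))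 :=
  Cl.node (nat_lit 0xb0004) (nat_lit 2) (by decide +kernel) (ClAll.succ (ClAll.succ ClAll.zero s191) s192)

def n119 : Cl (O (nat_lit 2)) (R (nat_lit 135377))
    (p (nat_lit 0x20000c) (nat_lit 0) (p (nat_lit 0x109) (nat_lit 0) (p (nat_lit 0xc9) (nat_lit 1) (p (nat_lit 0x89) (nat_lit 1) (p (nat_lit 0x111) (nat_lit 1) (p (nat_lit 0xd1) (nat_lit 1) (p (nat_lit 0x81) (nat_lit 0) (p (nat_lit 0x41) (nat_lit 1) (p (nat_lit 0x89080787089a) (nat_lit 0) (p (nat_lit 0x88878706861a) (nat_lit 0) (p (nat_lit 0x80000000080686078a) (nat_lit 0) (p (nat_lit 0x80000000078605850a) (nat_lit 0) (p (nat_lit 0x8605850682) (nat_lit 0) (p (nat_lit 0x8585048402) (nat_lit 0) (p (nat_lit 0x160014) (nat_lit 0) (p (nat_lit 0x160004) (nat_lit 0) (p (nat_lit 0x60592) (nat_lit 0) (p (nat_lit 0x48512) (nat_lit 0) (p (nat_lit 0x50392) (nat_lit 0) (p (nat_lit 0x38312) (nat_lit 0) (p (nat_lit 0x40212) (nat_lit 0)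 (p (nat_lit 0x28192) (nat_lit 0) (p (nat_lit 0x30092) (nat_lit 0) (p (nat_lit 0x18012) (nat_lit 0) pn)))))))))))))))))))))))) :=
  Cl.node (nat_lit 0xb0004) (nat_lit 2) (by decide +kernel) (ClAll.succ (ClAll.succ ClAll.zero s196) s197)

def n120 : Cl (O (nat_lit 2)) (R (nat_lit 135377))
    (p (nat_lit 0x20000c) (nat_lit 0) (p (nat_lit 0x109) (nat_lit 1) (p (nat_lit 0xc9) (nat_lit 1) (p (nat_lit 0x89) (nat_lit 1) (p (nat_lit 0x111) (nat_lit 1) (p (nat_lit 0xd1) (nat_lit 1) (p (nat_lit 0x81) (nat_lit 0) (p (nat_lit 0x41) (nat_lit 1) (p (nat_lit 0x89080787089a) (nat_lit 0) (p (nat_lit 0x88878706861a) (nat_lit 0) (p (nat_lit 0x80000000080686078a) (nat_lit 0) (p (nat_lit 0x80000000078605850a) (nat_lit 0) (p (nat_lit 0x8605850682) (nat_lit 0) (p (nat_lit 0x8585048402) (nat_lit 0) (p (nat_lit 0x160014) (nat_lit 0) (p (nat_lit 0x160004) (nat_lit 0) (p (nat_lit 0x60592) (nat_lit 0) (p (nat_lit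 0x48512) (nat_lit 0) (p (nat_lit 0x50392) (nat_lit 0) (p (nat_lit 0x38312) (nat_lit 0) (p (nat_lit 0x40212) (nat_lit 0) (p (nat_lit 0x28192) (nat_lit 0) (p (nat_lit 0x30092) (nat_lit 0) (p (nat_lit 0x18012) (nat_lit 0) pn)))))))))))))))))))))))) :=
  Cl.node (nat_lit 0xb0004) (nat_lit 2) (by decide +kernel) (ClAll.succ (ClAll.succ ClAll.zero n82) s201)

def n121 : Cl (O (nat_lit 2)) (R (nat_lit 135377))
    (p (nat_lit 0xd1) (nat_lit 1) (p (nat_lit 0x111) (nat_lit 1) (p (nat_lit 0x109) (nat_lit 0) (p (nat_lit 0x101) (nat_lit 0) (p (nat_lit 0x119) (nat_lit 0) (p (nat_lit 0xc1) (nat_lit 0) (p (nat_lit 0x81) (nat_lit 1) (p (nat_lit 0x41) (nat_lit 1) (p (nat_lit 0x89080787089a) (nat_lit 0) (p (nat_lit 0x88878706861a) (nat_lit 0) (p (nat_lit 0x80000000080686078a) (nat_lit 0) (p (nat_lit 0x80000000078605850a) (nat_lit 0) (p (nat_lit 0x8605850682) (nat_lit 0) (p (nat_lit 0x8585048402) (nat_lit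 0) (p (nat_lit 0x160014) (nat_lit 0) (p (nat_lit 0x160004) (nat_lit 0) (p (nat_lit 0x60592) (nat_lit 0) (p (nat_lit 0x48512) (nat_lit 0) (p (nat_lit 0x50392) (nat_lit 0) (p (nat_lit 0x38312) (nat_lit 0) (p (nat_lit 0x40212) (nat_lit 0) (p (nat_lit 0x28192) (nat_lit 0) (p (nat_lit 0x30092) (nat_lit 0) (p (nat_lit 0x18012) (nat_lit 0) pn)))))))))))))))))))))))) :=
  Cl.node (nat_lit 0x20000c) (nat_lit 2) (by decide +kernel) (ClAll.succ (ClAll.succ ClAll.zero s205) s206)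

def n122 : Cl (O (nat_lit 2)) (R (nat_lit 135377))
    (p (nat_lit 0xd1) (nat_lit 1) (p (nat_lit 0xc9) (nat_lit 0) (p (nat_lit 0x109) (nat_lit 1) (p (nat_lit 0x101) (nat_lit 0) (p (nat_lit 0x119) (nat_lit 0) (p (nat_lit 0xc1) (nat_lit 0) (p (nat_lit 0x81) (nat_lit 1) (p (nat_lit 0x41) (nat_lit 1) (p (nat_lit 0x89080787089a) (nat_lit 0) (p (nat_lit 0x88878706861a) (nat_lit 0) (p (nat_lit 0x80000000080686078a) (nat_lit 0) (p (nat_lit 0x80000000078605850a) (nat_lit 0) (p (nat_lit 0x8605850682) (nat_lit 0) (p (nat_lit 0x8585048402) (nat_lit 0) (p (nat_lit 0x160014) (nat_lit 0) (p (nat_lit 0x160004) (nat_lit 0) (p (nat_lit 0x60592) (nat_lit 0) (p (nat_lit 0x48512) (nat_lit 0) (p (nat_lit 0x50392) (nat_lit 0) (p (nat_lit 0x38312) (nat_lit 0) (p (nat_lit 0x40212) (nat_lit 0) (p (nat_lit 0x28192) (nat_lit 0) (p (nat_lit 0x30092) (nat_lit 0) (p (nat_lit 0x18012) (nat_lit 0) pn))))))))))))))))))))))))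 :=
  Cl.node (nat_lit 0x20000c) (nat_lit 2) (by decide +kernel) (ClAll.succ (ClAll.succ ClAll.zero s208) s209)

def n123 : Cl (O (nat_lit 2)) (R (nat_lit 135377))
    (p (nat_lit 0x20000c) (nat_lit 0) (p (nat_lit 0xd1) (nat_lit 1) (p (nat_lit 0xc9) (nat_lit 0) (p (nat_lit 0x101) (nat_lit 1) (p (nat_lit 0x119) (nat_lit 0) (p (nat_lit 0xc1) (nat_lit 0) (p (nat_lit 0x81) (nat_lit 1) (p (nat_lit 0x41) (nat_lit 1) (p (nat_lit 0x89080787089a) (nat_lit 0) (p (nat_lit 0x88878706861a) (nat_lit 0) (p (nat_lit 0x80000000080686078a) (nat_lit 0) (p (nat_lit 0x80000000078605850a) (nat_lit 0) (p (nat_lit 0x8605850682) (nat_lit 0) (p (nat_lit 0x8585048402) (nat_lit 0) (p (nat_lit 0x160014) (nat_lit 0) (p (nat_lit 0x160004) (nat_lit 0) (p (nat_lit 0x60592) (nat_lit 0) (p (nat_lit 0x48512) (nat_lit 0) (p (nat_lit 0x50392) (nat_lit 0) (p (nat_lit 0x38312) (nat_lit 0) (p (nat_lit 0x40212) (nat_lit 0)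 (p (nat_lit 0x28192) (nat_lit 0) (p (nat_lit 0x30092) (nat_lit 0) (p (nat_lit 0x18012) (nat_lit 0) pn)))))))))))))))))))))))) :=
  Cl.node (nat_lit 0xb0004) (nat_lit 2) (by decide +kernel) (ClAll.succ (ClAll.succ ClAll.zero s213) s214)

def n124 : Cl (O (nat_lit 2)) (R (nat_lit 135377))
    (p (nat_lit 0x20000c) (nat_lit 1) (p (nat_lit 0xd1) (nat_lit 1) (p (nat_lit 0xc9) (nat_lit 0) (p (nat_lit 0x101) (nat_lit 1) (p (nat_lit 0x119) (nat_lit 0) (p (nat_lit 0xc1) (nat_lit 0) (p (nat_lit 0x81) (nat_lit 1) (p (nat_lit 0x41) (nat_lit 1) (p (nat_lit 0x89080787089a) (nat_lit 0) (p (nat_lit 0x88878706861a) (nat_lit 0) (p (nat_lit 0x80000000080686078a) (nat_lit 0) (p (nat_lit 0x80000000078605850a) (nat_lit 0) (p (nat_lit 0x8605850682) (nat_lit 0) (p (nat_lit 0x8585048402) (nat_lit 0) (p (nat_lit 0x160014) (nat_lit 0) (p (nat_lit 0x160004) (nat_lit 0) (p (nat_lit 0x60592) (nat_lit 0) (p (nat_lit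 0x48512) (nat_lit 0) (p (nat_lit 0x50392) (nat_lit 0) (p (nat_lit 0x38312) (nat_lit 0) (p (nat_lit 0x40212) (nat_lit 0) (p (nat_lit 0x28192) (nat_lit 0) (p (nat_lit 0x30092) (nat_lit 0) (p (nat_lit 0x18012) (nat_lit 0) pn)))))))))))))))))))))))) :=
  Cl.node (nat_lit 0xb0004) (nat_lit 2) (by decide +kernel) (ClAll.succ (ClAll.succ ClAll.zero n83) s218)

def n125 : Cl (O (nat_lit 2)) (R (nat_lit 135377))
    (p (nat_lit 0x20000c) (nat_lit 0) (p (nat_lit 0x111) (nat_lit 1) (p (nat_lit 0xd1) (nat_lit 1) (p (nat_lit 0xc9) (nat_lit 0) (p (nat_lit 0x119) (nat_lit 1) (p (nat_lit 0xc1) (nat_lit 0) (p (nat_lit 0x81) (nat_lit 1) (p (nat_lit 0x41) (nat_lit 1) (p (nat_lit 0x89080787089a) (nat_lit 0) (p (nat_lit 0x88878706861a) (nat_lit 0) (p (nat_lit 0x80000000080686078a) (nat_lit 0) (p (nat_lit 0x80000000078605850a) (nat_lit 0) (p (nat_lit 0x8605850682) (nat_lit 0) (p (nat_lit 0x8585048402)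 (nat_lit 0) (p (nat_lit 0x160014) (nat_lit 0) (p (nat_lit 0x160004) (nat_lit 0) (p (nat_lit 0x60592) (nat_lit 0) (p (nat_lit 0x48512) (nat_lit 0) (p (nat_lit 0x50392) (nat_lit 0) (p (nat_lit 0x38312) (nat_lit 0) (p (nat_lit 0x40212) (nat_lit 0) (p (nat_lit 0x28192) (nat_lit 0) (p (nat_lit 0x30092) (nat_lit 0) (p (nat_lit 0x18012) (nat_lit 0) pn)))))))))))))))))))))))) :=
  Cl.node (nat_lit 0xb0004) (nat_lit 2) (by decide +kernel) (ClAll.succ (ClAll.succ ClAll.zero s222) s223)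

def n126 : Cl (O (nat_lit 2)) (R (nat_lit 135377))
    (p (nat_lit 0x20000c) (nat_lit 0) (p (nat_lit 0x111) (nat_lit 0) (p (nat_lit 0x109) (nat_lit 0) (p (nat_lit 0xc9) (nat_lit 1) (p (nat_lit 0x119) (nat_lit 1) (p (nat_lit 0xc1) (nat_lit 0) (p (nat_lit 0x81) (nat_lit 1) (p (nat_lit 0x41) (nat_lit 1) (p (nat_lit 0x89080787089a) (nat_lit 0) (p (nat_lit 0x88878706861a) (nat_lit 0) (p (nat_lit 0x80000000080686078a) (nat_lit 0) (p (nat_lit 0x80000000078605850a) (nat_lit 0) (p (nat_lit 0x8605850682) (nat_lit 0) (p (nat_lit 0x8585048402) (nat_lit 0) (p (nat_lit 0x160014) (nat_lit 0) (p (nat_lit 0x160004) (nat_lit 0) (p (nat_lit 0x60592) (nat_lit 0) (p (nat_lit 0x48512) (nat_lit 0) (p (nat_lit 0x50392) (nat_lit 0) (p (nat_lit 0x38312) (nat_lit 0) (p (nat_lit 0x40212) (nat_lit 0) (p (nat_lit 0x28192) (nat_lit 0) (p (nat_lit 0x30092) (nat_lit 0) (p (nat_lit 0x18012) (nat_lit 0) pn))))))))))))))))))))))))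 :=
  Cl.node (nat_lit 0xb0004) (nat_lit 2) (by decide +kernel) (ClAll.succ (ClAll.succ ClAll.zero s225) s226)

def n127 : Cl (O (nat_lit 2)) (R (nat_lit 135377))
    (p (nat_lit 0x20000c) (nat_lit 0) (p (nat_lit 0x111) (nat_lit 1) (p (nat_lit 0x109) (nat_lit 0) (p (nat_lit 0xc9) (nat_lit 1) (p (nat_lit 0x119) (nat_lit 1) (p (nat_lit 0xc1) (nat_lit 0) (p (nat_lit 0x81) (nat_lit 1) (p (nat_lit 0x41) (nat_lit 1) (p (nat_lit 0x89080787089a) (nat_lit 0) (p (nat_lit 0x88878706861a) (nat_lit 0) (p (nat_lit 0x80000000080686078a) (nat_lit 0) (p (nat_lit 0x80000000078605850a) (nat_lit 0) (p (nat_lit 0x8605850682) (nat_lit 0) (p (nat_lit 0x8585048402) (nat_lit 0) (p (nat_lit 0x160014) (nat_lit 0) (p (nat_lit 0x160004) (nat_lit 0) (p (nat_lit 0x60592) (nat_lit 0) (p (nat_lit 0x48512) (nat_lit 0) (p (nat_lit 0x50392) (nat_lit 0) (p (nat_lit 0x38312) (nat_lit 0) (p (nat_lit 0x40212) (nat_lit 0)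 (p (nat_lit 0x28192) (nat_lit 0) (p (nat_lit 0x30092) (nat_lit 0) (p (nat_lit 0x18012) (nat_lit 0) pn)))))))))))))))))))))))) :=
  Cl.node (nat_lit 0xb0004) (nat_lit 2) (by decide +kernel) (ClAll.succ (ClAll.succ ClAll.zero n84) s231)

def n128 : Cl (O (nat_lit 2)) (R (nat_lit 135377))
    (p (nat_lit 0xc9) (nat_lit 1) (p (nat_lit 0x109) (nat_lit 1) (p (nat_lit 0x101) (nat_lit 0) (p (nat_lit 0x119) (nat_lit 0) (p (nat_lit 0xd1) (nat_lit 0) (p (nat_lit 0x89) (nat_lit 0) (p (nat_lit 0x41) (nat_lit 0) (p (nat_lit 0x89080787089a) (nat_lit 0) (p (nat_lit 0x88878706861a) (nat_lit 0) (p (nat_lit 0x80000000080686078a) (nat_lit 0) (p (nat_lit 0x80000000078605850a) (nat_lit 0) (p (nat_lit 0x8605850682) (nat_lit 0) (p (nat_lit 0x8585048402) (nat_lit 0) (p (nat_lit 0x160014) (nat_lit 0) (p (nat_lit 0x160004) (nat_lit 0) (p (nat_lit 0x60592) (nat_lit 0) (p (nat_lit 0x48512) (nat_lit 0) (p (nat_lit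 0x50392) (nat_lit 0) (p (nat_lit 0x38312) (nat_lit 0) (p (nat_lit 0x40212) (nat_lit 0) (p (nat_lit 0x28192) (nat_lit 0) (p (nat_lit 0x30092) (nat_lit 0) (p (nat_lit 0x18012) (nat_lit 0) pn))))))))))))))))))))))) :=
  Cl.node (nat_lit 0x20000c) (nat_lit 2) (by decide +kernel) (ClAll.succ (ClAll.succ ClAll.zero s2) s3)

def n129 : Cl (O (nat_lit 2)) (R (nat_lit 135377))
    (p (nat_lit 0xc9) (nat_lit 0) (p (nat_lit 0x81) (nat_lit 0) (p (nat_lit 0x101) (nat_lit 1) (p (nat_lit 0x119) (nat_lit 0) (p (nat_lit 0xd1) (nat_lit 0) (p (nat_lit 0x89) (nat_lit 0) (p (nat_lit 0x41) (nat_lit 0) (p (nat_lit 0x89080787089a) (nat_lit 0) (p (nat_lit 0x88878706861a) (nat_lit 0) (p (nat_lit 0x80000000080686078a) (nat_lit 0) (p (nat_lit 0x80000000078605850a) (nat_lit 0) (p (nat_lit 0x8605850682) (nat_lit 0) (p (nat_lit 0x8585048402) (nat_lit 0) (p (nat_lit 0x160014) (nat_lit 0) (p (nat_lit 0x160004) (nat_lit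 0) (p (nat_lit 0x60592) (nat_lit 0) (p (nat_lit 0x48512) (nat_lit 0) (p (nat_lit 0x50392) (nat_lit 0) (p (nat_lit 0x38312) (nat_lit 0) (p (nat_lit 0x40212) (nat_lit 0) (p (nat_lit 0x28192) (nat_lit 0) (p (nat_lit 0x30092) (nat_lit 0) (p (nat_lit 0x18012) (nat_lit 0) pn))))))))))))))))))))))) :=
  Cl.node (nat_lit 0x20000c) (nat_lit 2) (by decide +kernel) (ClAll.succ (ClAll.succ ClAll.zero n85) s7)

def n130 : Cl (O (nat_lit 2)) (R (nat_lit 135377))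
    (p (nat_lit 0xc9) (nat_lit 1) (p (nat_lit 0x81) (nat_lit 0) (p (nat_lit 0x101) (nat_lit 1) (p (nat_lit 0x119) (nat_lit 0) (p (nat_lit 0xd1) (nat_lit 0) (p (nat_lit 0x89) (nat_lit 0) (p (nat_lit 0x41) (nat_lit 0) (p (nat_lit 0x89080787089a) (nat_lit 0) (p (nat_lit 0x88878706861a) (nat_lit 0) (p (nat_lit 0x80000000080686078a) (nat_lit 0) (p (nat_lit 0x80000000078605850a) (nat_lit 0) (p (nat_lit 0x8605850682) (nat_lit 0) (p (nat_lit 0x8585048402) (nat_lit 0) (p (nat_lit 0x160014) (nat_lit 0) (p (nat_lit 0x160004) (nat_lit 0) (p (nat_lit 0x60592) (nat_lit 0) (p (nat_lit 0x48512) (nat_lit 0) (p (nat_lit 0x50392) (nat_lit 0) (p (nat_lit 0x38312) (nat_lit 0) (p (nat_lit 0x40212) (nat_lit 0) (p (nat_lit 0x28192) (nat_lit 0) (p (nat_lit 0x30092) (nat_lit 0) (p (nat_lit 0x18012) (nat_lit 0) pn))))))))))))))))))))))) :=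
  Cl.node (nat_lit 0x20000c) (nat_lit 2) (by decide +kernel) (ClAll.succ (ClAll.succ ClAll.zero n86) s13)

def n131 : Cl (O (nat_lit 2)) (R (nat_lit 135377))
    (p (nat_lit 0xc1) (nat_lit 0) (p (nat_lit 0x81) (nat_lit 1) (p (nat_lit 0x101) (nat_lit 1) (p (nat_lit 0x119) (nat_lit 0) (p (nat_lit 0xd1) (nat_lit 0) (p (nat_lit 0x89) (nat_lit 0) (p (nat_lit 0x41) (nat_lit 0) (p (nat_lit 0x89080787089a) (nat_lit 0) (p (nat_lit 0x88878706861a) (nat_lit 0) (p (nat_lit 0x80000000080686078a) (nat_lit 0) (p (nat_lit 0x80000000078605850a) (nat_lit 0) (p (nat_lit 0x8605850682) (nat_lit 0) (p (nat_lit 0x8585048402) (nat_lit 0) (p (nat_lit 0x160014) (nat_lit 0) (p (nat_lit 0x160004) (nat_lit 0) (p (nat_lit 0x60592) (nat_lit 0) (p (nat_lit 0x48512) (nat_lit 0) (p (nat_lit 0x50392) (nat_lit 0) (p (nat_lit 0x38312) (nat_lit 0) (p (nat_lit 0x40212) (nat_lit 0) (p (nat_lit 0x28192) (nat_lit 0) (p (nat_lit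 0x30092) (nat_lit 0) (p (nat_lit 0x18012) (nat_lit 0) pn))))))))))))))))))))))) :=
  Cl.node (nat_lit 0xc9) (nat_lit 2) (by decide +kernel) (ClAll.succ (ClAll.succ ClAll.zero n87) n88)

def n132 : Cl (O (nat_lit 2)) (R (nat_lit 135377))
    (p (nat_lit 0x109) (nat_lit 1) (p (nat_lit 0xc9) (nat_lit 1) (p (nat_lit 0xc1) (nat_lit 0) (p (nat_lit 0x119) (nat_lit 1) (p (nat_lit 0xd1) (nat_lit 0) (p (nat_lit 0x89) (nat_lit 0) (p (nat_lit 0x41) (nat_lit 0) (p (nat_lit 0x89080787089a) (nat_lit 0) (p (nat_lit 0x88878706861a) (nat_lit 0) (p (nat_lit 0x80000000080686078a) (nat_lit 0) (p (nat_lit 0x80000000078605850a) (nat_lit 0) (p (nat_lit 0x8605850682) (nat_lit 0) (p (nat_lit 0x8585048402) (nat_lit 0) (p (nat_lit 0x160014) (nat_lit 0) (p (nat_lit 0x160004) (nat_lit 0) (p (nat_lit 0x60592) (nat_lit 0) (p (nat_lit 0x48512) (nat_lit 0) (p (nat_lit 0x50392) (nat_lit 0) (p (nat_lit 0x38312) (nat_lit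 0) (p (nat_lit 0x40212) (nat_lit 0) (p (nat_lit 0x28192) (nat_lit 0) (p (nat_lit 0x30092) (nat_lit 0) (p (nat_lit 0x18012) (nat_lit 0) pn))))))))))))))))))))))) :=
  Cl.node (nat_lit 0x20000c) (nat_lit 2) (by decide +kernel) (ClAll.succ (ClAll.succ ClAll.zero n89) s26)

def n133 : Cl (O (nat_lit 2)) (R (nat_lit 135377))
    (p (nat_lit 0x109) (nat_lit 1) (p (nat_lit 0x81) (nat_lit 0) (p (nat_lit 0xc1) (nat_lit 1) (p (nat_lit 0x119) (nat_lit 1) (p (nat_lit 0xd1) (nat_lit 0) (p (nat_lit 0x89) (nat_lit 0) (p (nat_lit 0x41) (nat_lit 0) (p (nat_lit 0x89080787089a) (nat_lit 0) (p (nat_lit 0x88878706861a) (nat_lit 0) (p (nat_lit 0x80000000080686078a) (nat_lit 0) (p (nat_lit 0x80000000078605850a) (nat_lit 0) (p (nat_lit 0x8605850682) (nat_lit 0) (p (nat_lit 0x8585048402) (nat_lit 0) (p (nat_lit 0x160014) (nat_lit 0) (p (nat_lit 0x160004) (nat_lit 0) (p (nat_lit 0x60592) (nat_lit 0) (p (nat_lit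 0x48512) (nat_lit 0) (p (nat_lit 0x50392) (nat_lit 0) (p (nat_lit 0x38312) (nat_lit 0) (p (nat_lit 0x40212) (nat_lit 0) (p (nat_lit 0x28192) (nat_lit 0) (p (nat_lit 0x30092) (nat_lit 0) (p (nat_lit 0x18012) (nat_lit 0) pn))))))))))))))))))))))) :=
  Cl.node (nat_lit 0x20000c) (nat_lit 2) (by decide +kernel) (ClAll.succ (ClAll.succ ClAll.zero n90) s30)

def n134 : Cl (O (nat_lit 2)) (R (nat_lit 135377))
    (p (nat_lit 0x101) (nat_lit 0) (p (nat_lit 0x81) (nat_lit 1) (p (nat_lit 0xc1) (nat_lit 1) (p (nat_lit 0x119) (nat_lit 1) (p (nat_lit 0xd1) (nat_lit 0) (p (nat_lit 0x89) (nat_lit 0) (p (nat_lit 0x41) (nat_lit 0) (p (nat_lit 0x89080787089a) (nat_lit 0) (p (nat_lit 0x88878706861a) (nat_lit 0) (p (nat_lit 0x80000000080686078a) (nat_lit 0) (p (nat_lit 0x80000000078605850a) (nat_lit 0) (p (nat_lit 0x8605850682) (nat_lit 0) (p (nat_lit 0x8585048402) (nat_lit 0) (p (nat_lit 0x160014)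 (nat_lit 0) (p (nat_lit 0x160004) (nat_lit 0) (p (nat_lit 0x60592) (nat_lit 0) (p (nat_lit 0x48512) (nat_lit 0) (p (nat_lit 0x50392) (nat_lit 0) (p (nat_lit 0x38312) (nat_lit 0) (p (nat_lit 0x40212) (nat_lit 0) (p (nat_lit 0x28192) (nat_lit 0) (p (nat_lit 0x30092) (nat_lit 0) (p (nat_lit 0x18012) (nat_lit 0) pn))))))))))))))))))))))) :=
  Cl.node (nat_lit 0x109) (nat_lit 2) (by decide +kernel) (ClAll.succ (ClAll.succ ClAll.zero n91) n92)

def n135 : Cl (O (nat_lit 2)) (R (nat_lit 135377))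
    (p (nat_lit 0x101) (nat_lit 1) (p (nat_lit 0x81) (nat_lit 1) (p (nat_lit 0xc1) (nat_lit 1) (p (nat_lit 0x119) (nat_lit 1) (p (nat_lit 0xd1) (nat_lit 0) (p (nat_lit 0x89) (nat_lit 0) (p (nat_lit 0x41) (nat_lit 0) (p (nat_lit 0x89080787089a) (nat_lit 0) (p (nat_lit 0x88878706861a) (nat_lit 0) (p (nat_lit 0x80000000080686078a) (nat_lit 0) (p (nat_lit 0x80000000078605850a) (nat_lit 0) (p (nat_lit 0x8605850682) (nat_lit 0) (p (nat_lit 0x8585048402) (nat_lit 0) (p (nat_lit 0x160014) (nat_lit 0) (p (nat_lit 0x160004) (nat_lit 0) (p (nat_lit 0x60592) (nat_lit 0) (p (nat_lit 0x48512) (nat_lit 0) (p (nat_lit 0x50392) (nat_lit 0) (p (nat_lit 0x38312) (nat_lit 0) (p (nat_lit 0x40212) (nat_lit 0) (p (nat_lit 0x28192) (nat_lit 0) (p (nat_lit 0x30092) (nat_lit 0) (p (nat_lit 0x18012) (nat_lit 0) pn))))))))))))))))))))))) :=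
  Cl.node (nat_lit 0x20000c) (nat_lit 2) (by decide +kernel) (ClAll.succ (ClAll.succ ClAll.zero n93) s39)

def n136 : Cl (O (nat_lit 2)) (R (nat_lit 135377))
    (p (nat_lit 0x20000c) (nat_lit 0) (p (nat_lit 0x81) (nat_lit 0) (p (nat_lit 0x101) (nat_lit 1) (p (nat_lit 0x111) (nat_lit 0) (p (nat_lit 0xd1) (nat_lit 1) (p (nat_lit 0x89) (nat_lit 0) (p (nat_lit 0x41) (nat_lit 0) (p (nat_lit 0x89080787089a) (nat_lit 0) (p (nat_lit 0x88878706861a) (nat_lit 0) (p (nat_lit 0x80000000080686078a) (nat_lit 0) (p (nat_lit 0x80000000078605850a) (nat_lit 0) (p (nat_lit 0x8605850682) (nat_lit 0) (p (nat_lit 0x8585048402) (nat_lit 0) (p (nat_lit 0x160014) (nat_lit 0) (p (nat_lit 0x160004) (nat_lit 0) (p (nat_lit 0x60592) (nat_lit 0) (p (nat_lit 0x48512) (nat_lit 0) (p (nat_lit 0x50392) (nat_lit 0) (p (nat_lit 0x38312) (nat_lit 0) (p (nat_lit 0x40212) (nat_lit 0) (p (nat_lit 0x28192) (nat_lit 0)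 (p (nat_lit 0x30092) (nat_lit 0) (p (nat_lit 0x18012) (nat_lit 0) pn))))))))))))))))))))))) :=
  Cl.node (nat_lit 0x119) (nat_lit 2) (by decide +kernel) (ClAll.succ (ClAll.succ ClAll.zero s43) s44)

def n137 : Cl (O (nat_lit 2)) (R (nat_lit 135377))
    (p (nat_lit 0xc1) (nat_lit 0) (p (nat_lit 0x81) (nat_lit 1) (p (nat_lit 0x101) (nat_lit 1) (p (nat_lit 0x111) (nat_lit 0) (p (nat_lit 0xd1) (nat_lit 1) (p (nat_lit 0x89) (nat_lit 0) (p (nat_lit 0x41) (nat_lit 0) (p (nat_lit 0x89080787089a) (nat_lit 0) (p (nat_lit 0x88878706861a) (nat_lit 0) (p (nat_lit 0x80000000080686078a) (nat_lit 0) (p (nat_lit 0x80000000078605850a) (nat_lit 0) (p (nat_lit 0x8605850682) (nat_lit 0) (p (nat_lit 0x8585048402) (nat_lit 0) (p (nat_lit 0x160014) (nat_lit 0) (p (nat_lit 0x160004) (nat_lit 0) (p (nat_lit 0x60592) (nat_lit 0) (p (nat_lit 0x48512) (nat_lit 0) (p (nat_lit 0x50392) (nat_lit 0) (p (nat_lit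 0x38312) (nat_lit 0) (p (nat_lit 0x40212) (nat_lit 0) (p (nat_lit 0x28192) (nat_lit 0) (p (nat_lit 0x30092) (nat_lit 0) (p (nat_lit 0x18012) (nat_lit 0) pn))))))))))))))))))))))) :=
  Cl.node (nat_lit 0x20000c) (nat_lit 2) (by decide +kernel) (ClAll.succ (ClAll.succ ClAll.zero n94) n95)

def n138 : Cl (O (nat_lit 2)) (R (nat_lit 135377))
    (p (nat_lit 0x101) (nat_lit 0) (p (nat_lit 0xc1) (nat_lit 1) (p (nat_lit 0x81) (nat_lit 1) (p (nat_lit 0x111) (nat_lit 1) (p (nat_lit 0xd1) (nat_lit 1) (p (nat_lit 0x89) (nat_lit 0) (p (nat_lit 0x41) (nat_lit 0) (p (nat_lit 0x89080787089a) (nat_lit 0) (p (nat_lit 0x88878706861a) (nat_lit 0) (p (nat_lit 0x80000000080686078a) (nat_lit 0) (p (nat_lit 0x80000000078605850a) (nat_lit 0) (p (nat_lit 0x8605850682) (nat_lit 0) (p (nat_lit 0x8585048402) (nat_lit 0) (p (nat_lit 0x160014) (nat_lit 0) (p (nat_lit 0x160004) (nat_lit 0) (p (nat_lit 0x60592)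 (nat_lit 0) (p (nat_lit 0x48512) (nat_lit 0) (p (nat_lit 0x50392) (nat_lit 0) (p (nat_lit 0x38312) (nat_lit 0) (p (nat_lit 0x40212) (nat_lit 0) (p (nat_lit 0x28192) (nat_lit 0) (p (nat_lit 0x30092) (nat_lit 0) (p (nat_lit 0x18012) (nat_lit 0) pn))))))))))))))))))))))) :=
  Cl.node (nat_lit 0x20000c) (nat_lit 2) (by decide +kernel) (ClAll.succ (ClAll.succ ClAll.zero s59) s60)

def n139 : Cl (O (nat_lit 2)) (R (nat_lit 135377))
    (p (nat_lit 0x111) (nat_lit 1) (p (nat_lit 0x109) (nat_lit 0) (p (nat_lit 0x101) (nat_lit 0) (p (nat_lit 0x119) (nat_lit 0) (p (nat_lit 0xc9) (nat_lit 0) (p (nat_lit 0x89) (nat_lit 1) (p (nat_lit 0x41) (nat_lit 0) (p (nat_lit 0x89080787089a) (nat_lit 0) (p (nat_lit 0x88878706861a) (nat_lit 0) (p (nat_lit 0x80000000080686078a) (nat_lit 0) (p (nat_lit 0x80000000078605850a) (nat_lit 0) (p (nat_lit 0x8605850682) (nat_lit 0) (p (nat_lit 0x8585048402) (nat_lit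 0) (p (nat_lit 0x160014) (nat_lit 0) (p (nat_lit 0x160004) (nat_lit 0) (p (nat_lit 0x60592) (nat_lit 0) (p (nat_lit 0x48512) (nat_lit 0) (p (nat_lit 0x50392) (nat_lit 0) (p (nat_lit 0x38312) (nat_lit 0) (p (nat_lit 0x40212) (nat_lit 0) (p (nat_lit 0x28192) (nat_lit 0) (p (nat_lit 0x30092) (nat_lit 0) (p (nat_lit 0x18012) (nat_lit 0) pn))))))))))))))))))))))) :=
  Cl.node (nat_lit 0xd1) (nat_lit 2) (by decide +kernel) (ClAll.succ (ClAll.succ ClAll.zero s63) n96)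

def n140 : Cl (O (nat_lit 2)) (R (nat_lit 135377))
    (p (nat_lit 0xd1) (nat_lit 0) (p (nat_lit 0x109) (nat_lit 1) (p (nat_lit 0x101) (nat_lit 0) (p (nat_lit 0x119) (nat_lit 0) (p (nat_lit 0xc9) (nat_lit 0) (p (nat_lit 0x89) (nat_lit 1) (p (nat_lit 0x41) (nat_lit 0) (p (nat_lit 0x89080787089a) (nat_lit 0) (p (nat_lit 0x88878706861a) (nat_lit 0) (p (nat_lit 0x80000000080686078a) (nat_lit 0) (p (nat_lit 0x80000000078605850a) (nat_lit 0) (p (nat_lit 0x8605850682) (nat_lit 0) (p (nat_lit 0x8585048402) (nat_lit 0) (p (nat_lit 0x160014) (nat_lit 0) (p (nat_lit 0x160004) (nat_lit 0) (p (nat_lit 0x60592) (nat_lit 0) (p (nat_lit 0x48512) (nat_lit 0) (p (nat_lit 0x50392) (nat_lit 0) (p (nat_lit 0x38312) (nat_lit 0) (p (nat_lit 0x40212) (nat_lit 0) (p (nat_lit 0x28192) (nat_lit 0) (p (nat_lit 0x30092) (nat_lit 0) (p (nat_lit 0x18012) (nat_lit 0) pn))))))))))))))))))))))) :=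
  Cl.node (nat_lit 0x20000c) (nat_lit 2) (by decide +kernel) (ClAll.succ (ClAll.succ ClAll.zero s66) n97)

def n141 : Cl (O (nat_lit 2)) (R (nat_lit 135377))
    (p (nat_lit 0xd1) (nat_lit 1) (p (nat_lit 0x109) (nat_lit 1) (p (nat_lit 0x101) (nat_lit 0) (p (nat_lit 0x119) (nat_lit 0) (p (nat_lit 0xc9) (nat_lit 0) (p (nat_lit 0x89) (nat_lit 1) (p (nat_lit 0x41) (nat_lit 0) (p (nat_lit 0x89080787089a) (nat_lit 0) (p (nat_lit 0x88878706861a) (nat_lit 0) (p (nat_lit 0x80000000080686078a) (nat_lit 0) (p (nat_lit 0x80000000078605850a) (nat_lit 0) (p (nat_lit 0x8605850682) (nat_lit 0) (p (nat_lit 0x8585048402) (nat_lit 0) (p (nat_lit 0x160014) (nat_lit 0) (p (nat_lit 0x160004) (nat_lit 0) (p (nat_lit 0x60592) (nat_lit 0) (p (nat_lit 0x48512) (nat_lit 0) (p (nat_lit 0x50392) (nat_lit 0) (p (nat_lit 0x38312) (nat_lit 0) (p (nat_lit 0x40212) (nat_lit 0) (p (nat_lit 0x28192) (nat_lit 0) (p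 (nat_lit 0x30092) (nat_lit 0) (p (nat_lit 0x18012) (nat_lit 0) pn))))))))))))))))))))))) :=
  Cl.node (nat_lit 0x20000c) (nat_lit 2) (by decide +kernel) (ClAll.succ (ClAll.succ ClAll.zero n98) n99)

def n142 : Cl (O (nat_lit 2)) (R (nat_lit 135377))
    (p (nat_lit 0xd1) (nat_lit 0) (p (nat_lit 0xc1) (nat_lit 0) (p (nat_lit 0x101) (nat_lit 1) (p (nat_lit 0x119) (nat_lit 0) (p (nat_lit 0xc9) (nat_lit 0) (p (nat_lit 0x89) (nat_lit 1) (p (nat_lit 0x41) (nat_lit 0) (p (nat_lit 0x89080787089a) (nat_lit 0) (p (nat_lit 0x88878706861a) (nat_lit 0) (p (nat_lit 0x80000000080686078a) (nat_lit 0) (p (nat_lit 0x80000000078605850a) (nat_lit 0) (p (nat_lit 0x8605850682) (nat_lit 0) (p (nat_lit 0x8585048402) (nat_lit 0) (p (nat_lit 0x160014) (nat_lit 0) (p (nat_lit 0x160004) (nat_lit 0) (p (nat_lit 0x60592) (nat_lit 0) (p (nat_lit 0x48512) (nat_lit 0) (p (nat_lit 0x50392) (nat_lit 0) (p (nat_lit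 0x38312) (nat_lit 0) (p (nat_lit 0x40212) (nat_lit 0) (p (nat_lit 0x28192) (nat_lit 0) (p (nat_lit 0x30092) (nat_lit 0) (p (nat_lit 0x18012) (nat_lit 0) pn))))))))))))))))))))))) :=
  Cl.node (nat_lit 0x20000c) (nat_lit 2) (by decide +kernel) (ClAll.succ (ClAll.succ ClAll.zero n100) n101)

def n143 : Cl (O (nat_lit 2)) (R (nat_lit 135377))
    (p (nat_lit 0xd1) (nat_lit 1) (p (nat_lit 0xc1) (nat_lit 0) (p (nat_lit 0x101) (nat_lit 1) (p (nat_lit 0x119) (nat_lit 0) (p (nat_lit 0xc9) (nat_lit 0) (p (nat_lit 0x89) (nat_lit 1) (p (nat_lit 0x41) (nat_lit 0) (p (nat_lit 0x89080787089a) (nat_lit 0) (p (nat_lit 0x88878706861a) (nat_lit 0) (p (nat_lit 0x80000000080686078a) (nat_lit 0) (p (nat_lit 0x80000000078605850a) (nat_lit 0) (p (nat_lit 0x8605850682) (nat_lit 0) (p (nat_lit 0x8585048402) (nat_lit 0) (p (nat_lit 0x160014) (nat_lit 0) (p (nat_lit 0x160004) (nat_lit 0) (p (nat_lit 0x60592)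 (nat_lit 0) (p (nat_lit 0x48512) (nat_lit 0) (p (nat_lit 0x50392) (nat_lit 0) (p (nat_lit 0x38312) (nat_lit 0) (p (nat_lit 0x40212) (nat_lit 0) (p (nat_lit 0x28192) (nat_lit 0) (p (nat_lit 0x30092) (nat_lit 0) (p (nat_lit 0x18012) (nat_lit 0) pn))))))))))))))))))))))) :=
  Cl.node (nat_lit 0x20000c) (nat_lit 2) (by decide +kernel) (ClAll.succ (ClAll.succ ClAll.zero n102) s88)

def n144 : Cl (O (nat_lit 2)) (R (nat_lit 135377))
    (p (nat_lit 0x111) (nat_lit 1) (p (nat_lit 0xd1) (nat_lit 1) (p (nat_lit 0xc1) (nat_lit 0) (p (nat_lit 0x119) (nat_lit 1) (p (nat_lit 0xc9) (nat_lit 0) (p (nat_lit 0x89) (nat_lit 1) (p (nat_lit 0x41) (nat_lit 0) (p (nat_lit 0x89080787089a) (nat_lit 0) (p (nat_lit 0x88878706861a) (nat_lit 0) (p (nat_lit 0x80000000080686078a) (nat_lit 0) (p (nat_lit 0x80000000078605850a) (nat_lit 0) (p (nat_lit 0x8605850682) (nat_lit 0) (p (nat_lit 0x8585048402) (nat_lit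 0) (p (nat_lit 0x160014) (nat_lit 0) (p (nat_lit 0x160004) (nat_lit 0) (p (nat_lit 0x60592) (nat_lit 0) (p (nat_lit 0x48512) (nat_lit 0) (p (nat_lit 0x50392) (nat_lit 0) (p (nat_lit 0x38312) (nat_lit 0) (p (nat_lit 0x40212) (nat_lit 0) (p (nat_lit 0x28192) (nat_lit 0) (p (nat_lit 0x30092) (nat_lit 0) (p (nat_lit 0x18012) (nat_lit 0) pn))))))))))))))))))))))) :=
  Cl.node (nat_lit 0x20000c) (nat_lit 2) (by decide +kernel) (ClAll.succ (ClAll.succ ClAll.zero n103) s95)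

def n145 : Cl (O (nat_lit 2)) (R (nat_lit 135377))
    (p (nat_lit 0x111) (nat_lit 0) (p (nat_lit 0x101) (nat_lit 0) (p (nat_lit 0xc1) (nat_lit 1) (p (nat_lit 0x119) (nat_lit 1) (p (nat_lit 0xc9) (nat_lit 0) (p (nat_lit 0x89) (nat_lit 1) (p (nat_lit 0x41) (nat_lit 0) (p (nat_lit 0x89080787089a) (nat_lit 0) (p (nat_lit 0x88878706861a) (nat_lit 0) (p (nat_lit 0x80000000080686078a) (nat_lit 0) (p (nat_lit 0x80000000078605850a) (nat_lit 0) (p (nat_lit 0x8605850682) (nat_lit 0) (p (nat_lit 0x8585048402) (nat_lit 0) (p (nat_lit 0x160014) (nat_lit 0) (p (nat_lit 0x160004) (nat_lit 0) (p (nat_lit 0x60592) (nat_lit 0) (p (nat_lit 0x48512) (nat_lit 0) (p (nat_lit 0x50392) (nat_lit 0) (p (nat_lit 0x38312) (nat_lit 0) (p (nat_lit 0x40212) (nat_lit 0) (p (nat_lit 0x28192) (nat_lit 0) (p (nat_lit 0x30092) (nat_lit 0) (p (nat_lit 0x18012) (nat_lit 0) pn))))))))))))))))))))))) :=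
  Cl.node (nat_lit 0x20000c) (nat_lit 2) (by decide +kernel) (ClAll.succ (ClAll.succ ClAll.zero s96) s97)

def n146 : Cl (O (nat_lit 2)) (R (nat_lit 135377))
    (p (nat_lit 0x111) (nat_lit 1) (p (nat_lit 0x101) (nat_lit 0) (p (nat_lit 0xc1) (nat_lit 1) (p (nat_lit 0x119) (nat_lit 1) (p (nat_lit 0xc9) (nat_lit 0) (p (nat_lit 0x89) (nat_lit 1) (p (nat_lit 0x41) (nat_lit 0) (p (nat_lit 0x89080787089a) (nat_lit 0) (p (nat_lit 0x88878706861a) (nat_lit 0) (p (nat_lit 0x80000000080686078a) (nat_lit 0) (p (nat_lit 0x80000000078605850a) (nat_lit 0) (p (nat_lit 0x8605850682) (nat_lit 0) (p (nat_lit 0x8585048402) (nat_lit 0) (p (nat_lit 0x160014) (nat_lit 0) (p (nat_lit 0x160004) (nat_lit 0) (p (nat_lit 0x60592) (nat_lit 0) (p (nat_lit 0x48512) (nat_lit 0) (p (nat_lit 0x50392) (nat_lit 0) (p (nat_lit 0x38312) (nat_lit 0) (p (nat_lit 0x40212) (nat_lit 0) (p (nat_lit 0x28192) (nat_lit 0) (p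 (nat_lit 0x30092) (nat_lit 0) (p (nat_lit 0x18012) (nat_lit 0) pn))))))))))))))))))))))) :=
  Cl.node (nat_lit 0x20000c) (nat_lit 2) (by decide +kernel) (ClAll.succ (ClAll.succ ClAll.zero s98) s99)

def n147 : Cl (O (nat_lit 2)) (R (nat_lit 135377))
    (p (nat_lit 0x89) (nat_lit 0) (p (nat_lit 0x109) (nat_lit 1) (p (nat_lit 0x101) (nat_lit 0) (p (nat_lit 0x119) (nat_lit 0) (p (nat_lit 0xd1) (nat_lit 0) (p (nat_lit 0x81) (nat_lit 0) (p (nat_lit 0x41) (nat_lit 1) (p (nat_lit 0x89080787089a) (nat_lit 0) (p (nat_lit 0x88878706861a) (nat_lit 0) (p (nat_lit 0x80000000080686078a) (nat_lit 0) (p (nat_lit 0x80000000078605850a) (nat_lit 0) (p (nat_lit 0x8605850682) (nat_lit 0) (p (nat_lit 0x8585048402) (nat_lit 0) (p (nat_lit 0x160014) (nat_lit 0) (p (nat_lit 0x160004) (nat_lit 0) (p (nat_lit 0x60592) (nat_lit 0) (p (nat_lit 0x48512) (nat_lit 0) (p (nat_lit 0x50392) (nat_lit 0) (p (nat_lit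 0x38312) (nat_lit 0) (p (nat_lit 0x40212) (nat_lit 0) (p (nat_lit 0x28192) (nat_lit 0) (p (nat_lit 0x30092) (nat_lit 0) (p (nat_lit 0x18012) (nat_lit 0) pn))))))))))))))))))))))) :=
  Cl.node (nat_lit 0x20000c) (nat_lit 2) (by decide +kernel) (ClAll.succ (ClAll.succ ClAll.zero n104) s107)

def n148 : Cl (O (nat_lit 2)) (R (nat_lit 135377))
    (p (nat_lit 0x89) (nat_lit 1) (p (nat_lit 0x109) (nat_lit 1) (p (nat_lit 0x101) (nat_lit 0) (p (nat_lit 0x119) (nat_lit 0) (p (nat_lit 0xd1) (nat_lit 0) (p (nat_lit 0x81) (nat_lit 0) (p (nat_lit 0x41) (nat_lit 1) (p (nat_lit 0x89080787089a) (nat_lit 0) (p (nat_lit 0x88878706861a) (nat_lit 0) (p (nat_lit 0x80000000080686078a) (nat_lit 0) (p (nat_lit 0x80000000078605850a) (nat_lit 0) (p (nat_lit 0x8605850682) (nat_lit 0) (p (nat_lit 0x8585048402) (nat_lit 0) (p (nat_lit 0x160014) (nat_lit 0) (p (nat_lit 0x160004) (nat_lit 0) (p (nat_lit 0x60592)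 (nat_lit 0) (p (nat_lit 0x48512) (nat_lit 0) (p (nat_lit 0x50392) (nat_lit 0) (p (nat_lit 0x38312) (nat_lit 0) (p (nat_lit 0x40212) (nat_lit 0) (p (nat_lit 0x28192) (nat_lit 0) (p (nat_lit 0x30092) (nat_lit 0) (p (nat_lit 0x18012) (nat_lit 0) pn))))))))))))))))))))))) :=
  Cl.node (nat_lit 0xc9) (nat_lit 2) (by decide +kernel) (ClAll.succ (ClAll.succ ClAll.zero n105) n106)

def n149 : Cl (O (nat_lit 2)) (R (nat_lit 135377))
    (p (nat_lit 0x89) (nat_lit 0) (p (nat_lit 0xc1) (nat_lit 0) (p (nat_lit 0x101) (nat_lit 1) (p (nat_lit 0x119) (nat_lit 0) (p (nat_lit 0xd1) (nat_lit 0) (p (nat_lit 0x81) (nat_lit 0) (p (nat_lit 0x41) (nat_lit 1) (p (nat_lit 0x89080787089a) (nat_lit 0) (p (nat_lit 0x88878706861a) (nat_lit 0) (p (nat_lit 0x80000000080686078a) (nat_lit 0) (p (nat_lit 0x80000000078605850a) (nat_lit 0) (p (nat_lit 0x8605850682) (nat_lit 0) (p (nat_lit 0x8585048402) (nat_lit 0)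 (p (nat_lit 0x160014) (nat_lit 0) (p (nat_lit 0x160004) (nat_lit 0) (p (nat_lit 0x60592) (nat_lit 0) (p (nat_lit 0x48512) (nat_lit 0) (p (nat_lit 0x50392) (nat_lit 0) (p (nat_lit 0x38312) (nat_lit 0) (p (nat_lit 0x40212) (nat_lit 0) (p (nat_lit 0x28192) (nat_lit 0) (p (nat_lit 0x30092) (nat_lit 0) (p (nat_lit 0x18012) (nat_lit 0) pn))))))))))))))))))))))) :=
  Cl.node (nat_lit 0x20000c) (nat_lit 2) (by decide +kernel) (ClAll.succ (ClAll.succ ClAll.zero s114) s115)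

def n150 : Cl (O (nat_lit 2)) (R (nat_lit 135377))
    (p (nat_lit 0x89) (nat_lit 1) (p (nat_lit 0xc1) (nat_lit 0) (p (nat_lit 0x101) (nat_lit 1) (p (nat_lit 0x119) (nat_lit 0) (p (nat_lit 0xd1) (nat_lit 0) (p (nat_lit 0x81) (nat_lit 0) (p (nat_lit 0x41) (nat_lit 1) (p (nat_lit 0x89080787089a) (nat_lit 0) (p (nat_lit 0x88878706861a) (nat_lit 0) (p (nat_lit 0x80000000080686078a) (nat_lit 0) (p (nat_lit 0x80000000078605850a) (nat_lit 0) (p (nat_lit 0x8605850682) (nat_lit 0) (p (nat_lit 0x8585048402) (nat_lit 0) (p (nat_lit 0x160014) (nat_lit 0) (p (nat_lit 0x160004) (nat_lit 0) (p (nat_lit 0x60592) (nat_lit 0) (p (nat_lit 0x48512) (nat_lit 0) (p (nat_lit 0x50392) (nat_lit 0) (p (nat_lit 0x38312) (nat_lit 0) (p (nat_lit 0x40212) (nat_lit 0) (p (nat_lit 0x28192) (nat_lit 0) (p (nat_lit 0x30092) (nat_lit 0) (p (nat_lit 0x18012) (nat_lit 0) pn))))))))))))))))))))))) :=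
  Cl.node (nat_lit 0xc9) (nat_lit 2) (by decide +kernel) (ClAll.succ (ClAll.succ ClAll.zero n107) n108)

def n151 : Cl (O (nat_lit 2)) (R (nat_lit 135377))
    (p (nat_lit 0x89) (nat_lit 0) (p (nat_lit 0xc1) (nat_lit 1) (p (nat_lit 0x101) (nat_lit 1) (p (nat_lit 0x119) (nat_lit 0) (p (nat_lit 0xd1) (nat_lit 0) (p (nat_lit 0x81) (nat_lit 0) (p (nat_lit 0x41) (nat_lit 1) (p (nat_lit 0x89080787089a) (nat_lit 0) (p (nat_lit 0x88878706861a) (nat_lit 0) (p (nat_lit 0x80000000080686078a) (nat_lit 0) (p (nat_lit 0x80000000078605850a) (nat_lit 0) (p (nat_lit 0x8605850682) (nat_lit 0) (p (nat_lit 0x8585048402) (nat_lit 0) (p (nat_lit 0x160014) (nat_lit 0) (p (nat_lit 0x160004) (nat_lit 0) (p (nat_lit 0x60592) (nat_lit 0) (p (nat_lit 0x48512) (nat_lit 0) (p (nat_lit 0x50392) (nat_lit 0) (p (nat_lit 0x38312) (nat_lit 0) (p (nat_lit 0x40212) (nat_lit 0) (p (nat_lit 0x28192) (nat_lit 0) (p (nat_lit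 0x30092) (nat_lit 0) (p (nat_lit 0x18012) (nat_lit 0) pn))))))))))))))))))))))) :=
  Cl.node (nat_lit 0x20000c) (nat_lit 2) (by decide +kernel) (ClAll.succ (ClAll.succ ClAll.zero s126) s127)

def n152 : Cl (O (nat_lit 2)) (R (nat_lit 135377))
    (p (nat_lit 0x89) (nat_lit 1) (p (nat_lit 0xc1) (nat_lit 1) (p (nat_lit 0x101) (nat_lit 1) (p (nat_lit 0x119) (nat_lit 0) (p (nat_lit 0xd1) (nat_lit 0) (p (nat_lit 0x81) (nat_lit 0) (p (nat_lit 0x41) (nat_lit 1) (p (nat_lit 0x89080787089a) (nat_lit 0) (p (nat_lit 0x88878706861a) (nat_lit 0) (p (nat_lit 0x80000000080686078a) (nat_lit 0) (p (nat_lit 0x80000000078605850a) (nat_lit 0) (p (nat_lit 0x8605850682) (nat_lit 0) (p (nat_lit 0x8585048402) (nat_lit 0) (p (nat_lit 0x160014) (nat_lit 0) (p (nat_lit 0x160004) (nat_lit 0) (p (nat_lit 0x60592) (nat_lit 0) (p (nat_lit 0x48512) (nat_lit 0) (p (nat_lit 0x50392) (nat_lit 0) (p (nat_lit 0x38312)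 (nat_lit 0) (p (nat_lit 0x40212) (nat_lit 0) (p (nat_lit 0x28192) (nat_lit 0) (p (nat_lit 0x30092) (nat_lit 0) (p (nat_lit 0x18012) (nat_lit 0) pn))))))))))))))))))))))) :=
  Cl.node (nat_lit 0x20000c) (nat_lit 2) (by decide +kernel) (ClAll.succ (ClAll.succ ClAll.zero n109) s138)

def n153 : Cl (O (nat_lit 2)) (R (nat_lit 135377))
    (p (nat_lit 0x89) (nat_lit 1) (p (nat_lit 0xc9) (nat_lit 1) (p (nat_lit 0xc1) (nat_lit 0) (p (nat_lit 0x119) (nat_lit 1) (p (nat_lit 0xd1) (nat_lit 0) (p (nat_lit 0x81) (nat_lit 0) (p (nat_lit 0x41) (nat_lit 1) (p (nat_lit 0x89080787089a) (nat_lit 0) (p (nat_lit 0x88878706861a) (nat_lit 0) (p (nat_lit 0x80000000080686078a) (nat_lit 0) (p (nat_lit 0x80000000078605850a) (nat_lit 0) (p (nat_lit 0x8605850682) (nat_lit 0) (p (nat_lit 0x8585048402) (nat_lit 0) (p (nat_lit 0x160014) (nat_lit 0) (p (nat_lit 0x160004) (nat_lit 0) (p (nat_lit 0x60592) (nat_lit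 0) (p (nat_lit 0x48512) (nat_lit 0) (p (nat_lit 0x50392) (nat_lit 0) (p (nat_lit 0x38312) (nat_lit 0) (p (nat_lit 0x40212) (nat_lit 0) (p (nat_lit 0x28192) (nat_lit 0) (p (nat_lit 0x30092) (nat_lit 0) (p (nat_lit 0x18012) (nat_lit 0) pn))))))))))))))))))))))) :=
  Cl.node (nat_lit 0x109) (nat_lit 2) (by decide +kernel) (ClAll.succ (ClAll.succ ClAll.zero n110) n111)

def n154 : Cl (O (nat_lit 2)) (R (nat_lit 135377))
    (p (nat_lit 0x89) (nat_lit 1) (p (nat_lit 0x101) (nat_lit 0) (p (nat_lit 0xc1) (nat_lit 1) (p (nat_lit 0x119) (nat_lit 1) (p (nat_lit 0xd1) (nat_lit 0) (p (nat_lit 0x81) (nat_lit 0) (p (nat_lit 0x41) (nat_lit 1) (p (nat_lit 0x89080787089a) (nat_lit 0) (p (nat_lit 0x88878706861a) (nat_lit 0) (p (nat_lit 0x80000000080686078a) (nat_lit 0) (p (nat_lit 0x80000000078605850a) (nat_lit 0) (p (nat_lit 0x8605850682) (nat_lit 0) (p (nat_lit 0x8585048402) (nat_lit 0) (p (nat_lit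 0x160014) (nat_lit 0) (p (nat_lit 0x160004) (nat_lit 0) (p (nat_lit 0x60592) (nat_lit 0) (p (nat_lit 0x48512) (nat_lit 0) (p (nat_lit 0x50392) (nat_lit 0) (p (nat_lit 0x38312) (nat_lit 0) (p (nat_lit 0x40212) (nat_lit 0) (p (nat_lit 0x28192) (nat_lit 0) (p (nat_lit 0x30092) (nat_lit 0) (p (nat_lit 0x18012) (nat_lit 0) pn))))))))))))))))))))))) :=
  Cl.node (nat_lit 0x109) (nat_lit 2) (by decide +kernel) (ClAll.succ (ClAll.succ ClAll.zero n112) n113)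

def n155 : Cl (O (nat_lit 2)) (R (nat_lit 135377))
    (p (nat_lit 0x89) (nat_lit 0) (p (nat_lit 0x101) (nat_lit 1) (p (nat_lit 0xc1) (nat_lit 1) (p (nat_lit 0x119) (nat_lit 1) (p (nat_lit 0xd1) (nat_lit 0) (p (nat_lit 0x81) (nat_lit 0) (p (nat_lit 0x41) (nat_lit 1) (p (nat_lit 0x89080787089a) (nat_lit 0) (p (nat_lit 0x88878706861a) (nat_lit 0) (p (nat_lit 0x80000000080686078a) (nat_lit 0) (p (nat_lit 0x80000000078605850a) (nat_lit 0) (p (nat_lit 0x8605850682) (nat_lit 0) (p (nat_lit 0x8585048402) (nat_lit 0) (p (nat_lit 0x160014) (nat_lit 0) (p (nat_lit 0x160004) (nat_lit 0) (p (nat_lit 0x60592) (nat_lit 0) (p (nat_lit 0x48512) (nat_lit 0) (p (nat_lit 0x50392) (nat_lit 0) (p (nat_lit 0x38312) (nat_lit 0) (p (nat_lit 0x40212) (nat_lit 0) (p (nat_lit 0x28192) (nat_lit 0) (p (nat_lit 0x30092) (nat_lit 0) (p (nat_lit 0x18012) (nat_lit 0) pn))))))))))))))))))))))) :=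
  Cl.node (nat_lit 0x20000c) (nat_lit 2) (by decide +kernel) (ClAll.succ (ClAll.succ ClAll.zero s160) s161)

def n156 : Cl (O (nat_lit 2)) (R (nat_lit 135377))
    (p (nat_lit 0x89) (nat_lit 1) (p (nat_lit 0x101) (nat_lit 1) (p (nat_lit 0xc1) (nat_lit 1) (p (nat_lit 0x119) (nat_lit 1) (p (nat_lit 0xd1) (nat_lit 0) (p (nat_lit 0x81) (nat_lit 0) (p (nat_lit 0x41) (nat_lit 1) (p (nat_lit 0x89080787089a) (nat_lit 0) (p (nat_lit 0x88878706861a) (nat_lit 0) (p (nat_lit 0x80000000080686078a) (nat_lit 0) (p (nat_lit 0x80000000078605850a) (nat_lit 0) (p (nat_lit 0x8605850682) (nat_lit 0) (p (nat_lit 0x8585048402) (nat_lit 0) (p (nat_lit 0x160014) (nat_lit 0) (p (nat_lit 0x160004) (nat_lit 0) (p (nat_lit 0x60592) (nat_lit 0) (p (nat_lit 0x48512) (nat_lit 0) (p (nat_lit 0x50392) (nat_lit 0) (p (nat_lit 0x38312) (nat_lit 0) (p (nat_lit 0x40212) (nat_lit 0) (p (nat_lit 0x28192) (nat_lit 0) (p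 (nat_lit 0x30092) (nat_lit 0) (p (nat_lit 0x18012) (nat_lit 0) pn))))))))))))))))))))))) :=
  Cl.node (nat_lit 0x20000c) (nat_lit 2) (by decide +kernel) (ClAll.succ (ClAll.succ ClAll.zero n114) s171)

def n157 : Cl (O (nat_lit 2)) (R (nat_lit 135377))
    (p (nat_lit 0x89) (nat_lit 1) (p (nat_lit 0x109) (nat_lit 1) (p (nat_lit 0x101) (nat_lit 0) (p (nat_lit 0x111) (nat_lit 0) (p (nat_lit 0xd1) (nat_lit 1) (p (nat_lit 0x81) (nat_lit 0) (p (nat_lit 0x41) (nat_lit 1) (p (nat_lit 0x89080787089a) (nat_lit 0) (p (nat_lit 0x88878706861a) (nat_lit 0) (p (nat_lit 0x80000000080686078a) (nat_lit 0) (p (nat_lit 0x80000000078605850a) (nat_lit 0) (p (nat_lit 0x8605850682) (nat_lit 0) (p (nat_lit 0x8585048402) (nat_lit 0) (p (nat_lit 0x160014) (nat_lit 0) (p (nat_lit 0x160004) (nat_lit 0) (p (nat_lit 0x60592) (nat_lit 0) (p (nat_lit 0x48512) (nat_lit 0) (p (nat_lit 0x50392) (nat_lit 0) (p (nat_lit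 0x38312) (nat_lit 0) (p (nat_lit 0x40212) (nat_lit 0) (p (nat_lit 0x28192) (nat_lit 0) (p (nat_lit 0x30092) (nat_lit 0) (p (nat_lit 0x18012) (nat_lit 0) pn))))))))))))))))))))))) :=
  Cl.node (nat_lit 0xc9) (nat_lit 2) (by decide +kernel) (ClAll.succ (ClAll.succ ClAll.zero n115) n116)

def n158 : Cl (O (nat_lit 2)) (R (nat_lit 135377))
    (p (nat_lit 0xc9) (nat_lit 0) (p (nat_lit 0x89) (nat_lit 1) (p (nat_lit 0x101) (nat_lit 1) (p (nat_lit 0x111) (nat_lit 0) (p (nat_lit 0xd1) (nat_lit 1) (p (nat_lit 0x81) (nat_lit 0) (p (nat_lit 0x41) (nat_lit 1) (p (nat_lit 0x89080787089a) (nat_lit 0) (p (nat_lit 0x88878706861a) (nat_lit 0) (p (nat_lit 0x80000000080686078a) (nat_lit 0) (p (nat_lit 0x80000000078605850a) (nat_lit 0) (p (nat_lit 0x8605850682) (nat_lit 0) (p (nat_lit 0x8585048402) (nat_lit 0) (p (nat_lit 0x160014) (nat_lit 0) (p (nat_lit 0x160004) (nat_lit 0) (p (nat_lit 0x60592) (nat_lit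 0) (p (nat_lit 0x48512) (nat_lit 0) (p (nat_lit 0x50392) (nat_lit 0) (p (nat_lit 0x38312) (nat_lit 0) (p (nat_lit 0x40212) (nat_lit 0) (p (nat_lit 0x28192) (nat_lit 0) (p (nat_lit 0x30092) (nat_lit 0) (p (nat_lit 0x18012) (nat_lit 0) pn))))))))))))))))))))))) :=
  Cl.node (nat_lit 0x20000c) (nat_lit 2) (by decide +kernel) (ClAll.succ (ClAll.succ ClAll.zero n117) s190)

def n159 : Cl (O (nat_lit 2)) (R (nat_lit 135377))
    (p (nat_lit 0xc9) (nat_lit 1) (p (nat_lit 0x89) (nat_lit 1) (p (nat_lit 0x101) (nat_lit 1) (p (nat_lit 0x111) (nat_lit 0) (p (nat_lit 0xd1) (nat_lit 1) (p (nat_lit 0x81) (nat_lit 0) (p (nat_lit 0x41) (nat_lit 1) (p (nat_lit 0x89080787089a) (nat_lit 0) (p (nat_lit 0x88878706861a) (nat_lit 0) (p (nat_lit 0x80000000080686078a) (nat_lit 0) (p (nat_lit 0x80000000078605850a) (nat_lit 0) (p (nat_lit 0x8605850682) (nat_lit 0) (p (nat_lit 0x8585048402) (nat_lit 0) (p (nat_lit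 0x160014) (nat_lit 0) (p (nat_lit 0x160004) (nat_lit 0) (p (nat_lit 0x60592) (nat_lit 0) (p (nat_lit 0x48512) (nat_lit 0) (p (nat_lit 0x50392) (nat_lit 0) (p (nat_lit 0x38312) (nat_lit 0) (p (nat_lit 0x40212) (nat_lit 0) (p (nat_lit 0x28192) (nat_lit 0) (p (nat_lit 0x30092) (nat_lit 0) (p (nat_lit 0x18012) (nat_lit 0) pn))))))))))))))))))))))) :=
  Cl.node (nat_lit 0x20000c) (nat_lit 2) (by decide +kernel) (ClAll.succ (ClAll.succ ClAll.zero n118) s193)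

def n160 : Cl (O (nat_lit 2)) (R (nat_lit 135377))
    (p (nat_lit 0x109) (nat_lit 0) (p (nat_lit 0xc9) (nat_lit 1) (p (nat_lit 0x89) (nat_lit 1) (p (nat_lit 0x111) (nat_lit 1) (p (nat_lit 0xd1) (nat_lit 1) (p (nat_lit 0x81) (nat_lit 0) (p (nat_lit 0x41) (nat_lit 1) (p (nat_lit 0x89080787089a) (nat_lit 0) (p (nat_lit 0x88878706861a) (nat_lit 0) (p (nat_lit 0x80000000080686078a) (nat_lit 0) (p (nat_lit 0x80000000078605850a) (nat_lit 0) (p (nat_lit 0x8605850682) (nat_lit 0) (p (nat_lit 0x8585048402) (nat_lit 0) (p (nat_lit 0x160014) (nat_lit 0) (p (nat_lit 0x160004) (nat_lit 0) (p (nat_lit 0x60592) (nat_lit 0) (p (nat_lit 0x48512) (nat_lit 0) (p (nat_lit 0x50392) (nat_lit 0) (p (nat_lit 0x38312) (nat_lit 0) (p (nat_lit 0x40212) (nat_lit 0) (p (nat_lit 0x28192) (nat_lit 0) (p (nat_lit 0x30092) (nat_lit 0) (p (nat_lit 0x18012) (nat_lit 0) pn))))))))))))))))))))))) :=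
  Cl.node (nat_lit 0x20000c) (nat_lit 2) (by decide +kernel) (ClAll.succ (ClAll.succ ClAll.zero n119) s198)

def n161 : Cl (O (nat_lit 2)) (R (nat_lit 135377))
    (p (nat_lit 0x109) (nat_lit 1) (p (nat_lit 0xc9) (nat_lit 1) (p (nat_lit 0x89) (nat_lit 1) (p (nat_lit 0x111) (nat_lit 1) (p (nat_lit 0xd1) (nat_lit 1) (p (nat_lit 0x81) (nat_lit 0) (p (nat_lit 0x41) (nat_lit 1) (p (nat_lit 0x89080787089a) (nat_lit 0) (p (nat_lit 0x88878706861a) (nat_lit 0) (p (nat_lit 0x80000000080686078a) (nat_lit 0) (p (nat_lit 0x80000000078605850a) (nat_lit 0) (p (nat_lit 0x8605850682) (nat_lit 0) (p (nat_lit 0x8585048402) (nat_lit 0) (p (nat_lit 0x160014) (nat_lit 0) (p (nat_lit 0x160004) (nat_lit 0) (p (nat_lit 0x60592) (nat_lit 0) (p (nat_lit 0x48512) (nat_lit 0) (p (nat_lit 0x50392) (nat_lit 0) (p (nat_lit 0x38312) (nat_lit 0) (p (nat_lit 0x40212) (nat_lit 0) (p (nat_lit 0x28192) (nat_lit 0) (p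 (nat_lit 0x30092) (nat_lit 0) (p (nat_lit 0x18012) (nat_lit 0) pn))))))))))))))))))))))) :=
  Cl.node (nat_lit 0x20000c) (nat_lit 2) (by decide +kernel) (ClAll.succ (ClAll.succ ClAll.zero n120) s202)

def n162 : Cl (O (nat_lit 2)) (R (nat_lit 135377))
    (p (nat_lit 0x111) (nat_lit 1) (p (nat_lit 0x109) (nat_lit 0) (p (nat_lit 0x101) (nat_lit 0) (p (nat_lit 0x119) (nat_lit 0) (p (nat_lit 0xc1) (nat_lit 0) (p (nat_lit 0x81) (nat_lit 1) (p (nat_lit 0x41) (nat_lit 1) (p (nat_lit 0x89080787089a) (nat_lit 0) (p (nat_lit 0x88878706861a) (nat_lit 0) (p (nat_lit 0x80000000080686078a) (nat_lit 0) (p (nat_lit 0x80000000078605850a) (nat_lit 0) (p (nat_lit 0x8605850682) (nat_lit 0) (p (nat_lit 0x8585048402) (nat_lit 0) (p (nat_lit 0x160014) (nat_lit 0) (p (nat_lit 0x160004) (nat_lit 0) (p (nat_lit 0x60592) (nat_lit 0) (p (nat_lit 0x48512) (nat_lit 0) (p (nat_lit 0x50392) (nat_lit 0) (p (nat_lit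 0x38312) (nat_lit 0) (p (nat_lit 0x40212) (nat_lit 0) (p (nat_lit 0x28192) (nat_lit 0) (p (nat_lit 0x30092) (nat_lit 0) (p (nat_lit 0x18012) (nat_lit 0) pn))))))))))))))))))))))) :=
  Cl.node (nat_lit 0xd1) (nat_lit 2) (by decide +kernel) (ClAll.succ (ClAll.succ ClAll.zero s204) n121)

def n163 : Cl (O (nat_lit 2)) (R (nat_lit 135377))
    (p (nat_lit 0xc9) (nat_lit 0) (p (nat_lit 0x109) (nat_lit 1) (p (nat_lit 0x101) (nat_lit 0) (p (nat_lit 0x119) (nat_lit 0) (p (nat_lit 0xc1) (nat_lit 0) (p (nat_lit 0x81) (nat_lit 1) (p (nat_lit 0x41) (nat_lit 1) (p (nat_lit 0x89080787089a) (nat_lit 0) (p (nat_lit 0x88878706861a) (nat_lit 0) (p (nat_lit 0x80000000080686078a) (nat_lit 0) (p (nat_lit 0x80000000078605850a) (nat_lit 0) (p (nat_lit 0x8605850682) (nat_lit 0) (p (nat_lit 0x8585048402) (nat_lit 0) (p (nat_lit 0x160014) (nat_lit 0) (p (nat_lit 0x160004) (nat_lit 0) (p (nat_lit 0x60592)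 (nat_lit 0) (p (nat_lit 0x48512) (nat_lit 0) (p (nat_lit 0x50392) (nat_lit 0) (p (nat_lit 0x38312) (nat_lit 0) (p (nat_lit 0x40212) (nat_lit 0) (p (nat_lit 0x28192) (nat_lit 0) (p (nat_lit 0x30092) (nat_lit 0) (p (nat_lit 0x18012) (nat_lit 0) pn))))))))))))))))))))))) :=
  Cl.node (nat_lit 0xd1) (nat_lit 2) (by decide +kernel) (ClAll.succ (ClAll.succ ClAll.zero s207) n122)

def n164 : Cl (O (nat_lit 2)) (R (nat_lit 135377))
    (p (nat_lit 0xd1) (nat_lit 0) (p (nat_lit 0xc9) (nat_lit 0) (p (nat_lit 0x101) (nat_lit 1) (p (nat_lit 0x119) (nat_lit 0) (p (nat_lit 0xc1) (nat_lit 0) (p (nat_lit 0x81) (nat_lit 1) (p (nat_lit 0x41) (nat_lit 1) (p (nat_lit 0x89080787089a) (nat_lit 0) (p (nat_lit 0x88878706861a) (nat_lit 0) (p (nat_lit 0x80000000080686078a) (nat_lit 0) (p (nat_lit 0x80000000078605850a) (nat_lit 0) (p (nat_lit 0x8605850682) (nat_lit 0) (p (nat_lit 0x8585048402) (nat_lit 0)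 (p (nat_lit 0x160014) (nat_lit 0) (p (nat_lit 0x160004) (nat_lit 0) (p (nat_lit 0x60592) (nat_lit 0) (p (nat_lit 0x48512) (nat_lit 0) (p (nat_lit 0x50392) (nat_lit 0) (p (nat_lit 0x38312) (nat_lit 0) (p (nat_lit 0x40212) (nat_lit 0) (p (nat_lit 0x28192) (nat_lit 0) (p (nat_lit 0x30092) (nat_lit 0) (p (nat_lit 0x18012) (nat_lit 0) pn))))))))))))))))))))))) :=
  Cl.node (nat_lit 0x20000c) (nat_lit 2) (by decide +kernel) (ClAll.succ (ClAll.succ ClAll.zero s211) s212)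

def n165 : Cl (O (nat_lit 2)) (R (nat_lit 135377))
    (p (nat_lit 0xd1) (nat_lit 1) (p (nat_lit 0xc9) (nat_lit 0) (p (nat_lit 0x101) (nat_lit 1) (p (nat_lit 0x119) (nat_lit 0) (p (nat_lit 0xc1) (nat_lit 0) (p (nat_lit 0x81) (nat_lit 1) (p (nat_lit 0x41) (nat_lit 1) (p (nat_lit 0x89080787089a) (nat_lit 0) (p (nat_lit 0x88878706861a) (nat_lit 0) (p (nat_lit 0x80000000080686078a) (nat_lit 0) (p (nat_lit 0x80000000078605850a) (nat_lit 0) (p (nat_lit 0x8605850682) (nat_lit 0) (p (nat_lit 0x8585048402) (nat_lit 0) (p (nat_lit 0x160014) (nat_lit 0) (p (nat_lit 0x160004) (nat_lit 0) (p (nat_lit 0x60592) (nat_lit 0) (p (nat_lit 0x48512) (nat_lit 0) (p (nat_lit 0x50392) (nat_lit 0) (p (nat_lit 0x38312) (nat_lit 0) (p (nat_lit 0x40212) (nat_lit 0) (p (nat_lit 0x28192) (nat_lit 0) (p (nat_lit 0x30092) (nat_lit 0) (p (nat_lit 0x18012) (nat_lit 0) pn))))))))))))))))))))))) :=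
  Cl.node (nat_lit 0x20000c) (nat_lit 2) (by decide +kernel) (ClAll.succ (ClAll.succ ClAll.zero n123) n124)

def n166 : Cl (O (nat_lit 2)) (R (nat_lit 135377))
    (p (nat_lit 0x111) (nat_lit 1) (p (nat_lit 0xd1) (nat_lit 1) (p (nat_lit 0xc9) (nat_lit 0) (p (nat_lit 0x119) (nat_lit 1) (p (nat_lit 0xc1) (nat_lit 0) (p (nat_lit 0x81) (nat_lit 1) (p (nat_lit 0x41) (nat_lit 1) (p (nat_lit 0x89080787089a) (nat_lit 0) (p (nat_lit 0x88878706861a) (nat_lit 0) (p (nat_lit 0x80000000080686078a) (nat_lit 0) (p (nat_lit 0x80000000078605850a) (nat_lit 0) (p (nat_lit 0x8605850682) (nat_lit 0) (p (nat_lit 0x8585048402) (nat_lit 0) (p (nat_lit 0x160014) (nat_lit 0) (p (nat_lit 0x160004) (nat_lit 0) (p (nat_lit 0x60592) (nat_lit 0) (p (nat_lit 0x48512) (nat_lit 0) (p (nat_lit 0x50392) (nat_lit 0) (p (nat_lit 0x38312) (nat_lit 0) (p (nat_lit 0x40212) (nat_lit 0) (p (nat_lit 0x28192) (nat_lit 0) (p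 (nat_lit 0x30092) (nat_lit 0) (p (nat_lit 0x18012) (nat_lit 0) pn))))))))))))))))))))))) :=
  Cl.node (nat_lit 0x20000c) (nat_lit 2) (by decide +kernel) (ClAll.succ (ClAll.succ ClAll.zero n125) s224)

def n167 : Cl (O (nat_lit 2)) (R (nat_lit 135377))
    (p (nat_lit 0x111) (nat_lit 0) (p (nat_lit 0x109) (nat_lit 0) (p (nat_lit 0xc9) (nat_lit 1) (p (nat_lit 0x119) (nat_lit 1) (p (nat_lit 0xc1) (nat_lit 0) (p (nat_lit 0x81) (nat_lit 1) (p (nat_lit 0x41) (nat_lit 1) (p (nat_lit 0x89080787089a) (nat_lit 0) (p (nat_lit 0x88878706861a) (nat_lit 0) (p (nat_lit 0x80000000080686078a) (nat_lit 0) (p (nat_lit 0x80000000078605850a) (nat_lit 0) (p (nat_lit 0x8605850682) (nat_lit 0) (p (nat_lit 0x8585048402) (nat_lit 0) (p (nat_lit 0x160014) (nat_lit 0) (p (nat_lit 0x160004) (nat_lit 0) (p (nat_lit 0x60592) (nat_lit 0) (p (nat_lit 0x48512) (nat_lit 0) (p (nat_lit 0x50392) (nat_lit 0) (p (nat_lit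 0x38312) (nat_lit 0) (p (nat_lit 0x40212) (nat_lit 0) (p (nat_lit 0x28192) (nat_lit 0) (p (nat_lit 0x30092) (nat_lit 0) (p (nat_lit 0x18012) (nat_lit 0) pn))))))))))))))))))))))) :=
  Cl.node (nat_lit 0x20000c) (nat_lit 2) (by decide +kernel) (ClAll.succ (ClAll.succ ClAll.zero n126) s227)

def n168 : Cl (O (nat_lit 2)) (R (nat_lit 135377))
    (p (nat_lit 0x111) (nat_lit 1) (p (nat_lit 0x109) (nat_lit 0) (p (nat_lit 0xc9) (nat_lit 1) (p (nat_lit 0x119) (nat_lit 1) (p (nat_lit 0xc1) (nat_lit 0) (p (nat_lit 0x81) (nat_lit 1) (p (nat_lit 0x41) (nat_lit 1) (p (nat_lit 0x89080787089a) (nat_lit 0) (p (nat_lit 0x88878706861a) (nat_lit 0) (p (nat_lit 0x80000000080686078a) (nat_lit 0) (p (nat_lit 0x80000000078605850a) (nat_lit 0) (p (nat_lit 0x8605850682) (nat_lit 0) (p (nat_lit 0x8585048402) (nat_lit 0) (p (nat_lit 0x160014) (nat_lit 0) (p (nat_lit 0x160004) (nat_lit 0) (p (nat_lit 0x60592)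 (nat_lit 0) (p (nat_lit 0x48512) (nat_lit 0) (p (nat_lit 0x50392) (nat_lit 0) (p (nat_lit 0x38312) (nat_lit 0) (p (nat_lit 0x40212) (nat_lit 0) (p (nat_lit 0x28192) (nat_lit 0) (p (nat_lit 0x30092) (nat_lit 0) (p (nat_lit 0x18012) (nat_lit 0) pn))))))))))))))))))))))) :=
  Cl.node (nat_lit 0x20000c) (nat_lit 2) (by decide +kernel) (ClAll.succ (ClAll.succ ClAll.zero n127) s232)

def n169 : Cl (O (nat_lit 2)) (R (nat_lit 135377))
    (p (nat_lit 0x20000c) (nat_lit 0) (p (nat_lit 0x109) (nat_lit 1) (p (nat_lit 0xc9) (nat_lit 1) (p (nat_lit 0x119) (nat_lit 1) (p (nat_lit 0xc1) (nat_lit 0) (p (nat_lit 0x81) (nat_lit 1) (p (nat_lit 0x41) (nat_lit 1) (p (nat_lit 0x89080787089a) (nat_lit 0) (p (nat_lit 0x88878706861a) (nat_lit 0) (p (nat_lit 0x80000000080686078a) (nat_lit 0) (p (nat_lit 0x80000000078605850a) (nat_lit 0) (p (nat_lit 0x8605850682) (nat_lit 0) (p (nat_lit 0x8585048402) (nat_lit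 0) (p (nat_lit 0x160014) (nat_lit 0) (p (nat_lit 0x160004) (nat_lit 0) (p (nat_lit 0x60592) (nat_lit 0) (p (nat_lit 0x48512) (nat_lit 0) (p (nat_lit 0x50392) (nat_lit 0) (p (nat_lit 0x38312) (nat_lit 0) (p (nat_lit 0x40212) (nat_lit 0) (p (nat_lit 0x28192) (nat_lit 0) (p (nat_lit 0x30092) (nat_lit 0) (p (nat_lit 0x18012) (nat_lit 0) pn))))))))))))))))))))))) :=
  Cl.node (nat_lit 0xb0004) (nat_lit 2) (by decide +kernel) (ClAll.succ (ClAll.succ ClAll.zero s233) s234)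

def n170 : Cl (O (nat_lit 2)) (R (nat_lit 135377))
    (p (nat_lit 0x109) (nat_lit 1) (p (nat_lit 0x101) (nat_lit 0) (p (nat_lit 0x119) (nat_lit 0) (p (nat_lit 0xd1) (nat_lit 0) (p (nat_lit 0x89) (nat_lit 0) (p (nat_lit 0x41) (nat_lit 0) (p (nat_lit 0x89080787089a) (nat_lit 0) (p (nat_lit 0x88878706861a) (nat_lit 0) (p (nat_lit 0x80000000080686078a) (nat_lit 0) (p (nat_lit 0x80000000078605850a) (nat_lit 0) (p (nat_lit 0x8605850682) (nat_lit 0) (p (nat_lit 0x8585048402) (nat_lit 0) (p (nat_lit 0x160014) (nat_lit 0) (p (nat_lit 0x160004) (nat_lit 0) (p (nat_lit 0x60592) (nat_lit 0) (p (nat_lit 0x48512) (nat_lit 0) (p (nat_lit 0x50392) (nat_lit 0) (p (nat_lit 0x38312) (nat_lit 0) (p (nat_lit 0x40212) (nat_lit 0) (p (nat_lit 0x28192) (nat_lit 0) (p (nat_lit 0x30092) (nat_lit 0) (p (nat_lit 0x18012) (nat_lit 0) pn)))))))))))))))))))))) :=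
  Cl.node (nat_lit 0xc9) (nat_lit 2) (by decide +kernel) (ClAll.succ (ClAll.succ ClAll.zero s1) n128)

def n171 : Cl (O (nat_lit 2)) (R (nat_lit 135377))
    (p (nat_lit 0x81) (nat_lit 0) (p (nat_lit 0x101) (nat_lit 1) (p (nat_lit 0x119) (nat_lit 0) (p (nat_lit 0xd1) (nat_lit 0) (p (nat_lit 0x89) (nat_lit 0) (p (nat_lit 0x41) (nat_lit 0) (p (nat_lit 0x89080787089a) (nat_lit 0) (p (nat_lit 0x88878706861a) (nat_lit 0) (p (nat_lit 0x80000000080686078a) (nat_lit 0) (p (nat_lit 0x80000000078605850a) (nat_lit 0) (p (nat_lit 0x8605850682) (nat_lit 0) (p (nat_lit 0x8585048402) (nat_lit 0) (p (nat_lit 0x160014) (nat_lit 0) (p (nat_lit 0x160004) (nat_lit 0) (p (nat_lit 0x60592) (nat_lit 0) (p (nat_lit 0x48512) (nat_lit 0) (p (nat_lit 0x50392) (nat_lit 0) (p (nat_lit 0x38312) (nat_lit 0) (p (nat_lit 0x40212) (nat_lit 0) (p (nat_lit 0x28192) (nat_lit 0) (p (nat_lit 0x30092) (nat_lit 0) (p (nat_lit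 0x18012) (nat_lit 0) pn)))))))))))))))))))))) :=
  Cl.node (nat_lit 0xc9) (nat_lit 2) (by decide +kernel) (ClAll.succ (ClAll.succ ClAll.zero n129) n130)

def n172 : Cl (O (nat_lit 2)) (R (nat_lit 135377))
    (p (nat_lit 0x81) (nat_lit 1) (p (nat_lit 0x101) (nat_lit 1) (p (nat_lit 0x119) (nat_lit 0) (p (nat_lit 0xd1) (nat_lit 0) (p (nat_lit 0x89) (nat_lit 0) (p (nat_lit 0x41) (nat_lit 0) (p (nat_lit 0x89080787089a) (nat_lit 0) (p (nat_lit 0x88878706861a) (nat_lit 0) (p (nat_lit 0x80000000080686078a) (nat_lit 0) (p (nat_lit 0x80000000078605850a) (nat_lit 0) (p (nat_lit 0x8605850682) (nat_lit 0) (p (nat_lit 0x8585048402) (nat_lit 0) (p (nat_lit 0x160014) (nat_lit 0) (p (nat_lit 0x160004) (nat_lit 0) (p (nat_lit 0x60592) (nat_lit 0) (p (nat_lit 0x48512) (nat_lit 0) (p (nat_lit 0x50392) (nat_lit 0) (p (nat_lit 0x38312) (nat_lit 0) (p (nat_lit 0x40212) (nat_lit 0) (p (nat_lit 0x28192)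 (nat_lit 0) (p (nat_lit 0x30092) (nat_lit 0) (p (nat_lit 0x18012) (nat_lit 0) pn)))))))))))))))))))))) :=
  Cl.node (nat_lit 0xc1) (nat_lit 2) (by decide +kernel) (ClAll.succ (ClAll.succ ClAll.zero n131) s21)

def n173 : Cl (O (nat_lit 2)) (R (nat_lit 135377))
    (p (nat_lit 0xc9) (nat_lit 1) (p (nat_lit 0xc1) (nat_lit 0) (p (nat_lit 0x119) (nat_lit 1) (p (nat_lit 0xd1) (nat_lit 0) (p (nat_lit 0x89) (nat_lit 0) (p (nat_lit 0x41) (nat_lit 0) (p (nat_lit 0x89080787089a) (nat_lit 0) (p (nat_lit 0x88878706861a) (nat_lit 0) (p (nat_lit 0x80000000080686078a) (nat_lit 0) (p (nat_lit 0x80000000078605850a) (nat_lit 0) (p (nat_lit 0x8605850682) (nat_lit 0) (p (nat_lit 0x8585048402) (nat_lit 0) (p (nat_lit 0x160014) (nat_lit 0) (p (nat_lit 0x160004) (nat_lit 0) (p (nat_lit 0x60592) (nat_lit 0) (p (nat_lit 0x48512) (nat_lit 0) (p (nat_lit 0x50392) (nat_lit 0) (p (nat_lit 0x38312) (nat_lit 0)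 (p (nat_lit 0x40212) (nat_lit 0) (p (nat_lit 0x28192) (nat_lit 0) (p (nat_lit 0x30092) (nat_lit 0) (p (nat_lit 0x18012) (nat_lit 0) pn)))))))))))))))))))))) :=
  Cl.node (nat_lit 0x109) (nat_lit 2) (by decide +kernel) (ClAll.succ (ClAll.succ ClAll.zero s23) n132)

def n174 : Cl (O (nat_lit 2)) (R (nat_lit 135377))
    (p (nat_lit 0x81) (nat_lit 0) (p (nat_lit 0xc1) (nat_lit 1) (p (nat_lit 0x119) (nat_lit 1) (p (nat_lit 0xd1) (nat_lit 0) (p (nat_lit 0x89) (nat_lit 0) (p (nat_lit 0x41) (nat_lit 0) (p (nat_lit 0x89080787089a) (nat_lit 0) (p (nat_lit 0x88878706861a) (nat_lit 0) (p (nat_lit 0x80000000080686078a) (nat_lit 0) (p (nat_lit 0x80000000078605850a) (nat_lit 0) (p (nat_lit 0x8605850682) (nat_lit 0) (p (nat_lit 0x8585048402) (nat_lit 0) (p (nat_lit 0x160014) (nat_lit 0) (p (nat_lit 0x160004) (nat_lit 0) (p (nat_lit 0x60592) (nat_lit 0) (p (nat_lit 0x48512) (nat_lit 0) (p (nat_lit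 0x50392) (nat_lit 0) (p (nat_lit 0x38312) (nat_lit 0) (p (nat_lit 0x40212) (nat_lit 0) (p (nat_lit 0x28192) (nat_lit 0) (p (nat_lit 0x30092) (nat_lit 0) (p (nat_lit 0x18012) (nat_lit 0) pn)))))))))))))))))))))) :=
  Cl.node (nat_lit 0x109) (nat_lit 2) (by decide +kernel) (ClAll.succ (ClAll.succ ClAll.zero s27) n133)

def n175 : Cl (O (nat_lit 2)) (R (nat_lit 135377))
    (p (nat_lit 0x81) (nat_lit 1) (p (nat_lit 0xc1) (nat_lit 1) (p (nat_lit 0x119) (nat_lit 1) (p (nat_lit 0xd1) (nat_lit 0) (p (nat_lit 0x89) (nat_lit 0) (p (nat_lit 0x41) (nat_lit 0) (p (nat_lit 0x89080787089a) (nat_lit 0) (p (nat_lit 0x88878706861a) (nat_lit 0) (p (nat_lit 0x80000000080686078a) (nat_lit 0) (p (nat_lit 0x80000000078605850a) (nat_lit 0) (p (nat_lit 0x8605850682) (nat_lit 0) (p (nat_lit 0x8585048402) (nat_lit 0) (p (nat_lit 0x160014) (nat_lit 0) (p (nat_lit 0x160004) (nat_lit 0) (p (nat_lit 0x60592)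 (nat_lit 0) (p (nat_lit 0x48512) (nat_lit 0) (p (nat_lit 0x50392) (nat_lit 0) (p (nat_lit 0x38312) (nat_lit 0) (p (nat_lit 0x40212) (nat_lit 0) (p (nat_lit 0x28192) (nat_lit 0) (p (nat_lit 0x30092) (nat_lit 0) (p (nat_lit 0x18012) (nat_lit 0) pn)))))))))))))))))))))) :=
  Cl.node (nat_lit 0x101) (nat_lit 2) (by decide +kernel) (ClAll.succ (ClAll.succ ClAll.zero n134) n135)

def n176 : Cl (O (nat_lit 2)) (R (nat_lit 135377))
    (p (nat_lit 0x109) (nat_lit 1) (p (nat_lit 0x101) (nat_lit 0) (p (nat_lit 0x111) (nat_lit 0) (p (nat_lit 0xd1) (nat_lit 1) (p (nat_lit 0x89) (nat_lit 0) (p (nat_lit 0x41) (nat_lit 0) (p (nat_lit 0x89080787089a) (nat_lit 0) (p (nat_lit 0x88878706861a) (nat_lit 0) (p (nat_lit 0x80000000080686078a) (nat_lit 0) (p (nat_lit 0x80000000078605850a) (nat_lit 0) (p (nat_lit 0x8605850682) (nat_lit 0) (p (nat_lit 0x8585048402) (nat_lit 0) (p (nat_lit 0x160014) (nat_lit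 0) (p (nat_lit 0x160004) (nat_lit 0) (p (nat_lit 0x60592) (nat_lit 0) (p (nat_lit 0x48512) (nat_lit 0) (p (nat_lit 0x50392) (nat_lit 0) (p (nat_lit 0x38312) (nat_lit 0) (p (nat_lit 0x40212) (nat_lit 0) (p (nat_lit 0x28192) (nat_lit 0) (p (nat_lit 0x30092) (nat_lit 0) (p (nat_lit 0x18012) (nat_lit 0) pn)))))))))))))))))))))) :=
  Cl.node (nat_lit 0x20000c) (nat_lit 2) (by decide +kernel) (ClAll.succ (ClAll.succ ClAll.zero s41) s42)

def n177 : Cl (O (nat_lit 2)) (R (nat_lit 135377))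
    (p (nat_lit 0x81) (nat_lit 0) (p (nat_lit 0x101) (nat_lit 1) (p (nat_lit 0x111) (nat_lit 0) (p (nat_lit 0xd1) (nat_lit 1) (p (nat_lit 0x89) (nat_lit 0) (p (nat_lit 0x41) (nat_lit 0) (p (nat_lit 0x89080787089a) (nat_lit 0) (p (nat_lit 0x88878706861a) (nat_lit 0) (p (nat_lit 0x80000000080686078a) (nat_lit 0) (p (nat_lit 0x80000000078605850a) (nat_lit 0) (p (nat_lit 0x8605850682) (nat_lit 0) (p (nat_lit 0x8585048402) (nat_lit 0) (p (nat_lit 0x160014) (nat_lit 0) (p (nat_lit 0x160004) (nat_lit 0) (p (nat_lit 0x60592) (nat_lit 0) (p (nat_lit 0x48512) (nat_lit 0) (p (nat_lit 0x50392) (nat_lit 0) (p (nat_lit 0x38312) (nat_lit 0) (p (nat_lit 0x40212) (nat_lit 0) (p (nat_lit 0x28192) (nat_lit 0) (p (nat_lit 0x30092) (nat_lit 0) (p (nat_lit 0x18012) (nat_lit 0) pn)))))))))))))))))))))) :=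
  Cl.node (nat_lit 0x20000c) (nat_lit 2) (by decide +kernel) (ClAll.succ (ClAll.succ ClAll.zero n136) s45)

def n178 : Cl (O (nat_lit 2)) (R (nat_lit 135377))
    (p (nat_lit 0x81) (nat_lit 1) (p (nat_lit 0x101) (nat_lit 1) (p (nat_lit 0x111) (nat_lit 0) (p (nat_lit 0xd1) (nat_lit 1) (p (nat_lit 0x89) (nat_lit 0) (p (nat_lit 0x41) (nat_lit 0) (p (nat_lit 0x89080787089a) (nat_lit 0) (p (nat_lit 0x88878706861a) (nat_lit 0) (p (nat_lit 0x80000000080686078a) (nat_lit 0) (p (nat_lit 0x80000000078605850a) (nat_lit 0) (p (nat_lit 0x8605850682) (nat_lit 0) (p (nat_lit 0x8585048402) (nat_lit 0) (p (nat_lit 0x160014) (nat_lit 0) (p (nat_lit 0x160004) (nat_lit 0) (p (nat_lit 0x60592) (nat_lit 0) (p (nat_lit 0x48512) (nat_lit 0) (p (nat_lit 0x50392) (nat_lit 0) (p (nat_lit 0x38312) (nat_lit 0) (p (nat_lit 0x40212) (nat_lit 0) (p (nat_lit 0x28192) (nat_lit 0) (p (nat_lit 0x30092) (nat_lit 0)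 (p (nat_lit 0x18012) (nat_lit 0) pn)))))))))))))))))))))) :=
  Cl.node (nat_lit 0xc1) (nat_lit 2) (by decide +kernel) (ClAll.succ (ClAll.succ ClAll.zero n137) s56)

def n179 : Cl (O (nat_lit 2)) (R (nat_lit 135377))
    (p (nat_lit 0xc1) (nat_lit 1) (p (nat_lit 0x81) (nat_lit 1) (p (nat_lit 0x111) (nat_lit 1) (p (nat_lit 0xd1) (nat_lit 1) (p (nat_lit 0x89) (nat_lit 0) (p (nat_lit 0x41) (nat_lit 0) (p (nat_lit 0x89080787089a) (nat_lit 0) (p (nat_lit 0x88878706861a) (nat_lit 0) (p (nat_lit 0x80000000080686078a) (nat_lit 0) (p (nat_lit 0x80000000078605850a) (nat_lit 0) (p (nat_lit 0x8605850682) (nat_lit 0) (p (nat_lit 0x8585048402) (nat_lit 0) (p (nat_lit 0x160014) (nat_lit 0) (p (nat_lit 0x160004) (nat_lit 0) (p (nat_lit 0x60592) (nat_lit 0) (p (nat_lit 0x48512) (nat_lit 0) (p (nat_lit 0x50392) (nat_lit 0) (p (nat_lit 0x38312) (nat_lit 0) (p (nat_lit 0x40212) (nat_lit 0) (p (nat_lit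 0x28192) (nat_lit 0) (p (nat_lit 0x30092) (nat_lit 0) (p (nat_lit 0x18012) (nat_lit 0) pn)))))))))))))))))))))) :=
  Cl.node (nat_lit 0x101) (nat_lit 2) (by decide +kernel) (ClAll.succ (ClAll.succ ClAll.zero n138) s61)

def n180 : Cl (O (nat_lit 2)) (R (nat_lit 135377))
    (p (nat_lit 0x109) (nat_lit 0) (p (nat_lit 0x101) (nat_lit 0) (p (nat_lit 0x119) (nat_lit 0) (p (nat_lit 0xc9) (nat_lit 0) (p (nat_lit 0x89) (nat_lit 1) (p (nat_lit 0x41) (nat_lit 0) (p (nat_lit 0x89080787089a) (nat_lit 0) (p (nat_lit 0x88878706861a) (nat_lit 0) (p (nat_lit 0x80000000080686078a) (nat_lit 0) (p (nat_lit 0x80000000078605850a) (nat_lit 0) (p (nat_lit 0x8605850682) (nat_lit 0) (p (nat_lit 0x8585048402) (nat_lit 0) (p (nat_lit 0x160014) (nat_lit 0) (p (nat_lit 0x160004) (nat_lit 0) (p (nat_lit 0x60592) (nat_lit 0) (p (nat_lit 0x48512) (nat_lit 0) (p (nat_lit 0x50392) (nat_lit 0) (p (nat_lit 0x38312)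 (nat_lit 0) (p (nat_lit 0x40212) (nat_lit 0) (p (nat_lit 0x28192) (nat_lit 0) (p (nat_lit 0x30092) (nat_lit 0) (p (nat_lit 0x18012) (nat_lit 0) pn)))))))))))))))))))))) :=
  Cl.node (nat_lit 0x111) (nat_lit 2) (by decide +kernel) (ClAll.succ (ClAll.succ ClAll.zero s62) n139)

def n181 : Cl (O (nat_lit 2)) (R (nat_lit 135377))
    (p (nat_lit 0x109) (nat_lit 1) (p (nat_lit 0x101) (nat_lit 0) (p (nat_lit 0x119) (nat_lit 0) (p (nat_lit 0xc9) (nat_lit 0) (p (nat_lit 0x89) (nat_lit 1) (p (nat_lit 0x41) (nat_lit 0) (p (nat_lit 0x89080787089a) (nat_lit 0) (p (nat_lit 0x88878706861a) (nat_lit 0) (p (nat_lit 0x80000000080686078a) (nat_lit 0) (p (nat_lit 0x80000000078605850a) (nat_lit 0) (p (nat_lit 0x8605850682) (nat_lit 0) (p (nat_lit 0x8585048402) (nat_lit 0) (p (nat_lit 0x160014) (nat_lit 0) (p (nat_lit 0x160004) (nat_lit 0) (p (nat_lit 0x60592) (nat_lit 0) (p (nat_lit 0x48512) (nat_lit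 0) (p (nat_lit 0x50392) (nat_lit 0) (p (nat_lit 0x38312) (nat_lit 0) (p (nat_lit 0x40212) (nat_lit 0) (p (nat_lit 0x28192) (nat_lit 0) (p (nat_lit 0x30092) (nat_lit 0) (p (nat_lit 0x18012) (nat_lit 0) pn)))))))))))))))))))))) :=
  Cl.node (nat_lit 0xd1) (nat_lit 2) (by decide +kernel) (ClAll.succ (ClAll.succ ClAll.zero n140) n141)

def n182 : Cl (O (nat_lit 2)) (R (nat_lit 135377))
    (p (nat_lit 0xc1) (nat_lit 0) (p (nat_lit 0x101) (nat_lit 1) (p (nat_lit 0x119) (nat_lit 0) (p (nat_lit 0xc9) (nat_lit 0) (p (nat_lit 0x89) (nat_lit 1) (p (nat_lit 0x41) (nat_lit 0) (p (nat_lit 0x89080787089a) (nat_lit 0) (p (nat_lit 0x88878706861a) (nat_lit 0) (p (nat_lit 0x80000000080686078a) (nat_lit 0) (p (nat_lit 0x80000000078605850a) (nat_lit 0) (p (nat_lit 0x8605850682) (nat_lit 0) (p (nat_lit 0x8585048402) (nat_lit 0) (p (nat_lit 0x160014) (nat_lit 0) (p (nat_lit 0x160004) (nat_lit 0) (p (nat_lit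 0x60592) (nat_lit 0) (p (nat_lit 0x48512) (nat_lit 0) (p (nat_lit 0x50392) (nat_lit 0) (p (nat_lit 0x38312) (nat_lit 0) (p (nat_lit 0x40212) (nat_lit 0) (p (nat_lit 0x28192) (nat_lit 0) (p (nat_lit 0x30092) (nat_lit 0) (p (nat_lit 0x18012) (nat_lit 0) pn)))))))))))))))))))))) :=
  Cl.node (nat_lit 0xd1) (nat_lit 2) (by decide +kernel) (ClAll.succ (ClAll.succ ClAll.zero n142) n143)

def n183 : Cl (O (nat_lit 2)) (R (nat_lit 135377))
    (p (nat_lit 0xd1) (nat_lit 1) (p (nat_lit 0xc1) (nat_lit 0) (p (nat_lit 0x119) (nat_lit 1) (p (nat_lit 0xc9) (nat_lit 0) (p (nat_lit 0x89) (nat_lit 1) (p (nat_lit 0x41) (nat_lit 0) (p (nat_lit 0x89080787089a) (nat_lit 0) (p (nat_lit 0x88878706861a) (nat_lit 0) (p (nat_lit 0x80000000080686078a) (nat_lit 0) (p (nat_lit 0x80000000078605850a) (nat_lit 0) (p (nat_lit 0x8605850682) (nat_lit 0) (p (nat_lit 0x8585048402) (nat_lit 0) (p (nat_lit 0x160014) (nat_lit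 0) (p (nat_lit 0x160004) (nat_lit 0) (p (nat_lit 0x60592) (nat_lit 0) (p (nat_lit 0x48512) (nat_lit 0) (p (nat_lit 0x50392) (nat_lit 0) (p (nat_lit 0x38312) (nat_lit 0) (p (nat_lit 0x40212) (nat_lit 0) (p (nat_lit 0x28192) (nat_lit 0) (p (nat_lit 0x30092) (nat_lit 0) (p (nat_lit 0x18012) (nat_lit 0) pn)))))))))))))))))))))) :=
  Cl.node (nat_lit 0x111) (nat_lit 2) (by decide +kernel) (ClAll.succ (ClAll.succ ClAll.zero s91) n144)

def n184 : Cl (O (nat_lit 2)) (R (nat_lit 135377))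
    (p (nat_lit 0x101) (nat_lit 0) (p (nat_lit 0xc1) (nat_lit 1) (p (nat_lit 0x119) (nat_lit 1) (p (nat_lit 0xc9) (nat_lit 0) (p (nat_lit 0x89) (nat_lit 1) (p (nat_lit 0x41) (nat_lit 0) (p (nat_lit 0x89080787089a) (nat_lit 0) (p (nat_lit 0x88878706861a) (nat_lit 0) (p (nat_lit 0x80000000080686078a) (nat_lit 0) (p (nat_lit 0x80000000078605850a) (nat_lit 0) (p (nat_lit 0x8605850682) (nat_lit 0) (p (nat_lit 0x8585048402) (nat_lit 0) (p (nat_lit 0x160014) (nat_lit 0) (p (nat_lit 0x160004) (nat_lit 0) (p (nat_lit 0x60592) (nat_lit 0) (p (nat_lit 0x48512) (nat_lit 0) (p (nat_lit 0x50392) (nat_lit 0) (p (nat_lit 0x38312) (nat_lit 0) (p (nat_lit 0x40212) (nat_lit 0) (p (nat_lit 0x28192) (nat_lit 0) (p (nat_lit 0x30092) (nat_lit 0) (p (nat_lit 0x18012) (nat_lit 0) pn)))))))))))))))))))))) :=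
  Cl.node (nat_lit 0x111) (nat_lit 2) (by decide +kernel) (ClAll.succ (ClAll.succ ClAll.zero n145) n146)

def n185 : Cl (O (nat_lit 2)) (R (nat_lit 135377))
    (p (nat_lit 0x109) (nat_lit 1) (p (nat_lit 0x101) (nat_lit 0) (p (nat_lit 0x119) (nat_lit 0) (p (nat_lit 0xd1) (nat_lit 0) (p (nat_lit 0x81) (nat_lit 0) (p (nat_lit 0x41) (nat_lit 1) (p (nat_lit 0x89080787089a) (nat_lit 0) (p (nat_lit 0x88878706861a) (nat_lit 0) (p (nat_lit 0x80000000080686078a) (nat_lit 0) (p (nat_lit 0x80000000078605850a) (nat_lit 0) (p (nat_lit 0x8605850682) (nat_lit 0) (p (nat_lit 0x8585048402) (nat_lit 0) (p (nat_lit 0x160014) (nat_lit 0) (p (nat_lit 0x160004) (nat_lit 0) (p (nat_lit 0x60592) (nat_lit 0) (p (nat_lit 0x48512) (nat_lit 0) (p (nat_lit 0x50392) (nat_lit 0) (p (nat_lit 0x38312) (nat_lit 0) (p (nat_lit 0x40212) (nat_lit 0) (p (nat_lit 0x28192) (nat_lit 0) (p (nat_lit 0x30092) (nat_lit 0) (p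 (nat_lit 0x18012) (nat_lit 0) pn)))))))))))))))))))))) :=
  Cl.node (nat_lit 0x89) (nat_lit 2) (by decide +kernel) (ClAll.succ (ClAll.succ ClAll.zero n147) n148)

def n186 : Cl (O (nat_lit 2)) (R (nat_lit 135377))
    (p (nat_lit 0xc1) (nat_lit 0) (p (nat_lit 0x101) (nat_lit 1) (p (nat_lit 0x119) (nat_lit 0) (p (nat_lit 0xd1) (nat_lit 0) (p (nat_lit 0x81) (nat_lit 0) (p (nat_lit 0x41) (nat_lit 1) (p (nat_lit 0x89080787089a) (nat_lit 0) (p (nat_lit 0x88878706861a) (nat_lit 0) (p (nat_lit 0x80000000080686078a) (nat_lit 0) (p (nat_lit 0x80000000078605850a) (nat_lit 0) (p (nat_lit 0x8605850682) (nat_lit 0) (p (nat_lit 0x8585048402) (nat_lit 0) (p (nat_lit 0x160014) (nat_lit 0) (p (nat_lit 0x160004) (nat_lit 0) (p (nat_lit 0x60592) (nat_lit 0) (p (nat_lit 0x48512) (nat_lit 0) (p (nat_lit 0x50392) (nat_lit 0) (p (nat_lit 0x38312) (nat_lit 0) (p (nat_lit 0x40212) (nat_lit 0) (p (nat_lit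 0x28192) (nat_lit 0) (p (nat_lit 0x30092) (nat_lit 0) (p (nat_lit 0x18012) (nat_lit 0) pn)))))))))))))))))))))) :=
  Cl.node (nat_lit 0x89) (nat_lit 2) (by decide +kernel) (ClAll.succ (ClAll.succ ClAll.zero n149) n150)

def n187 : Cl (O (nat_lit 2)) (R (nat_lit 135377))
    (p (nat_lit 0xc1) (nat_lit 1) (p (nat_lit 0x101) (nat_lit 1) (p (nat_lit 0x119) (nat_lit 0) (p (nat_lit 0xd1) (nat_lit 0) (p (nat_lit 0x81) (nat_lit 0) (p (nat_lit 0x41) (nat_lit 1) (p (nat_lit 0x89080787089a) (nat_lit 0) (p (nat_lit 0x88878706861a) (nat_lit 0) (p (nat_lit 0x80000000080686078a) (nat_lit 0) (p (nat_lit 0x80000000078605850a) (nat_lit 0) (p (nat_lit 0x8605850682) (nat_lit 0) (p (nat_lit 0x8585048402) (nat_lit 0) (p (nat_lit 0x160014) (nat_lit 0) (p (nat_lit 0x160004) (nat_lit 0) (p (nat_lit 0x60592) (nat_lit 0) (p (nat_lit 0x48512) (nat_lit 0) (p (nat_lit 0x50392) (nat_lit 0) (p (nat_lit 0x38312)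 (nat_lit 0) (p (nat_lit 0x40212) (nat_lit 0) (p (nat_lit 0x28192) (nat_lit 0) (p (nat_lit 0x30092) (nat_lit 0) (p (nat_lit 0x18012) (nat_lit 0) pn)))))))))))))))))))))) :=
  Cl.node (nat_lit 0x89) (nat_lit 2) (by decide +kernel) (ClAll.succ (ClAll.succ ClAll.zero n151) n152)

def n188 : Cl (O (nat_lit 2)) (R (nat_lit 135377))
    (p (nat_lit 0xc9) (nat_lit 1) (p (nat_lit 0xc1) (nat_lit 0) (p (nat_lit 0x119) (nat_lit 1) (p (nat_lit 0xd1) (nat_lit 0) (p (nat_lit 0x81) (nat_lit 0) (p (nat_lit 0x41) (nat_lit 1) (p (nat_lit 0x89080787089a) (nat_lit 0) (p (nat_lit 0x88878706861a) (nat_lit 0) (p (nat_lit 0x80000000080686078a) (nat_lit 0) (p (nat_lit 0x80000000078605850a) (nat_lit 0) (p (nat_lit 0x8605850682) (nat_lit 0) (p (nat_lit 0x8585048402) (nat_lit 0) (p (nat_lit 0x160014) (nat_lit 0) (p (nat_lit 0x160004) (nat_lit 0) (p (nat_lit 0x60592) (nat_lit 0) (p (nat_lit 0x48512) (nat_lit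 0) (p (nat_lit 0x50392) (nat_lit 0) (p (nat_lit 0x38312) (nat_lit 0) (p (nat_lit 0x40212) (nat_lit 0) (p (nat_lit 0x28192) (nat_lit 0) (p (nat_lit 0x30092) (nat_lit 0) (p (nat_lit 0x18012) (nat_lit 0) pn)))))))))))))))))))))) :=
  Cl.node (nat_lit 0x89) (nat_lit 2) (by decide +kernel) (ClAll.succ (ClAll.succ ClAll.zero s140) n153)

def n189 : Cl (O (nat_lit 2)) (R (nat_lit 135377))
    (p (nat_lit 0x101) (nat_lit 0) (p (nat_lit 0xc1) (nat_lit 1) (p (nat_lit 0x119) (nat_lit 1) (p (nat_lit 0xd1) (nat_lit 0) (p (nat_lit 0x81) (nat_lit 0) (p (nat_lit 0x41) (nat_lit 1) (p (nat_lit 0x89080787089a) (nat_lit 0) (p (nat_lit 0x88878706861a) (nat_lit 0) (p (nat_lit 0x80000000080686078a) (nat_lit 0) (p (nat_lit 0x80000000078605850a) (nat_lit 0) (p (nat_lit 0x8605850682) (nat_lit 0) (p (nat_lit 0x8585048402) (nat_lit 0) (p (nat_lit 0x160014) (nat_lit 0) (p (nat_lit 0x160004) (nat_lit 0) (p (nat_lit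 0x60592) (nat_lit 0) (p (nat_lit 0x48512) (nat_lit 0) (p (nat_lit 0x50392) (nat_lit 0) (p (nat_lit 0x38312) (nat_lit 0) (p (nat_lit 0x40212) (nat_lit 0) (p (nat_lit 0x28192) (nat_lit 0) (p (nat_lit 0x30092) (nat_lit 0) (p (nat_lit 0x18012) (nat_lit 0) pn)))))))))))))))))))))) :=
  Cl.node (nat_lit 0x89) (nat_lit 2) (by decide +kernel) (ClAll.succ (ClAll.succ ClAll.zero s150) n154)

def n190 : Cl (O (nat_lit 2)) (R (nat_lit 135377))
    (p (nat_lit 0x101) (nat_lit 1) (p (nat_lit 0xc1) (nat_lit 1) (p (nat_lit 0x119) (nat_lit 1) (p (nat_lit 0xd1) (nat_lit 0) (p (nat_lit 0x81) (nat_lit 0) (p (nat_lit 0x41) (nat_lit 1) (p (nat_lit 0x89080787089a) (nat_lit 0) (p (nat_lit 0x88878706861a) (nat_lit 0) (p (nat_lit 0x80000000080686078a) (nat_lit 0) (p (nat_lit 0x80000000078605850a) (nat_lit 0) (p (nat_lit 0x8605850682) (nat_lit 0) (p (nat_lit 0x8585048402) (nat_lit 0) (p (nat_lit 0x160014)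 (nat_lit 0) (p (nat_lit 0x160004) (nat_lit 0) (p (nat_lit 0x60592) (nat_lit 0) (p (nat_lit 0x48512) (nat_lit 0) (p (nat_lit 0x50392) (nat_lit 0) (p (nat_lit 0x38312) (nat_lit 0) (p (nat_lit 0x40212) (nat_lit 0) (p (nat_lit 0x28192) (nat_lit 0) (p (nat_lit 0x30092) (nat_lit 0) (p (nat_lit 0x18012) (nat_lit 0) pn)))))))))))))))))))))) :=
  Cl.node (nat_lit 0x89) (nat_lit 2) (by decide +kernel) (ClAll.succ (ClAll.succ ClAll.zero n155) n156)

def n191 : Cl (O (nat_lit 2)) (R (nat_lit 135377))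
    (p (nat_lit 0x109) (nat_lit 1) (p (nat_lit 0x101) (nat_lit 0) (p (nat_lit 0x111) (nat_lit 0) (p (nat_lit 0xd1) (nat_lit 1) (p (nat_lit 0x81) (nat_lit 0) (p (nat_lit 0x41) (nat_lit 1) (p (nat_lit 0x89080787089a) (nat_lit 0) (p (nat_lit 0x88878706861a) (nat_lit 0) (p (nat_lit 0x80000000080686078a) (nat_lit 0) (p (nat_lit 0x80000000078605850a) (nat_lit 0) (p (nat_lit 0x8605850682) (nat_lit 0) (p (nat_lit 0x8585048402) (nat_lit 0) (p (nat_lit 0x160014) (nat_lit 0) (p (nat_lit 0x160004) (nat_lit 0) (p (nat_lit 0x60592) (nat_lit 0) (p (nat_lit 0x48512) (nat_lit 0) (p (nat_lit 0x50392) (nat_lit 0) (p (nat_lit 0x38312) (nat_lit 0) (p (nat_lit 0x40212) (nat_lit 0) (p (nat_lit 0x28192) (nat_lit 0) (p (nat_lit 0x30092) (nat_lit 0) (p (nat_lit 0x18012) (nat_lit 0) pn)))))))))))))))))))))) :=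
  Cl.node (nat_lit 0x89) (nat_lit 2) (by decide +kernel) (ClAll.succ (ClAll.succ ClAll.zero s173) n157)

def n192 : Cl (O (nat_lit 2)) (R (nat_lit 135377))
    (p (nat_lit 0x89) (nat_lit 0) (p (nat_lit 0x101) (nat_lit 1) (p (nat_lit 0x111) (nat_lit 0) (p (nat_lit 0xd1) (nat_lit 1) (p (nat_lit 0x81) (nat_lit 0) (p (nat_lit 0x41) (nat_lit 1) (p (nat_lit 0x89080787089a) (nat_lit 0) (p (nat_lit 0x88878706861a) (nat_lit 0) (p (nat_lit 0x80000000080686078a) (nat_lit 0) (p (nat_lit 0x80000000078605850a) (nat_lit 0) (p (nat_lit 0x8605850682) (nat_lit 0) (p (nat_lit 0x8585048402) (nat_lit 0) (p (nat_lit 0x160014) (nat_lit 0) (p (nat_lit 0x160004) (nat_lit 0) (p (nat_lit 0x60592) (nat_lit 0) (p (nat_lit 0x48512) (nat_lit 0) (p (nat_lit 0x50392) (nat_lit 0) (p (nat_lit 0x38312) (nat_lit 0) (p (nat_lit 0x40212) (nat_lit 0) (p (nat_lit 0x28192) (nat_lit 0) (p (nat_lit 0x30092) (nat_lit 0) (p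 (nat_lit 0x18012) (nat_lit 0) pn)))))))))))))))))))))) :=
  Cl.node (nat_lit 0x20000c) (nat_lit 2) (by decide +kernel) (ClAll.succ (ClAll.succ ClAll.zero s180) s181)

def n193 : Cl (O (nat_lit 2)) (R (nat_lit 135377))
    (p (nat_lit 0x89) (nat_lit 1) (p (nat_lit 0x101) (nat_lit 1) (p (nat_lit 0x111) (nat_lit 0) (p (nat_lit 0xd1) (nat_lit 1) (p (nat_lit 0x81) (nat_lit 0) (p (nat_lit 0x41) (nat_lit 1) (p (nat_lit 0x89080787089a) (nat_lit 0) (p (nat_lit 0x88878706861a) (nat_lit 0) (p (nat_lit 0x80000000080686078a) (nat_lit 0) (p (nat_lit 0x80000000078605850a) (nat_lit 0) (p (nat_lit 0x8605850682) (nat_lit 0) (p (nat_lit 0x8585048402) (nat_lit 0) (p (nat_lit 0x160014) (nat_lit 0) (p (nat_lit 0x160004) (nat_lit 0) (p (nat_lit 0x60592) (nat_lit 0) (p (nat_lit 0x48512) (nat_lit 0) (p (nat_lit 0x50392) (nat_lit 0) (p (nat_lit 0x38312) (nat_lit 0) (p (nat_lit 0x40212) (nat_lit 0) (p (nat_lit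 0x28192) (nat_lit 0) (p (nat_lit 0x30092) (nat_lit 0) (p (nat_lit 0x18012) (nat_lit 0) pn)))))))))))))))))))))) :=
  Cl.node (nat_lit 0xc9) (nat_lit 2) (by decide +kernel) (ClAll.succ (ClAll.succ ClAll.zero n158) n159)

def n194 : Cl (O (nat_lit 2)) (R (nat_lit 135377))
    (p (nat_lit 0xc9) (nat_lit 1) (p (nat_lit 0x89) (nat_lit 1) (p (nat_lit 0x111) (nat_lit 1) (p (nat_lit 0xd1) (nat_lit 1) (p (nat_lit 0x81) (nat_lit 0) (p (nat_lit 0x41) (nat_lit 1) (p (nat_lit 0x89080787089a) (nat_lit 0) (p (nat_lit 0x88878706861a) (nat_lit 0) (p (nat_lit 0x80000000080686078a) (nat_lit 0) (p (nat_lit 0x80000000078605850a) (nat_lit 0) (p (nat_lit 0x8605850682) (nat_lit 0) (p (nat_lit 0x8585048402) (nat_lit 0) (p (nat_lit 0x160014) (nat_lit 0) (p (nat_lit 0x160004) (nat_lit 0) (p (nat_lit 0x60592) (nat_lit 0) (p (nat_lit 0x48512) (nat_lit 0) (p (nat_lit 0x50392) (nat_lit 0) (p (nat_lit 0x38312)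 (nat_lit 0) (p (nat_lit 0x40212) (nat_lit 0) (p (nat_lit 0x28192) (nat_lit 0) (p (nat_lit 0x30092) (nat_lit 0) (p (nat_lit 0x18012) (nat_lit 0) pn)))))))))))))))))))))) :=
  Cl.node (nat_lit 0x109) (nat_lit 2) (by decide +kernel) (ClAll.succ (ClAll.succ ClAll.zero n160) n161)

def n195 : Cl (O (nat_lit 2)) (R (nat_lit 135377))
    (p (nat_lit 0x109) (nat_lit 0) (p (nat_lit 0x101) (nat_lit 0) (p (nat_lit 0x119) (nat_lit 0) (p (nat_lit 0xc1) (nat_lit 0) (p (nat_lit 0x81) (nat_lit 1) (p (nat_lit 0x41) (nat_lit 1) (p (nat_lit 0x89080787089a) (nat_lit 0) (p (nat_lit 0x88878706861a) (nat_lit 0) (p (nat_lit 0x80000000080686078a) (nat_lit 0) (p (nat_lit 0x80000000078605850a) (nat_lit 0) (p (nat_lit 0x8605850682) (nat_lit 0) (p (nat_lit 0x8585048402) (nat_lit 0) (p (nat_lit 0x160014) (nat_lit 0) (p (nat_lit 0x160004) (nat_lit 0) (p (nat_lit 0x60592) (nat_lit 0) (p (nat_lit 0x48512) (nat_lit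 0) (p (nat_lit 0x50392) (nat_lit 0) (p (nat_lit 0x38312) (nat_lit 0) (p (nat_lit 0x40212) (nat_lit 0) (p (nat_lit 0x28192) (nat_lit 0) (p (nat_lit 0x30092) (nat_lit 0) (p (nat_lit 0x18012) (nat_lit 0) pn)))))))))))))))))))))) :=
  Cl.node (nat_lit 0x111) (nat_lit 2) (by decide +kernel) (ClAll.succ (ClAll.succ ClAll.zero s203) n162)

def n196 : Cl (O (nat_lit 2)) (R (nat_lit 135377))
    (p (nat_lit 0x109) (nat_lit 1) (p (nat_lit 0x101) (nat_lit 0) (p (nat_lit 0x119) (nat_lit 0) (p (nat_lit 0xc1) (nat_lit 0) (p (nat_lit 0x81) (nat_lit 1) (p (nat_lit 0x41) (nat_lit 1) (p (nat_lit 0x89080787089a) (nat_lit 0) (p (nat_lit 0x88878706861a) (nat_lit 0) (p (nat_lit 0x80000000080686078a) (nat_lit 0) (p (nat_lit 0x80000000078605850a) (nat_lit 0) (p (nat_lit 0x8605850682) (nat_lit 0) (p (nat_lit 0x8585048402) (nat_lit 0) (p (nat_lit 0x160014) (nat_lit 0) (p (nat_lit 0x160004) (nat_lit 0) (p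 (nat_lit 0x60592) (nat_lit 0) (p (nat_lit 0x48512) (nat_lit 0) (p (nat_lit 0x50392) (nat_lit 0) (p (nat_lit 0x38312) (nat_lit 0) (p (nat_lit 0x40212) (nat_lit 0) (p (nat_lit 0x28192) (nat_lit 0) (p (nat_lit 0x30092) (nat_lit 0) (p (nat_lit 0x18012) (nat_lit 0) pn)))))))))))))))))))))) :=
  Cl.node (nat_lit 0xc9) (nat_lit 2) (by decide +kernel) (ClAll.succ (ClAll.succ ClAll.zero n163) s210)

def n197 : Cl (O (nat_lit 2)) (R (nat_lit 135377))
    (p (nat_lit 0xc9) (nat_lit 0) (p (nat_lit 0x101) (nat_lit 1) (p (nat_lit 0x119) (nat_lit 0) (p (nat_lit 0xc1) (nat_lit 0) (p (nat_lit 0x81) (nat_lit 1) (p (nat_lit 0x41) (nat_lit 1) (p (nat_lit 0x89080787089a) (nat_lit 0) (p (nat_lit 0x88878706861a) (nat_lit 0) (p (nat_lit 0x80000000080686078a) (nat_lit 0) (p (nat_lit 0x80000000078605850a) (nat_lit 0) (p (nat_lit 0x8605850682) (nat_lit 0) (p (nat_lit 0x8585048402) (nat_lit 0) (p (nat_lit 0x160014)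 (nat_lit 0) (p (nat_lit 0x160004) (nat_lit 0) (p (nat_lit 0x60592) (nat_lit 0) (p (nat_lit 0x48512) (nat_lit 0) (p (nat_lit 0x50392) (nat_lit 0) (p (nat_lit 0x38312) (nat_lit 0) (p (nat_lit 0x40212) (nat_lit 0) (p (nat_lit 0x28192) (nat_lit 0) (p (nat_lit 0x30092) (nat_lit 0) (p (nat_lit 0x18012) (nat_lit 0) pn)))))))))))))))))))))) :=
  Cl.node (nat_lit 0xd1) (nat_lit 2) (by decide +kernel) (ClAll.succ (ClAll.succ ClAll.zero n164) n165)

def n198 : Cl (O (nat_lit 2)) (R (nat_lit 135377))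
    (p (nat_lit 0xd1) (nat_lit 1) (p (nat_lit 0xc9) (nat_lit 0) (p (nat_lit 0x119) (nat_lit 1) (p (nat_lit 0xc1) (nat_lit 0) (p (nat_lit 0x81) (nat_lit 1) (p (nat_lit 0x41) (nat_lit 1) (p (nat_lit 0x89080787089a) (nat_lit 0) (p (nat_lit 0x88878706861a) (nat_lit 0) (p (nat_lit 0x80000000080686078a) (nat_lit 0) (p (nat_lit 0x80000000078605850a) (nat_lit 0) (p (nat_lit 0x8605850682) (nat_lit 0) (p (nat_lit 0x8585048402) (nat_lit 0) (p (nat_lit 0x160014) (nat_lit 0) (p (nat_lit 0x160004) (nat_lit 0) (p (nat_lit 0x60592) (nat_lit 0) (p (nat_lit 0x48512) (nat_lit 0) (p (nat_lit 0x50392) (nat_lit 0) (p (nat_lit 0x38312) (nat_lit 0) (p (nat_lit 0x40212) (nat_lit 0) (p (nat_lit 0x28192) (nat_lit 0) (p (nat_lit 0x30092) (nat_lit 0) (p (nat_lit 0x18012) (nat_lit 0) pn)))))))))))))))))))))) :=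
  Cl.node (nat_lit 0x111) (nat_lit 2) (by decide +kernel) (ClAll.succ (ClAll.succ ClAll.zero s221) n166)

def n199 : Cl (O (nat_lit 2)) (R (nat_lit 135377))
    (p (nat_lit 0x109) (nat_lit 0) (p (nat_lit 0xc9) (nat_lit 1) (p (nat_lit 0x119) (nat_lit 1) (p (nat_lit 0xc1) (nat_lit 0) (p (nat_lit 0x81) (nat_lit 1) (p (nat_lit 0x41) (nat_lit 1) (p (nat_lit 0x89080787089a) (nat_lit 0) (p (nat_lit 0x88878706861a) (nat_lit 0) (p (nat_lit 0x80000000080686078a) (nat_lit 0) (p (nat_lit 0x80000000078605850a) (nat_lit 0) (p (nat_lit 0x8605850682) (nat_lit 0) (p (nat_lit 0x8585048402) (nat_lit 0) (p (nat_lit 0x160014) (nat_lit 0) (p (nat_lit 0x160004) (nat_lit 0) (p (nat_lit 0x60592) (nat_lit 0) (p (nat_lit 0x48512) (nat_lit 0) (p (nat_lit 0x50392) (nat_lit 0) (p (nat_lit 0x38312) (nat_lit 0) (p (nat_lit 0x40212) (nat_lit 0) (p (nat_lit 0x28192) (nat_lit 0) (p (nat_lit 0x30092) (nat_lit 0) (p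 (nat_lit 0x18012) (nat_lit 0) pn)))))))))))))))))))))) :=
  Cl.node (nat_lit 0x111) (nat_lit 2) (by decide +kernel) (ClAll.succ (ClAll.succ ClAll.zero n167) n168)

def n200 : Cl (O (nat_lit 2)) (R (nat_lit 135377))
    (p (nat_lit 0x109) (nat_lit 1) (p (nat_lit 0xc9) (nat_lit 1) (p (nat_lit 0x119) (nat_lit 1) (p (nat_lit 0xc1) (nat_lit 0) (p (nat_lit 0x81) (nat_lit 1) (p (nat_lit 0x41) (nat_lit 1) (p (nat_lit 0x89080787089a) (nat_lit 0) (p (nat_lit 0x88878706861a) (nat_lit 0) (p (nat_lit 0x80000000080686078a) (nat_lit 0) (p (nat_lit 0x80000000078605850a) (nat_lit 0) (p (nat_lit 0x8605850682) (nat_lit 0) (p (nat_lit 0x8585048402) (nat_lit 0) (p (nat_lit 0x160014) (nat_lit 0) (p (nat_lit 0x160004) (nat_lit 0) (p (nat_lit 0x60592) (nat_lit 0) (p (nat_lit 0x48512) (nat_lit 0) (p (nat_lit 0x50392) (nat_lit 0) (p (nat_lit 0x38312) (nat_lit 0) (p (nat_lit 0x40212) (nat_lit 0) (p (nat_lit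 0x28192) (nat_lit 0) (p (nat_lit 0x30092) (nat_lit 0) (p (nat_lit 0x18012) (nat_lit 0) pn)))))))))))))))))))))) :=
  Cl.node (nat_lit 0x20000c) (nat_lit 2) (by decide +kernel) (ClAll.succ (ClAll.succ ClAll.zero n169) s235)

def n201 : Cl (O (nat_lit 2)) (R (nat_lit 135377))
    (p (nat_lit 0x101) (nat_lit 0) (p (nat_lit 0x119) (nat_lit 0) (p (nat_lit 0xd1) (nat_lit 0) (p (nat_lit 0x89) (nat_lit 0) (p (nat_lit 0x41) (nat_lit 0) (p (nat_lit 0x89080787089a) (nat_lit 0) (p (nat_lit 0x88878706861a) (nat_lit 0) (p (nat_lit 0x80000000080686078a) (nat_lit 0) (p (nat_lit 0x80000000078605850a) (nat_lit 0) (p (nat_lit 0x8605850682) (nat_lit 0) (p (nat_lit 0x8585048402) (nat_lit 0) (p (nat_lit 0x160014) (nat_lit 0) (p (nat_lit 0x160004) (nat_lit 0) (p (nat_lit 0x60592) (nat_lit 0) (p (nat_lit 0x48512) (nat_lit 0) (p (nat_lit 0x50392) (nat_lit 0) (p (nat_lit 0x38312) (nat_lit 0) (p (nat_lit 0x40212)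 (nat_lit 0) (p (nat_lit 0x28192) (nat_lit 0) (p (nat_lit 0x30092) (nat_lit 0) (p (nat_lit 0x18012) (nat_lit 0) pn))))))))))))))))))))) :=
  Cl.node (nat_lit 0x109) (nat_lit 2) (by decide +kernel) (ClAll.succ (ClAll.succ ClAll.zero s0) n170)

def n202 : Cl (O (nat_lit 2)) (R (nat_lit 135377))
    (p (nat_lit 0x101) (nat_lit 1) (p (nat_lit 0x119) (nat_lit 0) (p (nat_lit 0xd1) (nat_lit 0) (p (nat_lit 0x89) (nat_lit 0) (p (nat_lit 0x41) (nat_lit 0) (p (nat_lit 0x89080787089a) (nat_lit 0) (p (nat_lit 0x88878706861a) (nat_lit 0) (p (nat_lit 0x80000000080686078a) (nat_lit 0) (p (nat_lit 0x80000000078605850a) (nat_lit 0) (p (nat_lit 0x8605850682) (nat_lit 0) (p (nat_lit 0x8585048402) (nat_lit 0) (p (nat_lit 0x160014) (nat_lit 0) (p (nat_lit 0x160004) (nat_lit 0) (p (nat_lit 0x60592) (nat_lit 0) (p (nat_lit 0x48512) (nat_lit 0) (p (nat_lit 0x50392) (nat_lit 0) (p (nat_lit 0x38312) (nat_lit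 0) (p (nat_lit 0x40212) (nat_lit 0) (p (nat_lit 0x28192) (nat_lit 0) (p (nat_lit 0x30092) (nat_lit 0) (p (nat_lit 0x18012) (nat_lit 0) pn))))))))))))))))))))) :=
  Cl.node (nat_lit 0x81) (nat_lit 2) (by decide +kernel) (ClAll.succ (ClAll.succ ClAll.zero n171) n172)

def n203 : Cl (O (nat_lit 2)) (R (nat_lit 135377))
    (p (nat_lit 0xc1) (nat_lit 0) (p (nat_lit 0x119) (nat_lit 1) (p (nat_lit 0xd1) (nat_lit 0) (p (nat_lit 0x89) (nat_lit 0) (p (nat_lit 0x41) (nat_lit 0) (p (nat_lit 0x89080787089a) (nat_lit 0) (p (nat_lit 0x88878706861a) (nat_lit 0) (p (nat_lit 0x80000000080686078a) (nat_lit 0) (p (nat_lit 0x80000000078605850a) (nat_lit 0) (p (nat_lit 0x8605850682) (nat_lit 0) (p (nat_lit 0x8585048402) (nat_lit 0) (p (nat_lit 0x160014) (nat_lit 0) (p (nat_lit 0x160004) (nat_lit 0) (p (nat_lit 0x60592) (nat_lit 0) (p (nat_lit 0x48512) (nat_lit 0) (p (nat_lit 0x50392) (nat_lit 0) (p (nat_lit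 0x38312) (nat_lit 0) (p (nat_lit 0x40212) (nat_lit 0) (p (nat_lit 0x28192) (nat_lit 0) (p (nat_lit 0x30092) (nat_lit 0) (p (nat_lit 0x18012) (nat_lit 0) pn))))))))))))))))))))) :=
  Cl.node (nat_lit 0xc9) (nat_lit 2) (by decide +kernel) (ClAll.succ (ClAll.succ ClAll.zero s22) n173)

def n204 : Cl (O (nat_lit 2)) (R (nat_lit 135377))
    (p (nat_lit 0xc1) (nat_lit 1) (p (nat_lit 0x119) (nat_lit 1) (p (nat_lit 0xd1) (nat_lit 0) (p (nat_lit 0x89) (nat_lit 0) (p (nat_lit 0x41) (nat_lit 0) (p (nat_lit 0x89080787089a) (nat_lit 0) (p (nat_lit 0x88878706861a) (nat_lit 0) (p (nat_lit 0x80000000080686078a) (nat_lit 0) (p (nat_lit 0x80000000078605850a) (nat_lit 0) (p (nat_lit 0x8605850682) (nat_lit 0) (p (nat_lit 0x8585048402) (nat_lit 0) (p (nat_lit 0x160014) (nat_lit 0) (p (nat_lit 0x160004) (nat_lit 0) (p (nat_lit 0x60592) (nat_lit 0) (p (nat_lit 0x48512) (nat_lit 0) (p (nat_lit 0x50392)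 (nat_lit 0) (p (nat_lit 0x38312) (nat_lit 0) (p (nat_lit 0x40212) (nat_lit 0) (p (nat_lit 0x28192) (nat_lit 0) (p (nat_lit 0x30092) (nat_lit 0) (p (nat_lit 0x18012) (nat_lit 0) pn))))))))))))))))))))) :=
  Cl.node (nat_lit 0x81) (nat_lit 2) (by decide +kernel) (ClAll.succ (ClAll.succ ClAll.zero n174) n175)

def n205 : Cl (O (nat_lit 2)) (R (nat_lit 135377))
    (p (nat_lit 0x101) (nat_lit 0) (p (nat_lit 0x111) (nat_lit 0) (p (nat_lit 0xd1) (nat_lit 1) (p (nat_lit 0x89) (nat_lit 0) (p (nat_lit 0x41) (nat_lit 0) (p (nat_lit 0x89080787089a) (nat_lit 0) (p (nat_lit 0x88878706861a) (nat_lit 0) (p (nat_lit 0x80000000080686078a) (nat_lit 0) (p (nat_lit 0x80000000078605850a) (nat_lit 0) (p (nat_lit 0x8605850682) (nat_lit 0) (p (nat_lit 0x8585048402) (nat_lit 0) (p (nat_lit 0x160014) (nat_lit 0) (p (nat_lit 0x160004) (nat_lit 0) (p (nat_lit 0x60592) (nat_lit 0) (p (nat_lit 0x48512) (nat_lit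 0) (p (nat_lit 0x50392) (nat_lit 0) (p (nat_lit 0x38312) (nat_lit 0) (p (nat_lit 0x40212) (nat_lit 0) (p (nat_lit 0x28192) (nat_lit 0) (p (nat_lit 0x30092) (nat_lit 0) (p (nat_lit 0x18012) (nat_lit 0) pn))))))))))))))))))))) :=
  Cl.node (nat_lit 0x109) (nat_lit 2) (by decide +kernel) (ClAll.succ (ClAll.succ ClAll.zero s40) n176)

def n206 : Cl (O (nat_lit 2)) (R (nat_lit 135377))
    (p (nat_lit 0x101) (nat_lit 1) (p (nat_lit 0x111) (nat_lit 0) (p (nat_lit 0xd1) (nat_lit 1) (p (nat_lit 0x89) (nat_lit 0) (p (nat_lit 0x41) (nat_lit 0) (p (nat_lit 0x89080787089a) (nat_lit 0) (p (nat_lit 0x88878706861a) (nat_lit 0) (p (nat_lit 0x80000000080686078a) (nat_lit 0) (p (nat_lit 0x80000000078605850a) (nat_lit 0) (p (nat_lit 0x8605850682) (nat_lit 0) (p (nat_lit 0x8585048402) (nat_lit 0) (p (nat_lit 0x160014) (nat_lit 0) (p (nat_lit 0x160004) (nat_lit 0) (p (nat_lit 0x60592) (nat_lit 0) (p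 (nat_lit 0x48512) (nat_lit 0) (p (nat_lit 0x50392) (nat_lit 0) (p (nat_lit 0x38312) (nat_lit 0) (p (nat_lit 0x40212) (nat_lit 0) (p (nat_lit 0x28192) (nat_lit 0) (p (nat_lit 0x30092) (nat_lit 0) (p (nat_lit 0x18012) (nat_lit 0) pn))))))))))))))))))))) :=
  Cl.node (nat_lit 0x81) (nat_lit 2) (by decide +kernel) (ClAll.succ (ClAll.succ ClAll.zero n177) n178)

def n207 : Cl (O (nat_lit 2)) (R (nat_lit 135377))
    (p (nat_lit 0x81) (nat_lit 1) (p (nat_lit 0x111) (nat_lit 1) (p (nat_lit 0xd1) (nat_lit 1) (p (nat_lit 0x89) (nat_lit 0) (p (nat_lit 0x41) (nat_lit 0) (p (nat_lit 0x89080787089a) (nat_lit 0) (p (nat_lit 0x88878706861a) (nat_lit 0) (p (nat_lit 0x80000000080686078a) (nat_lit 0) (p (nat_lit 0x80000000078605850a) (nat_lit 0) (p (nat_lit 0x8605850682) (nat_lit 0) (p (nat_lit 0x8585048402) (nat_lit 0) (p (nat_lit 0x160014) (nat_lit 0) (p (nat_lit 0x160004) (nat_lit 0) (p (nat_lit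 0x60592) (nat_lit 0) (p (nat_lit 0x48512) (nat_lit 0) (p (nat_lit 0x50392) (nat_lit 0) (p (nat_lit 0x38312) (nat_lit 0) (p (nat_lit 0x40212) (nat_lit 0) (p (nat_lit 0x28192) (nat_lit 0) (p (nat_lit 0x30092) (nat_lit 0) (p (nat_lit 0x18012) (nat_lit 0) pn))))))))))))))))))))) :=
  Cl.node (nat_lit 0xc1) (nat_lit 2) (by decide +kernel) (ClAll.succ (ClAll.succ ClAll.zero s58) n179)

def n208 : Cl (O (nat_lit 2)) (R (nat_lit 135377))
    (p (nat_lit 0x101) (nat_lit 0) (p (nat_lit 0x119) (nat_lit 0) (p (nat_lit 0xc9) (nat_lit 0) (p (nat_lit 0x89) (nat_lit 1) (p (nat_lit 0x41) (nat_lit 0) (p (nat_lit 0x89080787089a) (nat_lit 0) (p (nat_lit 0x88878706861a) (nat_lit 0) (p (nat_lit 0x80000000080686078a) (nat_lit 0) (p (nat_lit 0x80000000078605850a) (nat_lit 0) (p (nat_lit 0x8605850682) (nat_lit 0) (p (nat_lit 0x8585048402) (nat_lit 0) (p (nat_lit 0x160014) (nat_lit 0) (p (nat_lit 0x160004)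 (nat_lit 0) (p (nat_lit 0x60592) (nat_lit 0) (p (nat_lit 0x48512) (nat_lit 0) (p (nat_lit 0x50392) (nat_lit 0) (p (nat_lit 0x38312) (nat_lit 0) (p (nat_lit 0x40212) (nat_lit 0) (p (nat_lit 0x28192) (nat_lit 0) (p (nat_lit 0x30092) (nat_lit 0) (p (nat_lit 0x18012) (nat_lit 0) pn))))))))))))))))))))) :=
  Cl.node (nat_lit 0x109) (nat_lit 2) (by decide +kernel) (ClAll.succ (ClAll.succ ClAll.zero n180) n181)

def n209 : Cl (O (nat_lit 2)) (R (nat_lit 135377))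
    (p (nat_lit 0x101) (nat_lit 1) (p (nat_lit 0x119) (nat_lit 0) (p (nat_lit 0xc9) (nat_lit 0) (p (nat_lit 0x89) (nat_lit 1) (p (nat_lit 0x41) (nat_lit 0) (p (nat_lit 0x89080787089a) (nat_lit 0) (p (nat_lit 0x88878706861a) (nat_lit 0) (p (nat_lit 0x80000000080686078a) (nat_lit 0) (p (nat_lit 0x80000000078605850a) (nat_lit 0) (p (nat_lit 0x8605850682) (nat_lit 0) (p (nat_lit 0x8585048402) (nat_lit 0) (p (nat_lit 0x160014) (nat_lit 0) (p (nat_lit 0x160004) (nat_lit 0) (p (nat_lit 0x60592) (nat_lit 0) (p (nat_lit 0x48512) (nat_lit 0) (p (nat_lit 0x50392) (nat_lit 0) (p (nat_lit 0x38312) (nat_lit 0) (p (nat_lit 0x40212) (nat_lit 0) (p (nat_lit 0x28192) (nat_lit 0) (p (nat_lit 0x30092) (nat_lit 0) (p (nat_lit 0x18012) (nat_lit 0) pn))))))))))))))))))))) :=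
  Cl.node (nat_lit 0xc1) (nat_lit 2) (by decide +kernel) (ClAll.succ (ClAll.succ ClAll.zero n182) s89)

def n210 : Cl (O (nat_lit 2)) (R (nat_lit 135377))
    (p (nat_lit 0xc1) (nat_lit 0) (p (nat_lit 0x119) (nat_lit 1) (p (nat_lit 0xc9) (nat_lit 0) (p (nat_lit 0x89) (nat_lit 1) (p (nat_lit 0x41) (nat_lit 0) (p (nat_lit 0x89080787089a) (nat_lit 0) (p (nat_lit 0x88878706861a) (nat_lit 0) (p (nat_lit 0x80000000080686078a) (nat_lit 0) (p (nat_lit 0x80000000078605850a) (nat_lit 0) (p (nat_lit 0x8605850682) (nat_lit 0) (p (nat_lit 0x8585048402) (nat_lit 0) (p (nat_lit 0x160014) (nat_lit 0) (p (nat_lit 0x160004) (nat_lit 0) (p (nat_lit 0x60592) (nat_lit 0) (p (nat_lit 0x48512) (nat_lit 0) (p (nat_lit 0x50392) (nat_lit 0) (p (nat_lit 0x38312) (nat_lit 0) (p (nat_lit 0x40212) (nat_lit 0) (p (nat_lit 0x28192) (nat_lit 0) (p (nat_lit 0x30092) (nat_lit 0) (p (nat_lit 0x18012) (nat_lit 0) pn)))))))))))))))))))))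 :=
  Cl.node (nat_lit 0xd1) (nat_lit 2) (by decide +kernel) (ClAll.succ (ClAll.succ ClAll.zero s90) n183)

def n211 : Cl (O (nat_lit 2)) (R (nat_lit 135377))
    (p (nat_lit 0xc1) (nat_lit 1) (p (nat_lit 0x119) (nat_lit 1) (p (nat_lit 0xc9) (nat_lit 0) (p (nat_lit 0x89) (nat_lit 1) (p (nat_lit 0x41) (nat_lit 0) (p (nat_lit 0x89080787089a) (nat_lit 0) (p (nat_lit 0x88878706861a) (nat_lit 0) (p (nat_lit 0x80000000080686078a) (nat_lit 0) (p (nat_lit 0x80000000078605850a) (nat_lit 0) (p (nat_lit 0x8605850682) (nat_lit 0) (p (nat_lit 0x8585048402) (nat_lit 0) (p (nat_lit 0x160014) (nat_lit 0) (p (nat_lit 0x160004) (nat_lit 0) (p (nat_lit 0x60592) (nat_lit 0) (p (nat_lit 0x48512) (nat_lit 0) (p (nat_lit 0x50392) (nat_lit 0) (p (nat_lit 0x38312) (nat_lit 0) (p (nat_lit 0x40212) (nat_lit 0) (p (nat_lit 0x28192) (nat_lit 0) (p (nat_lit 0x30092) (nat_lit 0) (p (nat_lit 0x18012) (nat_lit 0)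 pn))))))))))))))))))))) :=
  Cl.node (nat_lit 0x101) (nat_lit 2) (by decide +kernel) (ClAll.succ (ClAll.succ ClAll.zero n184) s100)

def n212 : Cl (O (nat_lit 2)) (R (nat_lit 135377))
    (p (nat_lit 0x101) (nat_lit 0) (p (nat_lit 0x119) (nat_lit 0) (p (nat_lit 0xd1) (nat_lit 0) (p (nat_lit 0x81) (nat_lit 0) (p (nat_lit 0x41) (nat_lit 1) (p (nat_lit 0x89080787089a) (nat_lit 0) (p (nat_lit 0x88878706861a) (nat_lit 0) (p (nat_lit 0x80000000080686078a) (nat_lit 0) (p (nat_lit 0x80000000078605850a) (nat_lit 0) (p (nat_lit 0x8605850682) (nat_lit 0) (p (nat_lit 0x8585048402) (nat_lit 0) (p (nat_lit 0x160014) (nat_lit 0) (p (nat_lit 0x160004) (nat_lit 0) (p (nat_lit 0x60592) (nat_lit 0) (p (nat_lit 0x48512) (nat_lit 0) (p (nat_lit 0x50392) (nat_lit 0) (p (nat_lit 0x38312) (nat_lit 0) (p (nat_lit 0x40212) (nat_lit 0) (p (nat_lit 0x28192) (nat_lit 0) (p (nat_lit 0x30092) (nat_lit 0) (p (nat_lit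 0x18012) (nat_lit 0) pn))))))))))))))))))))) :=
  Cl.node (nat_lit 0x109) (nat_lit 2) (by decide +kernel) (ClAll.succ (ClAll.succ ClAll.zero s102) n185)

def n213 : Cl (O (nat_lit 2)) (R (nat_lit 135377))
    (p (nat_lit 0x101) (nat_lit 1) (p (nat_lit 0x119) (nat_lit 0) (p (nat_lit 0xd1) (nat_lit 0) (p (nat_lit 0x81) (nat_lit 0) (p (nat_lit 0x41) (nat_lit 1) (p (nat_lit 0x89080787089a) (nat_lit 0) (p (nat_lit 0x88878706861a) (nat_lit 0) (p (nat_lit 0x80000000080686078a) (nat_lit 0) (p (nat_lit 0x80000000078605850a) (nat_lit 0) (p (nat_lit 0x8605850682) (nat_lit 0) (p (nat_lit 0x8585048402) (nat_lit 0) (p (nat_lit 0x160014) (nat_lit 0) (p (nat_lit 0x160004) (nat_lit 0) (p (nat_lit 0x60592) (nat_lit 0) (p (nat_lit 0x48512) (nat_lit 0) (p (nat_lit 0x50392) (nat_lit 0) (p (nat_lit 0x38312) (nat_lit 0) (p (nat_lit 0x40212) (nat_lit 0) (p (nat_lit 0x28192) (nat_lit 0) (p (nat_lit 0x30092)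 (nat_lit 0) (p (nat_lit 0x18012) (nat_lit 0) pn))))))))))))))))))))) :=
  Cl.node (nat_lit 0xc1) (nat_lit 2) (by decide +kernel) (ClAll.succ (ClAll.succ ClAll.zero n186) n187)

def n214 : Cl (O (nat_lit 2)) (R (nat_lit 135377))
    (p (nat_lit 0xc1) (nat_lit 0) (p (nat_lit 0x119) (nat_lit 1) (p (nat_lit 0xd1) (nat_lit 0) (p (nat_lit 0x81) (nat_lit 0) (p (nat_lit 0x41) (nat_lit 1) (p (nat_lit 0x89080787089a) (nat_lit 0) (p (nat_lit 0x88878706861a) (nat_lit 0) (p (nat_lit 0x80000000080686078a) (nat_lit 0) (p (nat_lit 0x80000000078605850a) (nat_lit 0) (p (nat_lit 0x8605850682) (nat_lit 0) (p (nat_lit 0x8585048402) (nat_lit 0) (p (nat_lit 0x160014) (nat_lit 0) (p (nat_lit 0x160004) (nat_lit 0) (p (nat_lit 0x60592) (nat_lit 0) (p (nat_lit 0x48512) (nat_lit 0) (p (nat_lit 0x50392) (nat_lit 0) (p (nat_lit 0x38312) (nat_lit 0) (p (nat_lit 0x40212) (nat_lit 0) (p (nat_lit 0x28192) (nat_lit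 0) (p (nat_lit 0x30092) (nat_lit 0) (p (nat_lit 0x18012) (nat_lit 0) pn))))))))))))))))))))) :=
  Cl.node (nat_lit 0xc9) (nat_lit 2) (by decide +kernel) (ClAll.succ (ClAll.succ ClAll.zero s139) n188)

def n215 : Cl (O (nat_lit 2)) (R (nat_lit 135377))
    (p (nat_lit 0xc1) (nat_lit 1) (p (nat_lit 0x119) (nat_lit 1) (p (nat_lit 0xd1) (nat_lit 0) (p (nat_lit 0x81) (nat_lit 0) (p (nat_lit 0x41) (nat_lit 1) (p (nat_lit 0x89080787089a) (nat_lit 0) (p (nat_lit 0x88878706861a) (nat_lit 0) (p (nat_lit 0x80000000080686078a) (nat_lit 0) (p (nat_lit 0x80000000078605850a) (nat_lit 0) (p (nat_lit 0x8605850682) (nat_lit 0) (p (nat_lit 0x8585048402) (nat_lit 0) (p (nat_lit 0x160014) (nat_lit 0) (p (nat_lit 0x160004) (nat_lit 0) (p (nat_lit 0x60592) (nat_lit 0) (p (nat_lit 0x48512) (nat_lit 0) (p (nat_lit 0x50392) (nat_lit 0) (p (nat_lit 0x38312) (nat_lit 0) (p (nat_lit 0x40212) (nat_lit 0) (p (nat_lit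 0x28192) (nat_lit 0) (p (nat_lit 0x30092) (nat_lit 0) (p (nat_lit 0x18012) (nat_lit 0) pn))))))))))))))))))))) :=
  Cl.node (nat_lit 0x101) (nat_lit 2) (by decide +kernel) (ClAll.succ (ClAll.succ ClAll.zero n189) n190)

def n216 : Cl (O (nat_lit 2)) (R (nat_lit 135377))
    (p (nat_lit 0x101) (nat_lit 0) (p (nat_lit 0x111) (nat_lit 0) (p (nat_lit 0xd1) (nat_lit 1) (p (nat_lit 0x81) (nat_lit 0) (p (nat_lit 0x41) (nat_lit 1) (p (nat_lit 0x89080787089a) (nat_lit 0) (p (nat_lit 0x88878706861a) (nat_lit 0) (p (nat_lit 0x80000000080686078a) (nat_lit 0) (p (nat_lit 0x80000000078605850a) (nat_lit 0) (p (nat_lit 0x8605850682) (nat_lit 0) (p (nat_lit 0x8585048402) (nat_lit 0) (p (nat_lit 0x160014) (nat_lit 0) (p (nat_lit 0x160004) (nat_lit 0) (p (nat_lit 0x60592) (nat_lit 0) (p (nat_lit 0x48512) (nat_lit 0) (p (nat_lit 0x50392) (nat_lit 0) (p (nat_lit 0x38312) (nat_lit 0) (p (nat_lit 0x40212)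 (nat_lit 0) (p (nat_lit 0x28192) (nat_lit 0) (p (nat_lit 0x30092) (nat_lit 0) (p (nat_lit 0x18012) (nat_lit 0) pn))))))))))))))))))))) :=
  Cl.node (nat_lit 0x109) (nat_lit 2) (by decide +kernel) (ClAll.succ (ClAll.succ ClAll.zero s172) n191)

def n217 : Cl (O (nat_lit 2)) (R (nat_lit 135377))
    (p (nat_lit 0x101) (nat_lit 1) (p (nat_lit 0x111) (nat_lit 0) (p (nat_lit 0xd1) (nat_lit 1) (p (nat_lit 0x81) (nat_lit 0) (p (nat_lit 0x41) (nat_lit 1) (p (nat_lit 0x89080787089a) (nat_lit 0) (p (nat_lit 0x88878706861a) (nat_lit 0) (p (nat_lit 0x80000000080686078a) (nat_lit 0) (p (nat_lit 0x80000000078605850a) (nat_lit 0) (p (nat_lit 0x8605850682) (nat_lit 0) (p (nat_lit 0x8585048402) (nat_lit 0) (p (nat_lit 0x160014) (nat_lit 0) (p (nat_lit 0x160004) (nat_lit 0) (p (nat_lit 0x60592) (nat_lit 0) (p (nat_lit 0x48512) (nat_lit 0) (p (nat_lit 0x50392) (nat_lit 0) (p (nat_lit 0x38312) (nat_lit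 0) (p (nat_lit 0x40212) (nat_lit 0) (p (nat_lit 0x28192) (nat_lit 0) (p (nat_lit 0x30092) (nat_lit 0) (p (nat_lit 0x18012) (nat_lit 0) pn))))))))))))))))))))) :=
  Cl.node (nat_lit 0x89) (nat_lit 2) (by decide +kernel) (ClAll.succ (ClAll.succ ClAll.zero n192) n193)

def n218 : Cl (O (nat_lit 2)) (R (nat_lit 135377))
    (p (nat_lit 0x89) (nat_lit 1) (p (nat_lit 0x111) (nat_lit 1) (p (nat_lit 0xd1) (nat_lit 1) (p (nat_lit 0x81) (nat_lit 0) (p (nat_lit 0x41) (nat_lit 1) (p (nat_lit 0x89080787089a) (nat_lit 0) (p (nat_lit 0x88878706861a) (nat_lit 0) (p (nat_lit 0x80000000080686078a) (nat_lit 0) (p (nat_lit 0x80000000078605850a) (nat_lit 0) (p (nat_lit 0x8605850682) (nat_lit 0) (p (nat_lit 0x8585048402) (nat_lit 0) (p (nat_lit 0x160014) (nat_lit 0) (p (nat_lit 0x160004) (nat_lit 0) (p (nat_lit 0x60592) (nat_lit 0) (p (nat_lit 0x48512) (nat_lit 0) (p (nat_lit 0x50392) (nat_lit 0) (p (nat_lit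 0x38312) (nat_lit 0) (p (nat_lit 0x40212) (nat_lit 0) (p (nat_lit 0x28192) (nat_lit 0) (p (nat_lit 0x30092) (nat_lit 0) (p (nat_lit 0x18012) (nat_lit 0) pn))))))))))))))))))))) :=
  Cl.node (nat_lit 0xc9) (nat_lit 2) (by decide +kernel) (ClAll.succ (ClAll.succ ClAll.zero s195) n194)

def n219 : Cl (O (nat_lit 2)) (R (nat_lit 135377))
    (p (nat_lit 0x101) (nat_lit 0) (p (nat_lit 0x119) (nat_lit 0) (p (nat_lit 0xc1) (nat_lit 0) (p (nat_lit 0x81) (nat_lit 1) (p (nat_lit 0x41) (nat_lit 1) (p (nat_lit 0x89080787089a) (nat_lit 0) (p (nat_lit 0x88878706861a) (nat_lit 0) (p (nat_lit 0x80000000080686078a) (nat_lit 0) (p (nat_lit 0x80000000078605850a) (nat_lit 0) (p (nat_lit 0x8605850682) (nat_lit 0) (p (nat_lit 0x8585048402) (nat_lit 0) (p (nat_lit 0x160014) (nat_lit 0) (p (nat_lit 0x160004) (nat_lit 0) (p (nat_lit 0x60592) (nat_lit 0) (p (nat_lit 0x48512) (nat_lit 0) (p (nat_lit 0x50392)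 (nat_lit 0) (p (nat_lit 0x38312) (nat_lit 0) (p (nat_lit 0x40212) (nat_lit 0) (p (nat_lit 0x28192) (nat_lit 0) (p (nat_lit 0x30092) (nat_lit 0) (p (nat_lit 0x18012) (nat_lit 0) pn))))))))))))))))))))) :=
  Cl.node (nat_lit 0x109) (nat_lit 2) (by decide +kernel) (ClAll.succ (ClAll.succ ClAll.zero n195) n196)

def n220 : Cl (O (nat_lit 2)) (R (nat_lit 135377))
    (p (nat_lit 0x101) (nat_lit 1) (p (nat_lit 0x119) (nat_lit 0) (p (nat_lit 0xc1) (nat_lit 0) (p (nat_lit 0x81) (nat_lit 1) (p (nat_lit 0x41) (nat_lit 1) (p (nat_lit 0x89080787089a) (nat_lit 0) (p (nat_lit 0x88878706861a) (nat_lit 0) (p (nat_lit 0x80000000080686078a) (nat_lit 0) (p (nat_lit 0x80000000078605850a) (nat_lit 0) (p (nat_lit 0x8605850682) (nat_lit 0) (p (nat_lit 0x8585048402) (nat_lit 0) (p (nat_lit 0x160014) (nat_lit 0) (p (nat_lit 0x160004) (nat_lit 0) (p (nat_lit 0x60592) (nat_lit 0) (p (nat_lit 0x48512) (nat_lit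 0) (p (nat_lit 0x50392) (nat_lit 0) (p (nat_lit 0x38312) (nat_lit 0) (p (nat_lit 0x40212) (nat_lit 0) (p (nat_lit 0x28192) (nat_lit 0) (p (nat_lit 0x30092) (nat_lit 0) (p (nat_lit 0x18012) (nat_lit 0) pn))))))))))))))))))))) :=
  Cl.node (nat_lit 0xc9) (nat_lit 2) (by decide +kernel) (ClAll.succ (ClAll.succ ClAll.zero n197) s219)

def n221 : Cl (O (nat_lit 2)) (R (nat_lit 135377))
    (p (nat_lit 0xc9) (nat_lit 0) (p (nat_lit 0x119) (nat_lit 1) (p (nat_lit 0xc1) (nat_lit 0) (p (nat_lit 0x81) (nat_lit 1) (p (nat_lit 0x41) (nat_lit 1) (p (nat_lit 0x89080787089a) (nat_lit 0) (p (nat_lit 0x88878706861a) (nat_lit 0) (p (nat_lit 0x80000000080686078a) (nat_lit 0) (p (nat_lit 0x80000000078605850a) (nat_lit 0) (p (nat_lit 0x8605850682) (nat_lit 0) (p (nat_lit 0x8585048402) (nat_lit 0) (p (nat_lit 0x160014) (nat_lit 0) (p (nat_lit 0x160004) (nat_lit 0) (p (nat_lit 0x60592) (nat_lit 0) (p (nat_lit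 0x48512) (nat_lit 0) (p (nat_lit 0x50392) (nat_lit 0) (p (nat_lit 0x38312) (nat_lit 0) (p (nat_lit 0x40212) (nat_lit 0) (p (nat_lit 0x28192) (nat_lit 0) (p (nat_lit 0x30092) (nat_lit 0) (p (nat_lit 0x18012) (nat_lit 0) pn))))))))))))))))))))) :=
  Cl.node (nat_lit 0xd1) (nat_lit 2) (by decide +kernel) (ClAll.succ (ClAll.succ ClAll.zero s220) n198)

def n222 : Cl (O (nat_lit 2)) (R (nat_lit 135377))
    (p (nat_lit 0xc9) (nat_lit 1) (p (nat_lit 0x119) (nat_lit 1) (p (nat_lit 0xc1) (nat_lit 0) (p (nat_lit 0x81) (nat_lit 1) (p (nat_lit 0x41) (nat_lit 1) (p (nat_lit 0x89080787089a) (nat_lit 0) (p (nat_lit 0x88878706861a) (nat_lit 0) (p (nat_lit 0x80000000080686078a) (nat_lit 0) (p (nat_lit 0x80000000078605850a) (nat_lit 0) (p (nat_lit 0x8605850682) (nat_lit 0) (p (nat_lit 0x8585048402) (nat_lit 0) (p (nat_lit 0x160014) (nat_lit 0) (p (nat_lit 0x160004) (nat_lit 0) (p (nat_lit 0x60592)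 (nat_lit 0) (p (nat_lit 0x48512) (nat_lit 0) (p (nat_lit 0x50392) (nat_lit 0) (p (nat_lit 0x38312) (nat_lit 0) (p (nat_lit 0x40212) (nat_lit 0) (p (nat_lit 0x28192) (nat_lit 0) (p (nat_lit 0x30092) (nat_lit 0) (p (nat_lit 0x18012) (nat_lit 0) pn))))))))))))))))))))) :=
  Cl.node (nat_lit 0x109) (nat_lit 2) (by decide +kernel) (ClAll.succ (ClAll.succ ClAll.zero n199) n200)

def n223 : Cl (O (nat_lit 2)) (R (nat_lit 135377))
    (p (nat_lit 0x109) (nat_lit 0) (p (nat_lit 0x101) (nat_lit 0) (p (nat_lit 0xc1) (nat_lit 1) (p (nat_lit 0x81) (nat_lit 1) (p (nat_lit 0x41) (nat_lit 1) (p (nat_lit 0x89080787089a) (nat_lit 0) (p (nat_lit 0x88878706861a) (nat_lit 0) (p (nat_lit 0x80000000080686078a) (nat_lit 0) (p (nat_lit 0x80000000078605850a) (nat_lit 0) (p (nat_lit 0x8605850682) (nat_lit 0) (p (nat_lit 0x8585048402) (nat_lit 0) (p (nat_lit 0x160014) (nat_lit 0) (p (nat_lit 0x160004) (nat_lit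 0) (p (nat_lit 0x60592) (nat_lit 0) (p (nat_lit 0x48512) (nat_lit 0) (p (nat_lit 0x50392) (nat_lit 0) (p (nat_lit 0x38312) (nat_lit 0) (p (nat_lit 0x40212) (nat_lit 0) (p (nat_lit 0x28192) (nat_lit 0) (p (nat_lit 0x30092) (nat_lit 0) (p (nat_lit 0x18012) (nat_lit 0) pn))))))))))))))))))))) :=
  Cl.node (nat_lit 0x111) (nat_lit 2) (by decide +kernel) (ClAll.succ (ClAll.succ ClAll.zero s236) s237)

def n224 : Cl (O (nat_lit 2)) (R (nat_lit 135377))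
    (p (nat_lit 0x119) (nat_lit 0) (p (nat_lit 0xd1) (nat_lit 0) (p (nat_lit 0x89) (nat_lit 0) (p (nat_lit 0x41) (nat_lit 0) (p (nat_lit 0x89080787089a) (nat_lit 0) (p (nat_lit 0x88878706861a) (nat_lit 0) (p (nat_lit 0x80000000080686078a) (nat_lit 0) (p (nat_lit 0x80000000078605850a) (nat_lit 0) (p (nat_lit 0x8605850682) (nat_lit 0) (p (nat_lit 0x8585048402) (nat_lit 0) (p (nat_lit 0x160014) (nat_lit 0) (p (nat_lit 0x160004) (nat_lit 0) (p (nat_lit 0x60592) (nat_lit 0) (p (nat_lit 0x48512) (nat_lit 0) (p (nat_lit 0x50392) (nat_lit 0) (p (nat_lit 0x38312) (nat_lit 0) (p (nat_lit 0x40212) (nat_lit 0) (p (nat_lit 0x28192) (nat_lit 0) (p (nat_lit 0x30092) (nat_lit 0) (p (nat_lit 0x18012) (nat_lit 0) pn)))))))))))))))))))) :=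
  Cl.node (nat_lit 0x101) (nat_lit 2) (by decide +kernel) (ClAll.succ (ClAll.succ ClAll.zero n201) n202)

def n225 : Cl (O (nat_lit 2)) (R (nat_lit 135377))
    (p (nat_lit 0x119) (nat_lit 1) (p (nat_lit 0xd1) (nat_lit 0) (p (nat_lit 0x89) (nat_lit 0) (p (nat_lit 0x41) (nat_lit 0) (p (nat_lit 0x89080787089a) (nat_lit 0) (p (nat_lit 0x88878706861a) (nat_lit 0) (p (nat_lit 0x80000000080686078a) (nat_lit 0) (p (nat_lit 0x80000000078605850a) (nat_lit 0) (p (nat_lit 0x8605850682) (nat_lit 0) (p (nat_lit 0x8585048402) (nat_lit 0) (p (nat_lit 0x160014) (nat_lit 0) (p (nat_lit 0x160004) (nat_lit 0) (p (nat_lit 0x60592) (nat_lit 0) (p (nat_lit 0x48512) (nat_lit 0) (p (nat_lit 0x50392) (nat_lit 0) (p (nat_lit 0x38312) (nat_lit 0) (p (nat_lit 0x40212) (nat_lit 0) (p (nat_lit 0x28192) (nat_lit 0) (p (nat_lit 0x30092) (nat_lit 0) (p (nat_lit 0x18012) (nat_lit 0) pn)))))))))))))))))))) :=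
  Cl.node (nat_lit 0xc1) (nat_lit 2) (by decide +kernel) (ClAll.succ (ClAll.succ ClAll.zero n203) n204)

def n226 : Cl (O (nat_lit 2)) (R (nat_lit 135377))
    (p (nat_lit 0x111) (nat_lit 0) (p (nat_lit 0xd1) (nat_lit 1) (p (nat_lit 0x89) (nat_lit 0) (p (nat_lit 0x41) (nat_lit 0) (p (nat_lit 0x89080787089a) (nat_lit 0) (p (nat_lit 0x88878706861a) (nat_lit 0) (p (nat_lit 0x80000000080686078a) (nat_lit 0) (p (nat_lit 0x80000000078605850a) (nat_lit 0) (p (nat_lit 0x8605850682) (nat_lit 0) (p (nat_lit 0x8585048402) (nat_lit 0) (p (nat_lit 0x160014) (nat_lit 0) (p (nat_lit 0x160004) (nat_lit 0) (p (nat_lit 0x60592) (nat_lit 0) (p (nat_lit 0x48512) (nat_lit 0) (p (nat_lit 0x50392) (nat_lit 0) (p (nat_lit 0x38312) (nat_lit 0) (p (nat_lit 0x40212) (nat_lit 0) (p (nat_lit 0x28192) (nat_lit 0) (p (nat_lit 0x30092) (nat_lit 0) (p (nat_lit 0x18012) (nat_lit 0) pn)))))))))))))))))))) :=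
  Cl.node (nat_lit 0x101) (nat_lit 2) (by decide +kernel) (ClAll.succ (ClAll.succ ClAll.zero n205) n206)

def n227 : Cl (O (nat_lit 2)) (R (nat_lit 135377))
    (p (nat_lit 0x111) (nat_lit 1) (p (nat_lit 0xd1) (nat_lit 1) (p (nat_lit 0x89) (nat_lit 0) (p (nat_lit 0x41) (nat_lit 0) (p (nat_lit 0x89080787089a) (nat_lit 0) (p (nat_lit 0x88878706861a) (nat_lit 0) (p (nat_lit 0x80000000080686078a) (nat_lit 0) (p (nat_lit 0x80000000078605850a) (nat_lit 0) (p (nat_lit 0x8605850682) (nat_lit 0) (p (nat_lit 0x8585048402) (nat_lit 0) (p (nat_lit 0x160014) (nat_lit 0) (p (nat_lit 0x160004) (nat_lit 0) (p (nat_lit 0x60592) (nat_lit 0) (p (nat_lit 0x48512) (nat_lit 0) (p (nat_lit 0x50392) (nat_lit 0) (p (nat_lit 0x38312) (nat_lit 0) (p (nat_lit 0x40212) (nat_lit 0) (p (nat_lit 0x28192) (nat_lit 0) (p (nat_lit 0x30092) (nat_lit 0) (p (nat_lit 0x18012) (nat_lit 0) pn)))))))))))))))))))) :=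
  Cl.node (nat_lit 0x81) (nat_lit 2) (by decide +kernel) (ClAll.succ (ClAll.succ ClAll.zero s57) n207)

def n228 : Cl (O (nat_lit 2)) (R (nat_lit 135377))
    (p (nat_lit 0x119) (nat_lit 0) (p (nat_lit 0xc9) (nat_lit 0) (p (nat_lit 0x89) (nat_lit 1) (p (nat_lit 0x41) (nat_lit 0) (p (nat_lit 0x89080787089a) (nat_lit 0) (p (nat_lit 0x88878706861a) (nat_lit 0) (p (nat_lit 0x80000000080686078a) (nat_lit 0) (p (nat_lit 0x80000000078605850a) (nat_lit 0) (p (nat_lit 0x8605850682) (nat_lit 0) (p (nat_lit 0x8585048402) (nat_lit 0) (p (nat_lit 0x160014) (nat_lit 0) (p (nat_lit 0x160004) (nat_lit 0) (p (nat_lit 0x60592) (nat_lit 0) (p (nat_lit 0x48512) (nat_lit 0) (p (nat_lit 0x50392) (nat_lit 0) (p (nat_lit 0x38312) (nat_lit 0) (p (nat_lit 0x40212) (nat_lit 0) (p (nat_lit 0x28192) (nat_lit 0) (p (nat_lit 0x30092) (nat_lit 0) (p (nat_lit 0x18012) (nat_lit 0) pn)))))))))))))))))))) :=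
  Cl.node (nat_lit 0x101) (nat_lit 2) (by decide +kernel) (ClAll.succ (ClAll.succ ClAll.zero n208) n209)

def n229 : Cl (O (nat_lit 2)) (R (nat_lit 135377))
    (p (nat_lit 0x119) (nat_lit 1) (p (nat_lit 0xc9) (nat_lit 0) (p (nat_lit 0x89) (nat_lit 1) (p (nat_lit 0x41) (nat_lit 0) (p (nat_lit 0x89080787089a) (nat_lit 0) (p (nat_lit 0x88878706861a) (nat_lit 0) (p (nat_lit 0x80000000080686078a) (nat_lit 0) (p (nat_lit 0x80000000078605850a) (nat_lit 0) (p (nat_lit 0x8605850682) (nat_lit 0) (p (nat_lit 0x8585048402) (nat_lit 0) (p (nat_lit 0x160014) (nat_lit 0) (p (nat_lit 0x160004) (nat_lit 0) (p (nat_lit 0x60592) (nat_lit 0) (p (nat_lit 0x48512) (nat_lit 0) (p (nat_lit 0x50392) (nat_lit 0) (p (nat_lit 0x38312) (nat_lit 0) (p (nat_lit 0x40212) (nat_lit 0) (p (nat_lit 0x28192) (nat_lit 0) (p (nat_lit 0x30092) (nat_lit 0) (p (nat_lit 0x18012) (nat_lit 0) pn)))))))))))))))))))) :=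
  Cl.node (nat_lit 0xc1) (nat_lit 2) (by decide +kernel) (ClAll.succ (ClAll.succ ClAll.zero n210) n211)

def n230 : Cl (O (nat_lit 2)) (R (nat_lit 135377))
    (p (nat_lit 0x119) (nat_lit 0) (p (nat_lit 0xd1) (nat_lit 0) (p (nat_lit 0x81) (nat_lit 0) (p (nat_lit 0x41) (nat_lit 1) (p (nat_lit 0x89080787089a) (nat_lit 0) (p (nat_lit 0x88878706861a) (nat_lit 0) (p (nat_lit 0x80000000080686078a) (nat_lit 0) (p (nat_lit 0x80000000078605850a) (nat_lit 0) (p (nat_lit 0x8605850682) (nat_lit 0) (p (nat_lit 0x8585048402) (nat_lit 0) (p (nat_lit 0x160014) (nat_lit 0) (p (nat_lit 0x160004) (nat_lit 0) (p (nat_lit 0x60592) (nat_lit 0) (p (nat_lit 0x48512) (nat_lit 0) (p (nat_lit 0x50392) (nat_lit 0) (p (nat_lit 0x38312) (nat_lit 0) (p (nat_lit 0x40212) (nat_lit 0) (p (nat_lit 0x28192) (nat_lit 0) (p (nat_lit 0x30092) (nat_lit 0) (p (nat_lit 0x18012) (nat_lit 0) pn)))))))))))))))))))) :=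
  Cl.node (nat_lit 0x101) (nat_lit 2) (by decide +kernel) (ClAll.succ (ClAll.succ ClAll.zero n212) n213)

def n231 : Cl (O (nat_lit 2)) (R (nat_lit 135377))
    (p (nat_lit 0x119) (nat_lit 1) (p (nat_lit 0xd1) (nat_lit 0) (p (nat_lit 0x81) (nat_lit 0) (p (nat_lit 0x41) (nat_lit 1) (p (nat_lit 0x89080787089a) (nat_lit 0) (p (nat_lit 0x88878706861a) (nat_lit 0) (p (nat_lit 0x80000000080686078a) (nat_lit 0) (p (nat_lit 0x80000000078605850a) (nat_lit 0) (p (nat_lit 0x8605850682) (nat_lit 0) (p (nat_lit 0x8585048402) (nat_lit 0) (p (nat_lit 0x160014) (nat_lit 0) (p (nat_lit 0x160004) (nat_lit 0) (p (nat_lit 0x60592) (nat_lit 0) (p (nat_lit 0x48512) (nat_lit 0) (p (nat_lit 0x50392) (nat_lit 0) (p (nat_lit 0x38312) (nat_lit 0) (p (nat_lit 0x40212) (nat_lit 0) (p (nat_lit 0x28192) (nat_lit 0) (p (nat_lit 0x30092) (nat_lit 0) (p (nat_lit 0x18012) (nat_lit 0) pn)))))))))))))))))))) :=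
  Cl.node (nat_lit 0xc1) (nat_lit 2) (by decide +kernel) (ClAll.succ (ClAll.succ ClAll.zero n214) n215)

def n232 : Cl (O (nat_lit 2)) (R (nat_lit 135377))
    (p (nat_lit 0x111) (nat_lit 0) (p (nat_lit 0xd1) (nat_lit 1) (p (nat_lit 0x81) (nat_lit 0) (p (nat_lit 0x41) (nat_lit 1) (p (nat_lit 0x89080787089a) (nat_lit 0) (p (nat_lit 0x88878706861a) (nat_lit 0) (p (nat_lit 0x80000000080686078a) (nat_lit 0) (p (nat_lit 0x80000000078605850a) (nat_lit 0) (p (nat_lit 0x8605850682) (nat_lit 0) (p (nat_lit 0x8585048402) (nat_lit 0) (p (nat_lit 0x160014) (nat_lit 0) (p (nat_lit 0x160004) (nat_lit 0) (p (nat_lit 0x60592) (nat_lit 0) (p (nat_lit 0x48512) (nat_lit 0) (p (nat_lit 0x50392) (nat_lit 0) (p (nat_lit 0x38312) (nat_lit 0) (p (nat_lit 0x40212) (nat_lit 0) (p (nat_lit 0x28192) (nat_lit 0) (p (nat_lit 0x30092) (nat_lit 0) (p (nat_lit 0x18012) (nat_lit 0) pn)))))))))))))))))))) :=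
  Cl.node (nat_lit 0x101) (nat_lit 2) (by decide +kernel) (ClAll.succ (ClAll.succ ClAll.zero n216) n217)

def n233 : Cl (O (nat_lit 2)) (R (nat_lit 135377))
    (p (nat_lit 0x111) (nat_lit 1) (p (nat_lit 0xd1) (nat_lit 1) (p (nat_lit 0x81) (nat_lit 0) (p (nat_lit 0x41) (nat_lit 1) (p (nat_lit 0x89080787089a) (nat_lit 0) (p (nat_lit 0x88878706861a) (nat_lit 0) (p (nat_lit 0x80000000080686078a) (nat_lit 0) (p (nat_lit 0x80000000078605850a) (nat_lit 0) (p (nat_lit 0x8605850682) (nat_lit 0) (p (nat_lit 0x8585048402) (nat_lit 0) (p (nat_lit 0x160014) (nat_lit 0) (p (nat_lit 0x160004) (nat_lit 0) (p (nat_lit 0x60592) (nat_lit 0) (p (nat_lit 0x48512) (nat_lit 0) (p (nat_lit 0x50392) (nat_lit 0) (p (nat_lit 0x38312) (nat_lit 0) (p (nat_lit 0x40212) (nat_lit 0) (p (nat_lit 0x28192) (nat_lit 0) (p (nat_lit 0x30092) (nat_lit 0) (p (nat_lit 0x18012) (nat_lit 0) pn)))))))))))))))))))) :=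
  Cl.node (nat_lit 0x89) (nat_lit 2) (by decide +kernel) (ClAll.succ (ClAll.succ ClAll.zero s194) n218)

def n234 : Cl (O (nat_lit 2)) (R (nat_lit 135377))
    (p (nat_lit 0x119) (nat_lit 0) (p (nat_lit 0xc1) (nat_lit 0) (p (nat_lit 0x81) (nat_lit 1) (p (nat_lit 0x41) (nat_lit 1) (p (nat_lit 0x89080787089a) (nat_lit 0) (p (nat_lit 0x88878706861a) (nat_lit 0) (p (nat_lit 0x80000000080686078a) (nat_lit 0) (p (nat_lit 0x80000000078605850a) (nat_lit 0) (p (nat_lit 0x8605850682) (nat_lit 0) (p (nat_lit 0x8585048402) (nat_lit 0) (p (nat_lit 0x160014) (nat_lit 0) (p (nat_lit 0x160004) (nat_lit 0) (p (nat_lit 0x60592) (nat_lit 0) (p (nat_lit 0x48512) (nat_lit 0) (p (nat_lit 0x50392) (nat_lit 0) (p (nat_lit 0x38312) (nat_lit 0) (p (nat_lit 0x40212) (nat_lit 0) (p (nat_lit 0x28192) (nat_lit 0) (p (nat_lit 0x30092) (nat_lit 0) (p (nat_lit 0x18012) (nat_lit 0) pn)))))))))))))))))))) :=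
  Cl.node (nat_lit 0x101) (nat_lit 2) (by decide +kernel) (ClAll.succ (ClAll.succ ClAll.zero n219) n220)

def n235 : Cl (O (nat_lit 2)) (R (nat_lit 135377))
    (p (nat_lit 0x119) (nat_lit 1) (p (nat_lit 0xc1) (nat_lit 0) (p (nat_lit 0x81) (nat_lit 1) (p (nat_lit 0x41) (nat_lit 1) (p (nat_lit 0x89080787089a) (nat_lit 0) (p (nat_lit 0x88878706861a) (nat_lit 0) (p (nat_lit 0x80000000080686078a) (nat_lit 0) (p (nat_lit 0x80000000078605850a) (nat_lit 0) (p (nat_lit 0x8605850682) (nat_lit 0) (p (nat_lit 0x8585048402) (nat_lit 0) (p (nat_lit 0x160014) (nat_lit 0) (p (nat_lit 0x160004) (nat_lit 0) (p (nat_lit 0x60592) (nat_lit 0) (p (nat_lit 0x48512) (nat_lit 0) (p (nat_lit 0x50392) (nat_lit 0) (p (nat_lit 0x38312) (nat_lit 0) (p (nat_lit 0x40212) (nat_lit 0) (p (nat_lit 0x28192) (nat_lit 0) (p (nat_lit 0x30092) (nat_lit 0) (p (nat_lit 0x18012) (nat_lit 0) pn)))))))))))))))))))) :=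
  Cl.node (nat_lit 0xc9) (nat_lit 2) (by decide +kernel) (ClAll.succ (ClAll.succ ClAll.zero n221) n222)

def n236 : Cl (O (nat_lit 2)) (R (nat_lit 135377))
    (p (nat_lit 0x101) (nat_lit 0) (p (nat_lit 0xc1) (nat_lit 1) (p (nat_lit 0x81) (nat_lit 1) (p (nat_lit 0x41) (nat_lit 1) (p (nat_lit 0x89080787089a) (nat_lit 0) (p (nat_lit 0x88878706861a) (nat_lit 0) (p (nat_lit 0x80000000080686078a) (nat_lit 0) (p (nat_lit 0x80000000078605850a) (nat_lit 0) (p (nat_lit 0x8605850682) (nat_lit 0) (p (nat_lit 0x8585048402) (nat_lit 0) (p (nat_lit 0x160014) (nat_lit 0) (p (nat_lit 0x160004) (nat_lit 0) (p (nat_lit 0x60592) (nat_lit 0) (p (nat_lit 0x48512) (nat_lit 0) (p (nat_lit 0x50392) (nat_lit 0) (p (nat_lit 0x38312) (nat_lit 0) (p (nat_lit 0x40212) (nat_lit 0) (p (nat_lit 0x28192) (nat_lit 0) (p (nat_lit 0x30092) (nat_lit 0) (p (nat_lit 0x18012) (nat_lit 0) pn)))))))))))))))))))) :=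
  Cl.node (nat_lit 0x109) (nat_lit 2) (by decide +kernel) (ClAll.succ (ClAll.succ ClAll.zero n223) s238)

def n237 : Cl (O (nat_lit 2)) (R (nat_lit 135377))
    (p (nat_lit 0xd1) (nat_lit 0) (p (nat_lit 0x89) (nat_lit 0) (p (nat_lit 0x41) (nat_lit 0) (p (nat_lit 0x89080787089a) (nat_lit 0) (p (nat_lit 0x88878706861a) (nat_lit 0) (p (nat_lit 0x80000000080686078a) (nat_lit 0) (p (nat_lit 0x80000000078605850a) (nat_lit 0) (p (nat_lit 0x8605850682) (nat_lit 0) (p (nat_lit 0x8585048402) (nat_lit 0) (p (nat_lit 0x160014) (nat_lit 0) (p (nat_lit 0x160004) (nat_lit 0) (p (nat_lit 0x60592) (nat_lit 0) (p (nat_lit 0x48512) (nat_lit 0) (p (nat_lit 0x50392) (nat_lit 0) (p (nat_lit 0x38312) (nat_lit 0) (p (nat_lit 0x40212) (nat_lit 0) (p (nat_lit 0x28192) (nat_lit 0) (p (nat_lit 0x30092) (nat_lit 0) (p (nat_lit 0x18012) (nat_lit 0) pn))))))))))))))))))) :=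
  Cl.node (nat_lit 0x119) (nat_lit 2) (by decide +kernel) (ClAll.succ (ClAll.succ ClAll.zero n224) n225)

def n238 : Cl (O (nat_lit 2)) (R (nat_lit 135377))
    (p (nat_lit 0xd1) (nat_lit 1) (p (nat_lit 0x89) (nat_lit 0) (p (nat_lit 0x41) (nat_lit 0) (p (nat_lit 0x89080787089a) (nat_lit 0) (p (nat_lit 0x88878706861a) (nat_lit 0) (p (nat_lit 0x80000000080686078a) (nat_lit 0) (p (nat_lit 0x80000000078605850a) (nat_lit 0) (p (nat_lit 0x8605850682) (nat_lit 0) (p (nat_lit 0x8585048402) (nat_lit 0) (p (nat_lit 0x160014) (nat_lit 0) (p (nat_lit 0x160004) (nat_lit 0) (p (nat_lit 0x60592) (nat_lit 0) (p (nat_lit 0x48512) (nat_lit 0) (p (nat_lit 0x50392) (nat_lit 0) (p (nat_lit 0x38312) (nat_lit 0) (p (nat_lit 0x40212) (nat_lit 0) (p (nat_lit 0x28192) (nat_lit 0) (p (nat_lit 0x30092) (nat_lit 0) (p (nat_lit 0x18012) (nat_lit 0) pn))))))))))))))))))) :=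
  Cl.node (nat_lit 0x111) (nat_lit 2) (by decide +kernel) (ClAll.succ (ClAll.succ ClAll.zero n226) n227)

def n239 : Cl (O (nat_lit 2)) (R (nat_lit 135377))
    (p (nat_lit 0xc9) (nat_lit 0) (p (nat_lit 0x89) (nat_lit 1) (p (nat_lit 0x41) (nat_lit 0) (p (nat_lit 0x89080787089a) (nat_lit 0) (p (nat_lit 0x88878706861a) (nat_lit 0) (p (nat_lit 0x80000000080686078a) (nat_lit 0) (p (nat_lit 0x80000000078605850a) (nat_lit 0) (p (nat_lit 0x8605850682) (nat_lit 0) (p (nat_lit 0x8585048402) (nat_lit 0) (p (nat_lit 0x160014) (nat_lit 0) (p (nat_lit 0x160004) (nat_lit 0) (p (nat_lit 0x60592) (nat_lit 0) (p (nat_lit 0x48512) (nat_lit 0) (p (nat_lit 0x50392) (nat_lit 0) (p (nat_lit 0x38312) (nat_lit 0) (p (nat_lit 0x40212) (nat_lit 0) (p (nat_lit 0x28192) (nat_lit 0) (p (nat_lit 0x30092) (nat_lit 0) (p (nat_lit 0x18012) (nat_lit 0) pn))))))))))))))))))) :=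
  Cl.node (nat_lit 0x119) (nat_lit 2) (by decide +kernel) (ClAll.succ (ClAll.succ ClAll.zero n228) n229)

def n240 : Cl (O (nat_lit 2)) (R (nat_lit 135377))
    (p (nat_lit 0xd1) (nat_lit 0) (p (nat_lit 0x81) (nat_lit 0) (p (nat_lit 0x41) (nat_lit 1) (p (nat_lit 0x89080787089a) (nat_lit 0) (p (nat_lit 0x88878706861a) (nat_lit 0) (p (nat_lit 0x80000000080686078a) (nat_lit 0) (p (nat_lit 0x80000000078605850a) (nat_lit 0) (p (nat_lit 0x8605850682) (nat_lit 0) (p (nat_lit 0x8585048402) (nat_lit 0) (p (nat_lit 0x160014) (nat_lit 0) (p (nat_lit 0x160004) (nat_lit 0) (p (nat_lit 0x60592) (nat_lit 0) (p (nat_lit 0x48512) (nat_lit 0) (p (nat_lit 0x50392) (nat_lit 0) (p (nat_lit 0x38312) (nat_lit 0) (p (nat_lit 0x40212) (nat_lit 0) (p (nat_lit 0x28192) (nat_lit 0) (p (nat_lit 0x30092) (nat_lit 0) (p (nat_lit 0x18012) (nat_lit 0) pn))))))))))))))))))) :=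
  Cl.node (nat_lit 0x119) (nat_lit 2) (by decide +kernel) (ClAll.succ (ClAll.succ ClAll.zero n230) n231)

def n241 : Cl (O (nat_lit 2)) (R (nat_lit 135377))
    (p (nat_lit 0xd1) (nat_lit 1) (p (nat_lit 0x81) (nat_lit 0) (p (nat_lit 0x41) (nat_lit 1) (p (nat_lit 0x89080787089a) (nat_lit 0) (p (nat_lit 0x88878706861a) (nat_lit 0) (p (nat_lit 0x80000000080686078a) (nat_lit 0) (p (nat_lit 0x80000000078605850a) (nat_lit 0) (p (nat_lit 0x8605850682) (nat_lit 0) (p (nat_lit 0x8585048402) (nat_lit 0) (p (nat_lit 0x160014) (nat_lit 0) (p (nat_lit 0x160004) (nat_lit 0) (p (nat_lit 0x60592) (nat_lit 0) (p (nat_lit 0x48512) (nat_lit 0) (p (nat_lit 0x50392) (nat_lit 0) (p (nat_lit 0x38312) (nat_lit 0) (p (nat_lit 0x40212) (nat_lit 0) (p (nat_lit 0x28192) (nat_lit 0) (p (nat_lit 0x30092) (nat_lit 0) (p (nat_lit 0x18012) (nat_lit 0) pn))))))))))))))))))) :=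
  Cl.node (nat_lit 0x111) (nat_lit 2) (by decide +kernel) (ClAll.succ (ClAll.succ ClAll.zero n232) n233)

def n242 : Cl (O (nat_lit 2)) (R (nat_lit 135377))
    (p (nat_lit 0xc1) (nat_lit 0) (p (nat_lit 0x81) (nat_lit 1) (p (nat_lit 0x41) (nat_lit 1) (p (nat_lit 0x89080787089a) (nat_lit 0) (p (nat_lit 0x88878706861a) (nat_lit 0) (p (nat_lit 0x80000000080686078a) (nat_lit 0) (p (nat_lit 0x80000000078605850a) (nat_lit 0) (p (nat_lit 0x8605850682) (nat_lit 0) (p (nat_lit 0x8585048402) (nat_lit 0) (p (nat_lit 0x160014) (nat_lit 0) (p (nat_lit 0x160004) (nat_lit 0) (p (nat_lit 0x60592) (nat_lit 0) (p (nat_lit 0x48512) (nat_lit 0) (p (nat_lit 0x50392) (nat_lit 0) (p (nat_lit 0x38312) (nat_lit 0) (p (nat_lit 0x40212) (nat_lit 0) (p (nat_lit 0x28192) (nat_lit 0) (p (nat_lit 0x30092) (nat_lit 0) (p (nat_lit 0x18012) (nat_lit 0) pn))))))))))))))))))) :=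
  Cl.node (nat_lit 0x119) (nat_lit 2) (by decide +kernel) (ClAll.succ (ClAll.succ ClAll.zero n234) n235)

def n243 : Cl (O (nat_lit 2)) (R (nat_lit 135377))
    (p (nat_lit 0xc1) (nat_lit 1) (p (nat_lit 0x81) (nat_lit 1) (p (nat_lit 0x41) (nat_lit 1) (p (nat_lit 0x89080787089a) (nat_lit 0) (p (nat_lit 0x88878706861a) (nat_lit 0) (p (nat_lit 0x80000000080686078a) (nat_lit 0) (p (nat_lit 0x80000000078605850a) (nat_lit 0) (p (nat_lit 0x8605850682) (nat_lit 0) (p (nat_lit 0x8585048402) (nat_lit 0) (p (nat_lit 0x160014) (nat_lit 0) (p (nat_lit 0x160004) (nat_lit 0) (p (nat_lit 0x60592) (nat_lit 0) (p (nat_lit 0x48512) (nat_lit 0) (p (nat_lit 0x50392) (nat_lit 0) (p (nat_lit 0x38312) (nat_lit 0) (p (nat_lit 0x40212) (nat_lit 0) (p (nat_lit 0x28192) (nat_lit 0) (p (nat_lit 0x30092) (nat_lit 0) (p (nat_lit 0x18012) (nat_lit 0) pn))))))))))))))))))) :=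
  Cl.node (nat_lit 0x101) (nat_lit 2) (by decide +kernel) (ClAll.succ (ClAll.succ ClAll.zero n236) s239)

def n244 : Cl (O (nat_lit 2)) (R (nat_lit 135377))
    (p (nat_lit 0x89) (nat_lit 0) (p (nat_lit 0x41) (nat_lit 0) (p (nat_lit 0x89080787089a) (nat_lit 0) (p (nat_lit 0x88878706861a) (nat_lit 0) (p (nat_lit 0x80000000080686078a) (nat_lit 0) (p (nat_lit 0x80000000078605850a) (nat_lit 0) (p (nat_lit 0x8605850682) (nat_lit 0) (p (nat_lit 0x8585048402) (nat_lit 0) (p (nat_lit 0x160014) (nat_lit 0) (p (nat_lit 0x160004) (nat_lit 0) (p (nat_lit 0x60592) (nat_lit 0) (p (nat_lit 0x48512) (nat_lit 0) (p (nat_lit 0x50392) (nat_lit 0) (p (nat_lit 0x38312) (nat_lit 0) (p (nat_lit 0x40212) (nat_lit 0) (p (nat_lit 0x28192) (nat_lit 0) (p (nat_lit 0x30092) (nat_lit 0) (p (nat_lit 0x18012) (nat_lit 0) pn)))))))))))))))))) :=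
  Cl.node (nat_lit 0xd1) (nat_lit 2) (by decide +kernel) (ClAll.succ (ClAll.succ ClAll.zero n237) n238)

def n245 : Cl (O (nat_lit 2)) (R (nat_lit 135377))
    (p (nat_lit 0x89) (nat_lit 1) (p (nat_lit 0x41) (nat_lit 0) (p (nat_lit 0x89080787089a) (nat_lit 0) (p (nat_lit 0x88878706861a) (nat_lit 0) (p (nat_lit 0x80000000080686078a) (nat_lit 0) (p (nat_lit 0x80000000078605850a) (nat_lit 0) (p (nat_lit 0x8605850682) (nat_lit 0) (p (nat_lit 0x8585048402) (nat_lit 0) (p (nat_lit 0x160014) (nat_lit 0) (p (nat_lit 0x160004) (nat_lit 0) (p (nat_lit 0x60592) (nat_lit 0) (p (nat_lit 0x48512) (nat_lit 0) (p (nat_lit 0x50392) (nat_lit 0) (p (nat_lit 0x38312) (nat_lit 0) (p (nat_lit 0x40212) (nat_lit 0) (p (nat_lit 0x28192) (nat_lit 0) (p (nat_lit 0x30092) (nat_lit 0) (p (nat_lit 0x18012) (nat_lit 0) pn)))))))))))))))))) :=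
  Cl.node (nat_lit 0xc9) (nat_lit 2) (by decide +kernel) (ClAll.succ (ClAll.succ ClAll.zero n239) s101)

def n246 : Cl (O (nat_lit 2)) (R (nat_lit 135377))
    (p (nat_lit 0x81) (nat_lit 0) (p (nat_lit 0x41) (nat_lit 1) (p (nat_lit 0x89080787089a) (nat_lit 0) (p (nat_lit 0x88878706861a) (nat_lit 0) (p (nat_lit 0x80000000080686078a) (nat_lit 0) (p (nat_lit 0x80000000078605850a) (nat_lit 0) (p (nat_lit 0x8605850682) (nat_lit 0) (p (nat_lit 0x8585048402) (nat_lit 0) (p (nat_lit 0x160014) (nat_lit 0) (p (nat_lit 0x160004) (nat_lit 0) (p (nat_lit 0x60592) (nat_lit 0) (p (nat_lit 0x48512) (nat_lit 0) (p (nat_lit 0x50392) (nat_lit 0) (p (nat_lit 0x38312) (nat_lit 0) (p (nat_lit 0x40212) (nat_lit 0) (p (nat_lit 0x28192) (nat_lit 0) (p (nat_lit 0x30092) (nat_lit 0) (p (nat_lit 0x18012) (nat_lit 0) pn)))))))))))))))))) :=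
  Cl.node (nat_lit 0xd1) (nat_lit 2) (by decide +kernel) (ClAll.succ (ClAll.succ ClAll.zero n240) n241)

def n247 : Cl (O (nat_lit 2)) (R (nat_lit 135377))
    (p (nat_lit 0x81) (nat_lit 1) (p (nat_lit 0x41) (nat_lit 1) (p (nat_lit 0x89080787089a) (nat_lit 0) (p (nat_lit 0x88878706861a) (nat_lit 0) (p (nat_lit 0x80000000080686078a) (nat_lit 0) (p (nat_lit 0x80000000078605850a) (nat_lit 0) (p (nat_lit 0x8605850682) (nat_lit 0) (p (nat_lit 0x8585048402) (nat_lit 0) (p (nat_lit 0x160014) (nat_lit 0) (p (nat_lit 0x160004) (nat_lit 0) (p (nat_lit 0x60592) (nat_lit 0) (p (nat_lit 0x48512) (nat_lit 0) (p (nat_lit 0x50392) (nat_lit 0) (p (nat_lit 0x38312) (nat_lit 0) (p (nat_lit 0x40212) (nat_lit 0) (p (nat_lit 0x28192) (nat_lit 0) (p (nat_lit 0x30092) (nat_lit 0) (p (nat_lit 0x18012) (nat_lit 0) pn)))))))))))))))))) :=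
  Cl.node (nat_lit 0xc1) (nat_lit 2) (by decide +kernel) (ClAll.succ (ClAll.succ ClAll.zero n242) n243)

def n248 : Cl (O (nat_lit 2)) (R (nat_lit 135377))
    (p (nat_lit 0x41) (nat_lit 0) (p (nat_lit 0x89080787089a) (nat_lit 0) (p (nat_lit 0x88878706861a) (nat_lit 0) (p (nat_lit 0x80000000080686078a) (nat_lit 0) (p (nat_lit 0x80000000078605850a) (nat_lit 0) (p (nat_lit 0x8605850682) (nat_lit 0) (p (nat_lit 0x8585048402) (nat_lit 0) (p (nat_lit 0x160014) (nat_lit 0) (p (nat_lit 0x160004) (nat_lit 0) (p (nat_lit 0x60592) (nat_lit 0) (p (nat_lit 0x48512) (nat_lit 0) (p (nat_lit 0x50392) (nat_lit 0) (p (nat_lit 0x38312) (nat_lit 0) (p (nat_lit 0x40212) (nat_lit 0) (p (nat_lit 0x28192) (nat_lit 0) (p (nat_lit 0x30092) (nat_lit 0) (p (nat_lit 0x18012) (nat_lit 0) pn))))))))))))))))) :=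
  Cl.node (nat_lit 0x89) (nat_lit 2) (by decide +kernel) (ClAll.succ (ClAll.succ ClAll.zero n244) n245)

def n249 : Cl (O (nat_lit 2)) (R (nat_lit 135377))
    (p (nat_lit 0x41) (nat_lit 1) (p (nat_lit 0x89080787089a) (nat_lit 0) (p (nat_lit 0x88878706861a) (nat_lit 0) (p (nat_lit 0x80000000080686078a) (nat_lit 0) (p (nat_lit 0x80000000078605850a) (nat_lit 0) (p (nat_lit 0x8605850682) (nat_lit 0) (p (nat_lit 0x8585048402) (nat_lit 0) (p (nat_lit 0x160014) (nat_lit 0) (p (nat_lit 0x160004) (nat_lit 0) (p (nat_lit 0x60592) (nat_lit 0) (p (nat_lit 0x48512) (nat_lit 0) (p (nat_lit 0x50392) (nat_lit 0) (p (nat_lit 0x38312) (nat_lit 0) (p (nat_lit 0x40212) (nat_lit 0) (p (nat_lit 0x28192) (nat_lit 0) (p (nat_lit 0x30092) (nat_lit 0) (p (nat_lit 0x18012) (nat_lit 0) pn))))))))))))))))) :=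
  Cl.node (nat_lit 0x81) (nat_lit 2) (by decide +kernel) (ClAll.succ (ClAll.succ ClAll.zero n246) n247)

def n250 : Cl (O (nat_lit 2)) (R (nat_lit 135377))
    (p (nat_lit 0x89080787089a) (nat_lit 0) (p (nat_lit 0x88878706861a) (nat_lit 0) (p (nat_lit 0x80000000080686078a) (nat_lit 0) (p (nat_lit 0x80000000078605850a) (nat_lit 0) (p (nat_lit 0x8605850682) (nat_lit 0) (p (nat_lit 0x8585048402) (nat_lit 0) (p (nat_lit 0x160014) (nat_lit 0) (p (nat_lit 0x160004) (nat_lit 0) (p (nat_lit 0x60592) (nat_lit 0) (p (nat_lit 0x48512) (nat_lit 0) (p (nat_lit 0x50392) (nat_lit 0) (p (nat_lit 0x38312) (nat_lit 0) (p (nat_lit 0x40212) (nat_lit 0) (p (nat_lit 0x28192) (nat_lit 0) (p (nat_lit 0x30092) (nat_lit 0) (p (nat_lit 0x18012) (nat_lit 0) pn)))))))))))))))) :=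
  Cl.node (nat_lit 0x41) (nat_lit 2) (by decide +kernel) (ClAll.succ (ClAll.succ ClAll.zero n248) n249)

def n251 : Cl (O (nat_lit 2)) (R (nat_lit 135377))
    (p (nat_lit 0x88878706861a) (nat_lit 0) (p (nat_lit 0x80000000080686078a) (nat_lit 0) (p (nat_lit 0x80000000078605850a) (nat_lit 0) (p (nat_lit 0x8605850682) (nat_lit 0) (p (nat_lit 0x8585048402) (nat_lit 0) (p (nat_lit 0x160014) (nat_lit 0) (p (nat_lit 0x160004) (nat_lit 0) (p (nat_lit 0x60592) (nat_lit 0) (p (nat_lit 0x48512) (nat_lit 0) (p (nat_lit 0x50392) (nat_lit 0) (p (nat_lit 0x38312) (nat_lit 0) (p (nat_lit 0x40212) (nat_lit 0) (p (nat_lit 0x28192) (nat_lit 0) (p (nat_lit 0x30092) (nat_lit 0) (p (nat_lit 0x18012) (nat_lit 0) pn))))))))))))))) :=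
  Cl.node (nat_lit 0x89080787089a) (nat_lit 1) (by decide +kernel) (ClAll.succ ClAll.zero n250)

def n252 : Cl (O (nat_lit 2)) (R (nat_lit 135377))
    (p (nat_lit 0x80000000080686078a) (nat_lit 0) (p (nat_lit 0x80000000078605850a) (nat_lit 0) (p (nat_lit 0x8605850682) (nat_lit 0) (p (nat_lit 0x8585048402) (nat_lit 0) (p (nat_lit 0x160014) (nat_lit 0) (p (nat_lit 0x160004) (nat_lit 0) (p (nat_lit 0x60592) (nat_lit 0) (p (nat_lit 0x48512) (nat_lit 0) (p (nat_lit 0x50392) (nat_lit 0) (p (nat_lit 0x38312) (nat_lit 0) (p (nat_lit 0x40212) (nat_lit 0) (p (nat_lit 0x28192) (nat_lit 0) (p (nat_lit 0x30092) (nat_lit 0) (p (nat_lit 0x18012) (nat_lit 0) pn)))))))))))))) :=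
  Cl.node (nat_lit 0x88878706861a) (nat_lit 1) (by decide +kernel) (ClAll.succ ClAll.zero n251)

def n253 : Cl (O (nat_lit 2)) (R (nat_lit 135377))
    (p (nat_lit 0x80000000078605850a) (nat_lit 0) (p (nat_lit 0x8605850682) (nat_lit 0) (p (nat_lit 0x8585048402) (nat_lit 0) (p (nat_lit 0x160014) (nat_lit 0) (p (nat_lit 0x160004) (nat_lit 0) (p (nat_lit 0x60592) (nat_lit 0) (p (nat_lit 0x48512) (nat_lit 0) (p (nat_lit 0x50392) (nat_lit 0) (p (nat_lit 0x38312) (nat_lit 0) (p (nat_lit 0x40212) (nat_lit 0) (p (nat_lit 0x28192) (nat_lit 0) (p (nat_lit 0x30092) (nat_lit 0) (p (nat_lit 0x18012) (nat_lit 0) pn))))))))))))) :=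
  Cl.node (nat_lit 0x80000000080686078a) (nat_lit 1) (by decide +kernel) (ClAll.succ ClAll.zero n252)

def n254 : Cl (O (nat_lit 2)) (R (nat_lit 135377))
    (p (nat_lit 0x8605850682) (nat_lit 0) (p (nat_lit 0x8585048402) (nat_lit 0) (p (nat_lit 0x160014) (nat_lit 0) (p (nat_lit 0x160004) (nat_lit 0) (p (nat_lit 0x60592) (nat_lit 0) (p (nat_lit 0x48512) (nat_lit 0) (p (nat_lit 0x50392) (nat_lit 0) (p (nat_lit 0x38312) (nat_lit 0) (p (nat_lit 0x40212) (nat_lit 0) (p (nat_lit 0x28192) (nat_lit 0) (p (nat_lit 0x30092) (nat_lit 0) (p (nat_lit 0x18012) (nat_lit 0) pn)))))))))))) :=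
  Cl.node (nat_lit 0x80000000078605850a) (nat_lit 1) (by decide +kernel) (ClAll.succ ClAll.zero n253)

def n255 : Cl (O (nat_lit 2)) (R (nat_lit 135377))
    (p (nat_lit 0x8585048402) (nat_lit 0) (p (nat_lit 0x160014) (nat_lit 0) (p (nat_lit 0x160004) (nat_lit 0) (p (nat_lit 0x60592) (nat_lit 0) (p (nat_lit 0x48512) (nat_lit 0) (p (nat_lit 0x50392) (nat_lit 0) (p (nat_lit 0x38312) (nat_lit 0) (p (nat_lit 0x40212) (nat_lit 0) (p (nat_lit 0x28192) (nat_lit 0) (p (nat_lit 0x30092) (nat_lit 0) (p (nat_lit 0x18012) (nat_lit 0) pn))))))))))) :=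
  Cl.node (nat_lit 0x8605850682) (nat_lit 1) (by decide +kernel) (ClAll.succ ClAll.zero n254)

def n256 : Cl (O (nat_lit 2)) (R (nat_lit 135377))
    (p (nat_lit 0x160014) (nat_lit 0) (p (nat_lit 0x160004) (nat_lit 0) (p (nat_lit 0x60592) (nat_lit 0) (p (nat_lit 0x48512) (nat_lit 0) (p (nat_lit 0x50392) (nat_lit 0) (p (nat_lit 0x38312) (nat_lit 0) (p (nat_lit 0x40212) (nat_lit 0) (p (nat_lit 0x28192) (nat_lit 0) (p (nat_lit 0x30092) (nat_lit 0) (p (nat_lit 0x18012) (nat_lit 0) pn)))))))))) :=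
  Cl.node (nat_lit 0x8585048402) (nat_lit 1) (by decide +kernel) (ClAll.succ ClAll.zero n255)

def n257 : Cl (O (nat_lit 2)) (R (nat_lit 135377))
    (p (nat_lit 0x160004) (nat_lit 0) (p (nat_lit 0x60592) (nat_lit 0) (p (nat_lit 0x48512) (nat_lit 0) (p (nat_lit 0x50392) (nat_lit 0) (p (nat_lit 0x38312) (nat_lit 0) (p (nat_lit 0x40212) (nat_lit 0) (p (nat_lit 0x28192) (nat_lit 0) (p (nat_lit 0x30092) (nat_lit 0) (p (nat_lit 0x18012) (nat_lit 0) pn))))))))) :=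
  Cl.node (nat_lit 0x160014) (nat_lit 2) (by decide +kernel) (ClAll.succ (ClAll.succ ClAll.zero n256) s240)

def n258 : Cl (O (nat_lit 2)) (R (nat_lit 135377))
    (p (nat_lit 0x60592) (nat_lit 0) (p (nat_lit 0x48512) (nat_lit 0) (p (nat_lit 0x50392) (nat_lit 0) (p (nat_lit 0x38312) (nat_lit 0) (p (nat_lit 0x40212) (nat_lit 0) (p (nat_lit 0x28192) (nat_lit 0) (p (nat_lit 0x30092) (nat_lit 0) (p (nat_lit 0x18012) (nat_lit 0) pn)))))))) :=
  Cl.node (nat_lit 0x160004) (nat_lit 2) (by decide +kernel) (ClAll.succ (ClAll.succ ClAll.zero n257) s241)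

def n259 : Cl (O (nat_lit 2)) (R (nat_lit 135377))
    (p (nat_lit 0x48512) (nat_lit 0) (p (nat_lit 0x50392) (nat_lit 0) (p (nat_lit 0x38312) (nat_lit 0) (p (nat_lit 0x40212) (nat_lit 0) (p (nat_lit 0x28192) (nat_lit 0) (p (nat_lit 0x30092) (nat_lit 0) (p (nat_lit 0x18012) (nat_lit 0) pn))))))) :=
  Cl.node (nat_lit 0x60592) (nat_lit 1) (by decide +kernel) (ClAll.succ ClAll.zero n258)

def n260 : Cl (O (nat_lit 2)) (R (nat_lit 135377))
    (p (nat_lit 0x50392) (nat_lit 0) (p (nat_lit 0x38312) (nat_lit 0) (p (nat_lit 0x40212) (nat_lit 0) (p (nat_lit 0x28192) (nat_lit 0) (p (nat_lit 0x30092) (nat_lit 0) (p (nat_lit 0x18012) (nat_lit 0) pn)))))) :=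
  Cl.node (nat_lit 0x48512) (nat_lit 1) (by decide +kernel) (ClAll.succ ClAll.zero n259)

def n261 : Cl (O (nat_lit 2)) (R (nat_lit 135377))
    (p (nat_lit 0x38312) (nat_lit 0) (p (nat_lit 0x40212) (nat_lit 0) (p (nat_lit 0x28192) (nat_lit 0) (p (nat_lit 0x30092) (nat_lit 0) (p (nat_lit 0x18012) (nat_lit 0) pn))))) :=
  Cl.node (nat_lit 0x50392) (nat_lit 1) (by decide +kernel) (ClAll.succ ClAll.zero n260)

def n262 : Cl (O (nat_lit 2)) (R (nat_lit 135377))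
    (p (nat_lit 0x40212) (nat_lit 0) (p (nat_lit 0x28192) (nat_lit 0) (p (nat_lit 0x30092) (nat_lit 0) (p (nat_lit 0x18012) (nat_lit 0) pn)))) :=
  Cl.node (nat_lit 0x38312) (nat_lit 1) (by decide +kernel) (ClAll.succ ClAll.zero n261)

def n263 : Cl (O (nat_lit 2)) (R (nat_lit 135377))
    (p (nat_lit 0x28192) (nat_lit 0) (p (nat_lit 0x30092) (nat_lit 0) (p (nat_lit 0x18012) (nat_lit 0) pn))) :=
  Cl.node (nat_lit 0x40212) (nat_lit 1) (by decide +kernel) (ClAll.succ ClAll.zero n262)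

def n264 : Cl (O (nat_lit 2)) (R (nat_lit 135377))
    (p (nat_lit 0x30092) (nat_lit 0) (p (nat_lit 0x18012) (nat_lit 0) pn)) :=
  Cl.node (nat_lit 0x28192) (nat_lit 1) (by decide +kernel) (ClAll.succ ClAll.zero n263)

def n265 : Cl (O (nat_lit 2)) (R (nat_lit 135377))
    (p (nat_lit 0x18012) (nat_lit 0) pn) :=
  Cl.node (nat_lit 0x30092) (nat_lit 1) (by decide +kernel) (ClAll.succ ClAll.zero n264)

def n266 : Cl (O (nat_lit 2)) (R (nat_lit 135377))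
    pn :=
  Cl.node (nat_lit 0x18012) (nat_lit 1) (by decide +kernel) (ClAll.succ ClAll.zero n265)

theorem top : Cl (O (nat_lit 2)) (R (nat_lit 135377)) pn := n266

end Pool.Agent.Gen.F5.X123C1Dm2
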